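import Pool.Agent.Lib.MP_efa98f_al.CKData

namespace Pool.Agent.Lib.MP_efa98f_al

open Matrix

/-- The five block factors, in an arbitrary ring of blocks. -/
theorem five_claims {S : Type*} [Ring S] (K Ki Kh Khi ρ Z C : S)
    (hKi : Ki * K = 1) (h3 : Kh * Khi = 1)
    (h1 : K = 1 + Z * ρ) (h2 : Kh = 1 + ρ * Z) (h4 : K * C = Kh) :
    Kh * (Khi * (1 - ρ)) + ρ = 1 ∧
    -(1 + Z * (Khi * (1 - ρ))) * Kh + Z = -C := by
  have e1 : Kh * (Khi * (1 - ρ)) = 1 - ρ := by rw [← mul_assoc, h3, one_mul]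
  refine ⟨by rw [e1]; abel, ?_⟩
  have e2 : K * Z = Z * Kh := by rw [h1, h2]; noncomm_ring
  have e3 : K * Z * Khi = Z := by rw [e2, mul_assoc, h3, mul_one]
  have e4 : K * (-(1 + Z * (Khi * (1 - ρ))) * Kh + Z) = K * (-C) := by
    rw [mul_neg, h4]
    have : K * (-(1 + Z * (Khi * (1 - ρ))) * Kh + Z) =
        -(K * Kh) - (K * Z * Khi) * (1 - ρ) * Kh + K * Z := by noncomm_ring
    rw [this, e3, e2]
    have h5 : K * Kh = Kh + Z * ρ * Kh := by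
      conv_lhs => rw [h1]
      noncomm_ring
    rw [h5]
    noncomm_ring
  calc -(1 + Z * (Khi * (1 - ρ))) * Kh + Z
      = Ki * K * (-(1 + Z * (Khi * (1 - ρ))) * Kh + Z) := by rw [hKi, one_mul]
    _ = Ki * (K * (-(1 + Z * (Khi * (1 - ρ))) * Kh + Z)) := by rw [mul_assoc]
    _ = Ki * (K * (-C)) := by rw [e4]
    _ = -C := by rw [← mul_assoc, hKi, one_mul]

theorem five_block (K Ki Kh Khi ρ Z C : M2)
    (hKi : Ki * K = 1) (h3 : Kh * Khi = 1)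
    (h1 : K = 1 + Z * ρ) (h2 : Kh = 1 + ρ * Z) (h4 : K * C = Kh) :
    b4 0 1 (-C) 0 = b4 1 0 (-(1 + Z * (Khi * (1 - ρ)))) 1 * b4 1 ρ 0 1 * b4 1 0 Z 1 *
      b4 1 (Khi * (1 - ρ)) 0 1 * b4 1 0 (-Kh) 1 := by
  obtain ⟨c1, c2⟩ := five_claims K Ki Kh Khi ρ Z C hKi h3 h1 h2 h4
  obtain ⟨x4, hx4⟩ : ∃ x4, x4 = Khi * (1 - ρ) := ⟨_, rfl⟩
  obtain ⟨y, hy⟩ : ∃ y, y = -(1 + Z * x4) := ⟨_, rfl⟩
  rw [← hx4] at c1 c2 ⊢
  rw [← hy] at c2 ⊢
  have s1 : b4 1 0 y 1 * b4 1 ρ 0 1 * b4 1 0 Z 1 = b4 Kh ρ (y * Kh + Z) (y * ρ + 1) := by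
    rw [b4_mul, b4_mul, h2]
    congr 1
    · noncomm_ring
    · noncomm_ring
    · noncomm_ring
    · noncomm_ring
  have s2 : b4 Kh ρ (y * Kh + Z) (y * ρ + 1) * b4 1 x4 0 1 = b4 Kh 1 (y * Kh + Z) 0 := by
    rw [b4_mul]
    congr 1
    · noncomm_ring
    · rw [mul_one, c1]
    · noncomm_ring
    · have : (y * Kh + Z) * x4 + (y * ρ + 1) * 1 = y * (Kh * x4 + ρ) + (1 + Z * x4) := by
        noncomm_ring
      rw [this, c1, hy]; noncomm_ring
  rw [s1, s2, b4_mul, c2]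
  congr 1
  · noncomm_ring
  · noncomm_ring
  · noncomm_ring
  · noncomm_ring

/-- The unit trick. -/
theorem antidiag_word (a b c d t f g : ℤ) (hdet : a*d - b*c = 1)
    (hn : f^2 + t*f*g + c*g^2 = 1) (hf : c ∣ f - a) :
    ∃ X1 X2 X3 X4 X5 : M2,
      b4 0 1 (-(!![a, b; c, d] * ll (d-t-1) * uu 1 * ll (t+a-1))) 0 =
        b4 1 0 X1 1 * b4 1 X2 0 1 * b4 1 0 X3 1 * b4 1 X4 0 1 * b4 1 0 X5 1 := by
  obtain ⟨φ, hφ⟩ := hf
  have hfa : f = a + c * φ := by linear_combination hφ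
  obtain ⟨z1, hz1⟩ : ∃ z1, z1 = b + φ * d + g := ⟨_, rfl⟩
  obtain ⟨z3, hz3⟩ : ∃ z3, z3 = g * d - (f + g * t) := ⟨_, rfl⟩
  obtain ⟨k2, hk2⟩ : ∃ k2, k2 = -(f * b + g * a) := ⟨_, rfl⟩
  obtain ⟨k4, hk4⟩ : ∃ k4, k4 = a * (f + g * t) - g * b * c := ⟨_, rfl⟩
  have key := five_block
    (!![f*d+g*c, k2; c * z3, k4]) (!![k4, -k2; -(c * z3), f*d+g*c])
    (!![k4 - z3 * t, -z3; c*(z1*t-k2) + t*(z3*t-k4+1), 1 + c*z1 + t*z3])
    (!![1 + c*z1 + t*z3, z3; -(c*(z1*t-k2) + t*(z3*t-k4+1)), k4 - z3 * t])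
    (!![0, -1; c, t]) (!![z1*t - k2, z1; z3*t - k4 + 1, z3])
    (!![a, b; c, d] * ll (d-t-1) * uu 1 * ll (t+a-1)) ?_ ?_ ?_ ?_ ?_
  · exact ⟨_, _, _, _, _, key⟩
  · subst hz3 hk2 hk4
    apply M2_ext
    · simp [Matrix.mul_apply, Fin.sum_univ_two]
      linear_combination (a*d - b*c) * hn + hdet
    · simp [Matrix.mul_apply, Fin.sum_univ_two]; ring
    · simp [Matrix.mul_apply, Fin.sum_univ_two]; ring
    · simp [Matrix.mul_apply, Fin.sum_univ_two]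
      linear_combination (a*d - b*c) * hn + hdet
  · have hdK : (k4 - z3 * t) * (1 + c*z1 + t*z3) + z3 * (c*(z1*t-k2) + t*(z3*t-k4+1)) = 1 := by
      subst hz1 hz3 hk2 hk4
      subst hfa
      linear_combination (a*d - b*c) * hn + hdet -
        (a * ((a + c * φ) + g * t) - g * b * c) * hdet
    apply M2_ext
    · simp [Matrix.mul_apply, Fin.sum_univ_two]
      linear_combination hdK
    · simp [Matrix.mul_apply, Fin.sum_univ_two]; ring
    · simp [Matrix.mul_apply, Fin.sum_univ_two]; ring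
    · simp [Matrix.mul_apply, Fin.sum_univ_two]
      linear_combination hdK
  · apply M2_ext
    · simp [Matrix.mul_apply, Fin.sum_univ_two]
      subst hz1 hfa
      linear_combination hdet
    · simp [Matrix.mul_apply, Fin.sum_univ_two]
    · simp [Matrix.mul_apply, Fin.sum_univ_two]; ring
    · simp [Matrix.mul_apply, Fin.sum_univ_two]; ring
  · apply M2_ext
    · simp [Matrix.mul_apply, Fin.sum_univ_two]
    · simp [Matrix.mul_apply, Fin.sum_univ_two]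
    · simp [Matrix.mul_apply, Fin.sum_univ_two]
    · simp [Matrix.mul_apply, Fin.sum_univ_two]; ring
  · have hcz : c * z1 = b*c + (f - a)*d + g*c := by rw [hz1, hfa]; ring
    subst hz3 hk2 hk4
    apply M2_ext
    · simp [Matrix.mul_apply, Fin.sum_univ_two]
      linear_combination (f*(t+a) - g*((d-t)*(t+a)-1) - g) * hdet
    · simp [Matrix.mul_apply, Fin.sum_univ_two]
      linear_combination (f - g*(d-t)) * hdet
    · simp [Matrix.mul_apply, Fin.sum_univ_two]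
      linear_combination (g*c*(t+a) + (f+g*t)*((d-t)*(t+a)-1) + f + g*t + t) * hdet - t * hcz
    · simp [Matrix.mul_apply, Fin.sum_univ_two]
      linear_combination (g*c + (f+g*t)*(d-t) + 1) * hdet - hcz

end Pool.Agent.Lib.MP_efa98f_al
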