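import Mathlib

namespace Pool.Agent.Lib.MP_efa98f_al

open Matrix

/-- The 2x2 integer matrices. -/
abbrev M2 := Matrix (Fin 2) (Fin 2) ℤ

/-- The `4×4` matrix with the four given `2×2` blocks. -/
def b4 (A B C D : M2) : Matrix (Fin 4) (Fin 4) ℤ :=
  !![A 0 0, A 0 1, B 0 0, B 0 1;
     A 1 0, A 1 1, B 1 0, B 1 1;
     C 0 0, C 0 1, D 0 0, D 0 1;
     C 1 0, C 1 1, D 1 0, D 1 1]

theorem b4_mul (A B C D A' B' C' D' : M2) :
    b4 A B C D * b4 A' B' C' D' =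
      b4 (A * A' + B * C') (A * B' + B * D') (C * A' + D * C') (C * B' + D * D') := by
  ext i j
  fin_cases i <;> fin_cases j <;>
    simp [b4, Matrix.mul_apply, Fin.sum_univ_four, Fin.sum_univ_two] <;> ring

theorem b4_one : b4 1 0 0 1 = 1 := by
  ext i j
  fin_cases i <;> fin_cases j <;> simp [b4]

/-- The block identity, in an arbitrary ring of blocks. -/
theorem block_claims {S : Type*} [Ring S] (κ : ℤ)
    (hκ : ∀ X Y : S, κ • X = κ • Y → X = Y)
    (B1 B1i B1' q0 B2 B2i B2' B2i' x' x3 y2 y4 x1 η : S)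
    (hB1 : B1i * B1 = 1) (hq0 : B1' * q0 = 1) (hq0' : q0 * B1' = 1)
    (hB2 : B2 * B2i = 1) (hB2i' : B2i' * B2' = 1)
    (hii1 : x' * y2 = 1 - κ • B1i) (hii2 : y2 * x' = 1 - κ • q0)
    (hii3 : x3 * y4 = 1 - κ • B2) (hii4 : y4 * x3 = 1 - κ • B2')
    (hiii1 : κ • x1 = (x3 - x') * B1') (hiii2 : κ • η = y2 - y4) :
    (x' + x1 * (1 - y2 * x') = x3) ∧ (1 - x1 * y2 + x3 * (η * B1) = B2 * B1) ∧
    (- y2 + κ • (q0 * (η * B1)) = - (q0 * y4 * B1)) ∧
    (κ • q0 + q0 * y4 * B2i * x3 = q0 * B2i') := by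
  have hi1 : y2 * B1 = B1' * y2 := by
    have e0 : κ • (y2 * B1i) = κ • (q0 * y2) := by
      have : y2 * (x' * y2) = (y2 * x') * y2 := by noncomm_ring
      rw [hii1, hii2, mul_sub, sub_mul, mul_smul_comm, smul_mul_assoc] at this
      simpa using this
    have e1 := hκ _ _ e0
    calc y2 * B1 = B1' * (q0 * y2) * B1 := by rw [← mul_assoc B1', hq0, one_mul]
      _ = B1' * (y2 * B1i) * B1 := by rw [e1]
      _ = B1' * y2 * (B1i * B1) := by noncomm_ring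
      _ = B1' * y2 := by rw [hB1, mul_one]
  have hi2 : y4 * B2 = B2' * y4 := by
    have e0 : κ • (y4 * B2) = κ • (B2' * y4) := by
      have : y4 * (x3 * y4) = (y4 * x3) * y4 := by noncomm_ring
      rw [hii3, hii4, mul_sub, sub_mul, mul_smul_comm, smul_mul_assoc] at this
      simpa using this
    exact hκ _ _ e0
  refine ⟨?_, ?_, ?_, ?_⟩
  · rw [hii2, sub_sub_cancel, mul_smul_comm, ← smul_mul_assoc, hiii1, mul_assoc, hq0, mul_one]
    abel
  · apply hκ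
    have e1 : κ • (1 - x1 * y2 + x3 * (η * B1)) =
        κ • (1 : S) - (κ • x1) * y2 + x3 * ((κ • η) * B1) := by
      simp only [smul_add, smul_sub, smul_mul_assoc, mul_smul_comm]
    rw [e1, hiii1, hiii2]
    have e2 : (x3 - x') * B1' * y2 = x3 * (y2 * B1) - (x' * y2) * B1 := by
      rw [mul_assoc, ← hi1]; noncomm_ring
    rw [e2, hii1]
    have e3 : x3 * ((y2 - y4) * B1) = x3 * (y2 * B1) - (x3 * y4) * B1 := by noncomm_ring
    rw [e3, hii3]
    have e4 : (1 - κ • B1i) * B1 = B1 - κ • (1 : S) := by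
      rw [sub_mul, smul_mul_assoc, hB1, one_mul]
    rw [e4, sub_mul, one_mul, smul_mul_assoc]
    abel
  · have e1 : κ • (q0 * (η * B1)) = q0 * ((κ • η) * B1) := by
      simp only [smul_mul_assoc, mul_smul_comm]
    rw [e1, hiii2]
    have e2 : q0 * ((y2 - y4) * B1) = q0 * (y2 * B1) - q0 * y4 * B1 := by noncomm_ring
    rw [e2, hi1, ← mul_assoc, hq0', one_mul]
    abel
  · have e1 : y4 * B2i = B2i' * y4 := by
      calc y4 * B2i = (B2i' * B2') * y4 * B2i := by rw [hB2i', one_mul]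
        _ = B2i' * (B2' * y4) * B2i := by noncomm_ring
        _ = B2i' * (y4 * B2) * B2i := by rw [hi2]
        _ = B2i' * y4 * (B2 * B2i) := by noncomm_ring
        _ = B2i' * y4 := by rw [hB2, mul_one]
    have e2 : q0 * y4 * B2i * x3 = q0 * B2i' * (y4 * x3) := by
      calc q0 * y4 * B2i * x3 = q0 * (y4 * B2i) * x3 := by noncomm_ring
        _ = q0 * (B2i' * y4) * x3 := by rw [e1]
        _ = q0 * B2i' * (y4 * x3) := by noncomm_ring
    rw [e2, hii4, mul_sub, mul_one, mul_smul_comm]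
    have e3 : q0 * B2i' * B2' = q0 := by rw [mul_assoc, hB2i', mul_one]
    rw [e3]
    abel

/-- The block identity for `4×4` matrices. -/
theorem block_identity (κ : ℤ) (hκ : κ ≠ 0)
    (B1 B1i B1' q0 B2 B2i B2' B2i' x' x3 y2 y4 x1 η : M2)
    (hB1 : B1i * B1 = 1) (hB1r : B1 * B1i = 1) (hq0 : B1' * q0 = 1) (hq0' : q0 * B1' = 1)
    (hB2 : B2 * B2i = 1) (hB2i' : B2i' * B2' = 1)
    (hii1 : x' * y2 = 1 - κ • B1i) (hii2 : y2 * x' = 1 - κ • q0)
    (hii3 : x3 * y4 = 1 - κ • B2) (hii4 : y4 * x3 = 1 - κ • B2')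
    (hiii1 : κ • x1 = (x3 - x') * B1') (hiii2 : κ • η = y2 - y4) :
    b4 (B2 * B1) 0 0 (q0 * B2i') =
      b4 1 x1 0 1 * b4 1 0 (- y2) 1 * b4 1 x' 0 1 * b4 1 0 (η * B1) 1 *
        b4 1 (-(B1i * B2i * x3)) 0 1 * b4 1 0 (B2' * y4 * B1) 1 := by
  have hκ' : ∀ X Y : M2, κ • X = κ • Y → X = Y := by
    intro X Y h
    ext i j
    have := congrFun (congrFun h i) j
    simpa [hκ] using this
  obtain ⟨c2, c3, c4, c5⟩ := block_claims κ hκ' B1 B1i B1' q0 B2 B2i B2' B2i' x' x3 y2 y4 x1 η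
    hB1 hq0 hq0' hB2 hB2i' hii1 hii2 hii3 hii4 hiii1 hiii2
  have s1 : b4 1 x1 0 1 * b4 1 0 (- y2) 1 * b4 1 x' 0 1 = b4 (1 - x1 * y2) x3 (- y2) (κ • q0) := by
    rw [b4_mul, b4_mul]
    congr 1
    · noncomm_ring
    · rw [← c2]; noncomm_ring
    · noncomm_ring
    · have : 1 - y2 * x' = κ • q0 := by rw [hii2]; abel
      rw [← this]; noncomm_ring
  have s2 : b4 (1 - x1 * y2) x3 (- y2) (κ • q0) * b4 1 0 (η * B1) 1 =
      b4 (B2 * B1) x3 (-(q0 * y4 * B1)) (κ • q0) := by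
    rw [b4_mul]
    congr 1
    · rw [← c3]; noncomm_ring
    · noncomm_ring
    · rw [← c4, mul_one, smul_mul_assoc]
    · noncomm_ring
  have s3 : b4 (B2 * B1) x3 (-(q0 * y4 * B1)) (κ • q0) * b4 1 (-(B1i * B2i * x3)) 0 1 =
      b4 (B2 * B1) 0 (-(q0 * y4 * B1)) (q0 * B2i') := by
    rw [b4_mul]
    congr 1
    · noncomm_ring
    · have : B2 * B1 * (-(B1i * B2i * x3)) = - (B2 * (B1 * B1i) * B2i * x3) := by noncomm_ring
      rw [this, hB1r, mul_one, hB2]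
      noncomm_ring
    · noncomm_ring
    · have : -(q0 * y4 * B1) * (-(B1i * B2i * x3)) = q0 * y4 * (B1 * B1i) * B2i * x3 := by
        noncomm_ring
      rw [this, hB1r, mul_one, ← c5]
      noncomm_ring
  have s4 : b4 (B2 * B1) 0 (-(q0 * y4 * B1)) (q0 * B2i') * b4 1 0 (B2' * y4 * B1) 1 =
      b4 (B2 * B1) 0 0 (q0 * B2i') := by
    rw [b4_mul]
    congr 1
    · noncomm_ring
    · noncomm_ring
    · have : q0 * B2i' * (B2' * y4 * B1) = q0 * (B2i' * B2') * y4 * B1 := by noncomm_ring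
      rw [this, hB2i']
      noncomm_ring
    · noncomm_ring
  rw [s1, s2, s3, s4]

end Pool.Agent.Lib.MP_efa98f_al
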