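import Mathlib

namespace Pool.Agent.Lib.MP_efa98f_al

open Matrix

/-- `SL(n,ℤ)`. -/
abbrev SLn (n : ℕ) := Matrix.SpecialLinearGroup (Fin n) ℤ

/-- The upper unitriangular matrices in `SL(n,ℤ)`, as a submonoid. -/
def Up (n : ℕ) : Submonoid (SLn n) where
  carrier := {g | (∀ i, g.1 i i = 1) ∧ ∀ i j, j < i → g.1 i j = 0}
  mul_mem' := by
    rintro g h ⟨hg1, hg2⟩ ⟨hh1, hh2⟩
    refine ⟨fun i => ?_, fun i j hij => ?_⟩
    · change (g.1 * h.1) i i = 1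
      rw [Matrix.mul_apply, Finset.sum_eq_single i]
      · rw [hg1, hh1, one_mul]
      · intro k _ hk
        rcases lt_or_gt_of_ne hk with h' | h'
        · rw [hg2 i k h', zero_mul]
        · rw [hh2 k i h', mul_zero]
      · intro h'; exact absurd (Finset.mem_univ _) h'
    · change (g.1 * h.1) i j = 0
      rw [Matrix.mul_apply]
      refine Finset.sum_eq_zero fun k _ => ?_
      rcases lt_or_ge k i with h' | h'
      · rw [hg2 i k h', zero_mul]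
      · rw [hh2 k j (lt_of_lt_of_le hij h'), mul_zero]
  one_mem' := by
    refine ⟨fun i => ?_, fun i j hij => ?_⟩
    · change (1 : Matrix (Fin n) (Fin n) ℤ) i i = 1
      simp
    · change (1 : Matrix (Fin n) (Fin n) ℤ) i j = 0
      exact Matrix.one_apply_ne hij.ne'

/-- The lower unitriangular matrices in `SL(n,ℤ)`, as a submonoid. -/
def Lo (n : ℕ) : Submonoid (SLn n) where
  carrier := {g | (∀ i, g.1 i i = 1) ∧ ∀ i j, i < j → g.1 i j = 0}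
  mul_mem' := by
    rintro g h ⟨hg1, hg2⟩ ⟨hh1, hh2⟩
    refine ⟨fun i => ?_, fun i j hij => ?_⟩
    · change (g.1 * h.1) i i = 1
      rw [Matrix.mul_apply, Finset.sum_eq_single i]
      · rw [hg1, hh1, one_mul]
      · intro k _ hk
        rcases lt_or_gt_of_ne hk with h' | h'
        · rw [hh2 k i h', mul_zero]
        · rw [hg2 i k h', zero_mul]
      · intro h'; exact absurd (Finset.mem_univ _) h'
    · change (g.1 * h.1) i j = 0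
      rw [Matrix.mul_apply]
      refine Finset.sum_eq_zero fun k _ => ?_
      rcases lt_or_ge i k with h' | h'
      · rw [hg2 i k h', zero_mul]
      · rw [hh2 k j (lt_of_le_of_lt h' hij), mul_zero]
  one_mem' := by
    refine ⟨fun i => ?_, fun i j hij => ?_⟩
    · change (1 : Matrix (Fin n) (Fin n) ℤ) i i = 1
      simp
    · change (1 : Matrix (Fin n) (Fin n) ℤ) i j = 0
      exact Matrix.one_apply_ne hij.ne

theorem mem_Up {n : ℕ} {g : SLn n} :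
    g ∈ Up n ↔ (∀ i, g.1 i i = 1) ∧ ∀ i j, j < i → g.1 i j = 0 := Iff.rfl

theorem mem_Lo {n : ℕ} {g : SLn n} :
    g ∈ Lo n ↔ (∀ i, g.1 i i = 1) ∧ ∀ i j, i < j → g.1 i j = 0 := Iff.rfl

/-- Being a product of six factors, alternately from `U` and from `L`. -/
def SixIn {G : Type*} [Group G] (U L : Submonoid G) (g : G) : Prop :=
  ∃ u1 ∈ U, ∃ l1 ∈ L, ∃ u2 ∈ U, ∃ l2 ∈ L, ∃ u3 ∈ U, ∃ l3 ∈ L,
    g = u1 * l1 * u2 * l2 * u3 * l3

theorem SixIn.mul_left {G : Type*} [Group G] {U L : Submonoid G} {g u : G} (hu : u ∈ U)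
    (h : SixIn U L g) : SixIn U L (u * g) := by
  obtain ⟨u1, hu1, l1, hl1, u2, hu2, l2, hl2, u3, hu3, l3, hl3, rfl⟩ := h
  exact ⟨u * u1, U.mul_mem hu hu1, l1, hl1, u2, hu2, l2, hl2, u3, hu3, l3, hl3,
    by simp only [mul_assoc]⟩

theorem SixIn.mul_right {G : Type*} [Group G] {U L : Submonoid G} {g l : G} (hl : l ∈ L)
    (h : SixIn U L g) : SixIn U L (g * l) := by
  obtain ⟨u1, hu1, l1, hl1, u2, hu2, l2, hl2, u3, hu3, l3, hl3, rfl⟩ := h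
  exact ⟨u1, hu1, l1, hl1, u2, hu2, l2, hl2, u3, hu3, l3 * l, L.mul_mem hl3 hl,
    by simp only [mul_assoc]⟩

/-- The merge lemma. -/
theorem merge {G H : Type*} [Group G] [Group H] {U L : Submonoid G} {U' L' : Submonoid H}
    (φ : H →* G) (NR NC : Set G)
    (hU : ∀ u ∈ U', φ u ∈ U) (hL : ∀ l ∈ L', φ l ∈ L)
    (hNR : ∀ r ∈ NR, r ∈ U) (hNC : ∀ c ∈ NC, c ∈ L)
    (hR : ∀ (h : H), ∀ r ∈ NR, (φ h)⁻¹ * r * φ h ∈ NR)
    (hC : ∀ (h : H), ∀ c ∈ NC, (φ h)⁻¹ * c * φ h ∈ NC)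
    {r1 c1 r2 c2 r3 c3 : G} (hr1 : r1 ∈ NR) (hc1 : c1 ∈ NC) (hr2 : r2 ∈ NR) (hc2 : c2 ∈ NC)
    (hr3 : r3 ∈ NR) (hc3 : c3 ∈ NC) {A : H} (hA : SixIn U' L' A) :
    SixIn U L (r1 * c1 * r2 * c2 * r3 * c3 * φ A) := by
  obtain ⟨u1, hu1, l1, hl1, u2, hu2, l2, hl2, u3, hu3, l3, hl3, rfl⟩ := hA
  refine ⟨r1 * φ u1, U.mul_mem (hNR _ hr1) (hU _ hu1),
    ((φ u1)⁻¹ * c1 * φ u1) * φ l1, L.mul_mem (hNC _ (hC _ _ hc1)) (hL _ hl1),
    ((φ (u1 * l1))⁻¹ * r2 * φ (u1 * l1)) * φ u2, U.mul_mem (hNR _ (hR _ _ hr2)) (hU _ hu2),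
    ((φ (u1 * l1 * u2))⁻¹ * c2 * φ (u1 * l1 * u2)) * φ l2,
      L.mul_mem (hNC _ (hC _ _ hc2)) (hL _ hl2),
    ((φ (u1 * l1 * u2 * l2))⁻¹ * r3 * φ (u1 * l1 * u2 * l2)) * φ u3,
      U.mul_mem (hNR _ (hR _ _ hr3)) (hU _ hu3),
    ((φ (u1 * l1 * u2 * l2 * u3))⁻¹ * c3 * φ (u1 * l1 * u2 * l2 * u3)) * φ l3,
      L.mul_mem (hNC _ (hC _ _ hc3)) (hL _ hl3), ?_⟩
  simp only [map_mul, _root_.mul_inv_rev]
  group

end Pool.Agent.Lib.MP_efa98f_al
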