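import Pool.Agent.Lib.MP_efa98f_al.Basic

namespace Pool.Agent.Lib.MP_efa98f_al

open Matrix

/-- The block matrix `[A p; h q]` with `A` square of size `n`. -/
def blk {n : ℕ} (A : Matrix (Fin n) (Fin n) ℤ) (p h : Fin n → ℤ) (q : ℤ) :
    Matrix (Fin (n+1)) (Fin (n+1)) ℤ :=
  fun i j => Fin.lastCases (motive := fun _ => ℤ)
    (Fin.lastCases (motive := fun _ => ℤ) q h j)
    (fun i' => Fin.lastCases (motive := fun _ => ℤ) (p i') (A i') j) i

section
variable {n : ℕ} (A A' : Matrix (Fin n) (Fin n) ℤ) (p h p' h' : Fin n → ℤ) (q q' : ℤ)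

@[simp] theorem blk_cc (i j : Fin n) : blk A p h q i.castSucc j.castSucc = A i j := by simp [blk]
@[simp] theorem blk_cl (i : Fin n) : blk A p h q i.castSucc (Fin.last n) = p i := by simp [blk]
@[simp] theorem blk_lc (j : Fin n) : blk A p h q (Fin.last n) j.castSucc = h j := by simp [blk]
@[simp] theorem blk_ll : blk A p h q (Fin.last n) (Fin.last n) = q := by simp [blk]

theorem blk_ext {M N : Matrix (Fin (n+1)) (Fin (n+1)) ℤ}
    (hcc : ∀ i j : Fin n, M i.castSucc j.castSucc = N i.castSucc j.castSucc)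
    (hcl : ∀ i : Fin n, M i.castSucc (Fin.last n) = N i.castSucc (Fin.last n))
    (hlc : ∀ j : Fin n, M (Fin.last n) j.castSucc = N (Fin.last n) j.castSucc)
    (hll : M (Fin.last n) (Fin.last n) = N (Fin.last n) (Fin.last n)) : M = N := by
  ext i j
  induction i using Fin.lastCases with
  | last =>
    induction j using Fin.lastCases with
    | last => exact hll
    | cast j => exact hlc j
  | cast i =>
    induction j using Fin.lastCases with
    | last => exact hcl i
    | cast j => exact hcc i j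

theorem exists_blk (M : Matrix (Fin (n+1)) (Fin (n+1)) ℤ) :
    M = blk (Matrix.of fun i j => M i.castSucc j.castSucc) (fun i => M i.castSucc (Fin.last n))
      (fun j => M (Fin.last n) j.castSucc) (M (Fin.last n) (Fin.last n)) := by
  refine blk_ext (fun i j => ?_) (fun i => ?_) (fun j => ?_) ?_
  · rw [blk_cc]; rfl
  · rw [blk_cl]
  · rw [blk_lc]
  · rw [blk_ll]

theorem blk_mul : blk A p h q * blk A' p' h' q' =
    blk (A * A' + vecMulVec p h') (A *ᵥ p' + q' • p) (h ᵥ* A' + q • h') (h ⬝ᵥ p' + q * q') := by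
  apply blk_ext
  · intro i j
    rw [Matrix.mul_apply, Fin.sum_univ_castSucc]
    simp [Matrix.mul_apply, vecMulVec_apply]
  · intro i
    rw [Matrix.mul_apply, Fin.sum_univ_castSucc]
    simp [Matrix.mulVec, dotProduct, mul_comm]
  · intro j
    rw [Matrix.mul_apply, Fin.sum_univ_castSucc]
    simp [Matrix.vecMul, dotProduct]
  · rw [Matrix.mul_apply, Fin.sum_univ_castSucc]
    simp [dotProduct]

theorem blk_one : blk (1 : Matrix (Fin n) (Fin n) ℤ) 0 0 1 = 1 := by
  apply blk_ext
  · intro i j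
    rw [blk_cc]
    by_cases hij : i = j
    · subst hij; simp
    · rw [Matrix.one_apply_ne hij, Matrix.one_apply_ne]
      simpa using hij
  · intro i
    rw [blk_cl, Matrix.one_apply_ne (Fin.castSucc_lt_last i).ne]; rfl
  · intro i
    rw [blk_lc, Matrix.one_apply_ne (Fin.castSucc_lt_last i).ne']; rfl
  · simp

theorem blk_transpose : (blk A p h q)ᵀ = blk Aᵀ h p q := by
  apply blk_ext <;> simp [Matrix.transpose_apply]

theorem det_blk_row : (blk A p 0 q).det = A.det * q := by
  rw [Matrix.det_succ_row _ (Fin.last n), Fin.sum_univ_castSucc, Finset.sum_eq_zero]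
  · simp only [blk_ll, zero_add, Fin.succAbove_last]
    have : (blk A p 0 q).submatrix Fin.castSucc Fin.castSucc = A := by
      ext i j; simp
    rw [this, ← two_mul, pow_mul]
    simp [mul_comm]
  · intro j _
    simp

theorem det_blk_col : (blk A 0 h q).det = A.det * q := by
  rw [← Matrix.det_transpose, blk_transpose, det_blk_row, Matrix.det_transpose]

end

/-- `diag(A,1)`. -/
def dg {n : ℕ} : SLn n →* SLn (n+1) where
  toFun A := ⟨blk A.1 0 0 1, by rw [det_blk_row, A.2, one_mul]⟩
  map_one' := Subtype.ext blk_one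
  map_mul' A B := Subtype.ext (by
    change blk (A.1 * B.1) 0 0 1 = blk A.1 0 0 1 * blk B.1 0 0 1
    rw [blk_mul]; simp)

/-- The matrix `[1 p; 0 1]`. -/
def RR {n : ℕ} (p : Fin n → ℤ) : SLn (n+1) := ⟨blk 1 p 0 1, by rw [det_blk_row]; simp⟩

/-- The matrix `[1 0; h 1]`. -/
def CC {n : ℕ} (h : Fin n → ℤ) : SLn (n+1) := ⟨blk 1 0 h 1, by rw [det_blk_col]; simp⟩

section
variable {n : ℕ}

@[simp] theorem dg_val (A : SLn n) : (dg A).1 = blk A.1 0 0 1 := rfl
@[simp] theorem RR_val (p : Fin n → ℤ) : (RR p).1 = blk 1 p 0 1 := rfl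
@[simp] theorem CC_val (h : Fin n → ℤ) : (CC h).1 = blk 1 0 h 1 := rfl

theorem SL_val_mul (A B : SLn n) : (A * B).1 = A.1 * B.1 := rfl

theorem RR_add (p p' : Fin n → ℤ) : RR p * RR p' = RR (p + p') := by
  apply Subtype.ext
  simp [blk_mul, add_comm]

theorem RR_zero : RR (0 : Fin n → ℤ) = 1 := Subtype.ext blk_one

theorem CC_zero : CC (0 : Fin n → ℤ) = 1 := Subtype.ext blk_one

theorem CC_add (h h' : Fin n → ℤ) : CC h * CC h' = CC (h + h') := by
  apply Subtype.ext
  simp [blk_mul]

theorem RR_inv (p : Fin n → ℤ) : (RR p)⁻¹ = RR (-p) := by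
  rw [inv_eq_iff_mul_eq_one, RR_add, add_neg_cancel, RR_zero]

theorem CC_inv (p : Fin n → ℤ) : (CC p)⁻¹ = CC (-p) := by
  rw [inv_eq_iff_mul_eq_one, CC_add, add_neg_cancel, CC_zero]

theorem dg_RR (A : SLn n) (p : Fin n → ℤ) : dg A * RR p = RR (A.1 *ᵥ p) * dg A := by
  apply Subtype.ext
  simp [blk_mul]

theorem CC_dg (A : SLn n) (h : Fin n → ℤ) : CC h * dg A = dg A * CC (h ᵥ* A.1) := by
  apply Subtype.ext
  simp [blk_mul]

theorem RR_dg (A : SLn n) (p : Fin n → ℤ) : RR p * dg A = dg A * RR (A⁻¹.1 *ᵥ p) := by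
  rw [dg_RR, Matrix.mulVec_mulVec, ← SL_val_mul, mul_inv_cancel]
  simp

theorem RR_mem (p : Fin n → ℤ) : RR p ∈ Up (n+1) := by
  refine ⟨fun i => ?_, fun i j hij => ?_⟩
  · induction i using Fin.lastCases with
    | last => simp
    | cast i => simp
  · induction i using Fin.lastCases with
    | last =>
      induction j using Fin.lastCases with
      | last => exact absurd hij (lt_irrefl _)
      | cast j => simp
    | cast i =>
      induction j using Fin.lastCases with
      | last => exact absurd hij (not_lt.mpr (Fin.castSucc_lt_last i).le)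
      | cast j => simpa using Matrix.one_apply_ne (Fin.castSucc_lt_castSucc_iff.mp hij).ne'

theorem CC_mem (p : Fin n → ℤ) : CC p ∈ Lo (n+1) := by
  refine ⟨fun i => ?_, fun i j hij => ?_⟩
  · induction i using Fin.lastCases with
    | last => simp
    | cast i => simp
  · induction i using Fin.lastCases with
    | last => exact absurd hij (not_lt.mpr (Fin.le_last j))
    | cast i =>
      induction j using Fin.lastCases with
      | last => simp
      | cast j => simpa using Matrix.one_apply_ne (Fin.castSucc_lt_castSucc_iff.mp hij).ne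

theorem dg_mem_Up {A : SLn n} (hA : A ∈ Up n) : dg A ∈ Up (n+1) := by
  obtain ⟨h1, h2⟩ := hA
  refine ⟨fun i => ?_, fun i j hij => ?_⟩
  · induction i using Fin.lastCases with
    | last => simp
    | cast i => simpa using h1 i
  · induction i using Fin.lastCases with
    | last =>
      induction j using Fin.lastCases with
      | last => exact absurd hij (lt_irrefl _)
      | cast j => simp
    | cast i =>
      induction j using Fin.lastCases with
      | last => exact absurd hij (not_lt.mpr (Fin.castSucc_lt_last i).le)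
      | cast j => simpa using h2 i j (Fin.castSucc_lt_castSucc_iff.mp hij)

theorem dg_mem_Lo {A : SLn n} (hA : A ∈ Lo n) : dg A ∈ Lo (n+1) := by
  obtain ⟨h1, h2⟩ := hA
  refine ⟨fun i => ?_, fun i j hij => ?_⟩
  · induction i using Fin.lastCases with
    | last => simp
    | cast i => simpa using h1 i
  · induction i using Fin.lastCases with
    | last => exact absurd hij (not_lt.mpr (Fin.le_last j))
    | cast i =>
      induction j using Fin.lastCases with
      | last => simp
      | cast j => simpa using h2 i j (Fin.castSucc_lt_castSucc_iff.mp hij)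

/-- The predicate: product of six. -/
abbrev Six (g : SLn n) : Prop := SixIn (Up n) (Lo n) g

theorem merge_blk {r1 c1 r2 c2 r3 c3 : Fin n → ℤ} {A : SLn n} (hA : Six A) :
    Six (RR r1 * CC c1 * RR r2 * CC c2 * RR r3 * dg A * CC c3) := by
  have key := merge (dg (n := n)) (Set.range (RR (n := n))) (Set.range (CC (n := n)))
    (U := Up (n+1)) (L := Lo (n+1)) (U' := Up n) (L' := Lo n)
    (fun u hu => dg_mem_Up hu) (fun u hu => dg_mem_Lo hu)
    (by rintro _ ⟨p, rfl⟩; exact RR_mem p) (by rintro _ ⟨p, rfl⟩; exact CC_mem p)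
    (by
      rintro h _ ⟨p, rfl⟩
      refine ⟨h⁻¹.1 *ᵥ p, ?_⟩
      rw [mul_assoc, RR_dg, inv_mul_cancel_left])
    (by
      rintro h _ ⟨p, rfl⟩
      refine ⟨p ᵥ* h.1, ?_⟩
      rw [mul_assoc, CC_dg, inv_mul_cancel_left])
    (r1 := RR r1) ⟨_, rfl⟩ (c1 := CC c1) ⟨_, rfl⟩ (r2 := RR r2) ⟨_, rfl⟩
    (c2 := CC c2) ⟨_, rfl⟩ (r3 := RR r3) ⟨_, rfl⟩ (c3 := CC 0) ⟨_, rfl⟩ hA
  rw [CC_zero, mul_one] at key
  exact key.mul_right (CC_mem c3)

theorem six_dg {A : SLn n} (hA : Six A) : Six (dg A) := by
  have := merge_blk (r1 := 0) (c1 := 0) (r2 := 0) (c2 := 0) (r3 := 0) (c3 := 0) hA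
  simpa [RR_zero, CC_zero] using this

end

end Pool.Agent.Lib.MP_efa98f_al
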