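import Pool.Agent.Lib.MP_efa98f_al.Blk

namespace Pool.Agent.Lib.MP_efa98f_al

open Matrix

/-- Avoiding the primes of `h`. -/
theorem exists_coprime_shift (a b h : ℤ) (hh : h ≠ 0)
    (H : ∃ r s t : ℤ, r * a + s * b + t * h = 1) : ∃ x : ℤ, IsCoprime (a - b * x) h := by
  obtain ⟨r, s, t, H⟩ := H
  let S : Finset ℕ := h.natAbs.primeFactors.filter (fun p : ℕ => ¬ ((p : ℤ) ∣ a))
  refine ⟨((∏ p ∈ S, p : ℕ) : ℤ), ?_⟩
  rw [Int.isCoprime_iff_gcd_eq_one]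
  by_contra hne
  obtain ⟨p, hp, hpd⟩ := Nat.exists_prime_and_dvd hne
  have hp1 : (p : ℤ) ∣ a - b * ((∏ p ∈ S, p : ℕ) : ℤ) :=
    (Int.natCast_dvd_natCast.mpr hpd).trans (Int.gcd_dvd_left _ _)
  have hp2 : (p : ℤ) ∣ h := (Int.natCast_dvd_natCast.mpr hpd).trans (Int.gcd_dvd_right _ _)
  have hpI : Prime (p : ℤ) := Nat.prime_iff_prime_int.mp hp
  have hpf : p ∈ h.natAbs.primeFactors := by
    rw [Nat.mem_primeFactors]
    exact ⟨hp, Int.natCast_dvd.mp hp2, by simpa using hh⟩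
  by_cases hpa : (p : ℤ) ∣ a
  · have h3 : (p : ℤ) ∣ b * ((∏ p ∈ S, p : ℕ) : ℤ) := by
      have := dvd_sub hpa hp1
      simpa using this
    rcases hpI.dvd_or_dvd h3 with h4 | h4
    · have : (p : ℤ) ∣ 1 := by
        rw [← H]
        exact dvd_add (dvd_add (hpa.mul_left _) (h4.mul_left _)) (hp2.mul_left _)
      exact hpI.not_isUnit (isUnit_of_dvd_one this)
    · rw [Int.natCast_dvd_natCast] at h4
      obtain ⟨q, hq, hpq⟩ := (Prime.dvd_finsetProd_iff hp.prime _).mp h4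
      rw [Finset.mem_filter, Nat.mem_primeFactors] at hq
      have : p = q := (Nat.prime_dvd_prime_iff_eq hp hq.1.1).mp hpq
      subst this
      exact hq.2 hpa
  · have hpS : p ∈ S := by
      rw [Finset.mem_filter]; exact ⟨hpf, hpa⟩
    have h4 : (p : ℤ) ∣ ((∏ p ∈ S, p : ℕ) : ℤ) :=
      Int.natCast_dvd_natCast.mpr (Finset.dvd_prod_of_mem _ hpS)
    apply hpa
    have := dvd_add hp1 (h4.mul_left b)
    simpa using this

/-- Stable range. -/
theorem stable_range {k : ℕ} (u w : Fin (k+2) → ℤ) (e q : ℤ) (H : u ⬝ᵥ w + e * q = 1) :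
    ∃ x v : Fin (k+2) → ℤ, v ⬝ᵥ (w - q • x) = 1 := by
  have hsum : ∀ a b : Fin (k+2) → ℤ, a ⬝ᵥ b = a 0 * b 0 + ∑ i : Fin (k+1), a i.succ * b i.succ := by
    intro a b
    rw [dotProduct, Fin.sum_univ_succ]
  obtain ⟨h, hh⟩ : ∃ h : ℤ, h = ∑ i : Fin (k+1), u i.succ * w i.succ := ⟨_, rfl⟩
  rw [hsum, ← hh] at H
  by_cases hh0 : h = 0
  · rw [hh0, add_zero] at H
    by_cases hw1 : w (Fin.succ 0) = 0
    · refine ⟨fun i => if i = Fin.succ 0 then -1 else 0, fun i => if i = 0 then u 0 else if i = Fin.succ 0 then e else 0, ?_⟩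
      rw [hsum, Finset.sum_eq_single 0]
      · have h01 : (0 : Fin (k+2)) ≠ Fin.succ 0 := (Fin.succ_ne_zero 0).symm
        simp only [Pi.sub_apply, Pi.smul_apply, smul_eq_mul, if_neg h01, if_neg h01.symm, hw1]
        simp only [if_true]
        linear_combination H
      · intro i _ hi
        have h1 : i.succ ≠ 0 := Fin.succ_ne_zero i
        have h2 : i.succ ≠ Fin.succ 0 := fun hc => hi (Fin.succ_injective _ hc)
        simp only [if_neg h1, if_neg h2, zero_mul]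
      · intro hc; exact absurd (Finset.mem_univ _) hc
    · obtain ⟨x0, hx0⟩ := exists_coprime_shift (w 0) q (w (Fin.succ 0)) hw1 ⟨u 0, e, 0, by linear_combination H⟩
      obtain ⟨α, β, hαβ⟩ := hx0
      refine ⟨fun i => if i = 0 then x0 else 0, fun i => if i = 0 then α else if i = Fin.succ 0 then β else 0, ?_⟩
      rw [hsum, Finset.sum_eq_single 0]
      · have h01 : (0 : Fin (k+2)) ≠ Fin.succ 0 := (Fin.succ_ne_zero 0).symm
        simp only [Pi.sub_apply, Pi.smul_apply, smul_eq_mul, if_neg h01.symm, if_true]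
        linear_combination hαβ
      · intro i _ hi
        have h1 : i.succ ≠ 0 := Fin.succ_ne_zero i
        have h2 : i.succ ≠ Fin.succ 0 := fun hc => hi (Fin.succ_injective _ hc)
        simp only [if_neg h1, if_neg h2, zero_mul]
      · intro hc; exact absurd (Finset.mem_univ _) hc
  · obtain ⟨x0, hx0⟩ := exists_coprime_shift (w 0) q h hh0 ⟨u 0, e, 1, by linear_combination H⟩
    obtain ⟨α, β, hαβ⟩ := hx0
    refine ⟨fun i => if i = 0 then x0 else 0, fun i => if i = 0 then α else β * u i, ?_⟩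
    rw [hsum]
    have : ∀ i : Fin (k+1), (if i.succ = (0 : Fin (k+2)) then α else β * u i.succ) *
        ((w - q • (fun i : Fin (k+2) => if i = 0 then x0 else 0)) i.succ) = β * (u i.succ * w i.succ) := by
      intro i
      have h1 : i.succ ≠ 0 := Fin.succ_ne_zero i
      simp only [Pi.sub_apply, Pi.smul_apply, smul_eq_mul, if_neg h1]
      ring
    rw [Finset.sum_congr rfl (fun i _ => this i), ← Finset.mul_sum, ← hh]
    simp only [Pi.sub_apply, Pi.smul_apply, smul_eq_mul, if_true]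
    linear_combination hαβ

section
variable {n : ℕ}

/-- A matrix of determinant one with last column `(0,…,0,1)`. -/
theorem last_col (M : SLn (n+1)) (h0 : ∀ i : Fin n, M.1 i.castSucc (Fin.last n) = 0)
    (h1 : M.1 (Fin.last n) (Fin.last n) = 1) : ∃ (g : SLn n) (c : Fin n → ℤ), M = dg g * CC c := by
  have e := exists_blk M.1
  have hcol : (fun i : Fin n => M.1 i.castSucc (Fin.last n)) = 0 := funext h0
  rw [hcol, h1] at e
  have hd := M.2
  rw [e, det_blk_col, mul_one] at hd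
  refine ⟨(⟨_, hd⟩ : SLn n), fun j => M.1 (Fin.last n) j.castSucc, ?_⟩
  apply Subtype.ext
  change M.1 = blk _ 0 0 1 * blk 1 0 _ 1
  rw [blk_mul]
  refine e.trans ?_
  simp

/-- A matrix of determinant one with last diagonal entry `1`. -/
theorem one_corner (M : SLn (n+1)) (h1 : M.1 (Fin.last n) (Fin.last n) = 1) :
    ∃ (p : Fin n → ℤ) (g : SLn n) (c : Fin n → ℤ), M = RR p * dg g * CC c := by
  obtain ⟨p, hp⟩ : ∃ p : Fin n → ℤ, p = fun i => M.1 i.castSucc (Fin.last n) := ⟨_, rfl⟩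
  have e := exists_blk M.1
  rw [h1, ← hp] at e
  obtain ⟨g, c, hgc⟩ := last_col (RR (-p) * M) (by
    intro i
    rw [SL_val_mul, RR_val, e, blk_mul, blk_cl]
    simp) (by
    rw [SL_val_mul, RR_val, e, blk_mul, blk_ll]
    simp)
  refine ⟨p, g, c, ?_⟩
  rw [mul_assoc, ← hgc, ← mul_assoc, RR_add, add_neg_cancel, RR_zero, one_mul]

/-- The last column of a matrix in `SL` is unimodular. -/
theorem last_col_unimodular (M : SLn (n+1)) :
    ∃ (u : Fin n → ℤ) (e : ℤ), u ⬝ᵥ (fun i => M.1 i.castSucc (Fin.last n)) +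
      e * M.1 (Fin.last n) (Fin.last n) = 1 := by
  refine ⟨fun j => M⁻¹.1 (Fin.last n) j.castSucc, M⁻¹.1 (Fin.last n) (Fin.last n), ?_⟩
  have h : (M⁻¹ * M).1 (Fin.last n) (Fin.last n) = 1 := by
    rw [inv_mul_cancel]; exact Matrix.one_apply_eq _
  rw [SL_val_mul, Matrix.mul_apply, Fin.sum_univ_castSucc] at h
  exact h

/-- Reduction from size `k+3` to size `k+2`. -/
theorem reduce {k : ℕ} (M : SLn (k+3)) : ∃ (r1 c1 r2 : Fin (k+2) → ℤ) (g : SLn (k+2))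
    (c2 : Fin (k+2) → ℤ), M = RR r1 * CC c1 * RR r2 * dg g * CC c2 := by
  obtain ⟨u, e, H⟩ := last_col_unimodular M
  obtain ⟨r1, v, hv⟩ := stable_range _ _ _ _ H
  obtain ⟨q, hq⟩ : ∃ q, q = M.1 (Fin.last (k+2)) (Fin.last (k+2)) := ⟨_, rfl⟩
  obtain ⟨w, hw⟩ : ∃ w : Fin (k+2) → ℤ, w = fun i => M.1 i.castSucc (Fin.last (k+2)) := ⟨_, rfl⟩
  rw [← hq, ← hw] at hv
  have eM := exists_blk M.1
  rw [← hq, ← hw] at eM
  obtain ⟨r2, g, c2, h⟩ := one_corner (CC (-((q-1) • v)) * (RR (-r1) * M)) (by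
    rw [SL_val_mul, SL_val_mul, RR_val, CC_val, eM, blk_mul, blk_mul, blk_ll]
    have e1 : (1 : Matrix (Fin (k+2)) (Fin (k+2)) ℤ) *ᵥ w + q • -r1 = w - q • r1 := by
      rw [Matrix.one_mulVec, smul_neg, sub_eq_add_neg]
    rw [e1]
    simp only [neg_dotProduct, smul_dotProduct, hv, zero_dotProduct]
    simp)
  refine ⟨r1, (q-1) • v, r2, g, c2, ?_⟩
  have : RR r1 * CC ((q-1) • v) * RR r2 * dg g * CC c2 =
      RR r1 * CC ((q-1) • v) * (RR r2 * dg g * CC c2) := by simp only [mul_assoc]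
  rw [this, ← h, ← CC_inv, ← RR_inv]
  group

/-- Being a transvection. -/
def IsTV (A : SLn n) : Prop := ∃ x y : Fin n → ℤ, y ⬝ᵥ x = 0 ∧ A.1 = 1 + vecMulVec x y

theorem det_tv (x y : Fin n → ℤ) (h : y ⬝ᵥ x = 0) :
    (1 + vecMulVec x y : Matrix (Fin n) (Fin n) ℤ).det = 1 := by
  rw [Matrix.vecMulVec_eq Unit, Matrix.det_one_add_replicateCol_mul_replicateRow, h, add_zero]

/-- The transvection `1 + x y`. -/
def TV (x y : Fin n → ℤ) (h : y ⬝ᵥ x = 0) : SLn n := ⟨1 + vecMulVec x y, det_tv x y h⟩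

theorem TV_val (x y : Fin n → ℤ) (h : y ⬝ᵥ x = 0) : (TV x y h).1 = 1 + vecMulVec x y := rfl

theorem IsTV_TV (x y : Fin n → ℤ) (h : y ⬝ᵥ x = 0) : IsTV (TV x y h) := ⟨x, y, h, rfl⟩

theorem IsTV.conj {A : SLn n} (hA : IsTV A) (B : SLn n) : IsTV (B * A * B⁻¹) := by
  obtain ⟨x, y, hxy, hA⟩ := hA
  refine ⟨B.1 *ᵥ x, y ᵥ* B⁻¹.1, ?_, ?_⟩
  · rw [Matrix.dotProduct_mulVec, Matrix.vecMul_vecMul, ← SL_val_mul, inv_mul_cancel]
    change y ᵥ* (1 : Matrix (Fin n) (Fin n) ℤ) ⬝ᵥ x = 0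
    rw [Matrix.vecMul_one, hxy]
  · rw [SL_val_mul, SL_val_mul, hA, mul_add, add_mul, mul_one, ← SL_val_mul, mul_inv_cancel]
    congr 1
    rw [Matrix.mul_vecMulVec, Matrix.vecMulVec_mul]

theorem IsTV.inv {A : SLn n} (hA : IsTV A) : IsTV A⁻¹ := by
  obtain ⟨x, y, hxy, hA⟩ := hA
  have h2 : (-y) ⬝ᵥ x = 0 := by simp [hxy]
  have : A⁻¹ = TV x (-y) h2 := by
    rw [inv_eq_iff_mul_eq_one]
    apply Subtype.ext
    rw [SL_val_mul, hA, TV_val]
    change _ = (1 : Matrix (Fin n) (Fin n) ℤ)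
    rw [mul_add, add_mul, add_mul, Matrix.vecMulVec_mul_vecMulVec, hxy]
    simp
  rw [this]
  exact IsTV_TV _ _ _

theorem IsTV.dg_eq {A : SLn n} (hA : IsTV A) :
    ∃ x y : Fin n → ℤ, dg A = RR (-x) * CC (-y) * RR x * CC y := by
  obtain ⟨x, y, hxy, hA⟩ := hA
  refine ⟨x, y, ?_⟩
  apply Subtype.ext
  simp only [SL_val_mul, dg_val, RR_val, CC_val, blk_mul, hA]
  simp [hxy, Matrix.add_mulVec, Matrix.vecMulVec_mulVec]

theorem IsTV.dg {A : SLn n} (hA : IsTV A) : IsTV (dg A) := by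
  obtain ⟨x, y, hxy, hA⟩ := hA
  refine ⟨Fin.snoc x 0, Fin.snoc y 0, ?_, ?_⟩
  · rw [dotProduct, Fin.sum_univ_castSucc]
    simpa [dotProduct] using hxy
  · rw [dg_val, hA, ← blk_one]
    apply blk_ext
    · intro i j; simp [vecMulVec_apply]
    · intro i; simp [vecMulVec_apply]
    · intro i; simp [vecMulVec_apply]
    · simp [vecMulVec_apply]

end

/-- Lemma X. -/
theorem lemmaX {k : ℕ} (M : SLn (k+3)) : ∃ A : SLn (k+3), IsTV A ∧
    ∃ (p : Fin (k+2) → ℤ) (g : SLn (k+2)) (c : Fin (k+2) → ℤ), A * M = RR p * dg g * CC c := by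
  obtain ⟨u, e, H⟩ := last_col_unimodular M
  obtain ⟨x', v, hv⟩ := stable_range _ _ _ _ H
  obtain ⟨q, hq⟩ : ∃ q, q = M.1 (Fin.last (k+2)) (Fin.last (k+2)) := ⟨_, rfl⟩
  obtain ⟨w, hw⟩ : ∃ w : Fin (k+2) → ℤ, w = fun i => M.1 i.castSucc (Fin.last (k+2)) := ⟨_, rfl⟩
  rw [← hq, ← hw] at hv
  obtain ⟨y', hy'⟩ : ∃ y' : Fin (k+2) → ℤ, y' = (1-q) • v := ⟨_, rfl⟩
  have hyx : (Fin.snoc y' (-(y' ⬝ᵥ x')) : Fin (k+3) → ℤ) ⬝ᵥ (Fin.snoc x' 1 : Fin (k+3) → ℤ) = 0 := by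
    rw [dotProduct, Fin.sum_univ_castSucc]
    simp [dotProduct]
  refine ⟨TV _ _ hyx, IsTV_TV _ _ _, ?_⟩
  apply one_corner
  rw [SL_val_mul, TV_val, add_mul, one_mul, Matrix.vecMulVec_mul, Matrix.add_apply, ← hq,
    vecMulVec_apply]
  have e1 : ((Fin.snoc y' (-(y' ⬝ᵥ x')) : Fin (k+3) → ℤ) ᵥ* M.1) (Fin.last (k+2)) = 1 - q := by
    change (Fin.snoc y' (-(y' ⬝ᵥ x')) : Fin (k+3) → ℤ) ⬝ᵥ (fun i => M.1 i (Fin.last (k+2))) = 1 - q
    rw [dotProduct, Fin.sum_univ_castSucc]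
    simp only [Fin.snoc_castSucc, Fin.snoc_last, ← hq]
    have e2 : ∑ i, y' i * M.1 i.castSucc (Fin.last (k+2)) = y' ⬝ᵥ w := by
      rw [hw]; rfl
    have e3 : y' ⬝ᵥ (w - q • x') = 1 - q := by
      rw [hy', smul_dotProduct, hv]; simp
    rw [dotProduct_sub, dotProduct_smul, smul_eq_mul] at e3
    rw [e2]
    linear_combination e3
  rw [e1]
  simp

/-- Lemma T: one insertion. -/
theorem lemmaT {n : ℕ} (r1 c1 r2 : Fin n → ℤ) (g : SLn n) (c2 : Fin n → ℤ) (A : SLn n)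
    (hA : IsTV A) (h : Six (A * g)) : Six (RR r1 * CC c1 * RR r2 * dg g * CC c2) := by
  obtain ⟨x, y, hxy⟩ := hA.inv.dg_eq
  have e : dg g = dg A⁻¹ * dg (A * g) := by
    rw [← map_mul, inv_mul_cancel_left]
  rw [e, hxy]
  have e2 : RR r1 * CC c1 * RR r2 * (RR (-x) * CC (-y) * RR x * CC y * dg (A * g)) * CC c2 =
      RR r1 * CC c1 * RR (r2 + -x) * CC (-y) * RR x * dg (A * g) * CC (y ᵥ* (A * g).1 + c2) := by
    rw [← CC_add, ← RR_add]
    have := CC_dg (A * g) y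
    calc RR r1 * CC c1 * RR r2 * (RR (-x) * CC (-y) * RR x * CC y * dg (A * g)) * CC c2
        = RR r1 * CC c1 * RR r2 * RR (-x) * CC (-y) * RR x * (CC y * dg (A * g)) * CC c2 := by
          simp only [mul_assoc]
      _ = _ := by rw [this]; simp only [mul_assoc]
  rw [e2]
  exact merge_blk h

/-- Lemma TT: two insertions. -/
theorem lemmaTT {n : ℕ} (g : SLn n) (A B : SLn n) (hA : IsTV A) (hB : IsTV B)
    (h : Six (A * B * g)) : Six (dg g) := by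
  -- `g = B⁻¹ A⁻¹ (A B g)`
  obtain ⟨x, y, hxy⟩ := hB.inv.dg_eq
  obtain ⟨x', y', hxy'⟩ := hA.inv.dg_eq
  have e : dg g = dg B⁻¹ * dg A⁻¹ * dg (A * B * g) := by
    rw [← map_mul, ← map_mul]
    congr 1
    group
  have e2 : dg g = RR (-x + -x') * CC (-y') * RR x' * CC (y' + (-y) ᵥ* A⁻¹.1) *
      RR (A⁻¹⁻¹.1 *ᵥ x) * dg (A * B * g) * CC ((y ᵥ* A⁻¹.1) ᵥ* (A * B * g).1) := by
    rw [e]
    calc dg B⁻¹ * dg A⁻¹ * dg (A * B * g)
        = RR (-x) * CC (-y) * RR x * (CC y * dg A⁻¹) * dg (A * B * g) := by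
          rw [hxy]; simp only [mul_assoc]
      _ = RR (-x) * CC (-y) * (RR x * dg A⁻¹) * CC (y ᵥ* A⁻¹.1) * dg (A * B * g) := by
          rw [CC_dg]; simp only [mul_assoc]
      _ = RR (-x) * (CC (-y) * dg A⁻¹) * RR (A⁻¹⁻¹.1 *ᵥ x) * CC (y ᵥ* A⁻¹.1) *
            dg (A * B * g) := by
          rw [RR_dg]; simp only [mul_assoc]
      _ = RR (-x) * dg A⁻¹ * CC ((-y) ᵥ* A⁻¹.1) * RR (A⁻¹⁻¹.1 *ᵥ x) *
            (CC (y ᵥ* A⁻¹.1) * dg (A * B * g)) := by
          rw [CC_dg]; simp only [mul_assoc]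
      _ = RR (-x) * (RR (-x') * CC (-y') * RR x' * CC y') * CC ((-y) ᵥ* A⁻¹.1) *
            RR (A⁻¹⁻¹.1 *ᵥ x) * (dg (A * B * g) * CC ((y ᵥ* A⁻¹.1) ᵥ* (A * B * g).1)) := by
          rw [hxy', CC_dg]
      _ = _ := by
          rw [← RR_add, ← CC_add]; simp only [mul_assoc]
  rw [e2]
  exact merge_blk h

/-- If all `diag(E,1,1)` are six-fold products then so is `SL_n` for every `n ≥ 6`. -/
theorem six_of_ck (hck : ∀ E : SLn 2, Six (dg (dg E))) : ∀ n, 6 ≤ n → ∀ g : SLn n, Six g := by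
  have h5 : ∀ g : SLn 4, Six (dg g) := by
    intro g
    obtain ⟨B, hB, p, g3, c, hg⟩ := lemmaX (k := 1) g
    obtain ⟨σ, hσ, p', E, c', hg3⟩ := lemmaX (k := 0) g3
    refine lemmaTT g (RR p * dg σ * (RR p)⁻¹) B (hσ.dg.conj _) hB ?_
    have : RR p * dg σ * (RR p)⁻¹ * B * g =
        RR p * (dg (RR p') * (dg (dg E) * (dg (CC c') * CC c))) := by
      calc RR p * dg σ * (RR p)⁻¹ * B * g = RR p * dg σ * (RR p)⁻¹ * (B * g) := by
            simp only [mul_assoc]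
        _ = RR p * dg (σ * g3) * CC c := by
            rw [hg, map_mul]; group
        _ = _ := by
            rw [hg3, map_mul, map_mul]; simp only [mul_assoc]
    rw [this]
    refine ((SixIn.mul_right ?_ (hck E)).mul_left (dg_mem_Up (RR_mem _))).mul_left (RR_mem _)
    exact (Lo 4).mul_mem (dg_mem_Lo (CC_mem _)) (CC_mem _)
  have h6 : ∀ g : SLn 6, Six g := by
    intro g
    obtain ⟨r1, c1, r2, g5, c2, hg⟩ := reduce (k := 3) g
    obtain ⟨B, hB, p, g4, c, hg5⟩ := lemmaX (k := 2) g5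
    rw [hg]
    refine lemmaT _ _ _ _ _ B hB ?_
    rw [hg5]
    exact ((h5 g4).mul_left (RR_mem p)).mul_right (CC_mem c)
  intro n hn
  induction n, hn using Nat.le_induction with
  | base => exact h6
  | succ n hn ih =>
    intro g
    obtain ⟨k, rfl⟩ : ∃ k, n = k + 2 := ⟨n - 2, by omega⟩
    obtain ⟨r1, c1, r2, g', c2, hg⟩ := reduce (k := k) g
    rw [hg]
    have := merge_blk (r1 := r1) (c1 := c1) (r2 := r2) (c2 := 0) (r3 := 0) (c3 := c2) (ih g')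
    simpa [CC_zero, RR_zero] using this

end Pool.Agent.Lib.MP_efa98f_al
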