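import Pool.Agent.Lib.MP_efa98f_al.CKData
import Pool.Agent.Lib.MP_efa98f_al.Reduce

namespace Pool.Agent.Lib.MP_efa98f_al

open Matrix

theorem det_b4_R (X : M2) : (b4 1 X 0 1).det = 1 := by
  simp [b4, Matrix.det_succ_row_zero, Fin.sum_univ_succ]

theorem det_b4_C (X : M2) : (b4 1 0 X 1).det = 1 := by
  simp [b4, Matrix.det_succ_row_zero, Fin.sum_univ_succ, Fin.succAbove]

theorem det_b4_D (P Q : M2) : (b4 P 0 0 Q).det = P.det * Q.det := by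
  simp [b4, Matrix.det_succ_row_zero, Fin.sum_univ_succ, Fin.succAbove]
  ring

/-- The block upper unitriangular matrix. -/
def RB (X : M2) : SLn 4 := ⟨b4 1 X 0 1, det_b4_R X⟩
/-- The block lower unitriangular matrix. -/
def CB (X : M2) : SLn 4 := ⟨b4 1 0 X 1, det_b4_C X⟩
/-- The block diagonal matrix. -/
def DB : SLn 2 × SLn 2 →* SLn 4 where
  toFun P := ⟨b4 P.1.1 0 0 P.2.1, by rw [det_b4_D, P.1.2, P.2.2, one_mul]⟩
  map_one' := Subtype.ext b4_one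
  map_mul' P Q := Subtype.ext (by
    change b4 (P.1.1 * Q.1.1) 0 0 (P.2.1 * Q.2.1) = b4 P.1.1 0 0 P.2.1 * b4 Q.1.1 0 0 Q.2.1
    rw [b4_mul]; simp)

theorem RB_val (X : M2) : (RB X).1 = b4 1 X 0 1 := rfl
theorem CB_val (X : M2) : (CB X).1 = b4 1 0 X 1 := rfl
theorem DB_val (P : SLn 2 × SLn 2) : (DB P).1 = b4 P.1.1 0 0 P.2.1 := rfl

theorem RB_mem (X : M2) : RB X ∈ Up 4 := by
  refine ⟨fun i => ?_, fun i j hij => ?_⟩
  · rw [RB_val]; fin_cases i <;> simp [b4]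
  · rw [RB_val]; revert hij; fin_cases i <;> fin_cases j <;> simp [b4]

theorem CB_mem (X : M2) : CB X ∈ Lo 4 := by
  refine ⟨fun i => ?_, fun i j hij => ?_⟩
  · rw [CB_val]; fin_cases i <;> simp [b4]
  · rw [CB_val]; revert hij; fin_cases i <;> fin_cases j <;> simp [b4]

theorem DB_mem_Up {P Q : SLn 2} (hP : P ∈ Up 2) (hQ : Q ∈ Up 2) : DB (P, Q) ∈ Up 4 := by
  have h1 := hP.1 0
  have h2 := hP.1 1
  have h3 := hP.2 1 0 (by decide)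
  have h4 := hQ.1 0
  have h5 := hQ.1 1
  have h6 := hQ.2 1 0 (by decide)
  refine ⟨fun i => ?_, fun i j hij => ?_⟩
  · rw [DB_val]; fin_cases i <;> simp [b4, *]
  · rw [DB_val]; revert hij; fin_cases i <;> fin_cases j <;> simp [b4, *]

theorem DB_mem_Lo {P Q : SLn 2} (hP : P ∈ Lo 2) (hQ : Q ∈ Lo 2) : DB (P, Q) ∈ Lo 4 := by
  have h1 := hP.1 0
  have h2 := hP.1 1
  have h3 := hP.2 0 1 (by decide)
  have h4 := hQ.1 0
  have h5 := hQ.1 1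
  have h6 := hQ.2 0 1 (by decide)
  refine ⟨fun i => ?_, fun i j hij => ?_⟩
  · rw [DB_val]; fin_cases i <;> simp [b4, *]
  · rw [DB_val]; revert hij; fin_cases i <;> fin_cases j <;> simp [b4, *]

theorem RB_DB (X : M2) (P : SLn 2 × SLn 2) : RB X * DB P = DB P * RB (P.1⁻¹.1 * X * P.2.1) := by
  apply Subtype.ext
  rw [SL_val_mul, SL_val_mul, RB_val, RB_val, DB_val, b4_mul, b4_mul]
  have : P.1.1 * (P.1⁻¹.1 * X * P.2.1) = X * P.2.1 := by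
    rw [← mul_assoc, ← mul_assoc, ← SL_val_mul, mul_inv_cancel]
    change (1 : M2) * X * P.2.1 = _
    rw [one_mul]
  rw [this]
  simp

theorem CB_DB (X : M2) (P : SLn 2 × SLn 2) : CB X * DB P = DB P * CB (P.2⁻¹.1 * X * P.1.1) := by
  apply Subtype.ext
  rw [SL_val_mul, SL_val_mul, CB_val, CB_val, DB_val, b4_mul, b4_mul]
  have : P.2.1 * (P.2⁻¹.1 * X * P.1.1) = X * P.1.1 := by
    rw [← mul_assoc, ← mul_assoc, ← SL_val_mul, mul_inv_cancel]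
    change (1 : M2) * X * P.1.1 = _
    rw [one_mul]
  rw [this]
  simp

theorem merge_b4 {X1 X2 X3 X4 X5 X6 : M2} {A : SLn 2 × SLn 2}
    (hA : SixIn ((Up 2).prod (Up 2)) ((Lo 2).prod (Lo 2)) A) :
    Six (RB X1 * CB X2 * RB X3 * CB X4 * RB X5 * CB X6 * DB A) := by
  refine merge DB (Set.range RB) (Set.range CB) (U := Up 4) (L := Lo 4)
    (U' := (Up 2).prod (Up 2)) (L' := (Lo 2).prod (Lo 2))
    (fun u hu => DB_mem_Up hu.1 hu.2) (fun u hu => DB_mem_Lo hu.1 hu.2)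
    (by rintro _ ⟨p, rfl⟩; exact RB_mem p) (by rintro _ ⟨p, rfl⟩; exact CB_mem p)
    (by
      rintro h _ ⟨p, rfl⟩
      refine ⟨h.1⁻¹.1 * p * h.2.1, ?_⟩
      rw [mul_assoc (DB h)⁻¹, RB_DB, inv_mul_cancel_left])
    (by
      rintro h _ ⟨p, rfl⟩
      refine ⟨h.2⁻¹.1 * p * h.1.1, ?_⟩
      rw [mul_assoc (DB h)⁻¹, CB_DB, inv_mul_cancel_left])
    ⟨_, rfl⟩ ⟨_, rfl⟩ ⟨_, rfl⟩ ⟨_, rfl⟩ ⟨_, rfl⟩ ⟨_, rfl⟩ hA

/-- Upper elementary element of `SL₂`. -/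
def Ue (x : ℤ) : SLn 2 := ⟨uu x, by simp [Matrix.det_fin_two]⟩
/-- Lower elementary element of `SL₂`. -/
def Le (x : ℤ) : SLn 2 := ⟨ll x, by simp [Matrix.det_fin_two]⟩

theorem Ue_val (x : ℤ) : (Ue x).1 = uu x := rfl
theorem Le_val (x : ℤ) : (Le x).1 = ll x := rfl

theorem Ue_inv (x : ℤ) : (Ue x)⁻¹ = Ue (-x) := by
  rw [inv_eq_iff_mul_eq_one]
  apply Subtype.ext
  rw [SL_val_mul, Ue_val, Ue_val, uu_mul_uu, add_neg_cancel, uu_zero]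
  rfl

theorem Le_inv (x : ℤ) : (Le x)⁻¹ = Le (-x) := by
  rw [inv_eq_iff_mul_eq_one]
  apply Subtype.ext
  rw [SL_val_mul, Le_val, Le_val, ll_mul_ll, add_neg_cancel, ll_zero]
  rfl

theorem Ue_mem (x : ℤ) : Ue x ∈ Up 2 := by
  refine ⟨fun i => ?_, fun i j hij => ?_⟩
  · rw [Ue_val]; fin_cases i <;> simp
  · rw [Ue_val]; revert hij; fin_cases i <;> fin_cases j <;> simp

theorem Le_mem (x : ℤ) : Le x ∈ Lo 2 := by
  refine ⟨fun i => ?_, fun i j hij => ?_⟩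
  · rw [Le_val]; fin_cases i <;> simp
  · rw [Le_val]; revert hij; fin_cases i <;> fin_cases j <;> simp

theorem dg_dg_eq (E : SLn 2) : dg (dg E) = DB (E, 1) := by
  apply Subtype.ext
  change blk (blk E.1 0 0 1) 0 0 1 = b4 E.1 0 0 1
  refine blk_ext (fun i j => ?_) (fun i => ?_) (fun j => ?_) ?_
  · rw [blk_cc]; fin_cases i <;> fin_cases j <;> rfl
  · rw [blk_cl]; fin_cases i <;> rfl
  · rw [blk_lc]; fin_cases j <;> rfl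
  · rw [blk_ll]; rfl

/-- The arithmetic condition on `E ∈ SL₂(ℤ)`. -/
def Good (E : SLn 2) : Prop :=
  ∃ (ξ1 ξ2 ξ3 ξ4 a b c d f g β γ : ℤ),
    (E * Le ξ1 * Ue ξ2 * Le ξ3 * Ue ξ4).1 = !![a, b; c, d] ∧
    f^2 + (a+d)*f*g + g^2 = 1 ∧ g + f*a = 1 + b*β ∧ f + g*a = 1 + c*γ ∧ f + g ≠ 0

theorem ck_of_good {E : SLn 2} (hE : Good E) : Six (dg (dg E)) := by
  obtain ⟨ξ1, ξ2, ξ3, ξ4, a, b, c, d, f, g, β, γ, hE1, hfg, hp1, hp2, hκ⟩ := hE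
  obtain ⟨E1, hE1d⟩ : ∃ E1 : SLn 2, E1 = E * Le ξ1 * Ue ξ2 * Le ξ3 * Ue ξ4 := ⟨_, rfl⟩
  rw [← hE1d] at hE1
  have hdet : a * d - b * c = 1 := by
    have := E1.2
    rw [hE1, Matrix.det_fin_two] at this
    simpa using this
  obtain ⟨r, s, y, m1, m2, X1, X2, X3, X4, X5, X6, key⟩ := ck_data a b c d f g β γ hdet hfg hp1 hp2 hκ
  obtain ⟨T, hT⟩ : ∃ T : SLn 2, T = Ue r * E1 * Le s := ⟨_, rfl⟩
  obtain ⟨D, hD⟩ : ∃ D : SLn 2, D = Le b * Ue m1 * (Le (-y) * Ue (-m2) * Le (c + y)) := ⟨_, rfl⟩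
  have key2 : DB (T, D) = RB X1 * CB X2 * RB X3 * CB X4 * RB X5 * CB X6 := by
    apply Subtype.ext
    simp only [DB_val, SL_val_mul, hT, hD, hE1, Ue_val, Le_val, RB_val, CB_val]
    exact key
  obtain ⟨A, hA⟩ : ∃ A : SLn 2, A = T⁻¹ * Ue r * E := ⟨_, rfl⟩
  have hA' : A = 1 * Le (-s) * Ue (-ξ4) * Le (-ξ3) * Ue (-ξ2) * Le (-ξ1) := by
    rw [hA, hT, hE1d, ← Ue_inv, ← Le_inv, ← Le_inv, ← Le_inv, ← Ue_inv]
    group
  have hD' : D⁻¹ = 1 * Le (-(c+y)) * Ue m2 * Le y * Ue (-m1) * Le (-b) := by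
    have e1 : Ue m2 = (Ue (-m2))⁻¹ := by rw [Ue_inv, neg_neg]
    have e2 : Le y = (Le (-y))⁻¹ := by rw [Le_inv, neg_neg]
    rw [hD, ← Le_inv (c+y), ← Ue_inv m1, ← Le_inv b, e1, e2]
    group
  have hsix : SixIn ((Up 2).prod (Up 2)) ((Lo 2).prod (Lo 2)) (A, D⁻¹) := by
    refine ⟨(1, 1), ⟨(Up 2).one_mem, (Up 2).one_mem⟩, (Le (-s), Le (-(c+y))), ⟨Le_mem _, Le_mem _⟩,
      (Ue (-ξ4), Ue m2), ⟨Ue_mem _, Ue_mem _⟩, (Le (-ξ3), Le y), ⟨Le_mem _, Le_mem _⟩,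
      (Ue (-ξ2), Ue (-m1)), ⟨Ue_mem _, Ue_mem _⟩, (Le (-ξ1), Le (-b)), ⟨Le_mem _, Le_mem _⟩, ?_⟩
    rw [hA', hD']
    rfl
  have hfin := (merge_b4 (X1 := X1) (X2 := X2) (X3 := X3) (X4 := X4) (X5 := X5) (X6 := X6)
    hsix).mul_left (DB_mem_Up (Ue_mem (-r)) (Up 2).one_mem)
  rw [← key2, ← map_mul, ← map_mul] at hfin
  rw [dg_dg_eq]
  convert hfin using 2
  rw [Prod.mk_mul_mk, Prod.mk_mul_mk, hA, ← Ue_inv]
  congr 1 <;> group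

end Pool.Agent.Lib.MP_efa98f_al
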