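import Pool.Agent.Lib.MP_efa98f_al.B4

namespace Pool.Agent.Lib.MP_efa98f_al

open Matrix

/-- The upper elementary `2×2` matrix. -/
abbrev uu (x : ℤ) : M2 := !![1, x; 0, 1]
/-- The lower elementary `2×2` matrix. -/
abbrev ll (x : ℤ) : M2 := !![1, 0; x, 1]

theorem M2_ext {A B : M2} (h00 : A 0 0 = B 0 0) (h01 : A 0 1 = B 0 1) (h10 : A 1 0 = B 1 0)
    (h11 : A 1 1 = B 1 1) : A = B := by
  ext i j
  fin_cases i <;> fin_cases j <;> assumption

section rel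
variable {a b c d f g β γ κ s1 s2 β' γ' h1 h2 s m r n y m1 m2 k2 : ℤ}

theorem rel_s1 (hdet : a*d - b*c = 1) (hfg : f^2 + (a+d)*f*g + g^2 = 1)
    (hp1 : g + f*a = 1 + b*β) (hs1 : s1 = g + f*d) (hβ' : β' = f^2*c - s1*β) :
    s1 = 1 + b * β' := by
  subst hβ' hs1
  linear_combination hfg + f^2 * hdet - (g+f*d)*hp1

theorem rel_h1 (hdet : a*d - b*c = 1) (hfg : f^2 + (a+d)*f*g + g^2 = 1)
    (hκ : κ = f + g) (hs1 : s1 = g + f*d) (hh1 : h1 = f*b*c + (1-a)*s1) :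
    f * h1 = κ * s1 - 1 := by
  subst hh1 hs1 hκ
  linear_combination -hfg - f^2*hdet

theorem ii1 (hp1 : g + f*a = 1 + b*β) (hm : m = β + f*s) (hf : f * h1 = κ * s1 - 1) :
    (!![0, -f; 1, m] : M2) * !![κ*(f*c+s1*s)-m*h1, 1-κ; h1, -κ*b] =
      1 - κ • (ll (-s) * !![s1, -(f*b); -(f*c), g+f*a]) := by
  apply M2_ext
  · simp [Matrix.mul_apply, Fin.sum_univ_two]
    linear_combination -hf
  · simp [Matrix.mul_apply, Fin.sum_univ_two]
    ring
  · simp [Matrix.mul_apply, Fin.sum_univ_two]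
    ring
  · simp [Matrix.mul_apply, Fin.sum_univ_two]
    linear_combination κ * hp1 - κ*b*hm

theorem ii2 (hs1 : s1 = 1 + b * β') (hβ' : β' = f^2*c - s1*β) (hm : m = β + f*s)
    (hf : f * h1 = κ * s1 - 1) (hm1 : m1 = β + β' + f*s) :
    (!![κ*(f*c+s1*s)-m*h1, 1-κ; h1, -κ*b] : M2) * !![0, -f; 1, m] =
      1 - κ • (ll b * uu m1) := by
  apply M2_ext
  · simp [Matrix.mul_apply, Fin.sum_univ_two]
  · simp [Matrix.mul_apply, Fin.sum_univ_two]
    linear_combination m * hf + κ * hβ' + κ * hm1 + κ*(s1-1)*hm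
  · simp [Matrix.mul_apply, Fin.sum_univ_two]
  · simp [Matrix.mul_apply, Fin.sum_univ_two]
    linear_combination (-1)*hf - κ * hs1 + κ*b*hm1 - κ*b*hm

theorem ii3 (hp2 : f + g*a = 1 + c*γ) (hn : n = -γ-g*r) (hg : g * h2 = κ * s2 - 1)
    (hk2 : k2 = g*b + r*s2) :
    (!![1+n*y, n; -g*y, -g] : M2) * !![1-κ, -κ*k2-n*h2; κ*(c+y)-y, y*κ*k2+(1+n*y)*h2] =
      1 - κ • (uu r * !![f+g*a, g*b; g*c, s2]) := by
  apply M2_ext
  · simp [Matrix.mul_apply, Fin.sum_univ_two]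
    linear_combination κ * hp2 + κ*c*hn
  · simp [Matrix.mul_apply, Fin.sum_univ_two]
    linear_combination (-κ) * hk2
  · simp [Matrix.mul_apply, Fin.sum_univ_two]
    ring
  · simp [Matrix.mul_apply, Fin.sum_univ_two]
    linear_combination -hg

theorem ii4 (hs2 : s2 = 1 + c * γ') (hγ' : γ' = g^2*b - s2*γ) (hn : n = -γ-g*r)
    (hg : g * h2 = κ * s2 - 1) (hk2 : k2 = g*b + r*s2) (hm2 : m2 = n - γ') :
    (!![1-κ, -κ*k2-n*h2; κ*(c+y)-y, y*κ*k2+(1+n*y)*h2] : M2) * !![1+n*y, n; -g*y, -g] =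
      1 - κ • (ll (-c-y) * uu m2 * ll y) := by
  have hG : g * k2 + n * s2 = γ' := by
    linear_combination - hγ' + g*hk2 + s2*hn
  have hm2' : m2 = - (g * k2 + n * s2) + n := by
    linear_combination hm2 + hG
  apply M2_ext
  · simp [Matrix.mul_apply, Fin.sum_univ_two]
    linear_combination n*y * hg + κ*y*hm2'
  · simp [Matrix.mul_apply, Fin.sum_univ_two]
    linear_combination n*hg + κ*hm2'
  · simp [Matrix.mul_apply, Fin.sum_univ_two]
    linear_combination (-y*(1+n*y)) * hg + (-κ*(c+y)*y) * hm2' + (κ*y*c)*hG - κ*y*hs2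
  · simp [Matrix.mul_apply, Fin.sum_univ_two]
    linear_combination (-(1+n*y)) * hg + (-κ*(c+y)) * hm2' + (κ*c)*hG - κ*hs2

theorem iii1 (hκ : κ = f + g) (hm : m = f - κ*s1*(f-β)) (hn : n = -f + κ*s2*(f-γ))
    (hf : f * h1 = κ * s1 - 1) (hy : y = -h1) :
    κ • (!![s1-s2*(f-γ)*h1, s2*(f-γ); h1-s1, s1*(f-β)-1] : M2) =
      !![1+n*y, n; -g*y, -g] - !![0, -f; 1, m] := by
  apply M2_ext
  · simp
    linear_combination -hf + h1 * hn - n*hy
  · simp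
    linear_combination -hn
  · simp
    linear_combination hf + g * hy + h1*hκ
  · simp
    linear_combination hm - hκ

theorem iii2 (hκ : κ = f + g) (hm : m = f - κ*s1*(f-β)) (hn : n = -f + κ*s2*(f-γ))
    (hf : f * h1 = κ * s1 - 1) (hg : g * h2 = κ * s2 - 1) (hy : y = -h1) :
    κ • (!![f*c+s1*s+1-s1+s1*(f-β)*h1, -1+k2+s2-h2+s2*(f-γ)*h2;
      -(c+y), -b-y*k2-(s1-s2*(f-γ)*h1)*h2] : M2) =
      !![κ*(f*c+s1*s)-m*h1, 1-κ; h1, -κ*b] - !![1-κ, -κ*k2-n*h2; κ*(c+y)-y,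
        y*κ*k2+(1+n*y)*h2] := by
  apply M2_ext
  · simp
    linear_combination hf + h1 * hm
  · simp
    linear_combination -hg - h2 * hn - h2*hκ
  · simp
    linear_combination -hy
  · simp
    linear_combination h2 * hf - h1*h2*hn + h2*n*hy

end rel

theorem uu_mul_uu (x y : ℤ) : uu x * uu y = uu (x + y) := by
  apply M2_ext <;> simp [Matrix.mul_apply, Fin.sum_univ_two, add_comm]

theorem ll_mul_ll (x y : ℤ) : ll x * ll y = ll (x + y) := by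
  apply M2_ext <;> simp [Matrix.mul_apply, Fin.sum_univ_two]

theorem uu_zero : uu 0 = 1 := by
  apply M2_ext <;> simp

theorem ll_zero : ll 0 = 1 := by
  apply M2_ext <;> simp

/-- The explicit data for the block identity. -/
theorem ck_data (a b c d f g β γ : ℤ) (hdet : a*d - b*c = 1)
    (hfg : f^2 + (a+d)*f*g + g^2 = 1)
    (hp1 : g + f*a = 1 + b*β) (hp2 : f + g*a = 1 + c*γ) (hκ0 : f + g ≠ 0) :
    ∃ (r s y m1 m2 : ℤ) (X1 X2 X3 X4 X5 X6 : M2),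
      b4 (uu r * !![a, b; c, d] * ll s) 0 0
        (ll b * uu m1 * (ll (-y) * uu (-m2) * ll (c + y))) =
       b4 1 X1 0 1 * b4 1 0 X2 1 * b4 1 X3 0 1 * b4 1 0 X4 1 * b4 1 X5 0 1 * b4 1 0 X6 1 := by
  obtain ⟨κ, hκ⟩ : ∃ κ, κ = f + g := ⟨_, rfl⟩
  obtain ⟨s1, hs1⟩ : ∃ s1, s1 = g + f*d := ⟨_, rfl⟩
  obtain ⟨s2, hs2⟩ : ∃ s2, s2 = f + g*d := ⟨_, rfl⟩
  obtain ⟨β', hβ'⟩ : ∃ β', β' = f^2*c - s1*β := ⟨_, rfl⟩
  obtain ⟨γ', hγ'⟩ : ∃ γ', γ' = g^2*b - s2*γ := ⟨_, rfl⟩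
  obtain ⟨h1, hh1⟩ : ∃ h1, h1 = f*b*c + (1-a)*s1 := ⟨_, rfl⟩
  obtain ⟨h2, hh2⟩ : ∃ h2, h2 = g*b*c + (1-a)*s2 := ⟨_, rfl⟩
  obtain ⟨s, hs⟩ : ∃ s, s = -h1*(f-β) := ⟨_, rfl⟩
  obtain ⟨m, hm⟩ : ∃ m, m = β + f*s := ⟨_, rfl⟩
  obtain ⟨r, hr⟩ : ∃ r, r = -h2*(f-γ) := ⟨_, rfl⟩
  obtain ⟨n, hn⟩ : ∃ n, n = -γ-g*r := ⟨_, rfl⟩
  obtain ⟨y, hy⟩ : ∃ y, y = -h1 := ⟨_, rfl⟩
  obtain ⟨m1, hm1⟩ : ∃ m1, m1 = β + β' + f*s := ⟨_, rfl⟩
  obtain ⟨m2, hm2⟩ : ∃ m2, m2 = n - γ' := ⟨_, rfl⟩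
  obtain ⟨k2, hk2⟩ : ∃ k2, k2 = g*b + r*s2 := ⟨_, rfl⟩
  -- derived relations
  have e1 : s1 = 1 + b*β' := rel_s1 hdet hfg hp1 hs1 hβ'
  have hfg' : g^2 + (a+d)*g*f + f^2 = 1 := by linear_combination hfg
  have e2 : s2 = 1 + c*γ' := by
    refine rel_s1 (a := a) (b := c) (c := b) (d := d) (f := g) (g := f) (β := γ) ?_ hfg' hp2 hs2 hγ'
    linear_combination hdet
  have hdet' : a*d - c*b = 1 := by linear_combination hdet
  have e5 : f*h1 = κ*s1 - 1 := rel_h1 hdet hfg hκ hs1 hh1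
  have hκ' : κ = g + f := by rw [hκ, add_comm]
  have hh2' : h2 = g*c*b + (1-a)*s2 := by linear_combination hh2
  have e6 : g*h2 = κ*s2 - 1 := rel_h1 hdet' hfg' hκ' hs2 hh2'
  have e7 : m = f - κ*s1*(f-β) := by
    linear_combination hm + f*hs - (f-β)*e5
  have e8 : n = -f + κ*s2*(f-γ) := by
    linear_combination hn - g*hr + (f-γ)*e6
  refine ⟨r, s, y, m1, m2, ?_⟩
  have I1 := ii1 (c := c) (κ := κ) hp1 hm e5
  have I2 := ii2 e1 hβ' hm e5 hm1
  have I3 := ii3 (κ := κ) (y := y) hp2 hn e6 hk2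
  have I4 := ii4 (y := y) e2 hγ' hn e6 hk2 hm2
  have J1 := iii1 hκ e7 e8 e5 hy
  have J2 := iii2 (b := b) (c := c) (s := s) (k2 := k2) hκ e7 e8 e5 e6 hy
  have hE1 : !![g+f*a, f*b; f*c, s1] * !![s1, -(f*b); -(f*c), g+f*a] = (1 : M2) := by
    subst hs1
    apply M2_ext
    · simp [Matrix.mul_apply, Fin.sum_univ_two]
      linear_combination hfg + f^2 * hdet
    · simp [Matrix.mul_apply, Fin.sum_univ_two]
      ring
    · simp [Matrix.mul_apply, Fin.sum_univ_two]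
      ring
    · simp [Matrix.mul_apply, Fin.sum_univ_two]
      linear_combination hfg + f^2 * hdet
  have hE1' : !![s1, -(f*b); -(f*c), g+f*a] * !![g+f*a, f*b; f*c, s1] = (1 : M2) := by
    subst hs1
    apply M2_ext
    · simp [Matrix.mul_apply, Fin.sum_univ_two]
      linear_combination hfg + f^2 * hdet
    · simp [Matrix.mul_apply, Fin.sum_univ_two]
      ring
    · simp [Matrix.mul_apply, Fin.sum_univ_two]
      ring
    · simp [Matrix.mul_apply, Fin.sum_univ_two]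
      linear_combination hfg + f^2 * hdet
  have hE2 : !![f+g*a, g*b; g*c, s2] * !![s2, -(g*b); -(g*c), f+g*a] = (1 : M2) := by
    subst hs2
    apply M2_ext
    · simp [Matrix.mul_apply, Fin.sum_univ_two]
      linear_combination hfg + g^2 * hdet
    · simp [Matrix.mul_apply, Fin.sum_univ_two]
      ring
    · simp [Matrix.mul_apply, Fin.sum_univ_two]
      ring
    · simp [Matrix.mul_apply, Fin.sum_univ_two]
      linear_combination hfg + g^2 * hdet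
  have key := block_identity κ (by rw [hκ]; exact hκ0)
    (!![g+f*a, f*b; f*c, s1] * ll s) (ll (-s) * !![s1, -(f*b); -(f*c), g+f*a])
    (uu (-m1) * ll (-b)) (ll b * uu m1)
    (uu r * !![f+g*a, g*b; g*c, s2]) (!![s2, -(g*b); -(g*c), f+g*a] * uu (-r))
    (ll (-c-y) * uu m2 * ll y) (ll (-y) * uu (-m2) * ll (c+y))
    _ _ _ _
    (!![s1-s2*(f-γ)*h1, s2*(f-γ); h1-s1, s1*(f-β)-1] * (uu (-m1) * ll (-b))) _
    ?_ ?_ ?_ ?_ ?_ ?_ I1 I2 I3 I4 ?_ J2
  · have e : uu r * !![a, b; c, d] * ll s =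
        (uu r * !![f+g*a, g*b; g*c, s2]) * (!![g+f*a, f*b; f*c, s1] * ll s) := by
      have : !![f+g*a, g*b; g*c, s2] * !![g+f*a, f*b; f*c, s1] = !![a, b; c, d] := by
        subst hs1 hs2
        apply M2_ext
        · simp [Matrix.mul_apply, Fin.sum_univ_two]
          linear_combination a * hfg - f*g*hdet
        · simp [Matrix.mul_apply, Fin.sum_univ_two]
          linear_combination b * hfg
        · simp [Matrix.mul_apply, Fin.sum_univ_two]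
          linear_combination c * hfg
        · simp [Matrix.mul_apply, Fin.sum_univ_two]
          linear_combination d * hfg - f*g*hdet
      rw [← this]
      simp only [mul_assoc]
    rw [e]
    exact ⟨_, _, _, _, _, _, key⟩
  · rw [mul_assoc, ← mul_assoc _ _ (ll s), hE1', one_mul, ll_mul_ll]
    simp [ll_zero]
  · rw [mul_assoc, ← mul_assoc (ll s), ll_mul_ll, add_neg_cancel, ll_zero, one_mul, hE1]
  · rw [mul_assoc, ← mul_assoc (ll (-b)), ll_mul_ll, neg_add_cancel, ll_zero, one_mul, uu_mul_uu,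
      neg_add_cancel, uu_zero]
  · rw [mul_assoc, ← mul_assoc (uu m1), uu_mul_uu, add_neg_cancel, uu_zero, one_mul, ll_mul_ll,
      add_neg_cancel, ll_zero]
  · rw [mul_assoc, ← mul_assoc _ _ (uu (-r)), hE2, one_mul, uu_mul_uu, add_neg_cancel, uu_zero]
  · have : ll (-y) * uu (-m2) * ll (c+y) * (ll (-c-y) * uu m2 * ll y) =
        ll (-y) * (uu (-m2) * (ll (c+y) * ll (-c-y)) * uu m2) * ll y := by
      simp only [mul_assoc]
    rw [this, ll_mul_ll, show c + y + (-c-y) = 0 by ring, ll_zero, mul_one, uu_mul_uu,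
      neg_add_cancel, uu_zero, mul_one, ll_mul_ll, neg_add_cancel, ll_zero]
  · rw [← smul_mul_assoc, J1]

end Pool.Agent.Lib.MP_efa98f_al
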