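import Pool.Agent.Lib.MP_efa98f_al.FiveAll

namespace Pool.Agent.Lib.MP_efa98f_al

open Matrix

/-- `diag(E, F)` is a six-fold product when `F` is a short word. -/
theorem ck_plus (E : SLn 2) (z2 z3 z4 : ℤ) : Six (DB (E, Le z2 * Ue z3 * Le z4)) := by
  obtain ⟨ξ1, ξ2, ξ3, ξ4, a, b, c, d, f, g, β, γ, hE1, hfg, hp1, hp2, hκ⟩ := good_all E
  obtain ⟨E1, hE1d⟩ : ∃ E1 : SLn 2, E1 = E * Le ξ1 * Ue ξ2 * Le ξ3 * Ue ξ4 := ⟨_, rfl⟩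
  rw [← hE1d] at hE1
  have hdet : a * d - b * c = 1 := by
    have := E1.2
    rw [hE1, Matrix.det_fin_two] at this
    simpa using this
  obtain ⟨r, s, y, m1, m2, X1, X2, X3, X4, X5, X6, key⟩ := ck_data a b c d f g β γ hdet hfg hp1 hp2 hκ
  obtain ⟨T, hT⟩ : ∃ T : SLn 2, T = Ue r * E1 * Le s := ⟨_, rfl⟩
  obtain ⟨D, hD⟩ : ∃ D : SLn 2, D = Le b * Ue m1 * (Le (-y) * Ue (-m2) * Le (c + y)) := ⟨_, rfl⟩
  have key2 : DB (T, D) = RB X1 * CB X2 * RB X3 * CB X4 * RB X5 * CB X6 := by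
    apply Subtype.ext
    simp only [DB_val, SL_val_mul, hT, hD, hE1, Ue_val, Le_val, RB_val, CB_val]
    exact key
  obtain ⟨h, hh⟩ : ∃ h : SLn 2, h = Le b * (Le z2)⁻¹ := ⟨_, rfl⟩
  obtain ⟨D', hD'⟩ : ∃ D' : SLn 2, D' = h⁻¹ * D * h := ⟨_, rfl⟩
  obtain ⟨Y1, Y2, Y3, Y4, Y5, Y6, key3⟩ : ∃ Y1 Y2 Y3 Y4 Y5 Y6 : M2,
      DB (T, D') = RB Y1 * CB Y2 * RB Y3 * CB Y4 * RB Y5 * CB Y6 := by
    refine ⟨(1 : SLn 2)⁻¹.1 * X1 * h.1, h⁻¹.1 * X2 * (1 : SLn 2).1, (1 : SLn 2)⁻¹.1 * X3 * h.1,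
      h⁻¹.1 * X4 * (1 : SLn 2).1, (1 : SLn 2)⁻¹.1 * X5 * h.1, h⁻¹.1 * X6 * (1 : SLn 2).1, ?_⟩
    have e1 : DB (T, D') = (DB (1, h))⁻¹ * (DB (T, D) * DB (1, h)) := by
      rw [← map_inv, ← map_mul, ← map_mul, hD']
      congr 1
      rw [Prod.mk_mul_mk, Prod.inv_mk, Prod.mk_mul_mk]
      congr 1 <;> group
    rw [e1, key2, inv_mul_eq_iff_eq_mul]
    calc RB X1 * CB X2 * RB X3 * CB X4 * RB X5 * CB X6 * DB (1, h)
        = RB X1 * (CB X2 * (RB X3 * (CB X4 * (RB X5 * (CB X6 * DB (1, h)))))) := by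
          simp only [mul_assoc]
      _ = _ := by
          rw [CB_DB, ← mul_assoc (RB X5), RB_DB, mul_assoc (DB _), ← mul_assoc (CB X4), CB_DB,
            mul_assoc (DB _), ← mul_assoc (RB X3), RB_DB, mul_assoc (DB _), ← mul_assoc (CB X2),
            CB_DB, mul_assoc (DB _), ← mul_assoc (RB X1), RB_DB, mul_assoc (DB _)]
          simp only [mul_assoc]
  obtain ⟨A, hA⟩ : ∃ A : SLn 2, A = T⁻¹ * Ue r * E := ⟨_, rfl⟩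
  have hA' : A = 1 * Le (-s) * Ue (-ξ4) * Le (-ξ3) * Ue (-ξ2) * Le (-ξ1) := by
    rw [hA, hT, hE1d, ← Ue_inv, ← Le_inv, ← Le_inv, ← Le_inv, ← Ue_inv]
    group
  have hB' : D'⁻¹ * (Le z2 * Ue z3 * Le z4) =
      1 * (Le z2 * Le (-b) * Le (-(c+y))) * Ue m2 * Le y * (Ue (-m1) * Ue z3) * Le z4 := by
    have e1 : Ue m2 = (Ue (-m2))⁻¹ := by rw [Ue_inv, neg_neg]
    have e2 : Le y = (Le (-y))⁻¹ := by rw [Le_inv, neg_neg]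
    rw [hD', hD, hh, ← Le_inv (c+y), ← Ue_inv m1, ← Le_inv b, e1, e2]
    group
  have hsix : SixIn ((Up 2).prod (Up 2)) ((Lo 2).prod (Lo 2))
      (A, D'⁻¹ * (Le z2 * Ue z3 * Le z4)) := by
    refine ⟨(1, 1), ⟨(Up 2).one_mem, (Up 2).one_mem⟩, (Le (-s), Le z2 * Le (-b) * Le (-(c+y))),
      ⟨Le_mem _, (Lo 2).mul_mem ((Lo 2).mul_mem (Le_mem _) (Le_mem _)) (Le_mem _)⟩,
      (Ue (-ξ4), Ue m2), ⟨Ue_mem _, Ue_mem _⟩, (Le (-ξ3), Le y), ⟨Le_mem _, Le_mem _⟩,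
      (Ue (-ξ2), Ue (-m1) * Ue z3), ⟨Ue_mem _, (Up 2).mul_mem (Ue_mem _) (Ue_mem _)⟩,
      (Le (-ξ1), Le z4), ⟨Le_mem _, Le_mem _⟩, ?_⟩
    rw [hA', hB']
    rfl
  have hfin := (merge_b4 (X1 := Y1) (X2 := Y2) (X3 := Y3) (X4 := Y4) (X5 := Y5) (X6 := Y6)
    hsix).mul_left (DB_mem_Up (Ue_mem (-r)) (Up 2).one_mem)
  rw [← key3, ← map_mul, ← map_mul] at hfin
  convert hfin using 2
  rw [Prod.mk_mul_mk, Prod.mk_mul_mk, hA, ← Ue_inv]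
  congr 1 <;> group

theorem exists_b4 (M : Matrix (Fin 4) (Fin 4) ℤ) :
    M = b4 !![M 0 0, M 0 1; M 1 0, M 1 1] !![M 0 2, M 0 3; M 1 2, M 1 3]
      !![M 2 0, M 2 1; M 3 0, M 3 1] !![M 2 2, M 2 3; M 3 2, M 3 3] := by
  ext i j
  fin_cases i <;> fin_cases j <;> simp [b4]

/-- The lower right block is a short word in `SL_2`. -/
theorem six_V (g : SLn 4) (z2 z3 : ℤ)
    (hV : !![g.1 2 2, g.1 2 3; g.1 3 2, g.1 3 3] = ll z2 * uu z3) : Six g := by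
  obtain ⟨V, hVd⟩ : ∃ V : SLn 2, V = Le z2 * Ue z3 * Le 0 := ⟨_, rfl⟩
  have hV' : V.1 = !![g.1 2 2, g.1 2 3; g.1 3 2, g.1 3 3] := by
    rw [hV, hVd, SL_val_mul, SL_val_mul, Le_val, Ue_val, Le_val, ll_zero, mul_one]
  have hg := exists_b4 g.1
  rw [← hV'] at hg
  obtain ⟨A, hA⟩ : ∃ A : M2, A = !![g.1 0 0, g.1 0 1; g.1 1 0, g.1 1 1] := ⟨_, rfl⟩
  obtain ⟨B, hB⟩ : ∃ B : M2, B = !![g.1 0 2, g.1 0 3; g.1 1 2, g.1 1 3] := ⟨_, rfl⟩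
  obtain ⟨C, hC⟩ : ∃ C : M2, C = !![g.1 2 0, g.1 2 1; g.1 3 0, g.1 3 1] := ⟨_, rfl⟩
  rw [← hA, ← hB, ← hC] at hg
  have hVV : V.1 * V⁻¹.1 = 1 := by rw [← SL_val_mul, mul_inv_cancel]; rfl
  have hVV' : V⁻¹.1 * V.1 = 1 := by rw [← SL_val_mul, inv_mul_cancel]; rfl
  have hX : (RB (-(B * V⁻¹.1)) * g * CB (-(V⁻¹.1 * C))).1 = b4 (A - B * V⁻¹.1 * C) 0 0 V.1 := by
    rw [SL_val_mul, SL_val_mul, RB_val, CB_val, hg, b4_mul, b4_mul]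
    have e1 : -(B * V⁻¹.1) * V.1 = -B := by
      rw [neg_mul, mul_assoc, hVV', mul_one]
    have e2 : V.1 * -(V⁻¹.1 * C) = -C := by
      rw [mul_neg, ← mul_assoc, hVV, one_mul]
    simp only [one_mul, mul_one, zero_mul, zero_add, mul_zero, add_zero, e1, e2, add_neg_cancel]
    congr 1
    rw [neg_mul, sub_eq_add_neg]
  have hdet : (A - B * V⁻¹.1 * C).det = 1 := by
    have := (RB (-(B * V⁻¹.1)) * g * CB (-(V⁻¹.1 * C))).2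
    rw [hX, det_b4_D, V.2, mul_one] at this
    exact this
  obtain ⟨E, hE⟩ : ∃ E : SLn 2, E.1 = A - B * V⁻¹.1 * C := ⟨⟨_, hdet⟩, rfl⟩
  have hX' : RB (-(B * V⁻¹.1)) * g * CB (-(V⁻¹.1 * C)) = DB (E, V) := by
    apply Subtype.ext
    rw [hX, DB_val, hE]
  have hg' : g = RB (B * V⁻¹.1) * DB (E, V) * CB (V⁻¹.1 * C) := by
    rw [← hX']
    have r1 : RB (B * V⁻¹.1) * RB (-(B * V⁻¹.1)) = 1 := by
      apply Subtype.ext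
      rw [SL_val_mul, RB_val, RB_val, b4_mul]
      simp only [one_mul, mul_one, mul_zero, zero_mul, add_zero, zero_add, neg_add_cancel]
      exact b4_one
    have r2 : CB (-(V⁻¹.1 * C)) * CB (V⁻¹.1 * C) = 1 := by
      apply Subtype.ext
      rw [SL_val_mul, CB_val, CB_val, b4_mul]
      simp only [one_mul, mul_one, mul_zero, zero_mul, add_zero, zero_add, neg_add_cancel]
      exact b4_one
    calc g = 1 * g * 1 := by rw [one_mul, mul_one]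
      _ = (RB (B * V⁻¹.1) * RB (-(B * V⁻¹.1))) * g * (CB (-(V⁻¹.1 * C)) * CB (V⁻¹.1 * C)) := by
          rw [r1, r2]
      _ = _ := by simp only [mul_assoc]
  rw [hg', hVd]
  exact ((ck_plus E z2 z3 0).mul_left (RB_mem _)).mul_right (CB_mem _)

end Pool.Agent.Lib.MP_efa98f_al
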