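import Mathlib

set_option autoImplicit false

/-!
# MP_efa98f_al: a criterion for `g ∈ SL(3,ℤ)` to be a product of six unitriangular matrices

The word is `W = U(α₁) L(β₁) U(α₂) L(β₂) U(α₃) L(β₃)` with entries `W₁₁, …, W₂₂`.
-/

namespace Pool.Agent.Lib.MP_efa98f_al.Crit10

open Matrix

/-- The middle four factors. -/
theorem four {a1 a2 b1 b2 c1 c2 r1 r2 α2 β1 β2 α3 v1 v2 w1 w2 g11 g12 g21 g22 : ℤ}
    (h1 : a1 * b1 + a2 * b2 = -1)
    (hv1 : b1 + α2 * b2 = v1) (hv2 : β1 * b1 + (1 + β1 * α2) * b2 = v2)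
    (hw1 : a1 + a2 * β2 = w1) (hw2 : a1 * α3 + a2 * (1 + β2 * α3) = w2)
    (h11 : v1 * r1 + c1 * w1 + (1 + α2 * β2) = g11)
    (h12 : v1 * r2 + c1 * w2 + (α3 + α2 * (1 + β2 * α3)) = g12)
    (h21 : v2 * r1 + c2 * w1 + (β1 + (1 + β1 * α2) * β2) = g21)
    (h22 : v2 * r2 + c2 * w2 + (β1 * α3 + (1 + β1 * α2) * (1 + β2 * α3)) = g22) :
    (!![1, 0, 0; c1, 1, 0; c2, β1, 1] : Matrix (Fin 3) (Fin 3) ℤ) *
      !![1, a1, a2; 0, 1, α2; 0, 0, 1] *
      !![1, 0, 0; b1, 1, 0; b2, β2, 1] *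
      !![1, r1, r2; 0, 1, α3; 0, 0, 1] = !![0, w1, w2; v1, g11, g12; v2, g21, g22] := by
  ext i j
  fin_cases i <;> fin_cases j <;>
    simp only [Matrix.mul_apply, Fin.sum_univ_three, Matrix.of_apply, Matrix.cons_val', Matrix.cons_val_zero,
      Matrix.cons_val_one, Matrix.cons_val, Matrix.cons_val_fin_one, Fin.zero_eta, Fin.mk_one, Fin.isValue, Fin.reduceFinMk]
  · linear_combination h1
  · linear_combination r1 * h1 + hw1
  · linear_combination r2 * h1 + hw2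
  · linear_combination c1 * h1 + hv1
  · linear_combination c1 * r1 * h1 + c1 * hw1 + r1 * hv1 + h11
  · linear_combination c1 * r2 * h1 + c1 * hw2 + r2 * hv1 + h12
  · linear_combination c2 * h1 + hv2
  · linear_combination c2 * r1 * h1 + c2 * hw1 + r1 * hv2 + h21
  · linear_combination c2 * r2 * h1 + c2 * hw2 + r2 * hv2 + h22

/-- Rows 2 and 3 of the six-fold product, with the six-letter word given by its entries. -/
theorem rows {p q r s e1 e2 α1 β1 α2 β2 α3 β3 W11 W12 W21 W22 v1 v2 z1 z2 A1 A2 c1 c2 l : ℤ}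
    (hl : l * l = 1)
    -- the word `L(β₁) U(α₂) L(β₂) U(α₃)`
    {m11 m12 m21 m22 : ℤ}
    (hm11 : m11 = 1 + α2 * β2) (hm12 : m12 = α3 + α2 * (1 + β2 * α3))
    (hm21 : m21 = β1 + (1 + β1 * α2) * β2)
    (hm22 : m22 = β1 * α3 + (1 + β1 * α2) * (1 + β2 * α3))
    -- the full word
    (hW12 : W12 = m12 + α1 * m22) (hW22 : W22 = m22)
    (hW11 : W11 = (m11 + α1 * m21) + W12 * β3) (hW21 : W21 = m21 + W22 * β3)
    (he1 : e1 = v1 + p * z1 + q * z2) (he2 : e2 = v2 + r * z1 + s * z2)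
    (hA1 : A1 = s * v1 - q * v2) (hA2 : A2 = -r * v1 + p * v2)
    (hc1 : c1 = W11 * A1 + W12 * A2) (hc2 : c2 = W21 * A1 + W22 * A2)
    (hF : v1 * c2 - v2 * c1 = l) :
    ∃ a1 a2 b1 b2 c1' c2' r1 r2 o w1 w2 : ℤ,
      (!![1, 0, 0; 0, 1, α1; 0, 0, 1] : Matrix (Fin 3) (Fin 3) ℤ) *
      (!![1, 0, 0; c1', 1, 0; c2', β1, 1] *
      !![1, a1, a2; 0, 1, α2; 0, 0, 1] *
      !![1, 0, 0; b1, 1, 0; b2, β2, 1] *
      !![1, r1, r2; 0, 1, α3; 0, 0, 1]) *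
      !![1, 0, 0; z1, 1, 0; z2 + β3 * z1, β3, 1] = !![o, w1, w2; e1, p, q; e2, r, s] := by
  -- determinant of the word
  have hdet : W11 * W22 - W12 * W21 = 1 := by
    rw [hW11, hW21, hW22, hW12, hm11, hm12, hm21, hm22]; ring
  -- the row `w'`
  obtain ⟨w1, hw1⟩ : ∃ w, w = l * (-v2 * (p - W11) + v1 * (r - W21)) := ⟨_, rfl⟩
  obtain ⟨w2, hw2⟩ : ∃ w, w = l * (-v2 * (q - W12) + v1 * (s - W22)) := ⟨_, rfl⟩
  -- the row `r'`
  obtain ⟨r1, hr1⟩ : ∃ w, w = l * (c2 * (p - W11) - c1 * (r - W21)) := ⟨_, rfl⟩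
  obtain ⟨r2, hr2⟩ : ∃ w, w = l * (c2 * (q - W12) - c1 * (s - W22)) := ⟨_, rfl⟩
  -- the decomposition `G - W = v r' + c w'`
  have g11 : v1 * r1 + c1 * w1 = p - W11 := by
    rw [hr1, hw1]; linear_combination (p - W11) * l * hF + (p - W11) * hl
  have g12 : v1 * r2 + c1 * w2 = q - W12 := by
    rw [hr2, hw2]; linear_combination (q - W12) * l * hF + (q - W12) * hl
  have g21 : v2 * r1 + c2 * w1 = r - W21 := by
    rw [hr1, hw1]; linear_combination (r - W21) * l * hF + (r - W21) * hl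
  have g22 : v2 * r2 + c2 * w2 = s - W22 := by
    rw [hr2, hw2]; linear_combination (s - W22) * l * hF + (s - W22) * hl
  -- `w' W⁻¹ v = -1`
  have hab : w1 * (W22 * v1 - W12 * v2) + w2 * (-W21 * v1 + W11 * v2) = -1 := by
    have hF' : v1 * (W21 * (s * v1 - q * v2) + W22 * (-r * v1 + p * v2)) -
        v2 * (W11 * (s * v1 - q * v2) + W12 * (-r * v1 + p * v2)) = l := by
      rw [← hA1, ← hA2, ← hc1, ← hc2]; exact hF
    rw [hw1, hw2]
    linear_combination (-l) * hF' - hl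
  -- the vectors after moving the blocks
  obtain ⟨x1, hx1⟩ : ∃ x, x = v1 - α1 * v2 := ⟨_, rfl⟩
  obtain ⟨b2, hb2⟩ : ∃ x, x = v2 - β1 * x1 := ⟨_, rfl⟩
  obtain ⟨b1, hb1⟩ : ∃ x, x = x1 - α2 * b2 := ⟨_, rfl⟩
  obtain ⟨y1, hy1⟩ : ∃ x, x = w1 - β3 * w2 := ⟨_, rfl⟩
  obtain ⟨a2, ha2⟩ : ∃ x, x = w2 - α3 * y1 := ⟨_, rfl⟩
  obtain ⟨a1, ha1⟩ : ∃ x, x = y1 - β2 * a2 := ⟨_, rfl⟩
  refine ⟨a1, a2, b1, b2, c1 - α1 * c2, c2, r1 - β3 * r2, r2, w1 * z1 + w2 * z2, w1, w2, ?_⟩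
  rw [four (v1 := x1) (v2 := v2) (w1 := y1) (w2 := w2)
    (g11 := (p - α1 * r) - (q - α1 * s) * β3) (g12 := q - α1 * s)
    (g21 := r - s * β3) (g22 := s)]
  · ext i j
    fin_cases i <;> fin_cases j <;>
      simp only [Matrix.mul_apply, Fin.sum_univ_three, Matrix.of_apply, Matrix.cons_val', Matrix.cons_val_zero,
        Matrix.cons_val_one, Matrix.cons_val, Matrix.cons_val_fin_one, Fin.zero_eta, Fin.mk_one, Fin.isValue, Fin.reduceFinMk]
    · rw [hy1]; ring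
    · rw [hy1]; ring
    · ring
    · rw [he1, hx1]; ring
    · ring
    · ring
    · rw [he2]; ring
    · ring
    · ring
  · -- a·b = -1
    rw [ha1, ha2, hb1, hb2, hy1, hx1]
    rw [hW11, hW21, hW22, hW12, hm11, hm12, hm21, hm22] at hab
    linear_combination hab
  · rw [hb1]; ring
  · rw [hb1, hb2]; ring
  · rw [ha1]; ring
  · rw [ha1, ha2]; ring
  · rw [hx1, hy1]
    rw [hW11, hW12] at g11
    rw [hW12] at g12
    rw [hW21, hW22] at g21
    rw [hW22] at g22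
    linear_combination g11 - α1 * g21 - β3 * g12 + α1 * β3 * g22 - hm11
  · rw [hx1]
    rw [hW12] at g12
    rw [hW22] at g22
    linear_combination g12 - α1 * g22 - hm12
  · rw [hy1]
    rw [hW21, hW22] at g21
    rw [hW22] at g22
    linear_combination g21 - β3 * g22 - hm21
  · rw [hW22] at g22
    linear_combination g22 - hm22

end Pool.Agent.Lib.MP_efa98f_al.Crit10
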