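import Mathlib

set_option autoImplicit false

/-!
# MP_efa98f_al: from `diag(A,1)` to all `g ∈ SL(3,ℤ)` with `g₃₃ = 1` or `δ(g) = 1`
-/

open scoped Pointwise

namespace Pool.Agent.Lib.MP_efa98f_al.Ext11

/-- upper unitriangular -/
def upU : Set (Matrix.SpecialLinearGroup (Fin 3) ℤ) :=
  {g | (∀ i, g i i = 1) ∧ ∀ i j, j < i → g i j = 0}

/-- lower unitriangular -/
def loU : Set (Matrix.SpecialLinearGroup (Fin 3) ℤ) :=
  {g | (∀ i, g i i = 1) ∧ ∀ i j, i < j → g i j = 0}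

theorem mem_upU_iff (g : Matrix.SpecialLinearGroup (Fin 3) ℤ) : g ∈ upU ↔
    ∃ p q r : ℤ, g.1 = !![1, p, q; 0, 1, r; 0, 0, 1] := by
  constructor
  · rintro ⟨h1, h2⟩
    refine ⟨g.1 0 1, g.1 0 2, g.1 1 2, ?_⟩
    ext i j
    fin_cases i <;> fin_cases j
    · exact h1 0
    · rfl
    · rfl
    · exact h2 1 0 (by decide)
    · exact h1 1
    · rfl
    · exact h2 2 0 (by decide)
    · exact h2 2 1 (by decide)
    · exact h1 2
  · rintro ⟨p, q, r, h⟩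
    refine ⟨?_, ?_⟩
    · intro i
      show g.1 i i = 1
      rw [h]
      fin_cases i <;> rfl
    · intro i j hij
      show g.1 i j = 0
      rw [h]
      fin_cases i <;> fin_cases j <;> first | rfl | (exfalso; revert hij; decide)

theorem mem_loU_iff (g : Matrix.SpecialLinearGroup (Fin 3) ℤ) : g ∈ loU ↔
    ∃ p q r : ℤ, g.1 = !![1, 0, 0; p, 1, 0; q, r, 1] := by
  constructor
  · rintro ⟨h1, h2⟩
    refine ⟨g.1 1 0, g.1 2 0, g.1 2 1, ?_⟩
    ext i j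
    fin_cases i <;> fin_cases j
    · exact h1 0
    · exact h2 0 1 (by decide)
    · exact h2 0 2 (by decide)
    · rfl
    · exact h1 1
    · exact h2 1 2 (by decide)
    · rfl
    · rfl
    · exact h1 2
  · rintro ⟨p, q, r, h⟩
    refine ⟨?_, ?_⟩
    · intro i
      show g.1 i i = 1
      rw [h]
      fin_cases i <;> rfl
    · intro i j hij
      show g.1 i j = 0
      rw [h]
      fin_cases i <;> fin_cases j <;> first | rfl | (exfalso; revert hij; decide)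

/-- the element with given upper unitriangular matrix -/
def up (p q r : ℤ) : Matrix.SpecialLinearGroup (Fin 3) ℤ :=
  ⟨!![1, p, q; 0, 1, r; 0, 0, 1], by rw [Matrix.det_fin_three]; simp⟩

/-- the element with given lower unitriangular matrix -/
def lo (p q r : ℤ) : Matrix.SpecialLinearGroup (Fin 3) ℤ :=
  ⟨!![1, 0, 0; p, 1, 0; q, r, 1], by rw [Matrix.det_fin_three]; simp⟩

theorem up_mem (p q r : ℤ) : up p q r ∈ upU := (mem_upU_iff _).2 ⟨p, q, r, rfl⟩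

theorem lo_mem (p q r : ℤ) : lo p q r ∈ loU := (mem_loU_iff _).2 ⟨p, q, r, rfl⟩

theorem up_mul {g h : Matrix.SpecialLinearGroup (Fin 3) ℤ} (hg : g ∈ upU) (hh : h ∈ upU) :
    g * h ∈ upU := by
  obtain ⟨p, q, r, e⟩ := (mem_upU_iff g).1 hg
  obtain ⟨p', q', r', e'⟩ := (mem_upU_iff h).1 hh
  refine (mem_upU_iff _).2 ⟨p' + p, q' + p * r' + q, r' + r, ?_⟩
  show g.1 * h.1 = _
  rw [e, e']
  ext i j
  fin_cases i <;> fin_cases j <;> simp [Matrix.mul_apply, Fin.sum_univ_three]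

theorem lo_mul {g h : Matrix.SpecialLinearGroup (Fin 3) ℤ} (hg : g ∈ loU) (hh : h ∈ loU) :
    g * h ∈ loU := by
  obtain ⟨p, q, r, e⟩ := (mem_loU_iff g).1 hg
  obtain ⟨p', q', r', e'⟩ := (mem_loU_iff h).1 hh
  refine (mem_loU_iff _).2 ⟨p + p', q + r * p' + q', r + r', ?_⟩
  show g.1 * h.1 = _
  rw [e, e']
  ext i j
  fin_cases i <;> fin_cases j <;> simp [Matrix.mul_apply, Fin.sum_univ_three]

/-- the six-fold product -/
def S : Set (Matrix.SpecialLinearGroup (Fin 3) ℤ) := upU * loU * upU * loU * upU * loU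

theorem absorb {u g l : Matrix.SpecialLinearGroup (Fin 3) ℤ} (hu : u ∈ upU) (hg : g ∈ S)
    (hl : l ∈ loU) : u * g * l ∈ S := by
  obtain ⟨g5, h5, l3, hl3, rfl⟩ := hg
  obtain ⟨g4, h4, u3, hu3, rfl⟩ := h5
  obtain ⟨g3, h3, l2, hl2, rfl⟩ := h4
  obtain ⟨g2, h2, u2, hu2, rfl⟩ := h3
  obtain ⟨u1, hu1, l1, hl1, rfl⟩ := h2
  have e : u * (u1 * l1 * u2 * l2 * u3 * l3) * l = (u * u1) * l1 * u2 * l2 * u3 * (l3 * l) := by
    group
  show u * (u1 * l1 * u2 * l2 * u3 * l3) * l ∈ S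
  rw [e]
  exact Set.mul_mem_mul (Set.mul_mem_mul (Set.mul_mem_mul (Set.mul_mem_mul
    (Set.mul_mem_mul (up_mul hu hu1) hl1) hu2) hl2) hu3) (lo_mul hl3 hl)

/-- the antidiagonal involution -/
def w : Matrix.SpecialLinearGroup (Fin 3) ℤ :=
  ⟨!![0, 0, 1; 0, -1, 0; 1, 0, 0], by rw [Matrix.det_fin_three]; simp⟩

theorem w_sq : w * w = 1 := by
  apply Subtype.ext
  show w.1 * w.1 = 1
  unfold w
  ext i j
  fin_cases i <;> fin_cases j <;> simp [Matrix.mul_apply, Fin.sum_univ_three]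

theorem w_inv_up {u : Matrix.SpecialLinearGroup (Fin 3) ℤ} (hu : u ∈ upU) :
    w * u⁻¹ * w ∈ loU := by
  obtain ⟨p, q, r, e⟩ := (mem_upU_iff u).1 hu
  refine (mem_loU_iff _).2 ⟨r, p * r - q, p, ?_⟩
  have e1 : u⁻¹ = up (-p) (p * r - q) (-r) := by
    rw [inv_eq_iff_mul_eq_one]
    apply Subtype.ext
    show u.1 * (up (-p) (p * r - q) (-r)).1 = 1
    rw [e]
    unfold up
    ext i j
    fin_cases i <;> fin_cases j <;> (simp [Matrix.mul_apply, Fin.sum_univ_three] <;> ring)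
  rw [e1]
  show w.1 * (up (-p) (p * r - q) (-r)).1 * w.1 = _
  unfold w up
  ext i j
  fin_cases i <;> fin_cases j <;> simp [Matrix.mul_apply, Fin.sum_univ_three]

theorem w_inv_lo {u : Matrix.SpecialLinearGroup (Fin 3) ℤ} (hu : u ∈ loU) :
    w * u⁻¹ * w ∈ upU := by
  obtain ⟨p, q, r, e⟩ := (mem_loU_iff u).1 hu
  refine (mem_upU_iff _).2 ⟨r, p * r - q, p, ?_⟩
  have e1 : u⁻¹ = lo (-p) (p * r - q) (-r) := by
    rw [inv_eq_iff_mul_eq_one]
    apply Subtype.ext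
    show u.1 * (lo (-p) (p * r - q) (-r)).1 = 1
    rw [e]
    unfold lo
    ext i j
    fin_cases i <;> fin_cases j <;> (simp [Matrix.mul_apply, Fin.sum_univ_three] <;> ring)
  rw [e1]
  show w.1 * (lo (-p) (p * r - q) (-r)).1 * w.1 = _
  unfold w lo
  ext i j
  fin_cases i <;> fin_cases j <;> simp [Matrix.mul_apply, Fin.sum_univ_three]

theorem sym {g : Matrix.SpecialLinearGroup (Fin 3) ℤ} (hg : g ∈ S) : w * g⁻¹ * w ∈ S := by
  obtain ⟨g5, h5, l3, hl3, rfl⟩ := hg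
  obtain ⟨g4, h4, u3, hu3, rfl⟩ := h5
  obtain ⟨g3, h3, l2, hl2, rfl⟩ := h4
  obtain ⟨g2, h2, u2, hu2, rfl⟩ := h3
  obtain ⟨u1, hu1, l1, hl1, rfl⟩ := h2
  have hw : w⁻¹ = w := by
    rw [inv_eq_iff_mul_eq_one]; exact w_sq
  have e : w * (u1 * l1 * u2 * l2 * u3 * l3)⁻¹ * w =
      (w * l3⁻¹ * w) * (w * u3⁻¹ * w) * (w * l2⁻¹ * w) * (w * u2⁻¹ * w) * (w * l1⁻¹ * w) *
        (w * u1⁻¹ * w) := by
    have h : ∀ x y : Matrix.SpecialLinearGroup (Fin 3) ℤ,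
        (w * x * w) * (w * y * w) = w * (x * y) * w := by
      intro x y
      calc (w * x * w) * (w * y * w) = w * x * (w * w) * y * w := by group
        _ = w * (x * y) * w := by rw [w_sq]; group
    rw [h, h, h, h, h]
    group
  show w * (u1 * l1 * u2 * l2 * u3 * l3)⁻¹ * w ∈ S
  rw [e]
  exact Set.mul_mem_mul (Set.mul_mem_mul (Set.mul_mem_mul (Set.mul_mem_mul
    (Set.mul_mem_mul (w_inv_lo hl3) (w_inv_up hu3)) (w_inv_lo hl2)) (w_inv_up hu2))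
    (w_inv_lo hl1)) (w_inv_up hu1)

/-- the minor `δ` -/
def delta (g : Matrix.SpecialLinearGroup (Fin 3) ℤ) : ℤ :=
  g.1 1 1 * g.1 2 2 - g.1 1 2 * g.1 2 1

theorem conj_entry (g : Matrix.SpecialLinearGroup (Fin 3) ℤ) :
    (w * g⁻¹ * w).1 2 2 = delta g ∧ delta (w * g⁻¹ * w) = g.1 2 2 := by
  have hdet := g.2
  rw [Matrix.det_fin_three] at hdet
  have e : (w * g⁻¹ * w).1 = w.1 * g.1.adjugate * w.1 := by
    show w.1 * (g⁻¹).1 * w.1 = _
    rw [Matrix.SpecialLinearGroup.coe_inv]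
  unfold delta
  rw [e, Matrix.adjugate_fin_three]
  unfold w
  constructor
  · simp [Matrix.mul_apply, Fin.sum_univ_three]
  · simp [Matrix.mul_apply, Fin.sum_univ_three]
    linear_combination (g.1 2 2) * hdet

theorem first {P : ℤ → ℤ → Prop} (H : ∀ a b c d : ℤ, a * d - b * c = 1 → P c d →
      ∀ g : Matrix.SpecialLinearGroup (Fin 3) ℤ,
      g.1 = !![a, b, 0; c, d, 0; 0, 0, 1] → g ∈ S)
    (g : Matrix.SpecialLinearGroup (Fin 3) ℤ) (h1 : g.1 2 2 = 1)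
    (h2 : P (g.1 1 0 - g.1 1 2 * g.1 2 0) (delta g)) :
    g ∈ S := by
  have hdet := g.2
  rw [Matrix.det_fin_three] at hdet
  set h : Matrix.SpecialLinearGroup (Fin 3) ℤ :=
    up 0 (-g.1 0 2) (-g.1 1 2) * g * lo 0 (-g.1 2 0) (-g.1 2 1) with hh
  have hm : h.1 = !![g.1 0 0 - g.1 0 2 * g.1 2 0, g.1 0 1 - g.1 0 2 * g.1 2 1, 0;
      g.1 1 0 - g.1 1 2 * g.1 2 0, g.1 1 1 - g.1 1 2 * g.1 2 1, 0; 0, 0, 1] := by
    have key : ∀ a b c d e f k l : ℤ,
        (!![1, 0, -c; 0, 1, -f; 0, 0, 1] * !![a, b, c; d, e, f; k, l, 1] *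
          !![1, 0, 0; 0, 1, 0; -k, -l, 1] : Matrix (Fin 3) (Fin 3) ℤ) =
        !![a - c * k, b - c * l, 0; d - f * k, e - f * l, 0; 0, 0, 1] := by
      intro a b c d e f k l
      ext i j
      fin_cases i <;> fin_cases j <;> simp [Matrix.mul_apply, Fin.sum_univ_three] <;> ring
    have hg : g.1 = !![g.1 0 0, g.1 0 1, g.1 0 2; g.1 1 0, g.1 1 1, g.1 1 2;
        g.1 2 0, g.1 2 1, 1] := by
      ext i j
      fin_cases i <;> fin_cases j <;> first | rfl | exact h1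
    rw [hh]
    show (up 0 (-g.1 0 2) (-g.1 1 2)).1 * g.1 * (lo 0 (-g.1 2 0) (-g.1 2 1)).1 = _
    rw [← key, ← hg]
    rfl
  have hd : delta g = g.1 1 1 - g.1 1 2 * g.1 2 1 := by
    unfold delta
    rw [h1, mul_one]
  have hS : h ∈ S := by
    refine H _ _ _ _ ?_ ?_ h hm
    · rw [h1] at hdet
      linear_combination hdet
    · rw [← hd]; exact h2
  have e : g = up 0 (g.1 0 2) (g.1 1 2) * h * lo 0 (g.1 2 0) (g.1 2 1) := by
    have e1 : up 0 (g.1 0 2) (g.1 1 2) * up 0 (-g.1 0 2) (-g.1 1 2) = 1 := by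
      apply Subtype.ext
      show (up 0 (g.1 0 2) (g.1 1 2)).1 * (up 0 (-g.1 0 2) (-g.1 1 2)).1 = 1
      unfold up
      ext i j
      fin_cases i <;> fin_cases j <;> simp [Matrix.mul_apply, Fin.sum_univ_three]
    have e2 : lo 0 (-g.1 2 0) (-g.1 2 1) * lo 0 (g.1 2 0) (g.1 2 1) = 1 := by
      apply Subtype.ext
      show (lo 0 (-g.1 2 0) (-g.1 2 1)).1 * (lo 0 (g.1 2 0) (g.1 2 1)).1 = 1
      unfold lo
      ext i j
      fin_cases i <;> fin_cases j <;> simp [Matrix.mul_apply, Fin.sum_univ_three]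
    rw [hh]
    calc g = (up 0 (g.1 0 2) (g.1 1 2) * up 0 (-g.1 0 2) (-g.1 1 2)) * g *
          (lo 0 (-g.1 2 0) (-g.1 2 1) * lo 0 (g.1 2 0) (g.1 2 1)) := by rw [e1, e2]; group
      _ = _ := by group
  rw [e]
  exact absorb (up_mem _ _ _) hS (lo_mem _ _ _)

/-- the residue for `w g⁻¹ w` -/
theorem conj_c (g : Matrix.SpecialLinearGroup (Fin 3) ℤ) (h1 : delta g = 1) :
    (w * g⁻¹ * w).1 1 0 - (w * g⁻¹ * w).1 1 2 * (w * g⁻¹ * w).1 2 0 = g.1 1 2 := by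
  have hdet := g.2
  rw [Matrix.det_fin_three] at hdet
  unfold delta at h1
  have e : (w * g⁻¹ * w).1 = w.1 * g.1.adjugate * w.1 := by
    show w.1 * (g⁻¹).1 * w.1 = _
    rw [Matrix.SpecialLinearGroup.coe_inv]
  have e10 : (w * g⁻¹ * w).1 1 0 = g.1 0 0 * g.1 1 2 - g.1 0 2 * g.1 1 0 := by
    rw [e, Matrix.adjugate_fin_three]
    unfold w
    simp [Matrix.mul_apply, Fin.sum_univ_three]
    try ring
  have e12 : (w * g⁻¹ * w).1 1 2 = g.1 1 0 * g.1 2 2 - g.1 1 2 * g.1 2 0 := by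
    rw [e, Matrix.adjugate_fin_three]
    unfold w
    simp [Matrix.mul_apply, Fin.sum_univ_three]
    try ring
  have e20 : (w * g⁻¹ * w).1 2 0 = g.1 0 1 * g.1 1 2 - g.1 0 2 * g.1 1 1 := by
    rw [e, Matrix.adjugate_fin_three]
    unfold w
    simp [Matrix.mul_apply, Fin.sum_univ_three]
    try ring
  rw [e10, e12, e20]
  generalize g.1 0 0 = a at *
  generalize g.1 0 1 = b at *
  generalize g.1 0 2 = c at *
  generalize g.1 1 0 = p at *
  generalize g.1 1 1 = q at *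
  generalize g.1 1 2 = r at *
  generalize g.1 2 0 = x at *
  generalize g.1 2 1 = y at *
  generalize g.1 2 2 = z at *
  linear_combination r * hdet - (a * r - c * p) * h1

/-- all `g` with `g₃₃ = 1` or `δ = 1`, with a condition `P c d` -/
theorem extP {P : ℤ → ℤ → Prop} (H : ∀ a b c d : ℤ, a * d - b * c = 1 → P c d →
      ∀ g : Matrix.SpecialLinearGroup (Fin 3) ℤ,
      g.1 = !![a, b, 0; c, d, 0; 0, 0, 1] → g ∈ S)
    (g : Matrix.SpecialLinearGroup (Fin 3) ℤ)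
    (h : (g.1 2 2 = 1 ∧ P (g.1 1 0 - g.1 1 2 * g.1 2 0)
          (g.1 1 1 * g.1 2 2 - g.1 1 2 * g.1 2 1)) ∨
      (g.1 1 1 * g.1 2 2 - g.1 1 2 * g.1 2 1 = 1 ∧ P (g.1 1 2) (g.1 2 2))) :
    g ∈ upU * loU * upU * loU * upU * loU := by
  rcases h with ⟨h1, h2⟩ | ⟨h1, h2⟩
  · exact first H g h1 h2
  · obtain ⟨e1, e2⟩ := conj_entry g
    have h3 : w * g⁻¹ * w ∈ S := by
      refine first H _ (e1.trans h1) ?_
      rw [e2, conj_c g h1]
      exact h2
    have h4 := sym h3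
    have e : w * (w * g⁻¹ * w)⁻¹ * w = g := by
      have hw : w⁻¹ = w := by
        rw [inv_eq_iff_mul_eq_one]; exact w_sq
      calc w * (w * g⁻¹ * w)⁻¹ * w = w * w⁻¹ * g * (w⁻¹ * w) := by group
        _ = g := by group
    rw [e] at h4
    exact h4

/-- all `g` with `g₃₃ = 1` or `δ = 1`, from all `diag(A,1)` -/
theorem ext_all (H : ∀ a b c d : ℤ, a * d - b * c = 1 →
      ∀ g : Matrix.SpecialLinearGroup (Fin 3) ℤ,
      g.1 = !![a, b, 0; c, d, 0; 0, 0, 1] → g ∈ upU * loU * upU * loU * upU * loU)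
    (g : Matrix.SpecialLinearGroup (Fin 3) ℤ)
    (h : g.1 2 2 = 1 ∨ g.1 1 1 * g.1 2 2 - g.1 1 2 * g.1 2 1 = 1) :
    g ∈ upU * loU * upU * loU * upU * loU :=
  extP (P := fun _ _ => True) (fun a b c d h0 _ k hk => H a b c d h0 k hk) g
    (h.imp (fun h1 => ⟨h1, trivial⟩) fun h1 => ⟨h1, trivial⟩)

end Pool.Agent.Lib.MP_efa98f_al.Ext11
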