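import Pool.Agent.Lib.MP_efa98f_al.Crit10
import Pool.Agent.Lib.MP_efa98f_al.Ext11

set_option autoImplicit false

/-!
# MP_efa98f_al: the criterion inside the group `SL(3,ℤ)`
-/

open scoped Pointwise

namespace Pool.Agent.Lib.MP_efa98f_al.Crit10

open Matrix Ext11

/-- Two elements of `SL(3,ℤ)` with the same second and third row differ by an upper unitriangular
factor on the left. -/
theorem same_rows (g m : Matrix.SpecialLinearGroup (Fin 3) ℤ)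
    (h1 : ∀ j, g.1 1 j = m.1 1 j) (h2 : ∀ j, g.1 2 j = m.1 2 j) : g * m⁻¹ ∈ upU := by
  have key : ∀ i j, (g * m⁻¹).1 i j = ∑ k, g.1 i k * (m⁻¹).1 k j := by
    intro i j
    show (g.1 * (m⁻¹).1) i j = _
    rw [Matrix.mul_apply]
  have key' : ∀ i j, ∑ k, m.1 i k * (m⁻¹).1 k j = (1 : Matrix (Fin 3) (Fin 3) ℤ) i j := by
    intro i j
    rw [← Matrix.mul_apply]
    have : m.1 * (m⁻¹).1 = (m * m⁻¹).1 := rfl
    rw [this, mul_inv_cancel]
    rfl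
  have r1 : ∀ j, (g * m⁻¹).1 1 j = (1 : Matrix (Fin 3) (Fin 3) ℤ) 1 j := by
    intro j
    rw [key, ← key']
    exact Finset.sum_congr rfl fun k _ => by rw [h1]
  have r2 : ∀ j, (g * m⁻¹).1 2 j = (1 : Matrix (Fin 3) (Fin 3) ℤ) 2 j := by
    intro j
    rw [key, ← key']
    exact Finset.sum_congr rfl fun k _ => by rw [h2]
  have hdet := (g * m⁻¹).2
  rw [Matrix.det_fin_three] at hdet
  have a10 : (g * m⁻¹).1 1 0 = 0 := by rw [r1]; rfl
  have a11 : (g * m⁻¹).1 1 1 = 1 := by rw [r1]; rfl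
  have a12 : (g * m⁻¹).1 1 2 = 0 := by rw [r1]; rfl
  have a20 : (g * m⁻¹).1 2 0 = 0 := by rw [r2]; rfl
  have a21 : (g * m⁻¹).1 2 1 = 0 := by rw [r2]; rfl
  have a22 : (g * m⁻¹).1 2 2 = 1 := by rw [r2]; rfl
  rw [a10, a11, a12, a20, a21, a22] at hdet
  have a00 : (g * m⁻¹).1 0 0 = 1 := by linarith
  refine (mem_upU_iff _).2 ⟨(g * m⁻¹).1 0 1, (g * m⁻¹).1 0 2, 0, ?_⟩
  ext i j
  fin_cases i <;> fin_cases j
  · exact a00
  · rfl
  · rfl
  · exact a10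
  · exact a11
  · exact a12
  · exact a20
  · exact a21
  · exact a22

/-- **The criterion.** `g ∈ SL(3,ℤ)` with second row `(e₁, p, q)`, third row `(e₂, r, s)`,
`W = U(α₁) L(β₁) U(α₂) L(β₂) U(α₃) L(β₃)` and a vector `v ≡ e mod G ℤ²` with
`det(v, W adj(G) v) = ±1`. -/
theorem crit (g : Matrix.SpecialLinearGroup (Fin 3) ℤ)
    {p q r s e1 e2 α1 β1 α2 β2 α3 β3 W11 W12 W21 W22 v1 v2 z1 z2 : ℤ}
    (hg1 : g.1 1 0 = e1) (hg2 : g.1 1 1 = p) (hg3 : g.1 1 2 = q)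
    (hg4 : g.1 2 0 = e2) (hg5 : g.1 2 1 = r) (hg6 : g.1 2 2 = s)
    {m11 m12 m21 m22 : ℤ}
    (hm11 : m11 = 1 + α2 * β2) (hm12 : m12 = α3 + α2 * (1 + β2 * α3))
    (hm21 : m21 = β1 + (1 + β1 * α2) * β2)
    (hm22 : m22 = β1 * α3 + (1 + β1 * α2) * (1 + β2 * α3))
    (hW12 : W12 = m12 + α1 * m22) (hW22 : W22 = m22)
    (hW11 : W11 = (m11 + α1 * m21) + W12 * β3) (hW21 : W21 = m21 + W22 * β3)
    (he1 : e1 = v1 + p * z1 + q * z2) (he2 : e2 = v2 + r * z1 + s * z2)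
    (hF : v1 * (W21 * (s * v1 - q * v2) + W22 * (-r * v1 + p * v2)) -
        v2 * (W11 * (s * v1 - q * v2) + W12 * (-r * v1 + p * v2)) = 1 ∨
      v1 * (W21 * (s * v1 - q * v2) + W22 * (-r * v1 + p * v2)) -
        v2 * (W11 * (s * v1 - q * v2) + W12 * (-r * v1 + p * v2)) = -1) :
    g ∈ upU * loU * upU * loU * upU * loU := by
  obtain ⟨l, hl, hF'⟩ : ∃ l : ℤ, l * l = 1 ∧
      v1 * (W21 * (s * v1 - q * v2) + W22 * (-r * v1 + p * v2)) -
        v2 * (W11 * (s * v1 - q * v2) + W12 * (-r * v1 + p * v2)) = l := by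
    rcases hF with h | h
    · exact ⟨1, by norm_num, h⟩
    · exact ⟨-1, by norm_num, h⟩
  obtain ⟨a1, a2, b1, b2, c1', c2', r1, r2, o, w1, w2, hm⟩ :=
    rows hl hm11 hm12 hm21 hm22 hW12 hW22 hW11 hW21 he1 he2 rfl rfl rfl rfl hF'
  let m : Matrix.SpecialLinearGroup (Fin 3) ℤ :=
    up 0 0 α1 * (lo c1' c2' β1 * up a1 a2 α2 * lo b1 b2 β2 * up r1 r2 α3) *
      lo z1 (z2 + β3 * z1) β3
  have hm' : m.1 = !![o, w1, w2; e1, p, q; e2, r, s] := by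
    rw [← hm]
    rfl
  have hK : g * m⁻¹ ∈ upU := by
    refine same_rows g m ?_ ?_
    · intro j
      rw [hm']
      fin_cases j
      · exact hg1
      · exact hg2
      · exact hg3
    · intro j
      rw [hm']
      fin_cases j
      · exact hg4
      · exact hg5
      · exact hg6
  have e : g = ((g * m⁻¹) * up 0 0 α1) * lo c1' c2' β1 * up a1 a2 α2 * lo b1 b2 β2 *
      up r1 r2 α3 * lo z1 (z2 + β3 * z1) β3 := by
    calc g = (g * m⁻¹) * m := by group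
      _ = _ := by
        show (g * m⁻¹) * (up 0 0 α1 * (lo c1' c2' β1 * up a1 a2 α2 * lo b1 b2 β2 *
          up r1 r2 α3) * lo z1 (z2 + β3 * z1) β3) = _
        group
  rw [e]
  exact Set.mul_mem_mul (Set.mul_mem_mul (Set.mul_mem_mul (Set.mul_mem_mul
    (Set.mul_mem_mul (up_mul hK (up_mem _ _ _)) (lo_mem _ _ _)) (up_mem _ _ _)) (lo_mem _ _ _))
    (up_mem _ _ _)) (lo_mem _ _ _)

end Pool.Agent.Lib.MP_efa98f_al.Crit10
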