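import Mathlib

set_option autoImplicit false

namespace Pool.Agent.Lib.MP_efa98f_al.E90

theorem pow_hit_expand (x : ℤ) (i : ℕ) : ∃ r : ℤ, (1 + x) ^ i = 1 + i * x + x ^ 2 * r := by
  induction i with
  | zero => exact ⟨0, by simp⟩
  | succ i ih =>
    obtain ⟨r, hr⟩ := ih
    refine ⟨r + x * r + i, ?_⟩
    rw [pow_succ, hr]
    push_cast
    ring

/-- H: for an odd prime `q` a number `z` with `v_q (z - 1) = w` exactly generates `1 + q^w ℤ` -/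
theorem pow_hit (q : ℕ) (hq : q.Prime) (hq2 : q ≠ 2) (z : ℤ) (w : ℕ) (hw : 1 ≤ w)
    (h1 : (q : ℤ) ^ w ∣ z - 1) (h2 : ¬ (q : ℤ) ^ (w + 1) ∣ z - 1) (y : ℤ)
    (hy : (q : ℤ) ^ w ∣ y - 1) (M : ℕ) : ∃ j : ℕ, (q : ℤ) ^ M ∣ z ^ j - y := by
  have hqo : Odd q := hq.odd_of_ne_two hq2
  have hprime : Prime (q : ℤ) := Nat.prime_iff_prime_int.mp hq
  have hq1 : (q : ℤ) ∣ z - 1 := (dvd_pow_self _ (by omega)).trans h1
  have hqz : ¬ (q : ℤ) ∣ z := by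
    intro h
    have h3 : (q : ℤ) ∣ 1 := by
      have := dvd_sub h hq1
      simpa using this
    exact hprime.not_isUnit (isUnit_of_dvd_one h3)
  have hemu : emultiplicity (q : ℤ) (z - 1) = (w : ℕ∞) := emultiplicity_eq_coe.2 ⟨h1, h2⟩
  have main : ∀ k : ℕ, ∃ j : ℕ, (q : ℤ) ^ (w + k) ∣ z ^ j - y := by
    intro k
    induction k with
    | zero =>
      refine ⟨0, ?_⟩
      rw [pow_zero, Nat.add_zero]
      exact (dvd_sub_comm).1 hy
    | succ k ih =>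
      obtain ⟨j, e, he⟩ := ih
      have hl := Int.emultiplicity_pow_sub_pow hq hqo (x := z) (y := 1) hq1 hqz (q ^ k)
      have hqk : emultiplicity q (q ^ k) = (k : ℕ∞) :=
        emultiplicity_pow_self hq.ne_zero hq.prime.not_isUnit k
      rw [one_pow, hemu, hqk] at hl
      have hl' : emultiplicity (q : ℤ) (z ^ q ^ k - 1) = ((w + k : ℕ) : ℕ∞) := by
        rw [hl]; push_cast; rfl
      obtain ⟨⟨u, hu⟩, hnu⟩ := emultiplicity_eq_coe.1 hl'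
      have hqu : ¬ (q : ℤ) ∣ u := by
        rintro ⟨v, rfl⟩
        apply hnu
        exact ⟨v, by rw [hu, pow_succ]; ring⟩
      have hcop : IsCoprime (z ^ j * u) (q : ℤ) := by
        have h3 : IsCoprime (q : ℤ) z := (Prime.coprime_iff_not_dvd hprime).2 hqz
        have h4 : IsCoprime (q : ℤ) u := (Prime.coprime_iff_not_dvd hprime).2 hqu
        exact (IsCoprime.mul_right h3.pow_right h4).symm
      obtain ⟨a, b, hab⟩ := hcop
      obtain ⟨i, m, hi⟩ : ∃ (i : ℕ) (m : ℤ), (i : ℤ) = -e * a + q * m := by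
        have hq0 : (q : ℤ) ≠ 0 := hprime.ne_zero
        refine ⟨((-e * a) % q).toNat, -((-e * a) / q), ?_⟩
        rw [Int.toNat_of_nonneg (Int.emod_nonneg _ hq0)]
        have := Int.emod_add_mul_ediv (-e * a) q
        linear_combination this
      obtain ⟨r, hr⟩ := pow_hit_expand ((q : ℤ) ^ (w + k) * u) i
      refine ⟨j + q ^ k * i, ?_⟩
      have hz : z ^ (j + q ^ k * i) = z ^ j * (1 + (q : ℤ) ^ (w + k) * u) ^ i := by
        rw [pow_add, pow_mul]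
        have : z ^ q ^ k = 1 + (q : ℤ) ^ (w + k) * u := by linear_combination hu
        rw [this]
      have hQ : (q : ℤ) ^ (w + (k + 1)) = (q : ℤ) ^ (w + k) * q := by
        rw [← Nat.add_assoc, pow_succ]
      obtain ⟨s, hs⟩ : (q : ℤ) ∣ (q : ℤ) ^ (w + k) := dvd_pow_self _ (by omega)
      rw [hz, hr, hQ]
      refine ⟨e * b + m * z ^ j * u + s * u ^ 2 * z ^ j * r, ?_⟩
      have e1 : z ^ j * (1 + (i : ℤ) * ((q : ℤ) ^ (w + k) * u) +
          ((q : ℤ) ^ (w + k) * u) ^ 2 * r) - y =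
          (q : ℤ) ^ (w + k) * (e + i * (z ^ j * u)) +
            (q : ℤ) ^ (w + k) * (q : ℤ) ^ (w + k) * u ^ 2 * z ^ j * r := by
        linear_combination he
      rw [e1, hi]
      nth_rewrite 3 [hs]
      linear_combination (q : ℤ) ^ (w + k) * (-e) * hab
  obtain ⟨j, hj⟩ := main M
  exact ⟨j, (pow_dvd_pow _ (by omega)).trans hj⟩



/-- K (from H): -/
theorem exists_k (l : ℕ) (hl : l.Prime) (hl2 : l ≠ 2) (d : ℤ) (hd : 2 ≤ d.natAbs)
    (hld : ¬ (l : ℤ) ∣ d) :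
    ∃ W : ℕ, ∀ F : ℕ, 0 < F → ¬ l ∣ F → ∀ (M : ℕ) (y : ℤ), (l : ℤ) ^ W ∣ y - 1 →
      ∃ k : ℕ, 0 < k ∧ F ∣ k ∧ (l : ℤ) ^ M ∣ d ^ k - y := by
  have hlp : Prime (l : ℤ) := Nat.prime_iff_prime_int.mp hl
  have hl3 : 3 ≤ l := by
    have := hl.two_le
    omega
  have hcop : IsCoprime d (l : ℤ) := ((Prime.coprime_iff_not_dvd hlp).mpr hld).symm
  obtain ⟨z, hz⟩ : ∃ z : ℤ, z = d ^ (l - 1) := ⟨_, rfl⟩
  have hz1 : (l : ℤ) ∣ z - 1 := by
    have := Int.ModEq.pow_card_sub_one_eq_one hl hcop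
    rw [← hz] at this
    exact Int.modEq_iff_dvd.mp this.symm
  have hz0 : z - 1 ≠ 0 := by
    intro h
    have h3 : z.natAbs = 1 := by
      have : z = 1 := by omega
      rw [this]
      rfl
    rw [hz, Int.natAbs_pow] at h3
    have h4 : 1 < d.natAbs ^ (l - 1) := Nat.one_lt_pow (by omega) (by omega)
    omega
  have hfin : FiniteMultiplicity (l : ℤ) (z - 1) := by
    rw [Int.finiteMultiplicity_iff]
    exact ⟨by simpa using hl.ne_one, hz0⟩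
  obtain ⟨e, he, hle⟩ := hfin.exists_eq_pow_mul_and_not_dvd
  obtain ⟨w, hw⟩ : ∃ w, w = multiplicity (l : ℤ) (z - 1) := ⟨_, rfl⟩
  rw [← hw] at he
  have hw1 : 1 ≤ w := by
    rcases Nat.eq_zero_or_pos w with h0 | h0
    · rw [h0, pow_zero, one_mul] at he
      rw [he] at hz1
      exact absurd hz1 hle
    · exact h0
  refine ⟨w, ?_⟩
  intro F hF hlF M y hy
  have hS : ∃ S : ℤ, z ^ F - 1 = S * (z - 1) ∧ ¬ (l : ℤ) ∣ S := by
    refine ⟨∑ i ∈ Finset.range F, z ^ i, (geom_sum_mul z F).symm, ?_⟩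
    intro hS
    have h3 : (l : ℤ) ∣ ∑ i ∈ Finset.range F, (z ^ i - 1) := by
      refine Finset.dvd_sum fun i _ => ?_
      have := sub_dvd_pow_sub_pow z 1 i
      rw [one_pow] at this
      exact hz1.trans this
    rw [Finset.sum_sub_distrib] at h3
    simp only [Finset.sum_const, Finset.card_range, nsmul_eq_mul, mul_one] at h3
    have h4 : (l : ℤ) ∣ (F : ℤ) := by
      have := dvd_sub hS h3
      rwa [sub_sub_cancel] at this
    exact hlF (Int.natCast_dvd_natCast.mp h4)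
  obtain ⟨S, hS1, hS2⟩ := hS
  have hF1 : z ^ F - 1 = (l : ℤ) ^ w * (e * S) := by
    rw [hS1, he]
    ring
  have ha : (l : ℤ) ^ w ∣ z ^ F - 1 := by
    rw [hF1]
    exact dvd_mul_right _ _
  have hb : ¬ (l : ℤ) ^ (w + 1) ∣ z ^ F - 1 := by
    rw [hF1, pow_succ]
    intro h
    have h5 := (mul_dvd_mul_iff_left (pow_ne_zero w hlp.ne_zero)).mp h
    rcases hlp.dvd_or_dvd h5 with h6 | h6
    · exact hle h6
    · exact hS2 h6
  obtain ⟨j, hj⟩ := pow_hit l hl hl2 (z ^ F) w hw1 ha hb y hy M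
  have hlz : (l : ℤ) ∣ z ^ F - 1 := (dvd_pow_self _ (by omega)).trans ha
  have hper : (l : ℤ) ^ M ∣ (z ^ F) ^ l ^ M - 1 := by
    have := dvd_sub_pow_of_dvd_sub hlz M
    rw [one_pow] at this
    exact (pow_dvd_pow _ (Nat.le_succ M)).trans this
  refine ⟨(l - 1) * (F * (j + l ^ M)), ?_, ?_, ?_⟩
  · have : 0 < l ^ M := pow_pos hl.pos M
    have h7 : 0 < l - 1 := by omega
    positivity
  · exact (dvd_mul_right F _).mul_left _
  · have h8 : d ^ ((l - 1) * (F * (j + l ^ M))) = (z ^ F) ^ j * (z ^ F) ^ l ^ M := by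
      rw [pow_mul, ← hz, pow_mul, pow_add]
    rw [h8]
    have h9 : (z ^ F) ^ j * (z ^ F) ^ l ^ M - y =
        ((z ^ F) ^ j - y) + (z ^ F) ^ j * ((z ^ F) ^ l ^ M - 1) := by ring
    rw [h9]
    exact dvd_add hj (hper.mul_left _)


/-- lift of a primitive root: one of `g0`, `g0 + p` has `g ^ (p - 1) ≠ 1` modulo `p ^ 2` -/
theorem lift_g (p g0 : ℕ) (hp : p.Prime) (hg0 : ¬ p ∣ g0) :
    ∃ g : ℕ, (g : ZMod p) = (g0 : ZMod p) ∧ ¬ (p : ℤ) ^ 2 ∣ (g : ℤ) ^ (p - 1) - 1 := by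
  have hp2 := hp.two_le
  by_cases h : (p : ℤ) ^ 2 ∣ (g0 : ℤ) ^ (p - 1) - 1
  · refine ⟨g0 + p, by simp, ?_⟩
    intro h'
    obtain ⟨k, hk⟩ := Polynomial.powAddExpansion (g0 : ℤ) (p : ℤ) (p - 1)
    push_cast at h'
    rw [hk] at h'
    have h3 : (p : ℤ) * p ∣ ((p - 1 : ℕ) : ℤ) * (g0 : ℤ) ^ (p - 1 - 1) * p := by
      have h3 := dvd_sub (dvd_sub h' h) (Dvd.intro_left k rfl : (p : ℤ) ^ 2 ∣ k * (p : ℤ) ^ 2)
      have e : ((g0 : ℤ) ^ (p - 1) + ((p - 1 : ℕ) : ℤ) * (g0 : ℤ) ^ (p - 1 - 1) * p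
          + k * (p : ℤ) ^ 2 - 1 - ((g0 : ℤ) ^ (p - 1) - 1)) - k * (p : ℤ) ^ 2
          = ((p - 1 : ℕ) : ℤ) * (g0 : ℤ) ^ (p - 1 - 1) * p := by ring
      rw [e, pow_two] at h3
      exact h3
    have hp0 : (p : ℤ) ≠ 0 := by exact_mod_cast hp.ne_zero
    have h4 : (p : ℤ) ∣ ((p - 1 : ℕ) : ℤ) * (g0 : ℤ) ^ (p - 1 - 1) :=
      (mul_dvd_mul_iff_right hp0).1 h3
    have hpi : Prime (p : ℤ) := Nat.prime_iff_prime_int.1 hp
    rcases hpi.dvd_or_dvd h4 with h5 | h5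
    · have h6 : p ∣ p - 1 := by exact_mod_cast h5
      exact absurd (Nat.le_of_dvd (by omega) h6) (by omega)
    · have h6 := hpi.dvd_of_dvd_pow h5
      exact hg0 (by exact_mod_cast h6)
  · exact ⟨g0, rfl, h⟩

theorem exists_p_prime (c : ℤ) (D : ℕ) (hD : 0 < D) (h : IsCoprime c (D : ℤ)) (B : ℕ) :
    ∃ r : ℕ, r.Prime ∧ B < r ∧ 4 * D < r ∧ (D : ℤ) ∣ (r : ℤ) - c := by
  obtain ⟨r, h1, h2, h3⟩ := Nat.forall_exists_prime_gt_and_zmodEq (B + 4 * D) hD.ne' h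
  exact ⟨r, h2, by omega, by omega, h3.symm.dvd⟩

private theorem A_pow_tot (n : ℕ) (z : ℤ) (h : IsCoprime z (n : ℤ)) {k : ℕ}
    (hk : n.totient ∣ k) : (n : ℤ) ∣ z ^ k - 1 := by
  have hu : IsUnit (z : ZMod n) := (ZMod.coe_int_isUnit_iff_isCoprime z n).mpr h.symm
  obtain ⟨j, rfl⟩ := hk
  obtain ⟨u, hu⟩ := hu
  have h1 : ((z ^ (n.totient * j) : ℤ) : ZMod n) = ((1 : ℤ) : ZMod n) := by
    push_cast
    rw [← hu, pow_mul, ← Units.val_pow_eq_pow_val, ZMod.pow_totient]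
    simp
  exact (ZMod.intCast_eq_intCast_iff_dvd_sub _ _ n).mp h1.symm

private theorem A_cop {q n : ℕ} (hq : q.Prime) (hn : 0 < n) (h : n < q) : Nat.Coprime q n :=
  (Nat.Prime.coprime_iff_not_dvd hq).mpr fun hd => absurd (Nat.le_of_dvd hn hd) (by omega)

private theorem A_dvd_pow_sub {n x y : ℤ} (h : n ∣ x - y) (k : ℕ) : n ∣ x ^ k - y ^ k :=
  h.trans (sub_dvd_pow_sub_pow x y k)


/-- G': a primitive root `g` mod `p^2`: every `l = g` mod `p^2` generates the units mod `p^N` -/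
theorem exists_gen (p : ℕ) (hp : p.Prime) (hp2 : p ≠ 2) :
    ∃ g : ℕ, ¬ p ∣ g ∧ ∀ l : ℕ, l ≡ g [MOD p ^ 2] → ∀ b : ℤ, ¬ (p : ℤ) ∣ b →
      ∀ N : ℕ, ∃ M : ℕ, (p : ℤ) ^ N ∣ (l : ℤ) ^ M - b := by
  haveI : Fact p.Prime := ⟨hp⟩
  have hp3 : 3 ≤ p := by have := hp.two_le; omega
  have hpi : Prime (p : ℤ) := Nat.prime_iff_prime_int.1 hp
  obtain ⟨γ, hγ⟩ := IsCyclic.exists_monoid_generator (α := (ZMod p)ˣ)
  have hv : (((γ : ZMod p).val : ℕ) : ZMod p) = (γ : ZMod p) := ZMod.natCast_zmod_val _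
  have hg0 : ¬ p ∣ (γ : ZMod p).val := by
    intro h
    have : (((γ : ZMod p).val : ℕ) : ZMod p) = 0 := (ZMod.natCast_eq_zero_iff _ _).2 h
    rw [hv] at this
    exact γ.ne_zero this
  obtain ⟨g, hg, hg2⟩ := lift_g p _ hp hg0
  rw [hv] at hg
  have hgp : ¬ p ∣ g := by
    intro h
    have : (g : ZMod p) = 0 := (ZMod.natCast_eq_zero_iff _ _).2 h
    rw [hg] at this
    exact γ.ne_zero this
  refine ⟨g, hgp, ?_⟩
  intro l hl b hb N
  have hlγ : (l : ZMod p) = (γ : ZMod p) := by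
    rw [← hg]
    exact (ZMod.natCast_eq_natCast_iff _ _ _).2 (hl.of_dvd (dvd_pow_self p two_ne_zero))
  have hlp : ¬ (p : ℤ) ∣ (l : ℤ) := by
    intro h
    have h' : p ∣ l := by exact_mod_cast h
    have : (l : ZMod p) = 0 := (ZMod.natCast_eq_zero_iff _ _).2 h'
    rw [hlγ] at this
    exact γ.ne_zero this
  have hF : (p : ℤ) ^ 1 ∣ (l : ℤ) ^ (p - 1) - 1 := by
    rw [pow_one, ← ZMod.intCast_zmod_eq_zero_iff_dvd]
    push_cast
    rw [hlγ, ZMod.pow_card_sub_one_eq_one γ.ne_zero, sub_self]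
  have hF2 : ¬ (p : ℤ) ^ (1 + 1) ∣ (l : ℤ) ^ (p - 1) - 1 := by
    intro h
    apply hg2
    have h1 : (l : ℤ) ≡ (g : ℤ) [ZMOD ((p ^ 2 : ℕ) : ℤ)] := (Int.natCast_modEq_iff).2 hl
    have h2 := (h1.pow (p - 1)).dvd
    have h3 := dvd_add h2 (by push_cast; exact h : ((p ^ 2 : ℕ) : ℤ) ∣ (l : ℤ) ^ (p - 1) - 1)
    have e : (g : ℤ) ^ (p - 1) - (l : ℤ) ^ (p - 1) + ((l : ℤ) ^ (p - 1) - 1)
        = (g : ℤ) ^ (p - 1) - 1 := by ring
    rw [e] at h3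
    push_cast at h3
    exact h3
  obtain ⟨m, hm⟩ : ∃ m : ℕ, (p : ℤ) ∣ (l : ℤ) ^ m - b := by
    have hb0 : (b : ZMod p) ≠ 0 := by
      intro h
      rw [ZMod.intCast_zmod_eq_zero_iff_dvd] at h
      exact hb h
    obtain ⟨m, hm⟩ := hγ (Units.mk0 (b : ZMod p) hb0)
    have hm' : (γ : ZMod p) ^ m = (b : ZMod p) := by
      have := congrArg (fun u : (ZMod p)ˣ => (u : ZMod p)) hm
      simpa using this
    refine ⟨m, ?_⟩
    rw [← ZMod.intCast_zmod_eq_zero_iff_dvd]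
    push_cast
    rw [hlγ, hm', sub_self]
  have hcop : IsCoprime ((l : ℤ) ^ m) ((p : ℤ) ^ (N + 1)) :=
    ((IsCoprime.pow_left (IsCoprime.pow_right ((hpi.coprime_iff_not_dvd).2 hlp)))).symm
  obtain ⟨a, c, hac⟩ := hcop
  have hy1 : (p : ℤ) ^ (N + 1) ∣ (l : ℤ) ^ m * (b * a) - b :=
    ⟨-b * c, by linear_combination b * hac⟩
  have hy0 : (p : ℤ) ^ 1 ∣ b * a - 1 := by
    rw [pow_one]
    have h1 : (p : ℤ) ∣ (l : ℤ) ^ m * (b * a) - b :=
      (dvd_pow_self _ (Nat.succ_ne_zero N)).trans hy1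
    have h2 := hm.mul_right (b * a)
    have h3 := dvd_sub h1 h2
    have e : (l : ℤ) ^ m * (b * a) - b - ((l : ℤ) ^ m - b) * (b * a) = b * (b * a - 1) := by ring
    rw [e] at h3
    exact (hpi.dvd_or_dvd h3).resolve_left hb
  obtain ⟨j, hj⟩ := pow_hit p hp hp2 ((l : ℤ) ^ (p - 1)) 1 le_rfl hF hF2 (b * a) hy0 (N + 1)
  refine ⟨m + (p - 1) * j, ?_⟩
  have h1 : (p : ℤ) ^ (N + 1) ∣ (l : ℤ) ^ (m + (p - 1) * j) - b := by
    have h2 := dvd_add (hj.mul_left ((l : ℤ) ^ m)) hy1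
    have e2 : (l : ℤ) ^ (m + (p - 1) * j) - b
        = (l : ℤ) ^ m * (((l : ℤ) ^ (p - 1)) ^ j - b * a) + ((l : ℤ) ^ m * (b * a) - b) := by
      rw [pow_add, pow_mul]
      ring
    rw [e2]
    exact h2
  exact (pow_dvd_pow _ (Nat.le_succ N)).trans h1

/-- choice of the prime `l` -/
theorem exists_l2 (p m g n : ℕ) (hp : p.Prime) (hm : 0 < m) (hmp : m < p) (hg : ¬ p ∣ g) :
    ∃ l : ℕ, l.Prime ∧ n < l ∧ l ≡ g [MOD p ^ 2] ∧ m ∣ l + 1 := by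
  have hc : Nat.Coprime (p ^ 2) m := (A_cop hp hm hmp).pow_left 2
  obtain ⟨l0, h1, h2⟩ := Nat.chineseRemainder hc g (m - 1)
  have hc1 : Nat.Coprime l0 (p ^ 2) := by
    apply Nat.Coprime.pow_right
    apply Nat.Coprime.symm
    refine (Nat.Prime.coprime_iff_not_dvd hp).2 fun h => hg ?_
    exact ((h1.of_dvd (dvd_pow_self p two_ne_zero)).dvd_iff (dvd_refl p)).1 h
  have hc2 : Nat.Coprime l0 m := by
    have h3 : Nat.Coprime (m - 1) m := by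
      have : Nat.Coprime (m - 1) (m - 1 + 1) := by simp
      rwa [Nat.sub_add_cancel (by omega)] at this
    have h4 := h2.gcd_eq
    unfold Nat.Coprime at h3 ⊢
    rw [h4, h3]
  obtain ⟨l, hl1, hl2, hl3⟩ := Nat.forall_exists_prime_gt_and_modEq n (q := p ^ 2 * m)
    (by have := hp.pos; positivity) (Nat.Coprime.mul_right hc1 hc2)
  refine ⟨l, hl2, hl1, (hl3.of_dvd (Dvd.intro _ rfl)).trans h1, ?_⟩
  have h5 : l ≡ m - 1 [MOD m] := (hl3.of_dvd (Dvd.intro_left _ rfl)).trans h2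
  have h6 : l + 1 ≡ m - 1 + 1 [MOD m] := h5.add_right 1
  rw [Nat.sub_add_cancel (by omega)] at h6
  exact (Nat.modEq_zero_iff_dvd).1 (h6.trans (by simp [Nat.ModEq]))

/-- NT: the number theory -/
theorem nt_main (A B δ : ℤ) (hAB : IsCoprime A B) (hδ : 2 ≤ δ.natAbs) :
    ∃ (x1 x2 x3 σ : ℤ) (k : ℕ), 1 ≤ k ∧ (σ = 1 ∨ σ = -1) ∧
      (A + x1 * B) + x3 * (B + x2 * (A + x1 * B)) = σ * δ ^ k ∧
      (δ ∣ (B + x2 * (A + x1 * B)) - 1 ∨ δ ∣ (B + x2 * (A + x1 * B)) + 1) := by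
  by_cases hB : B = 0
  · subst hB
    have hu : IsUnit A := isCoprime_zero_right.mp hAB
    have hA2 : A * A = 1 := Int.isUnit_mul_self hu
    refine ⟨0, A, δ - A, 1, 1, le_rfl, Or.inl rfl, ?_, Or.inl ?_⟩
    · linear_combination (δ - A) * hA2
    · have : (0 : ℤ) + A * (A + 0 * 0) - 1 = 0 := by linear_combination hA2
      rw [this]
      exact dvd_zero _
  obtain ⟨b, hb⟩ : ∃ b : ℕ, b = B.natAbs := ⟨_, rfl⟩
  have hb0 : 0 < b := by rw [hb]; omega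
  have hbB : (b : ℤ) ∣ B := by rw [hb]; exact Int.natAbs_dvd.2 dvd_rfl
  have hBb : B ∣ (b : ℤ) := by rw [hb]; exact Int.dvd_natAbs.2 dvd_rfl
  have hφ : 0 < b.totient := Nat.totient_pos.2 hb0
  obtain ⟨φ, hφe⟩ : ∃ φ : ℕ, φ = b.totient := ⟨_, rfl⟩
  rw [← hφe] at hφ
  obtain ⟨D, hD⟩ : ∃ D : ℕ, D = δ.natAbs := ⟨_, rfl⟩
  have hD2 : 2 ≤ D := by omega
  obtain ⟨m, hm⟩ : ∃ m : ℕ, m = 4 * D * φ := ⟨_, rfl⟩
  have hm0 : 0 < m := by rw [hm]; positivity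
  have hAb : IsCoprime A (b : ℤ) := hAB.of_isCoprime_of_dvd_right hbB
  obtain ⟨p, hp, hpb, -, hpA⟩ := exists_p_prime A b hb0 hAb (m + b + 2)
  have hpi : Prime (p : ℤ) := Nat.prime_iff_prime_int.1 hp
  obtain ⟨g, hg, hG⟩ := exists_gen p hp (by omega)
  obtain ⟨l, hl, hln, hlg, hml⟩ := exists_l2 p m g (m + D + p + 2) hp hm0 (by omega) hg
  have hli : Prime (l : ℤ) := Nat.prime_iff_prime_int.1 hl
  have hlδ : ¬ (l : ℤ) ∣ δ := by
    intro h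
    have h1 : l ∣ δ.natAbs := Int.natCast_dvd.1 h
    have := Nat.le_of_dvd (by omega) h1
    omega
  obtain ⟨W, hW⟩ := exists_k l hl (by omega) δ hδ hlδ
  -- `h = (l - 1) / 2`
  obtain ⟨u, hu⟩ := hml
  have hu0 : 0 < u := by
    rcases Nat.eq_zero_or_pos u with h | h
    · rw [h] at hu; omega
    · exact h
  obtain ⟨h, hh⟩ : ∃ h : ℕ, h + 1 = φ * (2 * D * u) := by
    refine ⟨φ * (2 * D * u) - 1, Nat.sub_add_cancel ?_⟩
    have : 0 < φ * (2 * D * u) := by positivity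
    omega
  have hl2 : l - 1 = 2 * h := by
    have : l + 1 = 2 * (h + 1) := by rw [hu, hh, hm]; ring
    omega
  have hhφ : Nat.Coprime φ h := by
    have h1 : Nat.gcd φ h ∣ h + 1 := by
      rw [hh]
      exact (Nat.gcd_dvd_left _ _).mul_right _
    have h2 : Nat.gcd φ h ∣ 1 := (Nat.dvd_add_right (Nat.gcd_dvd_right φ h)).1 h1
    exact Nat.dvd_one.1 h2
  have hlφ : Nat.Coprime l φ := by
    refine A_cop hl hφ ?_
    have : φ ≤ m := by
      rw [hm]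
      exact Nat.le_mul_of_pos_left φ (by positivity)
    omega
  have hcop : Nat.Coprime φ (h * l ^ W) := Nat.Coprime.mul_right hhφ (hlφ.symm.pow_right W)
  obtain ⟨N0, hN1, hN2⟩ := Nat.chineseRemainder hcop 1 0
  have hh0 : 0 < h := by have := hl.two_le; omega
  obtain ⟨T, hT⟩ : h * l ^ W ∣ N0 := (Nat.modEq_zero_iff_dvd).1 hN2
  obtain ⟨N, hN⟩ : ∃ N : ℕ, N = N0 + φ * (h * l ^ W) := ⟨_, rfl⟩
  have hNpos : 0 < N := by
    rw [hN]
    have : 0 < φ * (h * l ^ W) := by have := hl.pos; positivity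
    omega
  have hNφ : φ ∣ N - 1 := by
    have h1 : N ≡ 1 [MOD φ] := by
      rw [hN]
      have := hN1.add_right (φ * (h * l ^ W))
      refine this.trans ?_
      simp [Nat.ModEq]
    exact (Nat.modEq_iff_dvd' hNpos).1 h1.symm
  have hNT : N = h * l ^ W * (T + φ) := by rw [hN, hT]; ring
  -- `p ^ N = A` mod `B`
  have hpcb : IsCoprime (p : ℤ) (b : ℤ) := (A_cop hp hb0 (by omega)).isCoprime
  have hpN : B ∣ (p : ℤ) ^ N - A := by
    have h1 : (b : ℤ) ∣ (p : ℤ) ^ (N - 1) - 1 := A_pow_tot b p hpcb (hφe ▸ hNφ)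
    have h2 := dvd_add (h1.mul_left (p : ℤ)) hpA
    have e : (p : ℤ) * ((p : ℤ) ^ (N - 1) - 1) + ((p : ℤ) - A) = (p : ℤ) ^ N - A := by
      have : (p : ℤ) ^ N = (p : ℤ) ^ (N - 1) * p := by
        rw [← pow_succ, Nat.sub_add_cancel hNpos]
      rw [this]; ring
    rw [e] at h2
    exact hBb.trans h2
  -- `p ^ N = ± 1` mod `l ^ (W + 1)`
  have hlp : IsCoprime (p : ℤ) (l : ℤ) := by
    rw [Nat.isCoprime_iff_coprime]
    exact (Nat.coprime_primes hp hl).2 (by omega)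
  have hfer : (l : ℤ) ∣ (p : ℤ) ^ (l - 1) - 1 :=
    Int.modEq_iff_dvd.mp (Int.ModEq.pow_card_sub_one_eq_one hl hlp).symm
  have hs1 : ∃ s : ℤ, s * s = 1 ∧ (l : ℤ) ∣ (p : ℤ) ^ h - s := by
    rw [hl2] at hfer
    have e : (p : ℤ) ^ (2 * h) - 1 = ((p : ℤ) ^ h - 1) * ((p : ℤ) ^ h - (-1)) := by
      rw [mul_comm 2, pow_mul]; ring
    rw [e] at hfer
    rcases hli.dvd_or_dvd hfer with h1 | h1
    · exact ⟨1, by norm_num, h1⟩
    · exact ⟨-1, by norm_num, h1⟩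
  obtain ⟨s, hs, hsl⟩ := hs1
  obtain ⟨σ, hσe⟩ : ∃ σ : ℤ, σ = (s ^ l ^ W) ^ (T + φ) := ⟨_, rfl⟩
  have hσ : σ * σ = 1 := by
    rw [hσe, ← mul_pow, ← mul_pow, hs, one_pow, one_pow]
  have hpσ : (l : ℤ) ^ W ∣ (p : ℤ) ^ N - σ := by
    have h1 := dvd_sub_pow_of_dvd_sub hsl W
    have h2 := A_dvd_pow_sub h1 (T + φ)
    rw [← hσe, ← pow_mul, ← pow_mul, ← mul_assoc, ← hNT] at h2
    exact (pow_dvd_pow _ (Nat.le_succ W)).trans h2
  have hy : (l : ℤ) ^ W ∣ σ * (p : ℤ) ^ N - 1 := by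
    have h1 := hpσ.mul_left σ
    have e : σ * ((p : ℤ) ^ N - σ) = σ * (p : ℤ) ^ N - 1 := by linear_combination -hσ
    rwa [e] at h1
  -- `M`
  have hpB : ¬ (p : ℤ) ∣ B := by
    intro h1
    have h2 : p ∣ B.natAbs := Int.natCast_dvd.1 h1
    have := Nat.le_of_dvd (by omega) h2
    omega
  obtain ⟨M, hM⟩ := hG l hlg B hpB N
  obtain ⟨k, hk0, -, hk⟩ := hW 1 one_pos (by
    intro h1
    have := Nat.le_of_dvd one_pos h1
    omega) M (σ * (p : ℤ) ^ N) hy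
  obtain ⟨x1, hx1⟩ := hpN
  obtain ⟨x2, hx2⟩ := hM
  obtain ⟨x3, hx3⟩ := hk
  have e1 : A + x1 * B = (p : ℤ) ^ N := by linear_combination -hx1
  have e2 : B + x2 * (A + x1 * B) = (l : ℤ) ^ M := by
    rw [e1]; linear_combination -hx2
  have hσ1 : σ = 1 ∨ σ = -1 := by
    have : (σ - 1) * (σ + 1) = 0 := by linear_combination hσ
    rcases mul_eq_zero.1 this with h1 | h1
    · exact Or.inl (by omega)
    · exact Or.inr (by omega)
  refine ⟨x1, x2, σ * x3, σ, k, hk0, hσ1, ?_, ?_⟩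
  · rw [e2, e1]
    linear_combination -(p : ℤ) ^ N * hσ - σ * hx3
  · rw [e2]
    have hlD : δ ∣ (l : ℤ) - (-1) := by
      have h1 : (D : ℤ) ∣ ((l + 1 : ℕ) : ℤ) := by
        rw [hu, hm]
        exact Int.natCast_dvd_natCast.2 ⟨4 * φ * u, by ring⟩
      have h2 : δ ∣ (D : ℤ) := by rw [hD]; exact Int.dvd_natAbs.2 dvd_rfl
      have h3 := h2.trans h1
      push_cast at h3
      have e : (l : ℤ) - (-1) = (l : ℤ) + 1 := by ring
      rw [e]; exact h3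
    have h4 := A_dvd_pow_sub hlD M
    rcases neg_one_pow_eq_or ℤ M with h5 | h5
    · left; rw [h5] at h4; exact h4
    · right; rw [h5] at h4
      have e : (l : ℤ) ^ M - -1 = (l : ℤ) ^ M + 1 := by ring
      rwa [e] at h4


end Pool.Agent.Lib.MP_efa98f_al.E90
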