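import Pool.Agent.Lib.MP_efa98f_al.Three77.Ext

set_option autoImplicit false

/-!
# MP_efa98f_al: the four symmetries of `(U U⁻)³` in `SL(3,ℤ)`
-/

open scoped Pointwise

namespace Pool.Agent.Lib.MP_efa98f_al.Sym11

open Pool.Agent.Lib.MP_efa98f_al.Ext77

/-- transpose -/
def tr (g : Matrix.SpecialLinearGroup (Fin 3) ℤ) : Matrix.SpecialLinearGroup (Fin 3) ℤ :=
  ⟨g.1.transpose, by rw [Matrix.det_transpose]; exact g.2⟩

theorem tr_mul (g h : Matrix.SpecialLinearGroup (Fin 3) ℤ) : tr (g * h) = tr h * tr g := by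
  apply Subtype.ext
  show (g.1 * h.1).transpose = h.1.transpose * g.1.transpose
  rw [Matrix.transpose_mul]

theorem tr_tr (g : Matrix.SpecialLinearGroup (Fin 3) ℤ) : tr (tr g) = g := by
  apply Subtype.ext
  show g.1.transpose.transpose = g.1
  rw [Matrix.transpose_transpose]

theorem tr_up {g : Matrix.SpecialLinearGroup (Fin 3) ℤ} (hg : g ∈ upU) : tr g ∈ loU :=
  ⟨fun i => hg.1 i, fun i j hij => hg.2 j i hij⟩

theorem tr_lo {g : Matrix.SpecialLinearGroup (Fin 3) ℤ} (hg : g ∈ loU) : tr g ∈ upU :=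
  ⟨fun i => hg.1 i, fun i j hij => hg.2 j i hij⟩

theorem tr_mem {g : Matrix.SpecialLinearGroup (Fin 3) ℤ} (hg : g ∈ S) : tr g ∈ S := by
  obtain ⟨g5, h5, l3, hl3, rfl⟩ := hg
  obtain ⟨g4, h4, u3, hu3, rfl⟩ := h5
  obtain ⟨g3, h3, l2, hl2, rfl⟩ := h4
  obtain ⟨g2, h2, u2, hu2, rfl⟩ := h3
  obtain ⟨u1, hu1, l1, hl1, rfl⟩ := h2
  show tr (u1 * l1 * u2 * l2 * u3 * l3) ∈ S
  have e : tr (u1 * l1 * u2 * l2 * u3 * l3) = tr l3 * tr u3 * tr l2 * tr u2 * tr l1 * tr u1 := by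
    rw [tr_mul, tr_mul, tr_mul, tr_mul, tr_mul]
    simp only [mul_assoc]
  rw [e]
  exact Set.mul_mem_mul (Set.mul_mem_mul (Set.mul_mem_mul (Set.mul_mem_mul
    (Set.mul_mem_mul (tr_lo hl3) (tr_up hu3)) (tr_lo hl2)) (tr_up hu2)) (tr_lo hl1)) (tr_up hu1)

theorem of_tr {g : Matrix.SpecialLinearGroup (Fin 3) ℤ} (h : tr g ∈ S) : g ∈ S := by
  rw [← tr_tr g]
  exact tr_mem h

theorem of_conj {g : Matrix.SpecialLinearGroup (Fin 3) ℤ} (h : w * g⁻¹ * w ∈ S) : g ∈ S := by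
  have h4 := sym h
  have hw : w⁻¹ = w := by
    rw [inv_eq_iff_mul_eq_one]; exact w_sq
  have e : w * (w * g⁻¹ * w)⁻¹ * w = g := by
    calc w * (w * g⁻¹ * w)⁻¹ * w = w * w⁻¹ * g * (w⁻¹ * w) := by group
      _ = g := by group
  rw [e] at h4
  exact h4

theorem conj_21 (g : Matrix.SpecialLinearGroup (Fin 3) ℤ) :
    (w * g⁻¹ * w).1 2 1 = g.1 0 1 * g.1 2 2 - g.1 0 2 * g.1 2 1 ∧
    (w * g⁻¹ * w).1 1 2 = g.1 1 0 * g.1 2 2 - g.1 1 2 * g.1 2 0 ∧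
    (w * g⁻¹ * w).1 2 2 = g.1 1 1 * g.1 2 2 - g.1 1 2 * g.1 2 1 := by
  have e : (w * g⁻¹ * w).1 = w.1 * g.1.adjugate * w.1 := by
    show w.1 * (g⁻¹).1 * w.1 = _
    rw [Matrix.SpecialLinearGroup.coe_inv]
  rw [e, Matrix.adjugate_fin_three]
  unfold w
  refine ⟨?_, ?_, ?_⟩
  · simp [Matrix.mul_apply, Fin.sum_univ_three]
    try ring
  · simp [Matrix.mul_apply, Fin.sum_univ_three]
    try ring
  · simp [Matrix.mul_apply, Fin.sum_univ_three]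

/-- If every `g` with `P g₃₂ g₃₃` lies in `(U U⁻)³`, then so does every `g` with `P` for one of the
pairs `(g₃₂, g₃₃)`, `(g₂₃, g₃₃)`, `(g₁₂ g₃₃ - g₁₃ g₃₂, δ)`, `(g₂₁ g₃₃ - g₂₃ g₃₁, δ)`, where
`δ = g₂₂ g₃₃ - g₂₃ g₃₂`. -/
theorem sym_wrap {P : ℤ → ℤ → Prop}
    (H : ∀ g : Matrix.SpecialLinearGroup (Fin 3) ℤ, P (g.1 2 1) (g.1 2 2) → g ∈ S)
    (g : Matrix.SpecialLinearGroup (Fin 3) ℤ)
    (h : P (g.1 2 1) (g.1 2 2) ∨ P (g.1 1 2) (g.1 2 2) ∨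
      P (g.1 0 1 * g.1 2 2 - g.1 0 2 * g.1 2 1) (g.1 1 1 * g.1 2 2 - g.1 1 2 * g.1 2 1) ∨
      P (g.1 1 0 * g.1 2 2 - g.1 1 2 * g.1 2 0) (g.1 1 1 * g.1 2 2 - g.1 1 2 * g.1 2 1)) :
    g ∈ upU * loU * upU * loU * upU * loU := by
  obtain ⟨e1, e2, e3⟩ := conj_21 g
  show g ∈ S
  rcases h with h | h | h | h
  · exact H g h
  · exact of_tr (H (tr g) h)
  · refine of_conj (H _ ?_)
    rw [e1, e3]
    exact h
  · refine of_conj (of_tr (H _ ?_))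
    show P ((w * g⁻¹ * w).1 1 2) ((w * g⁻¹ * w).1 2 2)
    rw [e2, e3]
    exact h

end Pool.Agent.Lib.MP_efa98f_al.Sym11
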