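import Mathlib

set_option autoImplicit false
set_option linter.style.haveILetI false

/-!
# MP_efa98f_al: for all coprime integers `c, d` some order `ℤ[θ]`, `θ² - tθ + d = 0`, has a unit
`x + yθ` with `x = c mod d`

Pieces: U, plan and assembly helper22; H, K, P helper2; G helper83; L helper33.
-/

namespace Pool.Agent.Lib.MP_efa98f_al.E22

/-- U: norm `s d^k` elements prime to `θ` give units -/
theorem unit_of_norm (d t s : ℤ) (hd : d ≠ 0) (k : ℕ) : ∀ A B : ℤ, IsCoprime A d →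
    A ^ 2 + t * A * B + d * B ^ 2 = s * d ^ k →
    ∃ x y : ℤ, x ^ 2 + t * x * y + d * y ^ 2 = s ∧ d ∣ x * t ^ k - A := by
  induction k with
  | zero =>
    intro A B _ h
    exact ⟨A, B, by simpa using h, by simp⟩
  | succ k ih =>
    intro A B hA h
    have h1 : d ∣ A * (A + t * B) := ⟨s * d ^ k - B ^ 2, by
      rw [pow_succ] at h
      linear_combination h⟩
    obtain ⟨e, he⟩ := hA.symm.dvd_of_dvd_mul_left h1
    have hB : IsCoprime B d := by
      have h2 : IsCoprime (A + d * (-e)) d := by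
        have := hA.add_mul_left_left (-e)
        simpa using this
      have h3 : A + d * (-e) = B * (-t) := by linear_combination he
      rw [h3] at h2
      exact h2.of_mul_left_left
    obtain ⟨x, y, h3, h4⟩ := ih (-B) e hB.neg_left (by
      apply mul_left_cancel₀ hd
      rw [pow_succ] at h
      linear_combination h + (A + 2 * t * B + d * e - t * B - A - t * B + A) * (-he))
    refine ⟨x, y, h3, ?_⟩
    have h5 : x * t ^ (k + 1) - A = t * (x * t ^ k - (-B)) - (A + t * B) := by ring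
    rw [h5]
    exact dvd_sub (h4.mul_left t) ⟨e, he⟩

theorem pow_hit_expand (x : ℤ) (i : ℕ) : ∃ r : ℤ, (1 + x) ^ i = 1 + i * x + x ^ 2 * r := by
  induction i with
  | zero => exact ⟨0, by simp⟩
  | succ i ih =>
    obtain ⟨r, hr⟩ := ih
    refine ⟨r + x * r + i, ?_⟩
    rw [pow_succ, hr]
    push_cast
    ring

/-- H: for an odd prime `q` a number `z` with `v_q (z - 1) = w` exactly generates `1 + q^w ℤ` -/
theorem pow_hit (q : ℕ) (hq : q.Prime) (hq2 : q ≠ 2) (z : ℤ) (w : ℕ) (hw : 1 ≤ w)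
    (h1 : (q : ℤ) ^ w ∣ z - 1) (h2 : ¬ (q : ℤ) ^ (w + 1) ∣ z - 1) (y : ℤ)
    (hy : (q : ℤ) ^ w ∣ y - 1) (M : ℕ) : ∃ j : ℕ, (q : ℤ) ^ M ∣ z ^ j - y := by
  have hqo : Odd q := hq.odd_of_ne_two hq2
  have hprime : Prime (q : ℤ) := Nat.prime_iff_prime_int.mp hq
  have hq1 : (q : ℤ) ∣ z - 1 := (dvd_pow_self _ (by omega)).trans h1
  have hqz : ¬ (q : ℤ) ∣ z := by
    intro h
    have h3 : (q : ℤ) ∣ 1 := by
      have := dvd_sub h hq1
      simpa using this
    exact hprime.not_isUnit (isUnit_of_dvd_one h3)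
  have hemu : emultiplicity (q : ℤ) (z - 1) = (w : ℕ∞) := emultiplicity_eq_coe.2 ⟨h1, h2⟩
  have main : ∀ k : ℕ, ∃ j : ℕ, (q : ℤ) ^ (w + k) ∣ z ^ j - y := by
    intro k
    induction k with
    | zero =>
      refine ⟨0, ?_⟩
      rw [pow_zero, Nat.add_zero]
      exact (dvd_sub_comm).1 hy
    | succ k ih =>
      obtain ⟨j, e, he⟩ := ih
      have hl := Int.emultiplicity_pow_sub_pow hq hqo (x := z) (y := 1) hq1 hqz (q ^ k)
      have hqk : emultiplicity q (q ^ k) = (k : ℕ∞) :=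
        emultiplicity_pow_self hq.ne_zero hq.prime.not_isUnit k
      rw [one_pow, hemu, hqk] at hl
      have hl' : emultiplicity (q : ℤ) (z ^ q ^ k - 1) = ((w + k : ℕ) : ℕ∞) := by
        rw [hl]; push_cast; rfl
      obtain ⟨⟨u, hu⟩, hnu⟩ := emultiplicity_eq_coe.1 hl'
      have hqu : ¬ (q : ℤ) ∣ u := by
        rintro ⟨v, rfl⟩
        apply hnu
        exact ⟨v, by rw [hu, pow_succ]; ring⟩
      have hcop : IsCoprime (z ^ j * u) (q : ℤ) := by
        have h3 : IsCoprime (q : ℤ) z := (Prime.coprime_iff_not_dvd hprime).2 hqz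
        have h4 : IsCoprime (q : ℤ) u := (Prime.coprime_iff_not_dvd hprime).2 hqu
        exact (IsCoprime.mul_right h3.pow_right h4).symm
      obtain ⟨a, b, hab⟩ := hcop
      obtain ⟨i, m, hi⟩ : ∃ (i : ℕ) (m : ℤ), (i : ℤ) = -e * a + q * m := by
        have hq0 : (q : ℤ) ≠ 0 := hprime.ne_zero
        refine ⟨((-e * a) % q).toNat, -((-e * a) / q), ?_⟩
        rw [Int.toNat_of_nonneg (Int.emod_nonneg _ hq0)]
        have := Int.emod_add_mul_ediv (-e * a) q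
        linear_combination this
      obtain ⟨r, hr⟩ := pow_hit_expand ((q : ℤ) ^ (w + k) * u) i
      refine ⟨j + q ^ k * i, ?_⟩
      have hz : z ^ (j + q ^ k * i) = z ^ j * (1 + (q : ℤ) ^ (w + k) * u) ^ i := by
        rw [pow_add, pow_mul]
        have : z ^ q ^ k = 1 + (q : ℤ) ^ (w + k) * u := by linear_combination hu
        rw [this]
      have hQ : (q : ℤ) ^ (w + (k + 1)) = (q : ℤ) ^ (w + k) * q := by
        rw [← Nat.add_assoc, pow_succ]
      obtain ⟨s, hs⟩ : (q : ℤ) ∣ (q : ℤ) ^ (w + k) := dvd_pow_self _ (by omega)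
      rw [hz, hr, hQ]
      refine ⟨e * b + m * z ^ j * u + s * u ^ 2 * z ^ j * r, ?_⟩
      have e1 : z ^ j * (1 + (i : ℤ) * ((q : ℤ) ^ (w + k) * u) +
          ((q : ℤ) ^ (w + k) * u) ^ 2 * r) - y =
          (q : ℤ) ^ (w + k) * (e + i * (z ^ j * u)) +
            (q : ℤ) ^ (w + k) * (q : ℤ) ^ (w + k) * u ^ 2 * z ^ j * r := by
        linear_combination he
      rw [e1, hi]
      nth_rewrite 3 [hs]
      linear_combination (q : ℤ) ^ (w + k) * (-e) * hab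
  obtain ⟨j, hj⟩ := main M
  exact ⟨j, (pow_dvd_pow _ (by omega)).trans hj⟩

/-- K (from H): -/
theorem exists_k (l : ℕ) (hl : l.Prime) (hl2 : l ≠ 2) (d : ℤ) (hd : 2 ≤ d.natAbs)
    (hld : ¬ (l : ℤ) ∣ d) :
    ∃ W : ℕ, ∀ F : ℕ, 0 < F → ¬ l ∣ F → ∀ (M : ℕ) (y : ℤ), (l : ℤ) ^ W ∣ y - 1 →
      ∃ k : ℕ, 0 < k ∧ F ∣ k ∧ (l : ℤ) ^ M ∣ d ^ k - y := by
  have hlo : Odd l := hl.odd_of_ne_two hl2
  have hprime : Prime (l : ℤ) := Nat.prime_iff_prime_int.mp hl
  have hcop : IsCoprime d (l : ℤ) := ((Prime.coprime_iff_not_dvd hprime).2 hld).symm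
  have hfer : (l : ℤ) ∣ d ^ (l - 1) - 1 :=
    (Int.ModEq.pow_card_sub_one_eq_one hl hcop).symm.dvd
  have hne : d ^ (l - 1) - 1 ≠ 0 := by
    intro h
    have h1 : d ^ (l - 1) = 1 := by linarith
    have h2 : d.natAbs ^ (l - 1) = 1 := by
      have := congrArg Int.natAbs h1
      simpa [Int.natAbs_pow] using this
    have h3 : 1 < d.natAbs ^ (l - 1) := Nat.one_lt_pow (by have := hl.two_le; omega) hd
    omega
  have hfin : FiniteMultiplicity (l : ℤ) (d ^ (l - 1) - 1) := by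
    rw [Int.finiteMultiplicity_iff]
    exact ⟨by simpa using hl.one_lt.ne', hne⟩
  obtain ⟨W, hW⟩ : ∃ W, W = multiplicity (l : ℤ) (d ^ (l - 1) - 1) := ⟨_, rfl⟩
  obtain ⟨u, hu, hlu⟩ := hfin.exists_eq_pow_mul_and_not_dvd
  rw [← hW] at hu
  have hW1 : 1 ≤ W := by
    rcases Nat.eq_zero_or_pos W with h0 | h0
    · rw [h0, pow_zero, one_mul] at hu
      rw [hu] at hfer
      exact absurd hfer hlu
    · exact h0
  have hlW : (l : ℤ) ^ W ≠ 0 := pow_ne_zero _ hprime.ne_zero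
  have hemu : emultiplicity (l : ℤ) (d ^ (l - 1) - 1) = (W : ℕ∞) := by
    refine emultiplicity_eq_coe.2 ⟨⟨u, hu⟩, ?_⟩
    rintro ⟨v, hv⟩
    apply hlu
    refine ⟨v, ?_⟩
    apply mul_left_cancel₀ hlW
    rw [← hu, hv, pow_succ]
    ring
  refine ⟨W, fun F hF hlF M y hy => ?_⟩
  have hlz : ¬ (l : ℤ) ∣ d ^ (l - 1) := fun h => hld (hprime.dvd_of_dvd_pow h)
  have hz := Int.emultiplicity_pow_sub_pow hl hlo (x := d ^ (l - 1)) (y := 1) hfer hlz F
  have hF0 : emultiplicity l F = 0 := emultiplicity_eq_zero.2 hlF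
  rw [one_pow, hemu, hF0, add_zero] at hz
  obtain ⟨hz1, hz2⟩ := emultiplicity_eq_coe.1 hz
  obtain ⟨j, hj⟩ := pow_hit l hl hl2 ((d ^ (l - 1)) ^ F) W hW1 hz1 hz2 y hy M
  have hl1 : (l : ℤ) ∣ (d ^ (l - 1)) ^ F - 1 := (dvd_pow_self _ (by omega)).trans hz1
  have hlzF : ¬ (l : ℤ) ∣ (d ^ (l - 1)) ^ F := fun h => hlz (hprime.dvd_of_dvd_pow h)
  have hbig : (l : ℤ) ^ M ∣ ((d ^ (l - 1)) ^ F) ^ (l ^ M) - 1 := by
    have h3 := Int.emultiplicity_pow_sub_pow hl hlo (x := (d ^ (l - 1)) ^ F) (y := 1) hl1 hlzF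
      (l ^ M)
    have h4 : emultiplicity l (l ^ M) = (M : ℕ∞) :=
      emultiplicity_pow_self hl.ne_zero hl.prime.not_isUnit M
    rw [one_pow, h4] at h3
    apply pow_dvd_of_le_emultiplicity
    rw [h3]
    exact le_add_self
  refine ⟨(l - 1) * F * (j + l ^ M), ?_, ?_, ?_⟩
  · have h1 : 0 < l - 1 := by have := hl.two_le; omega
    have h2 : 0 < l ^ M := pow_pos hl.pos M
    positivity
  · exact ⟨(l - 1) * (j + l ^ M), by ring⟩
  · rw [pow_mul, pow_mul, pow_add]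
    obtain ⟨a, ha⟩ := hj
    obtain ⟨b, hb⟩ := hbig
    refine ⟨a + b * ((d ^ (l - 1)) ^ F) ^ j, ?_⟩
    linear_combination ha + ((d ^ (l - 1)) ^ F) ^ j * hb

theorem exists_p_prime (c : ℤ) (D : ℕ) (hD : 0 < D) (h : IsCoprime c (D : ℤ)) (B : ℕ) :
    ∃ r : ℕ, r.Prime ∧ B < r ∧ 4 * D < r ∧ (D : ℤ) ∣ (r : ℤ) - c := by
  obtain ⟨r, h1, h2, h3⟩ := Nat.forall_exists_prime_gt_and_zmodEq (B + 4 * D) hD.ne' h
  exact ⟨r, h2, by omega, by omega, h3.symm.dvd⟩

/-- P: Dirichlet and the Jacobi symbol -/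
theorem exists_p (c : ℤ) (D : ℕ) (hD : 0 < D) (h : IsCoprime c (D : ℤ)) (B : ℕ) :
    ∃ p : ℕ, p.Prime ∧ B < p ∧ jacobiSym (-(D : ℤ)) p = 1 ∧
      ((D : ℤ) ∣ (p : ℤ) - c ∨ (D : ℤ) ∣ (p : ℤ) + c) := by
  obtain ⟨r, hr, hrB, hrD, hrc⟩ := exists_p_prime c D hD h B
  have hrodd : Odd r := hr.odd_of_ne_two (by omega)
  have hcop : Nat.Coprime r (4 * D) := by
    refine (Nat.Prime.coprime_iff_not_dvd hr).2 fun hd => ?_
    have := Nat.le_of_dvd (by omega) hd
    omega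
  have hJr : jacobiSym (-(D : ℤ)) r = 1 ∨ jacobiSym (-(D : ℤ)) r = -1 := by
    apply jacobiSym.eq_one_or_neg_one
    have : Nat.Coprime D r := (Nat.Coprime.coprime_mul_left_right hcop).symm
    rw [Int.gcd_eq_natAbs]
    simpa using this
  rcases hJr with hJ | hJ
  · exact ⟨r, hr, hrB, hJ, Or.inl hrc⟩
  · -- multiply by 4 D - 1
    have hJ1 : jacobiSym (-(D : ℤ)) (4 * D - 1) = -1 := by
      have hodd : Odd (4 * D - 1) := by
        rw [Nat.odd_iff]; omega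
      have h4 : (4 * D - 1) % 4 = 3 := by omega
      rw [jacobiSym.neg _ hodd, ZMod.χ₄_nat_three_mod_four h4]
      have e1 : jacobiSym (D : ℤ) (4 * D - 1) = 1 := by
        have e2 : jacobiSym ((2 : ℤ) ^ 2 * (D : ℤ)) (4 * D - 1) = 1 := by
          have e3 : ((2 : ℤ) ^ 2 * (D : ℤ)) % ((4 * D - 1 : ℕ) : ℤ) = 1 % ((4 * D - 1 : ℕ) : ℤ) := by
            apply Int.ModEq.symm
            rw [Int.modEq_iff_dvd]
            refine ⟨1, ?_⟩
            push_cast [Nat.cast_sub (show 1 ≤ 4 * D by omega)]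
            ring
          rw [jacobiSym.mod_left' e3, jacobiSym.one_left]
        rw [jacobiSym.mul_left] at e2
        have e4 : jacobiSym ((2 : ℤ) ^ 2) (4 * D - 1) = 1 := by
          apply jacobiSym.sq_one'
          have : Nat.Coprime 2 (4 * D - 1) := (Nat.coprime_two_left).2 hodd
          rw [Int.gcd_eq_natAbs]
          simpa using this
        rw [e4, one_mul] at e2
        exact e2
      rw [e1]
      norm_num
    -- a prime p = r * (4 D - 1) mod 4 D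
    have hcop2 : Nat.Coprime (r * (4 * D - 1)) (4 * D) := by
      refine Nat.Coprime.mul_left hcop ?_
      have : Nat.Coprime (4 * D - 1) (4 * D - 1 + 1) := by simp
      rwa [Nat.sub_add_cancel (by omega)] at this
    obtain ⟨p, hpB, hp, hpm⟩ := Nat.forall_exists_prime_gt_and_modEq (B + 2) (q := 4 * D)
      (by omega) hcop2
    have hpodd : Odd p := hp.odd_of_ne_two (by omega)
    have hoddm : Odd (4 * D - 1) := by rw [Nat.odd_iff]; omega
    refine ⟨p, hp, by omega, ?_, Or.inr ?_⟩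
    · have e1 : jacobiSym (-(D : ℤ)) p = jacobiSym (-(D : ℤ)) (r * (4 * D - 1)) := by
        rw [jacobiSym.mod_right _ hpodd, jacobiSym.mod_right _ (hrodd.mul hoddm)]
        have e2 : p % (4 * (-(D : ℤ)).natAbs) = (r * (4 * D - 1)) % (4 * (-(D : ℤ)).natAbs) := by
          have : (-(D : ℤ)).natAbs = D := by simp
          rw [this]
          exact hpm
        rw [e2]
      have : NeZero r := ⟨hr.ne_zero⟩
      have : NeZero (4 * D - 1) := ⟨by omega⟩
      rw [e1, jacobiSym.mul_right, hJ, hJ1]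
      norm_num
    · -- D | p + c : p = r (4D - 1) = -r = -c mod D
      have e1 : ((4 * D : ℕ) : ℤ) ∣ ((r * (4 * D - 1) : ℕ) : ℤ) - (p : ℤ) := by
        exact (Int.natCast_modEq_iff.mpr hpm).dvd
      have e2 : (D : ℤ) ∣ ((r * (4 * D - 1) : ℕ) : ℤ) - (p : ℤ) :=
        dvd_trans ⟨4, by push_cast; ring⟩ e1
      have e3 : ((r * (4 * D - 1) : ℕ) : ℤ) = (r : ℤ) * (4 * D - 1) := by
        push_cast [Nat.cast_sub (show 1 ≤ 4 * D by omega)]
        ring
      rw [e3] at e2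
      obtain ⟨u, hu⟩ := e2
      obtain ⟨v, hv⟩ := hrc
      refine ⟨4 * r - u - v, ?_⟩
      linear_combination -hu - hv

/-- lift of a primitive root: one of `g0`, `g0 + p` has `g ^ (p - 1) ≠ 1` modulo `p ^ 2` -/
theorem lift_g (p g0 : ℕ) (hp : p.Prime) (hg0 : ¬ p ∣ g0) :
    ∃ g : ℕ, (g : ZMod p) = (g0 : ZMod p) ∧ ¬ (p : ℤ) ^ 2 ∣ (g : ℤ) ^ (p - 1) - 1 := by
  have hp2 := hp.two_le
  by_cases h : (p : ℤ) ^ 2 ∣ (g0 : ℤ) ^ (p - 1) - 1
  · refine ⟨g0 + p, by simp, ?_⟩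
    intro h'
    obtain ⟨k, hk⟩ := Polynomial.powAddExpansion (g0 : ℤ) (p : ℤ) (p - 1)
    push_cast at h'
    rw [hk] at h'
    have h3 : (p : ℤ) * p ∣ ((p - 1 : ℕ) : ℤ) * (g0 : ℤ) ^ (p - 1 - 1) * p := by
      have h3 := dvd_sub (dvd_sub h' h) (Dvd.intro_left k rfl : (p : ℤ) ^ 2 ∣ k * (p : ℤ) ^ 2)
      have e : ((g0 : ℤ) ^ (p - 1) + ((p - 1 : ℕ) : ℤ) * (g0 : ℤ) ^ (p - 1 - 1) * p
          + k * (p : ℤ) ^ 2 - 1 - ((g0 : ℤ) ^ (p - 1) - 1)) - k * (p : ℤ) ^ 2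
          = ((p - 1 : ℕ) : ℤ) * (g0 : ℤ) ^ (p - 1 - 1) * p := by ring
      rw [e, pow_two] at h3
      exact h3
    have hp0 : (p : ℤ) ≠ 0 := by exact_mod_cast hp.ne_zero
    have h4 : (p : ℤ) ∣ ((p - 1 : ℕ) : ℤ) * (g0 : ℤ) ^ (p - 1 - 1) :=
      (mul_dvd_mul_iff_right hp0).1 h3
    have hpi : Prime (p : ℤ) := Nat.prime_iff_prime_int.1 hp
    rcases hpi.dvd_or_dvd h4 with h5 | h5
    · have h6 : p ∣ p - 1 := by exact_mod_cast h5
      exact absurd (Nat.le_of_dvd (by omega) h6) (by omega)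
    · have h6 := hpi.dvd_of_dvd_pow h5
      exact hg0 (by exact_mod_cast h6)
  · exact ⟨g0, rfl, h⟩

/-- G (from H): a primitive root `g` mod `p` with `g^(p-1) ≠ 1` mod `p^2` -/
theorem exists_g (p : ℕ) (hp : p.Prime) (hp2 : p ≠ 2) (d s : ℤ) (hs : s = 1 ∨ s = -1)
    (hpd : ¬ (p : ℤ) ∣ d) (hJ : jacobiSym (s * d) p = 1) :
    ∃ g : ℕ, ¬ p ∣ g ∧ jacobiSym (g : ℤ) p = -1 ∧
      ∀ l : ℕ, l ≡ g [MOD p ^ 2] → ∀ N : ℕ, ∃ M : ℕ, (p : ℤ) ^ N ∣ d * (l : ℤ) ^ (2 * M) - s := by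
  haveI : Fact p.Prime := ⟨hp⟩
  have hp3 : 3 ≤ p := by have := hp.two_le; omega
  have hpi : Prime (p : ℤ) := Nat.prime_iff_prime_int.1 hp
  have hss : s * s = 1 := by rcases hs with rfl | rfl <;> norm_num
  obtain ⟨γ, hγ⟩ := IsCyclic.exists_monoid_generator (α := (ZMod p)ˣ)
  have hord : orderOf γ = p - 1 := by
    rw [orderOf_eq_card_of_forall_mem_powers hγ, Nat.card_eq_fintype_card, ZMod.card_units]
  have hv : (((γ : ZMod p).val : ℕ) : ZMod p) = (γ : ZMod p) := ZMod.natCast_zmod_val _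
  have hg0 : ¬ p ∣ (γ : ZMod p).val := by
    intro h
    have : (((γ : ZMod p).val : ℕ) : ZMod p) = 0 := (ZMod.natCast_eq_zero_iff _ _).2 h
    rw [hv] at this
    exact γ.ne_zero this
  obtain ⟨g, hg, hg2⟩ := lift_g p _ hp hg0
  rw [hv] at hg
  have hgp : ¬ p ∣ g := by
    intro h
    have : (g : ZMod p) = 0 := (ZMod.natCast_eq_zero_iff _ _).2 h
    rw [hg] at this
    exact γ.ne_zero this
  refine ⟨g, hgp, ?_, ?_⟩
  · rw [← jacobiSym.legendreSym.to_jacobiSym, legendreSym.eq_neg_one_iff]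
    rintro ⟨x, hx⟩
    rw [Int.cast_natCast, hg] at hx
    have hx0 : x ≠ 0 := by
      rintro rfl
      exact γ.ne_zero (by simpa using hx)
    obtain ⟨k, hk⟩ := hγ (Units.mk0 x hx0)
    have hk' : (γ : ZMod p) ^ k = x := by
      have := congrArg (fun u : (ZMod p)ˣ => (u : ZMod p)) hk
      simpa using this
    have h1 : γ ^ (2 * k) = γ ^ 1 := by
      apply Units.ext
      rw [Units.val_pow_eq_pow_val, Units.val_pow_eq_pow_val, pow_one, mul_comm 2 k, pow_mul, hk',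
        pow_two, ← hx]
    rw [pow_eq_pow_iff_modEq, hord] at h1
    have hodd : 2 ∣ p - 1 := by
      have := hp.eq_two_or_odd
      omega
    have h2 := h1.of_dvd hodd
    unfold Nat.ModEq at h2
    omega
  · intro l hl N
    have hlγ : (l : ZMod p) = (γ : ZMod p) := by
      rw [← hg]
      exact (ZMod.natCast_eq_natCast_iff _ _ _).2 (hl.of_dvd (dvd_pow_self p two_ne_zero))
    have hlp : ¬ (p : ℤ) ∣ (l : ℤ) := by
      intro h
      have h' : p ∣ l := by exact_mod_cast h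
      have : (l : ZMod p) = 0 := (ZMod.natCast_eq_zero_iff _ _).2 h'
      rw [hlγ] at this
      exact γ.ne_zero this
    -- `z = l ^ (2 (p - 1))`
    have hF : (p : ℤ) ∣ (l : ℤ) ^ (p - 1) - 1 := by
      rw [← ZMod.intCast_zmod_eq_zero_iff_dvd]
      push_cast
      rw [hlγ, ZMod.pow_card_sub_one_eq_one γ.ne_zero, sub_self]
    have hF2 : ¬ (p : ℤ) ^ 2 ∣ (l : ℤ) ^ (p - 1) - 1 := by
      intro h
      apply hg2
      have h1 : (l : ℤ) ≡ (g : ℤ) [ZMOD ((p ^ 2 : ℕ) : ℤ)] := (Int.natCast_modEq_iff).2 hl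
      have h2 := (h1.pow (p - 1)).dvd
      have h3 := dvd_add h2 (by push_cast; exact h : ((p ^ 2 : ℕ) : ℤ) ∣ (l : ℤ) ^ (p - 1) - 1)
      have e : (g : ℤ) ^ (p - 1) - (l : ℤ) ^ (p - 1) + ((l : ℤ) ^ (p - 1) - 1)
          = (g : ℤ) ^ (p - 1) - 1 := by ring
      rw [e] at h3
      push_cast at h3
      exact h3
    have hF3 : ¬ (p : ℤ) ∣ (l : ℤ) ^ (p - 1) + 1 := by
      intro h
      have h1 := dvd_sub h hF
      have e : (l : ℤ) ^ (p - 1) + 1 - ((l : ℤ) ^ (p - 1) - 1) = ((2 : ℕ) : ℤ) := by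
        push_cast; ring
      rw [e] at h1
      have h2 : p ∣ 2 := by exact_mod_cast h1
      exact absurd (Nat.le_of_dvd (by norm_num) h2) (by omega)
    have hz : (l : ℤ) ^ (2 * (p - 1)) - 1 = ((l : ℤ) ^ (p - 1) + 1) * ((l : ℤ) ^ (p - 1) - 1) := by
      rw [mul_comm 2, pow_mul]; ring
    have hz1 : (p : ℤ) ^ 1 ∣ (l : ℤ) ^ (2 * (p - 1)) - 1 := by
      rw [hz, pow_one]; exact hF.mul_left _
    have hz2 : ¬ (p : ℤ) ^ (1 + 1) ∣ (l : ℤ) ^ (2 * (p - 1)) - 1 := by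
      rw [hz]
      intro h
      have hc : IsCoprime ((p : ℤ) ^ (1 + 1)) ((l : ℤ) ^ (p - 1) + 1) :=
        IsCoprime.pow_left ((hpi.coprime_iff_not_dvd).2 hF3)
      exact hF2 (hc.dvd_of_dvd_mul_left h)
    -- `m` with `d l ^ (2 m) = s` mod `p`
    obtain ⟨m, hm⟩ : ∃ m : ℕ, (p : ℤ) ∣ d * (l : ℤ) ^ (2 * m) - s := by
      rw [← jacobiSym.legendreSym.to_jacobiSym] at hJ
      have hsd : ((s * d : ℤ) : ZMod p) ≠ 0 := by
        intro h
        rw [ZMod.intCast_zmod_eq_zero_iff_dvd] at h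
        have h2 := h.mul_left s
        rw [← mul_assoc, hss, one_mul] at h2
        exact hpd h2
      rw [legendreSym.eq_one_iff p hsd] at hJ
      obtain ⟨x, hx⟩ := hJ
      have hx0 : x ≠ 0 := by
        rintro rfl
        exact hsd (by simpa using hx)
      obtain ⟨m, hm⟩ := hγ (Units.mk0 x hx0)⁻¹
      have hm' : (γ : ZMod p) ^ m = x⁻¹ := by
        have := congrArg (fun u : (ZMod p)ˣ => (u : ZMod p)) hm
        simpa using this
      refine ⟨m, ?_⟩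
      rw [← ZMod.intCast_zmod_eq_zero_iff_dvd]
      push_cast at hx ⊢
      rw [hlγ, mul_comm 2 m, pow_mul, hm']
      have hssz : (s : ZMod p) * (s : ZMod p) = 1 := by
        have := congrArg (fun u : ℤ => (u : ZMod p)) hss
        simpa using this
      have h5 : (s : ZMod p) * (s : ZMod p) * (d : ZMod p) * x⁻¹ ^ 2 = (s : ZMod p) := by
        rw [mul_assoc (s : ZMod p) (s : ZMod p) (d : ZMod p), hx]
        field_simp
      rw [hssz, one_mul] at h5
      rw [h5, sub_self]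
    -- `y`
    have hcop : IsCoprime (d * (l : ℤ) ^ (2 * m)) ((p : ℤ) ^ (N + 1)) := by
      apply IsCoprime.pow_right
      apply IsCoprime.symm
      apply IsCoprime.mul_right
      · exact (hpi.coprime_iff_not_dvd).2 hpd
      · exact IsCoprime.pow_right ((hpi.coprime_iff_not_dvd).2 hlp)
    obtain ⟨a, b, hab⟩ := hcop
    have hy1 : (p : ℤ) ^ (N + 1) ∣ d * (l : ℤ) ^ (2 * m) * (s * a) - s := by
      refine ⟨-s * b, ?_⟩
      linear_combination s * hab
    have hy0 : (p : ℤ) ^ 1 ∣ s * a - 1 := by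
      rw [pow_one]
      have h1 : (p : ℤ) ∣ d * (l : ℤ) ^ (2 * m) * (s * a) - s :=
        (dvd_pow_self _ (Nat.succ_ne_zero N)).trans hy1
      have h2 := hm.mul_right (s * a)
      have h3 := (dvd_sub h1 h2).mul_left s
      have e : s * (d * (l : ℤ) ^ (2 * m) * (s * a) - s - (d * (l : ℤ) ^ (2 * m) - s) * (s * a))
          = s * a - 1 := by
        linear_combination (s * a - 1) * hss
      rw [e] at h3
      exact h3
    obtain ⟨j, hj⟩ := pow_hit p hp hp2 ((l : ℤ) ^ (2 * (p - 1))) 1 le_rfl hz1 hz2 (s * a) hy0 (N + 1)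
    refine ⟨m + (p - 1) * j, ?_⟩
    have h1 : (p : ℤ) ^ (N + 1) ∣ d * (l : ℤ) ^ (2 * (m + (p - 1) * j)) - s := by
      have h2 := dvd_add (hj.mul_left (d * (l : ℤ) ^ (2 * m))) hy1
      have e : (l : ℤ) ^ (2 * (m + (p - 1) * j))
          = (l : ℤ) ^ (2 * m) * ((l : ℤ) ^ (2 * (p - 1))) ^ j := by
        rw [← pow_mul, ← pow_add]
        congr 1
        ring
      rw [e]
      have e2 : d * ((l : ℤ) ^ (2 * m) * ((l : ℤ) ^ (2 * (p - 1))) ^ j) - s
          = d * (l : ℤ) ^ (2 * m) * (((l : ℤ) ^ (2 * (p - 1))) ^ j - s * a)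
            + (d * (l : ℤ) ^ (2 * m) * (s * a) - s) := by ring
      rw [e2]
      exact h2
    exact (pow_dvd_pow _ (Nat.le_succ N)).trans h1

/-- L: choice of the prime `l`; `N₀ = (l-1)/2` for `s = 1` (`l = 3` mod `4`), `N₀ = (l-1)/4` for
`s = -1` (`l = 5` mod `8`), `l = -1` modulo the odd part of `φ` -/
theorem exists_l (p φ g : ℕ) (hp : p.Prime) (hp2 : p ≠ 2) (hφ : 0 < φ) (hφp : φ < p)
    (hg : ¬ p ∣ g) (hgJ : jacobiSym (g : ℤ) p = -1) (s : ℤ) (hs : s = 1 ∨ s = -1) (B : ℕ) :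
    ∃ l N₀ : ℕ, l.Prime ∧ B < l ∧ l ≠ 2 ∧ l ≡ g [MOD p ^ 2] ∧ 0 < N₀ ∧
      Nat.Coprime N₀ (2 * φ) ∧ (l : ℤ) ∣ (p : ℤ) ^ (2 * N₀) - s := by
  obtain ⟨k, m, hm, hkm⟩ := Nat.exists_eq_two_pow_mul_odd hφ.ne'
  have hmp : Nat.Coprime m p := by
    have hmφ : m ∣ φ := hkm ▸ Dvd.intro_left _ rfl
    have hmlt : m < p := lt_of_le_of_lt (Nat.le_of_dvd hφ hmφ) hφp
    rw [Nat.coprime_comm, hp.coprime_iff_not_dvd]
    intro hd
    exact absurd (Nat.le_of_dvd hm.pos hd) (by omega)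
  have hpodd : Odd p := hp.odd_of_ne_two hp2
  have hm8 : m ^ 2 % 8 = 1 := by
    obtain ⟨j, rfl⟩ := hm
    have h1 : (2 * j + 1) ^ 2 = 4 * (j * (j + 1)) + 1 := by ring
    have h2 : j * (j + 1) % 2 = 0 := Nat.even_iff.1 (Nat.even_mul_succ_self j)
    omega
  have hm1 : 1 ≤ m ^ 2 := Nat.one_le_pow _ _ hm.pos
  have hcop8 : Nat.Coprime (8 * m) (p ^ 2) := by
    refine Nat.Coprime.pow_right 2 (Nat.Coprime.mul_left ?_ hmp)
    have : Nat.Coprime (2 ^ 3) p := Nat.Coprime.pow_left 3 (Nat.coprime_two_left.2 hpodd)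
    simpa using this
  -- common end: from the residue modulo `8 m`
  have key : ∀ a0 : ℕ, a0 % 2 = 1 → m ∣ a0 + 1 → ∃ l : ℕ, l.Prime ∧ B + p + 2 < l ∧
      l ≡ g [MOD p ^ 2] ∧ l ≡ a0 [MOD 8] ∧ m ∣ l + 1 := by
    intro a0 h1 h2
    obtain ⟨a, ha1, ha2⟩ := Nat.chineseRemainder hcop8 a0 g
    have hac : Nat.Coprime a (8 * m * p ^ 2) := by
      refine Nat.Coprime.mul_right (Nat.Coprime.mul_right ?_ ?_) ?_
      · have h3 : a ≡ a0 [MOD 8] := ha1.of_dvd (Dvd.intro _ rfl)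
        have h4 : Odd a := by
          rw [Nat.odd_iff]
          have : a % 8 = a0 % 8 := h3
          omega
        have : Nat.Coprime a (2 ^ 3) := Nat.Coprime.pow_right 3 (Nat.coprime_two_right.2 h4)
        simpa using this
      · have h3 : a ≡ a0 [MOD m] := ha1.of_dvd (Dvd.intro_left _ rfl)
        have h4 : m ∣ a + 1 := by
          have : a + 1 ≡ a0 + 1 [MOD m] := h3.add_right 1
          exact (this.dvd_iff (dvd_refl m)).2 h2
        exact (Nat.Coprime.coprime_dvd_right h4 (by simp : Nat.Coprime a (a + 1)))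
      · refine Nat.Coprime.pow_right 2 ?_
        rw [Nat.coprime_comm, hp.coprime_iff_not_dvd]
        intro hd
        apply hg
        have h3 : a ≡ g [MOD p] := ha2.of_dvd (dvd_pow_self p (by norm_num))
        exact (h3.dvd_iff (dvd_refl p)).1 hd
    have hne : 8 * m * p ^ 2 ≠ 0 := by
      have := hm.pos
      have := hp.pos
      positivity
    obtain ⟨l, hBl, hl, hla⟩ := Nat.forall_exists_prime_gt_and_modEq (B + p + 2) hne hac
    refine ⟨l, hl, hBl, ?_, ?_, ?_⟩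
    · exact (hla.of_dvd (Dvd.intro_left _ rfl)).trans ha2
    · have h3 : l ≡ a [MOD 8 * m] := hla.of_dvd (Dvd.intro _ rfl)
      exact (h3.trans ha1).of_dvd (Dvd.intro _ rfl)
    · have h3 : l ≡ a [MOD 8 * m] := hla.of_dvd (Dvd.intro _ rfl)
      have h4 : l ≡ a0 [MOD m] := (h3.trans ha1).of_dvd (Dvd.intro_left _ rfl)
      have : l + 1 ≡ a0 + 1 [MOD m] := h4.add_right 1
      exact (this.dvd_iff (dvd_refl m)).2 h2
  have copr : ∀ l N : ℕ, m ∣ l + 1 → N ∣ l - 1 → 1 ≤ l → Odd N → Nat.Coprime N (2 * φ) := by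
    intro l N h1 h2 hl1 h3
    have h4 : Nat.Coprime N m := by
      rw [Nat.coprime_iff_gcd_eq_one]
      have h5 : Nat.gcd N m ∣ l - 1 := (Nat.gcd_dvd_left N m).trans h2
      have h6 : Nat.gcd N m ∣ l + 1 := (Nat.gcd_dvd_right N m).trans h1
      have h7 : Nat.gcd N m ∣ 2 := by
        have := Nat.dvd_sub h6 h5
        rwa [show l + 1 - (l - 1) = 2 by omega] at this
      rcases (Nat.dvd_prime Nat.prime_two).1 h7 with h8 | h8
      · exact h8
      · exfalso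
        have h9 : 2 ∣ m := h8 ▸ Nat.gcd_dvd_right N m
        obtain ⟨j, rfl⟩ := hm
        omega
    have h5 : Nat.Coprime N 2 := Nat.coprime_two_right.2 h3
    rw [hkm]
    exact Nat.Coprime.mul_right h5 (Nat.Coprime.mul_right (h5.pow_right k) h4)
  have := Fact.mk hp
  rcases hs with rfl | rfl
  · obtain ⟨l, hl, hBl, hlg, hl8, hlm⟩ := key (8 * m - 1) (by have := hm.pos; omega)
      (by have := hm.pos; rw [show 8 * m - 1 + 1 = 8 * m by omega]; exact Dvd.intro_left _ rfl)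
    have hl8' : l % 8 = 7 := by
      have h1 : l % 8 = (8 * m - 1) % 8 := hl8
      have := hm.pos
      omega
    have := Fact.mk hl
    refine ⟨l, (l - 1) / 2, hl, by omega, by omega, hlg, by omega, ?_, ?_⟩
    · exact copr l _ hlm ⟨2, by omega⟩ (by omega) (Nat.odd_iff.2 (by omega))
    · have h2 : 2 * ((l - 1) / 2) = l - 1 := by omega
      rw [h2, ← ZMod.intCast_zmod_eq_zero_iff_dvd]
      push_cast
      have hpl : ((p : ℕ) : ZMod l) ≠ 0 := by
        rw [Ne, ZMod.natCast_eq_zero_iff]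
        intro hd
        have := Nat.le_of_dvd hp.pos hd
        omega
      rw [ZMod.pow_card_sub_one_eq_one hpl, sub_self]
  · obtain ⟨l, hl, hBl, hlg, hl8, hlm⟩ := key (6 * m ^ 2 - 1) (by omega)
      (by rw [show 6 * m ^ 2 - 1 + 1 = 6 * m ^ 2 by omega, pow_two]
          exact ⟨6 * m, by ring⟩)
    have hl8' : l % 8 = 5 := by
      have h1 : l % 8 = (6 * m ^ 2 - 1) % 8 := hl8
      omega
    have := Fact.mk hl
    refine ⟨l, (l - 1) / 4, hl, by omega, by omega, hlg, by omega, ?_, ?_⟩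
    · exact copr l _ hlm ⟨4, by omega⟩ (by omega) (Nat.odd_iff.2 (by omega))
    · have h2 : 2 * ((l - 1) / 4) = l / 2 := by omega
      rw [h2, ← ZMod.intCast_zmod_eq_zero_iff_dvd]
      have h3 : (legendreSym l (p : ℤ) : ZMod l) = ((p : ℤ) : ZMod l) ^ (l / 2) :=
        legendreSym.eq_pow l p
      have h4 : legendreSym l (p : ℤ) = -1 := by
        have h6 := legendreSym.quadratic_reciprocity_one_mod_four (p := l) (q := p) (by omega) hp2
        rw [← h6, jacobiSym.legendreSym.to_jacobiSym, jacobiSym.mod_left]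
        have h5 : (l : ℤ) % (p : ℤ) = (g : ℤ) % (p : ℤ) := by
          have : l ≡ g [MOD p] := hlg.of_dvd (dvd_pow_self p (by norm_num))
          exact_mod_cast this
        rw [h5, ← jacobiSym.mod_left]
        exact hgJ
      rw [h4] at h3
      push_cast at h3 ⊢
      rw [← h3]
      ring

/-- Euler's theorem for integers -/
theorem euler_int (n : ℕ) (t : ℤ) (h : IsCoprime t (n : ℤ)) (k : ℕ) (hk : n.totient ∣ k) :
    (n : ℤ) ∣ t ^ k - 1 := by
  obtain ⟨j, rfl⟩ := hk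
  rw [← Int.modEq_iff_dvd, ← ZMod.intCast_eq_intCast_iff]
  have hu : IsUnit (t : ZMod n) := by
    have := (Int.isCoprime_iff_gcd_eq_one.mp h)
    exact (ZMod.coe_int_isUnit_iff_isCoprime t n).mpr h.symm
  obtain ⟨u, hu⟩ := hu
  push_cast
  rw [← hu, ← Units.val_pow_eq_pow_val, pow_mul, ZMod.pow_totient, one_pow, Units.val_one]

/-- final assembly -/
theorem unit_exists (c d : ℤ) (h : IsCoprime c d) :
    ∃ t x y : ℤ, (x ^ 2 + t * x * y + d * y ^ 2 = 1 ∨ x ^ 2 + t * x * y + d * y ^ 2 = -1) ∧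
      d ∣ x - c := by
  rcases Nat.lt_or_ge d.natAbs 2 with hd | hd
  · rcases Nat.lt_or_ge d.natAbs 1 with hd0 | hd1
    · have : d = 0 := by omega
      subst this
      have hc : IsUnit c := isCoprime_zero_right.mp h
      rcases Int.isUnit_iff.mp hc with rfl | rfl
      · exact ⟨0, 1, 0, Or.inl (by norm_num), by norm_num⟩
      · exact ⟨0, -1, 0, Or.inl (by norm_num), by norm_num⟩
    · have hu : d ∣ 1 - c := by
        have h1 : d.natAbs = 1 := by omega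
        exact Int.natAbs_dvd_natAbs.mp (by rw [h1]; exact one_dvd _)
      exact ⟨0, 1, 0, Or.inl (by norm_num), hu⟩
  set D : ℕ := d.natAbs with hDdef
  have hd0 : d ≠ 0 := by rintro rfl; simp [hDdef] at hd
  have hDd : (D : ℤ) ∣ d ∧ d ∣ (D : ℤ) := ⟨by simp [hDdef], by simp [hDdef]⟩
  obtain ⟨s, hs, hsd⟩ : ∃ s : ℤ, (s = 1 ∨ s = -1) ∧ s * d = -(D : ℤ) := by
    rcases lt_or_gt_of_ne hd0 with hneg | hpos
    · exact ⟨1, Or.inl rfl, by rw [hDdef]; omega⟩
    · exact ⟨-1, Or.inr rfl, by rw [hDdef]; omega⟩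
  have hss : s * s = 1 := by rcases hs with rfl | rfl <;> norm_num
  have hDpos : 0 < D := by omega
  have hφ : 0 < D.totient := Nat.totient_pos.mpr hDpos
  have hφD : D.totient ≤ D := Nat.totient_le D
  have hcD : IsCoprime c (D : ℤ) := h.of_isCoprime_of_dvd_right hDd.1
  obtain ⟨p, hp, hpD, hpJ, hpc⟩ := exists_p c D hDpos hcD D
  have hp2 : p ≠ 2 := by omega
  have hpd : ¬ (p : ℤ) ∣ d := by
    intro hh
    have := Nat.le_of_dvd hDpos (Int.natCast_dvd.mp hh)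
    omega
  obtain ⟨g, hg, hgJ, hgM⟩ := exists_g p hp hp2 d s hs hpd (by rw [hsd]; exact hpJ)
  obtain ⟨l, N₀, hl, hlB, hl2, hlg, hN₀, hcop, hlN⟩ :=
    exists_l p D.totient g hp hp2 hφ (by omega) hg hgJ s hs (p + D)
  have hld : ¬ (l : ℤ) ∣ d := by
    intro hh
    have := Nat.le_of_dvd hDpos (Int.natCast_dvd.mp hh)
    omega
  obtain ⟨W, hW⟩ := exists_k l hl hl2 d hd hld
  -- the exponent N
  have hlφ : ¬ l ∣ D.totient := fun hh => by
    have := Nat.le_of_dvd hφ hh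
    omega
  have hcop2 : Nat.Coprime (N₀ * l ^ W) (2 * D.totient) := by
    refine Nat.Coprime.mul_left hcop (Nat.Coprime.pow_left _ ?_)
    refine (Nat.Prime.coprime_iff_not_dvd hl).mpr fun hh => ?_
    rcases (Nat.Prime.dvd_mul hl).mp hh with h2 | h2
    · have := Nat.le_of_dvd (by norm_num) h2
      have := hl.two_le
      omega
    · exact hlφ h2
  obtain ⟨N, hN0, hN1⟩ := Nat.chineseRemainder hcop2 0 1
  have hNodd : N % 2 = 1 := by
    have : N % 2 = 1 % 2 := Nat.ModEq.of_mul_right _ hN1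
    simpa using this
  have hNpos : 0 < N := by omega
  obtain ⟨n₁, hn₁⟩ := (Nat.modEq_zero_iff_dvd.mp hN0)
  have hNφ : D.totient ∣ N - 1 := by
    have h1 : 1 ≡ N [MOD D.totient] := (Nat.ModEq.of_mul_left _ hN1).symm
    exact (Nat.modEq_iff_dvd' hNpos).mp h1
  obtain ⟨M, hM⟩ := hgM l hlg N
  have hpl : p ≠ l := by omega
  -- y = s p^(2N)
  have hy : (l : ℤ) ^ W ∣ s * (p : ℤ) ^ (2 * N) - 1 := by
    have h1 : (l : ℤ) ∣ s * (p : ℤ) ^ (2 * N₀) - 1 := by
      have h2 : s * (p : ℤ) ^ (2 * N₀) - 1 = s * ((p : ℤ) ^ (2 * N₀) - s) := by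
        linear_combination hss
      rw [h2]
      exact hlN.mul_left s
    have h3 : (l : ℤ) ^ (W + 1) ∣ (s * (p : ℤ) ^ (2 * N₀)) ^ l ^ W - 1 ^ l ^ W :=
      dvd_sub_pow_of_dvd_sub (by exact_mod_cast h1) W
    rw [one_pow] at h3
    have h4 : (s * (p : ℤ) ^ (2 * N₀)) ^ l ^ W - 1 ∣
        ((s * (p : ℤ) ^ (2 * N₀)) ^ l ^ W) ^ n₁ - 1 ^ n₁ := sub_dvd_pow_sub_pow _ _ _
    rw [one_pow] at h4
    have h5 : ((s * (p : ℤ) ^ (2 * N₀)) ^ l ^ W) ^ n₁ = s * (p : ℤ) ^ (2 * N) := by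
      have hodd : Odd (l ^ W * n₁) := by
        have : Odd N := Nat.odd_iff.mpr hNodd
        rw [hn₁, mul_assoc] at this
        exact (Nat.odd_mul.mp this).2
      have hs1 : s ^ (l ^ W * n₁) = s := by
        rcases hs with rfl | rfl
        · exact one_pow _
        · exact hodd.neg_one_pow
      rw [← pow_mul, mul_pow, hs1, ← pow_mul, hn₁]
      congr 2
      ring
    rw [h5] at h4
    exact (dvd_trans (pow_dvd_pow _ (Nat.le_succ W)) h3).trans h4
  have hφp : 0 < (p ^ N).totient := Nat.totient_pos.mpr (pow_pos hp.pos N)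
  have hlF : ¬ l ∣ D.totient * (p ^ N).totient := by
    intro hh
    rcases (Nat.Prime.dvd_mul hl).mp hh with h2 | h2
    · exact hlφ h2
    · rw [Nat.totient_prime_pow hp hNpos] at h2
      rcases (Nat.Prime.dvd_mul hl).mp h2 with h3 | h3
      · exact hpl ((Nat.prime_dvd_prime_iff_eq hl hp).mp (hl.dvd_of_dvd_pow h3)).symm
      · have := Nat.le_of_dvd (by have := hp.two_le; omega) h3
        omega
  obtain ⟨k, hk0, hkF, hk⟩ := hW (D.totient * (p ^ N).totient) (Nat.mul_pos hφ hφp) hlF M _ hy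
  have hkD : D.totient ∣ k := (Dvd.intro _ rfl).trans hkF
  have hkp : (p ^ N).totient ∣ k := (Dvd.intro_left _ rfl).trans hkF
  have hcpd : IsCoprime (p : ℤ) d := (Nat.prime_iff_prime_int.mp hp).coprime_iff_not_dvd.mpr hpd
  have hcld : IsCoprime (l : ℤ) d := (Nat.prime_iff_prime_int.mp hl).coprime_iff_not_dvd.mpr hld
  -- a = p^N, m = l^M
  have ha : ((p : ℤ) ^ N) ∣ d * (l : ℤ) ^ (2 * M) - s * d ^ k := by
    have h1 : ((p ^ N : ℕ) : ℤ) ∣ d ^ k - 1 :=
      euler_int (p ^ N) d (by push_cast; exact (hcpd.pow_left).symm) k hkp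
    have h2 : d * (l : ℤ) ^ (2 * M) - s * d ^ k
        = (d * (l : ℤ) ^ (2 * M) - s) - s * (d ^ k - 1) := by ring
    rw [h2]
    exact dvd_sub hM ((by exact_mod_cast h1 : ((p : ℤ) ^ N) ∣ d ^ k - 1).mul_left s)
  have hm : ((l : ℤ) ^ M) ∣ (p : ℤ) ^ (2 * N) - s * d ^ k := by
    have h2 : (p : ℤ) ^ (2 * N) - s * d ^ k = (-s) * (d ^ k - s * (p : ℤ) ^ (2 * N)) := by
      linear_combination (-(p : ℤ) ^ (2 * N)) * hss
    rw [h2]
    exact hk.mul_left _
  have hcop3 : IsCoprime ((p : ℤ) ^ N) ((l : ℤ) ^ M) := by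
    refine IsCoprime.pow ?_
    exact Nat.isCoprime_iff_coprime.mpr ((Nat.coprime_primes hp hl).mpr hpl)
  obtain ⟨t, ht⟩ : ((p : ℤ) ^ N) * ((l : ℤ) ^ M) ∣
      ((p : ℤ) ^ N) ^ 2 + d * ((l : ℤ) ^ M) ^ 2 - s * d ^ k := by
    refine hcop3.mul_dvd ?_ ?_
    · have h2 : ((p : ℤ) ^ N) ^ 2 + d * ((l : ℤ) ^ M) ^ 2 - s * d ^ k
          = ((p : ℤ) ^ N) * ((p : ℤ) ^ N) + (d * (l : ℤ) ^ (2 * M) - s * d ^ k) := by ring
      rw [h2]
      exact dvd_add (Dvd.intro _ rfl) ha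
    · have h2 : ((p : ℤ) ^ N) ^ 2 + d * ((l : ℤ) ^ M) ^ 2 - s * d ^ k
          = ((l : ℤ) ^ M) * (d * (l : ℤ) ^ M) + ((p : ℤ) ^ (2 * N) - s * d ^ k) := by ring
      rw [h2]
      exact dvd_add (Dvd.intro _ rfl) hm
  have hcAd : IsCoprime (-((p : ℤ) ^ N)) d := hcpd.pow_left.neg_left
  obtain ⟨x, y, hxy, hx⟩ := unit_of_norm d t s hd0 k (-((p : ℤ) ^ N)) ((l : ℤ) ^ M) hcAd (by
    linear_combination ht)
  -- t is prime to d
  have htd : IsCoprime t d := by
    obtain ⟨k', rfl⟩ : ∃ k', k = k' + 1 := ⟨k - 1, by omega⟩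
    have h1 : IsCoprime (((p : ℤ) ^ N) ^ 2 + d * (((l : ℤ) ^ M) ^ 2 - s * d ^ k')) d :=
      (hcpd.pow_left.pow_left).add_mul_left_left _
    have h2 : ((p : ℤ) ^ N) ^ 2 + d * (((l : ℤ) ^ M) ^ 2 - s * d ^ k')
        = (((p : ℤ) ^ N) * ((l : ℤ) ^ M)) * t := by
      rw [pow_succ] at ht
      linear_combination ht
    rw [h2] at h1
    exact h1.of_mul_left_right
  have htk : d ∣ t ^ k - 1 :=
    hDd.2.trans (euler_int D t (htd.of_isCoprime_of_dvd_right hDd.1) k hkD)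
  have hpN : d ∣ (p : ℤ) ^ N - p := by
    have h1 : (D : ℤ) ∣ (p : ℤ) ^ (N - 1) - 1 :=
      euler_int D p (hcpd.of_isCoprime_of_dvd_right hDd.1) (N - 1) hNφ
    have h2 : (p : ℤ) ^ N - p = p * ((p : ℤ) ^ (N - 1) - 1) := by
      obtain ⟨N', rfl⟩ : ∃ N', N = N' + 1 := ⟨N - 1, by omega⟩
      rw [Nat.add_sub_cancel, pow_succ]
      ring
    rw [h2]
    exact (hDd.2.trans h1).mul_left _
  have hxp : d ∣ x + p := by
    have h1 : x + p = (x * t ^ k - -((p : ℤ) ^ N)) - x * (t ^ k - 1) - ((p : ℤ) ^ N - p) := by ring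
    rw [h1]
    exact dvd_sub (dvd_sub hx (htk.mul_left x)) hpN
  rcases hpc with hpc | hpc
  · refine ⟨t, -x, -y, ?_, ?_⟩
    · have h1 : (-x) ^ 2 + t * -x * -y + d * (-y) ^ 2 = s := by rw [← hxy]; ring
      rcases hs with rfl | rfl
      · exact Or.inl h1
      · exact Or.inr h1
    · have h1 : -x - c = -(x + p) + (p - c) := by ring
      rw [h1]
      exact dvd_add (hxp.neg_right) (hDd.2.trans hpc)
  · refine ⟨t, x, y, ?_, ?_⟩
    · rcases hs with rfl | rfl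
      · exact Or.inl hxy
      · exact Or.inr hxy
    · have h1 : x - c = (x + p) - (p + c) := by ring
      rw [h1]
      exact dvd_sub hxp (hDd.2.trans hpc)

end Pool.Agent.Lib.MP_efa98f_al.E22
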