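import Pool.Agent.Lib.MP_efa98f_al.Three77.Nd
import Pool.Agent.Lib.MP_efa98f_al.Three77.Five
import Pool.Agent.Lib.MP_efa98f_al.Sym11
import Pool.Agent.Lib.MP_efa98f_al.UnitAll
import Pool.Agent.Lib.MP_efa98f_al.NT86

set_option autoImplicit false

/-!
# MP_efa98f_al: the exact criterion for the degenerate coset of `SL(3,ℤ)`
-/

open scoped Pointwise

namespace Pool.Agent.Lib.MP_efa98f_al.Crit88

open Pool.Agent.Lib.MP_efa98f_al.Ext77 Pool.Agent.Lib.MP_efa98f_al.Sym11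

/-- the chain of divisibilities -/
def Chain (β ε : ℤ) : Prop :=
  ∃ e B A V W k n f : ℤ, β ∣ e - ε ∧ e ∣ B - β ∧ B ∣ A - e ∧ A ∣ V - B ∧ V ∣ W - A ∧
    W ∣ k * n - V ∧ n ∣ W - 1 ∧ k ∣ W - f ∧ f ∣ k - 1

/-- forward elimination -/
theorem chain_of_eqs {p q E z1 z2 z3 a1 a2 b21 b22 b11 b12 y1 a21 a22 x2 : ℤ}
    (h31 : 1 + a1 * b21 + a2 * b22 = b12)
    (h32 : a1 + a2 * z3 = b12 * a21 + y1)
    (h33 : a2 = b12 * a22 + (y1 * x2 + 1))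
    (h21 : E + (E * a1 + (p + q * z1)) * b21 + (E * a2 + (q + (p + q * z1) * z2)) * b22 = b11)
    (h22 : (E * a1 + (p + q * z1)) + (E * a2 + (q + (p + q * z1) * z2)) * z3 = b11 * a21 + 1)
    (h23 : E * a2 + (q + (p + q * z1) * z2) = b11 * a22 + x2) : Chain q p := by
  obtain ⟨e, he⟩ : ∃ e, e = p + q * z1 := ⟨_, rfl⟩
  rw [← he] at h21 h22 h23
  obtain ⟨B, hB⟩ : ∃ B, B = q + e * z2 := ⟨_, rfl⟩
  rw [← hB] at h21 h22 h23
  obtain ⟨A, hA⟩ : ∃ A, A = e + B * z3 := ⟨_, rfl⟩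
  obtain ⟨κ, hκ⟩ : ∃ κ, κ = e * b21 + B * b22 := ⟨_, rfl⟩
  have r1 : b11 = E * b12 + κ := by
    linear_combination -h21 + E * h31 - hκ
  have rA : A = κ * a21 + 1 - E * y1 := by
    linear_combination hA + h22 - E * h32 + a21 * r1
  have rB : B = κ * a22 + x2 - E * (y1 * x2 + 1) := by
    linear_combination h23 - E * h33 + a22 * r1
  obtain ⟨τ0, hτ0⟩ : ∃ τ0, τ0 = a22 - x2 * a21 := ⟨_, rfl⟩
  obtain ⟨α, hα⟩ : ∃ α, α = a21 - y1 * τ0 := ⟨_, rfl⟩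
  obtain ⟨τ, hτ⟩ : ∃ τ, τ = τ0 + E * α := ⟨_, rfl⟩
  obtain ⟨V, hV⟩ : ∃ V, V = B - x2 * A := ⟨_, rfl⟩
  obtain ⟨W, hW⟩ : ∃ W, W = A - y1 * V := ⟨_, rfl⟩
  have rV : V = κ * τ0 - E := by
    rw [hV, rB, rA, hτ0]; ring
  have rW : W = κ * α + 1 := by
    rw [hW, rV, rA, hα]; ring
  obtain ⟨Q, hQ⟩ : ∃ Q, Q = b22 - z3 * b21 := ⟨_, rfl⟩
  obtain ⟨s0, hs0⟩ : ∃ s0, s0 = 1 - a21 * b21 - a22 * Q := ⟨_, rfl⟩
  have i1 : b12 * s0 = 1 + y1 * b21 + (y1 * x2 + 1) * Q := by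
    rw [hs0]
    linear_combination -h31 + b21 * h32 + Q * h33 - a2 * hQ
  have i2 : κ * s0 = b21 + x2 * Q - E * (y1 * b21 + (y1 * x2 + 1) * Q) := by
    rw [hs0]
    linear_combination hκ - b21 * hA + b21 * rA + Q * rB - B * hQ
  refine ⟨e, B, A, V, W, -τ, -κ, W + τ * b12, ⟨z1, ?_⟩, ⟨z2, ?_⟩, ⟨z3, ?_⟩, ⟨-x2, ?_⟩,
    ⟨-y1, ?_⟩, ⟨E, ?_⟩, ⟨-α, ?_⟩, ⟨b12, ?_⟩, ⟨-s0, ?_⟩⟩
  · rw [he]; ring
  · rw [hB]; ring
  · rw [hA]; ring
  · rw [hV]; ring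
  · rw [hW]; ring
  · rw [rW, rV, hτ]; ring
  · rw [rW]; ring
  · ring
  · rw [rW, hτ]
    have : (κ * α + 1 + (τ0 + E * α) * b12) * s0 = 1 + (τ0 + E * α) := by
      have e1 : (κ * α + 1 + (τ0 + E * α) * b12) * s0 =
          s0 + α * (κ * s0) + (τ0 + E * α) * (b12 * s0) := by ring
      rw [e1, i1, i2, hs0, hα, hτ0]; ring
    linear_combination this

/-- backward elimination -/
theorem eqs_of_chain {p q : ℤ} (h : Chain q p) :
    ∃ E z1 z2 z3 a1 a2 b21 b22 b11 b12 y1 a21 a22 x2 : ℤ,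
    1 + a1 * b21 + a2 * b22 = b12 ∧
    a1 + a2 * z3 = b12 * a21 + y1 ∧
    a2 = b12 * a22 + (y1 * x2 + 1) ∧
    E + (E * a1 + (p + q * z1)) * b21 + (E * a2 + (q + (p + q * z1) * z2)) * b22 = b11 ∧
    (E * a1 + (p + q * z1)) + (E * a2 + (q + (p + q * z1) * z2)) * z3 = b11 * a21 + 1 ∧
    E * a2 + (q + (p + q * z1) * z2) = b11 * a22 + x2 := by
  obtain ⟨e, B, A, V, W, k, n, f, ⟨z1, c1⟩, ⟨z2, c2⟩, ⟨z3, c3⟩, ⟨v, c4⟩, ⟨w', c5⟩, ⟨E, c6⟩,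
    ⟨ω, c7⟩, ⟨b12, c8⟩, ⟨j, c9⟩⟩ := h
  have he : e = p + q * z1 := by linear_combination c1
  have hB : B = q + e * z2 := by linear_combination c2
  have hA : A = e + B * z3 := by linear_combination c3
  obtain ⟨τ0, hτ0⟩ : ∃ τ0, τ0 = -k + E * ω := ⟨_, rfl⟩
  obtain ⟨a21, ha21⟩ : ∃ a21, a21 = -ω - w' * τ0 := ⟨_, rfl⟩
  obtain ⟨a22, ha22⟩ : ∃ a22, a22 = τ0 - v * a21 := ⟨_, rfl⟩
  obtain ⟨β1, hβ1⟩ : ∃ β1, β1 = -(n * j) := ⟨_, rfl⟩
  obtain ⟨β2, hβ2⟩ : ∃ β2, β2 = 1 + b12 * j := ⟨_, rfl⟩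
  obtain ⟨d1, hd1⟩ : ∃ d1, d1 = β1 + E * β2 := ⟨_, rfl⟩
  obtain ⟨d2, hd2⟩ : ∃ d2, d2 = β2 + w' * d1 := ⟨_, rfl⟩
  obtain ⟨P, hP⟩ : ∃ P, P = d1 + v * d2 := ⟨_, rfl⟩
  obtain ⟨σ1, hσ1⟩ : ∃ σ1, σ1 = b12 * a21 - w' := ⟨_, rfl⟩
  obtain ⟨σ2, hσ2⟩ : ∃ σ2, σ2 = b12 * a22 + ((-w') * (-v) + 1) := ⟨_, rfl⟩
  have hV : V = -n * τ0 - E := by
    rw [hτ0]
    linear_combination -c6 - E * c7
  have hAA : A = -n * a21 + 1 + E * w' := by
    rw [ha21]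
    linear_combination -c5 + c7 - w' * hV
  have hBB : B = -n * a22 - v - E * ((-w') * (-v) + 1) := by
    rw [ha22]
    linear_combination -c4 + hV - v * hAA
  have k1 : a21 * P + a22 * d2 = -j - 1 := by
    have e1 : a21 * P + a22 * d2 = -ω * β1 + (τ0 - E * ω) * β2 := by
      rw [hP, ha22, hd2, ha21, hd1]; ring
    rw [e1, hβ1, hβ2, hτ0]
    linear_combination (-j) * c7 + j * c8 - c9
  have k2 : (-w') * P + ((-w') * (-v) + 1) * d2 = β2 := by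
    rw [hP, hd2]; ring
  have k3 : σ1 * P + σ2 * d2 = 1 - b12 := by
    rw [hσ1, hσ2]
    linear_combination b12 * k1 + k2 + hβ2
  have k4 : A * P + B * d2 = n := by
    have e1 : P - v * d2 = d1 := by rw [hP]; ring
    rw [hAA, hBB]
    linear_combination (-n) * k1 - E * k2 + e1 + hd1 + hβ1
  refine ⟨E, z1, z2, z3, σ1 - z3 * σ2, σ2, -P, -(d2 + z3 * P), E * b12 - n, b12, -w', a21, a22,
    -v, ?_, ?_, ?_, ?_, ?_, ?_⟩
  · linear_combination -k3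
  · rw [hσ1]; ring
  · rw [hσ2]
  · rw [← he, ← hB]
    linear_combination (-E) * k3 - k4 + P * hA
  · rw [← he, ← hB]
    linear_combination (-1 : ℤ) * hA + hAA + E * hσ1
  · rw [← he, ← hB]
    linear_combination hBB + E * hσ2


theorem up_inv {u : Matrix.SpecialLinearGroup (Fin 3) ℤ} (hu : u ∈ upU) : u⁻¹ ∈ upU := by
  obtain ⟨p, q, r, e⟩ := (mem_upU_iff u).1 hu
  have e1 : u⁻¹ = up (-p) (p * r - q) (-r) := by
    rw [inv_eq_iff_mul_eq_one]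
    apply Subtype.ext
    show u.1 * (up (-p) (p * r - q) (-r)).1 = 1
    rw [e]
    unfold up
    ext i j
    fin_cases i <;> fin_cases j <;> (simp [Matrix.mul_apply, Fin.sum_univ_three] <;> ring)
  rw [e1]
  exact up_mem _ _ _

theorem lo_inv {u : Matrix.SpecialLinearGroup (Fin 3) ℤ} (hu : u ∈ loU) : u⁻¹ ∈ loU := by
  obtain ⟨p, q, r, e⟩ := (mem_loU_iff u).1 hu
  have e1 : u⁻¹ = lo (-p) (p * r - q) (-r) := by
    rw [inv_eq_iff_mul_eq_one]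
    apply Subtype.ext
    show u.1 * (lo (-p) (p * r - q) (-r)).1 = 1
    rw [e]
    unfold lo
    ext i j
    fin_cases i <;> fin_cases j <;> (simp [Matrix.mul_apply, Fin.sum_univ_three] <;> ring)
  rw [e1]
  exact lo_mem _ _ _

/-- two elements with the same second and third rows differ by an upper unitriangular factor -/
theorem row_fix {X Y : Matrix.SpecialLinearGroup (Fin 3) ℤ}
    (h1 : ∀ j, Y.1 1 j = X.1 1 j) (h2 : ∀ j, Y.1 2 j = X.1 2 j) : Y * X⁻¹ ∈ upU := by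
  have hXX : X.1 * (X⁻¹).1 = 1 := by
    have : (X * X⁻¹).1 = 1 := by rw [mul_inv_cancel]; rfl
    exact this
  have r1 : ∀ j, (Y * X⁻¹).1 1 j = (1 : Matrix (Fin 3) (Fin 3) ℤ) 1 j := by
    intro j
    rw [← hXX]
    show (Y.1 * (X⁻¹).1) 1 j = (X.1 * (X⁻¹).1) 1 j
    simp only [Matrix.mul_apply, h1]
  have r2 : ∀ j, (Y * X⁻¹).1 2 j = (1 : Matrix (Fin 3) (Fin 3) ℤ) 2 j := by
    intro j
    rw [← hXX]
    show (Y.1 * (X⁻¹).1) 2 j = (X.1 * (X⁻¹).1) 2 j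
    simp only [Matrix.mul_apply, h2]
  have e10 : (Y * X⁻¹).1 1 0 = 0 := by rw [r1]; rfl
  have e11 : (Y * X⁻¹).1 1 1 = 1 := by rw [r1]; rfl
  have e12 : (Y * X⁻¹).1 1 2 = 0 := by rw [r1]; rfl
  have e20 : (Y * X⁻¹).1 2 0 = 0 := by rw [r2]; rfl
  have e21 : (Y * X⁻¹).1 2 1 = 0 := by rw [r2]; rfl
  have e22 : (Y * X⁻¹).1 2 2 = 1 := by rw [r2]; rfl
  have hdet := (Y * X⁻¹).2
  rw [Matrix.det_fin_three, e10, e11, e12, e20, e21, e22] at hdet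
  have e00 : (Y * X⁻¹).1 0 0 = 1 := by linarith
  refine (mem_upU_iff _).2 ⟨(Y * X⁻¹).1 0 1, (Y * X⁻¹).1 0 2, 0, ?_⟩
  ext i j
  fin_cases i <;> fin_cases j
  · exact e00
  · rfl
  · rfl
  · exact e10
  · exact e11
  · exact e12
  · exact e20
  · exact e21
  · exact e22

theorem form_eq (g : Matrix.SpecialLinearGroup (Fin 3) ℤ) (h20 : g.1 2 0 = 1)
    (h21 : g.1 2 1 = 0) (h22 : g.1 2 2 = 0) :
    g.1 = !![g.1 0 0, g.1 0 1, g.1 0 2; g.1 1 0, g.1 1 1, g.1 1 2; 1, 0, 0] := by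
  ext i j
  fin_cases i <;> fin_cases j
  · rfl
  · rfl
  · rfl
  · rfl
  · rfl
  · rfl
  · exact h20
  · exact h21
  · exact h22

/-- the chain gives six letters -/
theorem mem_of_chain (g : Matrix.SpecialLinearGroup (Fin 3) ℤ) (h20 : g.1 2 0 = 1)
    (h21 : g.1 2 1 = 0) (h22 : g.1 2 2 = 0) (h : Chain (g.1 1 2) (g.1 1 1)) : g ∈ S := by
  obtain ⟨E, z1, z2, z3, a1, a2, b21, b22, b11, b12, y1, a21, a22, x2, q1, q2, q3, q4, q5, q6⟩ :=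
    eqs_of_chain h
  obtain ⟨X, hX⟩ : ∃ X, X = up 0 0 (E - g.1 1 0) * g * lo 0 0 z1 * up a1 a2 z2 *
    lo b21 b22 z3 := ⟨_, rfl⟩
  obtain ⟨Y, hY⟩ : ∃ Y, Y = lo b11 b12 y1 * up a21 a22 x2 := ⟨_, rfl⟩
  obtain ⟨g00, hg00⟩ : ∃ t, t = g.1 0 0 := ⟨_, rfl⟩
  obtain ⟨g01, hg01⟩ : ∃ t, t = g.1 0 1 := ⟨_, rfl⟩
  obtain ⟨g02, hg02⟩ : ∃ t, t = g.1 0 2 := ⟨_, rfl⟩
  obtain ⟨e1, he1⟩ : ∃ t, t = g.1 1 0 := ⟨_, rfl⟩
  obtain ⟨p, hp⟩ : ∃ t, t = g.1 1 1 := ⟨_, rfl⟩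
  obtain ⟨q, hq⟩ : ∃ t, t = g.1 1 2 := ⟨_, rfl⟩
  have hgm := form_eq g h20 h21 h22
  rw [← hg00, ← hg01, ← hg02, ← he1, ← hp, ← hq] at hgm
  rw [← hp, ← hq] at q4 q5 q6
  have hX1 : X.1 = (up 0 0 (E - e1)).1 * !![g00, g01, g02; e1, p, q; 1, 0, 0] *
    (lo 0 0 z1).1 * (up a1 a2 z2).1 * (lo b21 b22 z3).1 := by
    rw [← hgm, he1, hX]; rfl
  have hY1 : Y.1 = (lo b11 b12 y1).1 * (up a21 a22 x2).1 := by rw [hY]; rfl
  have r1 : ∀ j, Y.1 1 j = X.1 1 j := by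
    intro j
    rw [hX1, hY1]
    unfold up lo
    fin_cases j
    · simp [Matrix.mul_apply, Fin.sum_univ_three]
      linear_combination -q4
    · simp [Matrix.mul_apply, Fin.sum_univ_three]
      linear_combination -q5
    · simp [Matrix.mul_apply, Fin.sum_univ_three]
      linear_combination -q6
  have r2 : ∀ j, Y.1 2 j = X.1 2 j := by
    intro j
    rw [hX1, hY1]
    unfold up lo
    fin_cases j
    · simp [Matrix.mul_apply, Fin.sum_univ_three]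
      linear_combination -q1
    · simp [Matrix.mul_apply, Fin.sum_univ_three]
      linear_combination -q2
    · simp [Matrix.mul_apply, Fin.sum_univ_three]
      linear_combination -q3
  have hM := row_fix r1 r2
  have hg : g = ((up 0 0 (E - g.1 1 0))⁻¹ * (Y * X⁻¹)⁻¹) * lo b11 b12 y1 * up a21 a22 x2 *
      (lo b21 b22 z3)⁻¹ * (up a1 a2 z2)⁻¹ * (lo 0 0 z1)⁻¹ := by
    have e1 : (Y * X⁻¹)⁻¹ * (lo b11 b12 y1 * up a21 a22 x2) = X := by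
      rw [← hY]; group
    calc g = (up 0 0 (E - g.1 1 0))⁻¹ * X * (lo b21 b22 z3)⁻¹ * (up a1 a2 z2)⁻¹ *
        (lo 0 0 z1)⁻¹ := by rw [hX]; group
      _ = _ := by
        conv_lhs => rw [← e1]
        simp only [mul_assoc]
  rw [hg]
  exact Set.mul_mem_mul (Set.mul_mem_mul (Set.mul_mem_mul (Set.mul_mem_mul
    (Set.mul_mem_mul (up_mul (up_inv (up_mem _ _ _)) (up_inv hM)) (lo_mem _ _ _))
    (up_mem _ _ _)) (lo_inv (lo_mem _ _ _))) (up_inv (up_mem _ _ _))) (lo_inv (lo_mem _ _ _))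

/-- six letters give the chain -/
theorem chain_of_mem (g : Matrix.SpecialLinearGroup (Fin 3) ℤ) (h20 : g.1 2 0 = 1)
    (h21 : g.1 2 1 = 0) (h22 : g.1 2 2 = 0) (h : g ∈ S) : Chain (g.1 1 2) (g.1 1 1) := by
  obtain ⟨g5, h5, l3, hl3, rfl⟩ := h
  obtain ⟨g4, h4, u3, hu3, rfl⟩ := h5
  obtain ⟨g3, h3, l2, hl2, rfl⟩ := h4
  obtain ⟨g2, h2, u2, hu2, rfl⟩ := h3
  obtain ⟨u1, hu1, l1, hl1, rfl⟩ := h2
  obtain ⟨g, hg⟩ : ∃ g, g = u1 * l1 * u2 * l2 * u3 * l3 := ⟨_, rfl⟩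
  change Chain ((u1 * l1 * u2 * l2 * u3 * l3).1 1 2) ((u1 * l1 * u2 * l2 * u3 * l3).1 1 1)
  change (u1 * l1 * u2 * l2 * u3 * l3).1 2 0 = 1 at h20
  change (u1 * l1 * u2 * l2 * u3 * l3).1 2 1 = 0 at h21
  change (u1 * l1 * u2 * l2 * u3 * l3).1 2 2 = 0 at h22
  rw [← hg] at h20 h21 h22 ⊢
  have key : u1⁻¹ * g * l3⁻¹ * u3⁻¹ * l2⁻¹ = l1 * u2 := by
    rw [hg]; group
  obtain ⟨s1, s2, x1, eu1⟩ := (mem_upU_iff _).1 (up_inv hu1)
  obtain ⟨b31, b32, z1, el3⟩ := (mem_loU_iff _).1 (lo_inv hl3)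
  obtain ⟨a1, a2, z2, eu3⟩ := (mem_upU_iff _).1 (up_inv hu3)
  obtain ⟨b21, b22, z3, el2⟩ := (mem_loU_iff _).1 (lo_inv hl2)
  obtain ⟨b11, b12, y1, el1⟩ := (mem_loU_iff _).1 hl1
  obtain ⟨a21, a22, x2, eu2⟩ := (mem_upU_iff _).1 hu2
  have key1 : (u1⁻¹).1 * g.1 * (l3⁻¹).1 * (u3⁻¹).1 * (l2⁻¹).1 = l1.1 * u2.1 := by
    have := congrArg Subtype.val key
    exact this
  obtain ⟨g00, hg00⟩ : ∃ t, t = g.1 0 0 := ⟨_, rfl⟩
  obtain ⟨g01, hg01⟩ : ∃ t, t = g.1 0 1 := ⟨_, rfl⟩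
  obtain ⟨g02, hg02⟩ : ∃ t, t = g.1 0 2 := ⟨_, rfl⟩
  obtain ⟨e1, he1⟩ : ∃ t, t = g.1 1 0 := ⟨_, rfl⟩
  obtain ⟨p, hp⟩ : ∃ t, t = g.1 1 1 := ⟨_, rfl⟩
  obtain ⟨q, hq⟩ : ∃ t, t = g.1 1 2 := ⟨_, rfl⟩
  have hgm := form_eq g h20 h21 h22
  rw [← hg00, ← hg01, ← hg02, ← he1, ← hp, ← hq] at hgm
  rw [← hp, ← hq]
  rw [eu1, el3, eu3, el2, el1, eu2, hgm] at key1
  have k10 := congrFun (congrFun key1 1) 0
  have k11 := congrFun (congrFun key1 1) 1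
  have k12 := congrFun (congrFun key1 1) 2
  have k20 := congrFun (congrFun key1 2) 0
  have k21 := congrFun (congrFun key1 2) 1
  have k22 := congrFun (congrFun key1 2) 2
  simp [Matrix.mul_apply, Fin.sum_univ_three] at k10 k11 k12 k20 k21 k22
  refine chain_of_eqs (E := e1 + x1 + p * b31 + q * b32) (z1 := z1) (z2 := z2)
    (z3 := z3) (a1 := a1) (a2 := a2) (b21 := b21) (b22 := b22) (b11 := b11) (b12 := b12)
    (y1 := y1) (a21 := a21) (a22 := a22) (x2 := x2) ?_ ?_ ?_ ?_ ?_ ?_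
  · linear_combination k20
  · linear_combination k21
  · linear_combination k22
  · linear_combination k10
  · linear_combination k11
  · linear_combination k12


/-- the sign matrix -/
def D : Matrix.SpecialLinearGroup (Fin 3) ℤ :=
  ⟨!![-1, 0, 0; 0, -1, 0; 0, 0, 1], by rw [Matrix.det_fin_three]; simp⟩

theorem D_sq : D * D = 1 := by
  apply Subtype.ext
  show D.1 * D.1 = 1
  unfold D
  ext i j
  fin_cases i <;> fin_cases j <;> simp [Matrix.mul_apply, Fin.sum_univ_three]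

theorem D_up {u : Matrix.SpecialLinearGroup (Fin 3) ℤ} (hu : u ∈ upU) : D * u * D ∈ upU := by
  obtain ⟨p, q, r, e⟩ := (mem_upU_iff u).1 hu
  refine (mem_upU_iff _).2 ⟨p, -q, -r, ?_⟩
  show D.1 * u.1 * D.1 = _
  rw [e]
  unfold D
  ext i j
  fin_cases i <;> fin_cases j <;> simp [Matrix.mul_apply, Fin.sum_univ_three]

theorem D_lo {u : Matrix.SpecialLinearGroup (Fin 3) ℤ} (hu : u ∈ loU) : D * u * D ∈ loU := by
  obtain ⟨p, q, r, e⟩ := (mem_loU_iff u).1 hu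
  refine (mem_loU_iff _).2 ⟨p, -q, -r, ?_⟩
  show D.1 * u.1 * D.1 = _
  rw [e]
  unfold D
  ext i j
  fin_cases i <;> fin_cases j <;> simp [Matrix.mul_apply, Fin.sum_univ_three]

theorem D_mem {g : Matrix.SpecialLinearGroup (Fin 3) ℤ} (hg : g ∈ S) : D * g * D ∈ S := by
  obtain ⟨g5, h5, l3, hl3, rfl⟩ := hg
  obtain ⟨g4, h4, u3, hu3, rfl⟩ := h5
  obtain ⟨g3, h3, l2, hl2, rfl⟩ := h4
  obtain ⟨g2, h2, u2, hu2, rfl⟩ := h3
  obtain ⟨u1, hu1, l1, hl1, rfl⟩ := h2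
  have e : D * (u1 * l1 * u2 * l2 * u3 * l3) * D = (D * u1 * D) * (D * l1 * D) * (D * u2 * D) *
      (D * l2 * D) * (D * u3 * D) * (D * l3 * D) := by
    have h : ∀ x y : Matrix.SpecialLinearGroup (Fin 3) ℤ,
        (D * x * D) * (D * y * D) = D * (x * y) * D := by
      intro x y
      calc (D * x * D) * (D * y * D) = D * x * (D * D) * y * D := by group
        _ = D * (x * y) * D := by rw [D_sq]; group
    rw [h, h, h, h, h]
  show D * (u1 * l1 * u2 * l2 * u3 * l3) * D ∈ S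
  rw [e]
  exact Set.mul_mem_mul (Set.mul_mem_mul (Set.mul_mem_mul (Set.mul_mem_mul
    (Set.mul_mem_mul (D_up hu1) (D_lo hl1)) (D_up hu2)) (D_lo hl2)) (D_up hu3)) (D_lo hl3)

theorem of_D {g : Matrix.SpecialLinearGroup (Fin 3) ℤ} (h : D * g * D ∈ S) : g ∈ S := by
  have h2 := D_mem h
  have e : D * (D * g * D) * D = g := by
    calc D * (D * g * D) * D = (D * D) * g * (D * D) := by group
      _ = g := by rw [D_sq]; group
  rwa [e] at h2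

theorem nondeg (g : Matrix.SpecialLinearGroup (Fin 3) ℤ)
    (hg : g 2 2 ≠ 0 ∨ g 1 1 * g 2 2 - g 1 2 * g 2 1 ≠ 0) :
    g ∈ S := by
  -- the case `|δ| ≥ 2`
  have hbig : ∀ g : Matrix.SpecialLinearGroup (Fin 3) ℤ,
      2 ≤ (g.1 1 1 * g.1 2 2 - g.1 1 2 * g.1 2 1).natAbs →
      g ∈ Pool.Agent.Lib.MP_efa98f_al.Ext77.S := fun g h =>
    Pool.Agent.Lib.MP_efa98f_al.Nd77.delta_two
      (fun A B δ h1 h2 => Pool.Agent.Lib.MP_efa98f_al.E90.nt_main A B δ h1 h2) g h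
  have hstep : ∀ p q : ℤ, q = 1 ∨ q = -1 → Pool.Agent.Lib.MP_efa98f_al.Fam77.FiveStep p q := by
    intro p q hq
    have hq2 : q * q = 1 := by rcases hq with h | h <;> rw [h] <;> norm_num
    refine ⟨q * (1 - p), 0, 0, 0, 0, 1, q, 1, q, 1, ?_, ?_, ?_, ?_, ?_, Or.inl rfl⟩
    · linear_combination (p - 1) * hq2
    · ring
    · ring
    · ring
    · ring
  have hsmall := fun g => Pool.Agent.Lib.MP_efa98f_al.Sym11.sym_wrap
    (P := Pool.Agent.Lib.MP_efa98f_al.Fam77.FiveStep)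
    (fun g' h' => Pool.Agent.Lib.MP_efa98f_al.Fam77.five
      Pool.Agent.Lib.MP_efa98f_al.E22.unit_exists g' h') g
  have key : ∀ d : ℤ, d ≠ 0 → 2 ≤ d.natAbs ∨ d = 1 ∨ d = -1 := by
    intro d hd; omega
  by_cases hδ : g.1 1 1 * g.1 2 2 - g.1 1 2 * g.1 2 1 = 0
  · have h22 : g.1 2 2 ≠ 0 := by
      rcases hg with h | h
      · exact h
      · exact absurd hδ h
    rcases key _ h22 with h2 | h2
    · obtain ⟨-, e2⟩ := Pool.Agent.Lib.MP_efa98f_al.Ext77.conj_entry g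
      have h3 := hbig (Pool.Agent.Lib.MP_efa98f_al.Ext77.w * g⁻¹ *
        Pool.Agent.Lib.MP_efa98f_al.Ext77.w) (by
          unfold Pool.Agent.Lib.MP_efa98f_al.Ext77.delta at e2
          rw [e2]; exact h2)
      exact Pool.Agent.Lib.MP_efa98f_al.Sym11.of_conj h3
    · exact hsmall g (Or.inl (hstep _ _ h2))
  · rcases key _ hδ with h2 | h2
    · exact hbig g h2
    · exact hsmall g (Or.inr (Or.inr (Or.inl (hstep _ _ h2))))


/-- bottom row `(±1,0,0)` -/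
theorem row_case (H : ∀ β ε : ℤ, IsCoprime β ε → Chain β ε)
    (g : Matrix.SpecialLinearGroup (Fin 3) ℤ) (h21 : g.1 2 1 = 0) (h22 : g.1 2 2 = 0) :
    g ∈ S := by
  have key : ∀ g : Matrix.SpecialLinearGroup (Fin 3) ℤ, g.1 2 1 = 0 → g.1 2 2 = 0 →
      g.1 2 0 = 1 → g ∈ S := by
    intro g h21 h22 h20
    have hdet := g.2
    rw [Matrix.det_fin_three, h20, h21, h22] at hdet
    refine mem_of_chain g h20 h21 h22 (H _ _ ⟨g.1 0 1, -g.1 0 2, ?_⟩)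
    linear_combination hdet
  have hdet := g.2
  rw [Matrix.det_fin_three, h21, h22] at hdet
  have hu : g.1 2 0 * (g.1 0 1 * g.1 1 2 - g.1 0 2 * g.1 1 1) = 1 := by linear_combination hdet
  rcases Int.isUnit_iff.mp (IsUnit.of_mul_eq_one _ hu) with h1 | h1
  · exact key g h21 h22 h1
  · refine of_D (key _ ?_ ?_ ?_)
    · show (D.1 * g.1 * D.1) 2 1 = 0
      unfold D
      simp [Matrix.mul_apply, Matrix.vecMul, dotProduct, Fin.sum_univ_three, h21]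
    · show (D.1 * g.1 * D.1) 2 2 = 0
      unfold D
      simp [Matrix.mul_apply, Matrix.vecMul, dotProduct, Fin.sum_univ_three, h22]
    · show (D.1 * g.1 * D.1) 2 0 = 1
      unfold D
      simp [Matrix.mul_apply, Matrix.vecMul, dotProduct, Fin.sum_univ_three, h1]

/-- the exact criterion -/
theorem univ_iff : S = Set.univ ↔ ∀ β ε : ℤ, IsCoprime β ε → Chain β ε := by
  constructor
  · intro hS β ε hβ
    obtain ⟨a, b, hab⟩ := hβ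
    have hdet : (!![0, a, -b; 0, ε, β; 1, 0, 0] : Matrix (Fin 3) (Fin 3) ℤ).det = 1 := by
      rw [Matrix.det_fin_three]
      simp
      linear_combination hab
    have hmem : (⟨!![0, a, -b; 0, ε, β; 1, 0, 0], hdet⟩ :
        Matrix.SpecialLinearGroup (Fin 3) ℤ) ∈ S := by rw [hS]; trivial
    exact chain_of_mem _ rfl rfl rfl hmem
  · intro H
    refine Set.eq_univ_of_forall fun g => ?_
    by_cases h22 : g.1 2 2 = 0
    · by_cases hδ : g.1 1 1 * g.1 2 2 - g.1 1 2 * g.1 2 1 = 0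
      · rw [h22] at hδ
        have h0 : g.1 1 2 * g.1 2 1 = 0 := by linear_combination -hδ
        rcases mul_eq_zero.mp h0 with h12 | h21
        · exact of_tr (row_case H (tr g) h12 h22)
        · exact row_case H g h21 h22
      · exact nondeg g (Or.inr hδ)
    · exact nondeg g (Or.inl h22)

end Pool.Agent.Lib.MP_efa98f_al.Crit88
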