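import Mathlib

set_option autoImplicit false

/-! The exponent of the wrap-around units: for distinct primes `q = 3 mod 4` with `(q-1)/2` prime to
`φ(|d|)` and `d ^ ((q-1)/2) = s` modulo `q` for one sign `s`, the product `a` of these primes
divides `d ^ r - s` and `a ^ r = a` modulo `d` for some odd `r`. -/

namespace Pool.Agent.Lib.MP_efa98f_al.Exp84

private lemma prod_dvd (L : List ℕ) (hL : L.Nodup) (hp : ∀ q ∈ L, q.Prime) (N : ℤ)
    (h : ∀ q ∈ L, (q : ℤ) ∣ N) : ((L.prod : ℕ) : ℤ) ∣ N := by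
  induction L with
  | nil => simp
  | cons q L ih =>
    rw [List.nodup_cons] at hL
    have h1 : ((L.prod : ℕ) : ℤ) ∣ N :=
      ih hL.2 (fun x hx => hp x (List.mem_cons_of_mem _ hx)) (fun x hx => h x (List.mem_cons_of_mem _ hx))
    have h2 : (q : ℤ) ∣ N := h q List.mem_cons_self
    have h3 : Nat.Coprime q L.prod := by
      rw [Nat.coprime_list_prod_right_iff]
      intro x hx
      rw [Nat.coprime_primes (hp q List.mem_cons_self) (hp x (List.mem_cons_of_mem _ hx))]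
      rintro rfl
      exact hL.1 hx
    rw [List.prod_cons, Nat.cast_mul]
    exact IsCoprime.mul_dvd (Nat.isCoprime_iff_coprime.2 h3) h2 h1

theorem exp_piece (d : ℤ) (hd : d ≠ 0) (s : ℤ) (hs : s = 1 ∨ s = -1) (L : List ℕ)
    (hL : L.Nodup)
    (hq : ∀ q ∈ L, q.Prime ∧ q % 4 = 3 ∧ Nat.Coprime ((q - 1) / 2) (Nat.totient d.natAbs) ∧
      (q : ℤ) ∣ d ^ ((q - 1) / 2) - s ∧ IsCoprime (q : ℤ) d) :
    ∃ r : ℕ, 1 ≤ r ∧ Odd r ∧ ((L.prod : ℕ) : ℤ) ∣ d ^ r - s ∧
      d ∣ ((L.prod : ℕ) : ℤ) ^ r - ((L.prod : ℕ) : ℤ) := by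
  have hphi : 0 < Nat.totient d.natAbs := Nat.totient_pos.2 (Int.natAbs_pos.2 hd)
  set R := (L.map (fun q => (q - 1) / 2)).prod with hR
  have hc2 : Nat.Coprime R 2 := by
    rw [Nat.coprime_comm, hR, Nat.coprime_list_prod_right_iff]
    intro x hx
    obtain ⟨q, hqL, rfl⟩ := List.mem_map.1 hx
    have h4 := (hq q hqL).2.1
    rw [Nat.coprime_two_left, Nat.odd_iff]
    omega
  have hcp : Nat.Coprime R (Nat.totient d.natAbs) := by
    rw [Nat.coprime_comm, hR, Nat.coprime_list_prod_right_iff]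
    intro x hx
    obtain ⟨q, hqL, rfl⟩ := List.mem_map.1 hx
    exact (hq q hqL).2.2.1.symm
  have hc : Nat.Coprime R (2 * Nat.totient d.natAbs) := Nat.Coprime.mul_right hc2 hcp
  obtain ⟨m, hm⟩ := Nat.exists_mul_mod_eq_one_of_coprime hc (by omega)
  obtain ⟨k, hk⟩ : ∃ k, R * m = 2 * Nat.totient d.natAbs * k + 1 :=
    ⟨R * m / (2 * Nat.totient d.natAbs), by
      have := Nat.div_add_mod (R * m) (2 * Nat.totient d.natAbs)
      omega⟩
  have hodd : Odd (R * m) := ⟨Nat.totient d.natAbs * k, by rw [hk]; ring⟩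
  refine ⟨R * m, by omega, hodd, ?_, ?_⟩
  · apply prod_dvd L hL (fun q hqL => (hq q hqL).1)
    intro q hqL
    obtain ⟨-, -, -, h1, -⟩ := hq q hqL
    have h2 : (q - 1) / 2 ∣ R * m := by
      apply Dvd.dvd.mul_right
      rw [hR]
      exact List.dvd_prod (List.mem_map.2 ⟨q, hqL, rfl⟩)
    obtain ⟨j, hj⟩ := h2
    have hjo : Odd j := by
      rw [hj] at hodd
      exact (Nat.odd_mul.1 hodd).2
    have h3 : s ^ j = s := by
      rcases hs with h | h
      · rw [h, one_pow]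
      · rw [h, hjo.neg_one_pow]
    have h4 : d ^ ((q - 1) / 2) ≡ s [ZMOD (q : ℤ)] := (Int.modEq_iff_dvd.2 h1).symm
    have h5 := h4.pow j
    rw [← pow_mul, ← hj, h3] at h5
    exact Int.modEq_iff_dvd.1 h5.symm
  · have hca : Nat.Coprime L.prod d.natAbs := by
      rw [Nat.coprime_comm, Nat.coprime_list_prod_right_iff]
      intro q hqL
      have h1 := (hq q hqL).2.2.2.2
      have h2 := Int.isCoprime_iff_gcd_eq_one.1 h1
      rw [Int.gcd_def, Int.natAbs_natCast] at h2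
      rw [Nat.coprime_comm]
      exact h2
    have h1 : L.prod ^ Nat.totient d.natAbs ≡ 1 [MOD d.natAbs] := Nat.ModEq.pow_totient hca
    have h2 : L.prod ^ (R * m) ≡ L.prod [MOD d.natAbs] := by
      have h3 : L.prod ^ (R * m) = (L.prod ^ Nat.totient d.natAbs) ^ (2 * k) * L.prod := by
        rw [hk, ← pow_mul, ← pow_succ]
        congr 1
        ring
      rw [h3]
      have h4 := (h1.pow (2 * k)).mul_right L.prod
      rwa [one_pow, one_mul] at h4
    have h5 := Nat.modEq_iff_dvd.1 h2.symm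
    rw [Int.natAbs_dvd] at h5
    rw [Nat.cast_pow] at h5
    exact h5

end Pool.Agent.Lib.MP_efa98f_al.Exp84
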