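import Pool.Agent.Lib.MP_efa98f_al.Psi

namespace Pool.Agent.Lib.MP_efa98f_al

open Matrix

/-- A vector not divisible by any prime is unimodular. -/
theorem unimod_of_primes {k : ℕ} (v : Fin k → ℤ)
    (h : ∀ p : ℕ, p.Prime → ¬ ∀ i, (p : ℤ) ∣ v i) : ∃ u : Fin k → ℤ, u ⬝ᵥ v = 1 := by
  have hI : Ideal.span (Set.range v) = ⊤ := by
    by_contra hne
    obtain ⟨m, hm, hle⟩ := Ideal.exists_le_maximal _ hne
    obtain ⟨d, hd⟩ : ∃ d : ℤ, m = Ideal.span {d} := by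
      obtain ⟨d, hd⟩ := IsPrincipalIdealRing.principal m
      exact ⟨d, hd⟩
    have hdu : ¬ IsUnit d := by
      intro hu
      apply hm.ne_top
      rw [hd, Ideal.span_singleton_eq_top]
      exact hu
    have hd1 : d.natAbs ≠ 1 := by
      intro h1
      exact hdu (Int.isUnit_iff_natAbs_eq.mpr h1)
    obtain ⟨p, hp, hpd⟩ := Nat.exists_prime_and_dvd hd1
    apply h p hp
    intro i
    have h1 : v i ∈ m := hle (Ideal.subset_span ⟨i, rfl⟩)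
    rw [hd, Ideal.mem_span_singleton] at h1
    exact (Int.natCast_dvd.mpr hpd).trans h1
  have h1 : (1 : ℤ) ∈ Ideal.span (Set.range v) := by rw [hI]; trivial
  obtain ⟨c, hc⟩ := Ideal.mem_span_range_iff_exists_fun.mp h1
  exact ⟨c, hc⟩

/-- Choosing `Z` such that `Z x - y` is not divisible by any prime. -/
theorem exists_shift_vec {k : ℕ} (x y : Fin k → ℤ) (D : ℤ) (hD : D ≠ 0)
    (hDd : ∀ p : ℕ, p.Prime → ∀ Z : ℤ, (∀ i, (p : ℤ) ∣ Z * x i - y i) → (p : ℤ) ∣ D)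
    (hxy : ∀ p : ℕ, p.Prime → ¬ ((∀ i, (p : ℤ) ∣ x i) ∧ ∀ i, (p : ℤ) ∣ y i)) :
    ∃ Z : ℤ, ∀ p : ℕ, p.Prime → ¬ ∀ i, (p : ℤ) ∣ Z * x i - y i := by
  let S : Finset ℕ := D.natAbs.primeFactors.filter (fun p : ℕ => ¬ (∀ i, (p : ℤ) ∣ y i))
  refine ⟨((∏ p ∈ S, p : ℕ) : ℤ), fun p hp hall => ?_⟩
  have hpD := hDd p hp _ hall
  have hpI : Prime (p : ℤ) := Nat.prime_iff_prime_int.mp hp
  have hpf : p ∈ D.natAbs.primeFactors := by
    rw [Nat.mem_primeFactors]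
    exact ⟨hp, Int.natCast_dvd.mp hpD, by simpa using hD⟩
  by_cases hpy : ∀ i, (p : ℤ) ∣ y i
  · have hx : ∀ i, (p : ℤ) ∣ x i := by
      intro i
      have h3 : (p : ℤ) ∣ ((∏ p ∈ S, p : ℕ) : ℤ) * x i := by
        have := dvd_add (hall i) (hpy i)
        simpa using this
      rcases hpI.dvd_or_dvd h3 with h4 | h4
      · exfalso
        rw [Int.natCast_dvd_natCast] at h4
        obtain ⟨q, hq, hpq⟩ := (Prime.dvd_finsetProd_iff hp.prime _).mp h4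
        rw [Finset.mem_filter, Nat.mem_primeFactors] at hq
        have : p = q := (Nat.prime_dvd_prime_iff_eq hp hq.1.1).mp hpq
        subst this
        exact hq.2 hpy
      · exact h4
    exact hxy p hp ⟨hx, hpy⟩
  · have hpS : p ∈ S := by
      rw [Finset.mem_filter]; exact ⟨hpf, hpy⟩
    have h4 : (p : ℤ) ∣ ((∏ p ∈ S, p : ℕ) : ℤ) :=
      Int.natCast_dvd_natCast.mpr (Finset.dvd_prod_of_mem _ hpS)
    apply hpy
    intro i
    have := dvd_sub (h4.mul_right (x i)) (hall i)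
    simpa using this

/-- Two shifts. -/
theorem exists_two_shift (u0 u1 d : ℤ) (H : ∃ r s t : ℤ, r * u0 + s * u1 + t * d = 1) :
    ∃ x0 x1 : ℤ, IsCoprime (u0 - d * x0) (u1 - d * x1) := by
  by_cases h : u1 = 0
  · obtain ⟨r, s, t, H⟩ := H
    refine ⟨0, 1, r, -t, ?_⟩
    rw [h] at H ⊢
    linear_combination H
  · obtain ⟨r, s, t, H⟩ := H
    obtain ⟨x, hx⟩ := exists_coprime_shift u0 d u1 h ⟨r, t, s, by linear_combination H⟩
    exact ⟨x, 0, by simpa using hx⟩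

/-- The arithmetic of the one-transvection lemma. -/
theorem tv_arith (g02 g03 g12 g13 g22 g23 g32 g33 t Z : ℤ)
    (h20 h21 h22 h23 h30 h31 h32 h33 : ℤ)
    (H : g22 - t * g32 - Z * g23 + t * Z * g33 = 1)
    (E33 : h30 * g03 + h31 * g13 + h32 * g23 + h33 * g33 = 1)
    (E32 : h30 * g02 + h31 * g12 + h32 * g22 + h33 * g32 = 0)
    (E23 : h20 * g03 + h21 * g13 + h22 * g23 + h23 * g33 = 0)
    (E22 : h20 * g02 + h21 * g12 + h22 * g22 + h23 * g32 = 1) :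
    ∃ x0 x1 y0 y1 y2 : ℤ,
      y0 * (g03 - g33 * x0) + y1 * (g13 - g33 * x1) + y2 * (g23 - g33 * t) = 1 - g33 ∧
      y0 * (g02 - g32 * x0) + y1 * (g12 - g32 * x1) + y2 * (g22 - g32 * t) = Z - g32 := by
  obtain ⟨D1, hD1⟩ : ∃ D1, D1 = g33 * t - g23 := ⟨_, rfl⟩
  obtain ⟨e, he⟩ : ∃ e, e = g22 - g32 * t := ⟨_, rfl⟩
  have heZ : e + Z * D1 = 1 := by rw [he, hD1]; linear_combination H
  obtain ⟨d, hd⟩ : ∃ d, d = e * g33 + D1 * g32 := ⟨_, rfl⟩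
  obtain ⟨x0, x1, η0, η1, hη⟩ := exists_two_shift (e * g03 + D1 * g02) (e * g13 + D1 * g12) d
    ⟨h30 + Z * h20, h31 + Z * h21, (h32 + Z * h22) * t + (h33 + Z * h23), by
      rw [hd]
      have : (h30 + Z * h20) * (e * g03 + D1 * g02) + (h31 + Z * h21) * (e * g13 + D1 * g12) +
          (h32 + Z * h22) * (e * g23 + D1 * g22) + (h33 + Z * h23) * (e * g33 + D1 * g32) = 1 := by
        linear_combination e * E33 + D1 * E32 + Z * e * E23 + Z * D1 * E22 + heZ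
      rw [← this, he, hD1]
      ring⟩
  obtain ⟨β2, hβ2⟩ : ∃ β2, β2 = (Z - g32) - Z * (1 - g33) := ⟨_, rfl⟩
  obtain ⟨β1, hβ1⟩ : ∃ β1, β1 = (1 - g33) + D1 * β2 := ⟨_, rfl⟩
  obtain ⟨y0, hy0⟩ : ∃ y0, y0 = η0 * β1 := ⟨_, rfl⟩
  obtain ⟨y1, hy1⟩ : ∃ y1, y1 = η1 * β1 := ⟨_, rfl⟩
  obtain ⟨y2, hy2⟩ : ∃ y2, y2 = β2 - y0 * ((g02 - g32 * x0) - Z * (g03 - g33 * x0)) -
    y1 * ((g12 - g32 * x1) - Z * (g13 - g33 * x1)) := ⟨_, rfl⟩
  have k1 : y0 * ((g02 - g32 * x0) - Z * (g03 - g33 * x0)) +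
    y1 * ((g12 - g32 * x1) - Z * (g13 - g33 * x1)) + y2 = β2 := by rw [hy2]; ring
  have k2 : y0 * ((e * g03 + D1 * g02) - d * x0) + y1 * ((e * g13 + D1 * g12) - d * x1) = β1 := by
    rw [hy0, hy1]; linear_combination β1 * hη
  have h1 : y0 * (g03 - g33 * x0) + y1 * (g13 - g33 * x1) + y2 * (g23 - g33 * t) = 1 - g33 := by
    linear_combination k2 - D1 * k1 - (y0 * (g03 - g33 * x0) + y1 * (g13 - g33 * x1)) * heZ + hβ1
      + y2 * hD1 + (y0 * x0 + y1 * x1) * hd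
  refine ⟨x0, x1, y0, y1, y2, h1, ?_⟩
  linear_combination k1 + Z * h1 + hβ2 + y2 * heZ - y2 * he - Z * y2 * hD1

/-- The product `RR p * dg g * CC c` in blocks. -/
theorem RgC_val {n : ℕ} (p : Fin n → ℤ) (g : SLn n) (c : Fin n → ℤ) :
    (RR p * dg g * CC c).1 = blk (g.1 + vecMulVec p c) p c 1 := by
  rw [SL_val_mul, SL_val_mul, RR_val, dg_val, CC_val, blk_mul, blk_mul]
  simp

/-- One transvection suffices. -/
theorem claimB (g : SLn 4) (t Z : ℤ)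
    (H : g.1 2 2 - t * g.1 3 2 - Z * g.1 2 3 + t * Z * g.1 3 3 = 1) :
    ∃ A : SLn 4, IsTV A ∧ ∃ (p : Fin 3 → ℤ) (p' : Fin 2 → ℤ) (E : SLn 2) (c' : Fin 2 → ℤ)
      (c : Fin 3 → ℤ), A * g = RR p * (dg (RR p') * (dg (dg E) * (dg (CC c') * CC c))) := by
  have hinv : (g⁻¹).1 * g.1 = 1 := by rw [← SL_val_mul, inv_mul_cancel]; rfl
  have ent : ∀ i j : Fin 4, (g⁻¹).1 i 0 * g.1 0 j + (g⁻¹).1 i 1 * g.1 1 j +
      (g⁻¹).1 i 2 * g.1 2 j + (g⁻¹).1 i 3 * g.1 3 j = (1 : Matrix (Fin 4) (Fin 4) ℤ) i j := by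
    intro i j
    rw [← hinv, Matrix.mul_apply, Fin.sum_univ_four]
  have e33 := ent 3 3
  have e32 := ent 3 2
  have e23 := ent 2 3
  have e22 := ent 2 2
  rw [Matrix.one_apply_eq] at e33 e22
  rw [Matrix.one_apply_ne (by decide)] at e32 e23
  obtain ⟨x0, x1, y0, y1, y2, h1, h2⟩ := tv_arith _ _ _ _ _ _ _ _ t Z _ _ _ _ _ _ _ _ H e33 e32
    e23 e22
  have hyx : (![y0, y1, y2, -(y0 * x0 + y1 * x1 + y2 * t)] : Fin 4 → ℤ) ⬝ᵥ ![x0, x1, t, 1] = 0 := by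
    simp [dotProduct, Fin.sum_univ_four]
  refine ⟨TV _ _ hyx, IsTV_TV _ _ _, ?_⟩
  have hent : ∀ i j, (TV _ _ hyx * g).1 i j = g.1 i j + (![x0, x1, t, 1] : Fin 4 → ℤ) i *
      (y0 * g.1 0 j + y1 * g.1 1 j + y2 * g.1 2 j - (y0 * x0 + y1 * x1 + y2 * t) * g.1 3 j) := by
    intro i j
    rw [SL_val_mul, TV_val, add_mul, one_mul, Matrix.vecMulVec_mul, Matrix.add_apply,
      vecMulVec_apply]
    congr 2
    simp [Matrix.vecMul, dotProduct, Fin.sum_univ_four]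
    ring
  have hc33 : (TV _ _ hyx * g).1 3 3 = 1 := by
    rw [hent]; simp; linear_combination h1
  have hc32 : (TV _ _ hyx * g).1 3 2 = Z := by
    rw [hent]; simp; linear_combination h2
  have hc23 : (TV _ _ hyx * g).1 2 3 = g.1 2 3 + t * (1 - g.1 3 3) := by
    rw [hent, show (![x0, x1, t, 1] : Fin 4 → ℤ) 2 = t from rfl]; linear_combination t * h1
  have hc22 : (TV _ _ hyx * g).1 2 2 = g.1 2 2 + t * (Z - g.1 3 2) := by
    rw [hent, show (![x0, x1, t, 1] : Fin 4 → ℤ) 2 = t from rfl]; linear_combination t * h2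
  obtain ⟨p, g3, c, hg3⟩ := one_corner (TV _ _ hyx * g) hc33
  have hb := congrArg Subtype.val hg3
  rw [RgC_val] at hb
  have b22 : (TV _ _ hyx * g).1 2 2 = g3.1 2 2 + p 2 * c 2 := by
    have := congrFun (congrFun hb (Fin.castSucc 2)) (Fin.castSucc 2)
    rw [blk_cc] at this
    simpa [vecMulVec_apply] using this
  have b23 : (TV _ _ hyx * g).1 2 3 = p 2 := by
    have := congrFun (congrFun hb (Fin.castSucc 2)) (Fin.last 3)
    rw [blk_cl] at this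
    exact this
  have b32 : (TV _ _ hyx * g).1 3 2 = c 2 := by
    have := congrFun (congrFun hb (Fin.last 3)) (Fin.castSucc 2)
    rw [blk_lc] at this
    exact this
  have hg22 : g3.1 2 2 = 1 := by
    rw [hc22] at b22
    rw [hc23] at b23
    rw [hc32] at b32
    rw [← b23, ← b32] at b22
    linear_combination H - b22
  obtain ⟨p', E, c', hE⟩ := one_corner g3 hg22
  refine ⟨p, p', E, c', c, ?_⟩
  rw [hg3, hE, map_mul, map_mul]
  simp only [mul_assoc]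

theorem six_claimB (g : SLn 4) (t Z : ℤ)
    (H : g.1 2 2 - t * g.1 3 2 - Z * g.1 2 3 + t * Z * g.1 3 3 = 1) :
    ∃ A : SLn 4, IsTV A ∧ Six (A * g) := by
  obtain ⟨A, hA, p, p', E, c', c, h⟩ := claimB g t Z H
  refine ⟨A, hA, ?_⟩
  rw [h]
  refine ((SixIn.mul_right ?_ (ck_of_good (good_all E))).mul_left
    (dg_mem_Up (RR_mem _))).mul_left (RR_mem _)
  exact (Lo 4).mul_mem (dg_mem_Lo (CC_mem _)) (CC_mem _)

theorem six_claimB' (g : SLn 4) (t Z : ℤ)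
    (H : (g⁻¹).1 1 1 - t * (g⁻¹).1 1 0 - Z * (g⁻¹).1 0 1 + t * Z * (g⁻¹).1 0 0 = 1) :
    ∃ A : SLn 4, IsTV A ∧ Six (A * g) := by
  obtain ⟨A, hA, h⟩ := six_claimB (Psi g) t Z (by
    rw [Psi_apply, Psi_apply, Psi_apply, Psi_apply]
    exact H)
  refine ⟨Psi A, IsTV_Psi hA, ?_⟩
  have := six_Psi h
  rwa [map_mul, Psi_Psi] at this

end Pool.Agent.Lib.MP_efa98f_al
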