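import Pool.Agent.Lib.MP_efa98f_al.FiveT3

namespace Pool.Agent.Lib.MP_efa98f_al

open Matrix

section
variable {n : ℕ}

/-- The transpose in `SL_n`. -/
def Tr (g : SLn n) : SLn n := ⟨g.1ᵀ, by rw [Matrix.det_transpose]; exact g.2⟩

theorem Tr_apply (g : SLn n) (i j : Fin n) : (Tr g).1 i j = g.1 j i := rfl

theorem Tr_Tr (g : SLn n) : Tr (Tr g) = g := Subtype.ext (Matrix.transpose_transpose _)

theorem Tr_mul (g h : SLn n) : Tr (g * h) = Tr h * Tr g :=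
  Subtype.ext (Matrix.transpose_mul _ _)

theorem Tr_Up {g : SLn n} (hg : g ∈ Up n) : Tr g ∈ Lo n :=
  ⟨fun i => hg.1 i, fun i j hij => hg.2 j i hij⟩

theorem Tr_Lo {g : SLn n} (hg : g ∈ Lo n) : Tr g ∈ Up n :=
  ⟨fun i => hg.1 i, fun i j hij => hg.2 j i hij⟩

theorem six_Tr {g : SLn n} (hg : Six g) : Six (Tr g) := by
  obtain ⟨u1, hu1, l1, hl1, u2, hu2, l2, hl2, u3, hu3, l3, hl3, rfl⟩ := hg
  refine ⟨Tr l3, Tr_Lo hl3, Tr u3, Tr_Up hu3, Tr l2, Tr_Lo hl2, Tr u2, Tr_Up hu2,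
    Tr l1, Tr_Lo hl1, Tr u1, Tr_Up hu1, ?_⟩
  simp only [Tr_mul, mul_assoc]

theorem six_of_Tr {g : SLn n} (hg : Six (Tr g)) : Six g := by
  have := six_Tr hg
  rwa [Tr_Tr] at this

end

/-- Row five or column five is good. -/
theorem five_RC (M : SLn 5) (h : (∃ j : Fin 5, 2 ≤ j ∧ M.1 4 j ≠ 0) ∨
    (∃ i : Fin 5, 2 ≤ i ∧ M.1 i 4 ≠ 0)) : Six M := by
  by_cases hrow : ∃ j : Fin 5, 2 ≤ j ∧ M.1 4 j ≠ 0
  · by_cases hcol : ∃ i : Fin 5, 2 ≤ i ∧ M.1 i 4 ≠ 0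
    · exact five_main M hrow hcol
    · refine five_T M hrow fun i hi => ?_
      by_contra h'
      exact hcol ⟨i, hi, h'⟩
  · have hcol := h.resolve_left hrow
    apply six_of_Tr
    refine five_T (Tr M) hcol fun i hi => ?_
    by_contra h'
    exact hrow ⟨i, hi, h'⟩

/-- The generic part of the case `n = 5`. -/
theorem five_generic (M : SLn 5) (h : (∃ j : Fin 5, 2 ≤ j ∧ M.1 4 j ≠ 0) ∨
    (∃ i : Fin 5, 2 ≤ i ∧ M.1 i 4 ≠ 0) ∨ (∃ j : Fin 5, j ≤ 2 ∧ (M⁻¹).1 0 j ≠ 0) ∨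
    (∃ i : Fin 5, i ≤ 2 ∧ (M⁻¹).1 i 0 ≠ 0)) : Six M := by
  rcases h with h | h | ⟨j, hj, h⟩ | ⟨i, hi, h⟩
  · exact five_RC M (Or.inl h)
  · exact five_RC M (Or.inr h)
  · apply six_of_Psi
    apply five_RC
    right
    refine ⟨Fin.rev j, ?_, ?_⟩
    · have : ∀ j : Fin 5, j ≤ 2 → 2 ≤ Fin.rev j := by decide
      exact this j hj
    · rw [Psi_apply, Fin.rev_rev]
      exact h
  · apply six_of_Psi
    apply five_RC
    left
    refine ⟨Fin.rev i, ?_, ?_⟩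
    · have : ∀ j : Fin 5, j ≤ 2 → 2 ≤ Fin.rev j := by decide
      exact this i hi
    · rw [Psi_apply, Fin.rev_rev]
      exact h

end Pool.Agent.Lib.MP_efa98f_al
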