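import Pool.Agent.Lib.MP_efa98f_al.TwoMain

namespace Pool.Agent.Lib.MP_efa98f_al

open Matrix

theorem word_val (E : SLn 2) (a0 b0 c0 d0 ξ1 ξ2 ξ3 z a b c d : ℤ) (hE : E.1 = !![a0, b0; c0, d0])
    (hc : c = c0 + d0 * ξ1) (ha : a = a0 + b0 * ξ1) (hd : d = d0 + c * ξ2) (hb : b = b0 + a * ξ2) :
    (E * Le ξ1 * Ue ξ2 * Le ξ3 * Ue z).1 =
      !![a + b * ξ3, b + (a + b * ξ3) * z; c + d * ξ3, d + (c + d * ξ3) * z] := by
  simp only [SL_val_mul, hE, Le_val, Ue_val]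
  apply M2_ext
  · simp [Matrix.mul_apply, Fin.sum_univ_two]
    rw [hb, ha]; ring
  · simp [Matrix.mul_apply, Fin.sum_univ_two]
    rw [hb, ha]; ring
  · simp [Matrix.mul_apply, Fin.sum_univ_two]
    rw [hd, hc]; ring
  · simp [Matrix.mul_apply, Fin.sum_univ_two]
    rw [hd, hc]; ring

/-- `diag(E, F)` is a six-fold product for all `E, F ∈ SL₂(ℤ)`. -/
theorem two_all (E F : SLn 2) : Six (DB (E, F)) := by
  obtain ⟨a0, b0, c0, d0, hE⟩ : ∃ a0 b0 c0 d0, E.1 = !![a0, b0; c0, d0] :=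
    ⟨_, _, _, _, Matrix.eta_fin_two _⟩
  obtain ⟨p0, q0, r0, s0, hF⟩ : ∃ a0 b0 c0 d0, F.1 = !![a0, b0; c0, d0] :=
    ⟨_, _, _, _, Matrix.eta_fin_two _⟩
  have hdetE : a0 * d0 - b0 * c0 = 1 := by
    have := E.2
    rw [hE, Matrix.det_fin_two] at this
    simpa using this
  have hdetF : p0 * s0 - q0 * r0 = 1 := by
    have := F.2
    rw [hF, Matrix.det_fin_two] at this
    simpa using this
  obtain ⟨ξ1, ξ2, a, b, c, d, hc, ha, hd, hb, hdet1, hd0, hd4⟩ := normal_form a0 b0 c0 d0 hdetE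
  obtain ⟨η1, η2, p, q, r, s, hr, hp, hs, hq, hdet2, hs0, hs4⟩ := normal_form p0 q0 r0 s0 hdetF
  obtain ⟨D, rfl⟩ : ∃ D : ℕ, d = D := ⟨d.toNat, by omega⟩
  obtain ⟨S, rfl⟩ : ∃ S : ℕ, s = S := ⟨s.toNat, by omega⟩
  have hD4 : D % 4 = 3 := by omega
  have hS4 : S % 4 = 3 := by omega
  obtain ⟨ε, ξ3, P, hε, hPp, hPgt, hP4, -, hcP, hdP⟩ := first_prime c D (S + 3) 1 1 hD4
    ⟨-b, a, by linear_combination hdet1⟩ ⟨0, 1, by push_cast; ring⟩ one_ne_zero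
    ⟨0, 1, by push_cast⟩
  have hcopPS : IsCoprime ((4 * S : ℕ) : ℤ) (P : ℤ) := by
    rw [Nat.isCoprime_iff_coprime]
    refine Nat.Coprime.symm ((Nat.Prime.coprime_iff_not_dvd hPp).mpr fun h => ?_)
    rcases (Nat.Prime.dvd_mul hPp).mp h with h' | h'
    · have := Nat.le_of_dvd (by norm_num) h'
      omega
    · have := Nat.le_of_dvd (by omega) h'
      omega
  have hcop2P : IsCoprime (2 : ℤ) (P : ℤ) := by
    obtain ⟨h, hh⟩ : ∃ h : ℤ, (P : ℤ) = 2 * h + 1 := ⟨(P : ℤ) / 2, by omega⟩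
    exact ⟨-h, 1, by rw [hh]; ring⟩
  obtain ⟨ε', η3, P', hε', hPp', hPgt', hP4', hPP', hcP', hdP'⟩ := first_prime r S P P 2 hS4
    ⟨-q, p, by linear_combination hdet2⟩ hcopPS (by omega) hcop2P
  have hcop : IsCoprime ((ε * P) * (ε' * P')) (((P / 2) * (P' / 2) : ℕ) : ℤ) := by
    obtain ⟨h, hh⟩ : ∃ h : ℕ, P = 2 * h + 1 := ⟨P / 2, by omega⟩
    obtain ⟨h', hh'⟩ : ∃ h : ℕ, P' = 2 * h + 1 := ⟨P' / 2, by omega⟩
    have e1 : P / 2 = h := by omega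
    have e2 : P' / 2 = h' := by omega
    rw [e1, e2]
    have k1 : IsCoprime (P : ℤ) (h : ℤ) := ⟨1, -2, by rw [hh]; push_cast; ring⟩
    have k2 : IsCoprime (P' : ℤ) (h' : ℤ) := ⟨1, -2, by rw [hh']; push_cast; ring⟩
    have k3 : IsCoprime (P : ℤ) (h' : ℤ) := by
      obtain ⟨m, hm⟩ := hPP'.dvd
      have hh'' : (P' : ℤ) = 2 * h' + 1 := by exact_mod_cast hh'
      exact ⟨m, 2, by linear_combination -hm - hh''⟩
    have k4 : IsCoprime (P' : ℤ) (h : ℤ) := by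
      rw [Nat.isCoprime_iff_coprime]
      refine (Nat.Prime.coprime_iff_not_dvd hPp').mpr fun h0 => ?_
      have := Nat.le_of_dvd (by omega) h0
      omega
    push_cast
    have u1 : ε * ε = 1 := by rcases hε with h | h <;> rw [h] <;> norm_num
    have u2 : ε' * ε' = 1 := by rcases hε' with h | h <;> rw [h] <;> norm_num
    refine IsCoprime.mul_left ?_ ?_
    · refine IsCoprime.mul_left ⟨ε, 0, by linear_combination u1⟩ ?_
      exact IsCoprime.mul_right k1 k3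
    · refine IsCoprime.mul_left ⟨ε', 0, by linear_combination u2⟩ ?_
      exact IsCoprime.mul_right k4 k2
  obtain ⟨z, z', X1, X2, X3, X4, X5, X6, key⟩ := two_prime (a + b * ξ3) b (ε * P) D
    (p + q * η3) q (ε' * P') S (by rw [← hcP]; linear_combination hdet1)
    (by rw [← hcP']; linear_combination hdet2) P P' hPp hPp' hP4 hP4' (by omega) ε ε' hε hε' rfl rfl
    hdP hdP' (by omega) hcop
  obtain ⟨T, hT⟩ : ∃ T : SLn 2, T = E * Le ξ1 * Ue ξ2 * Le ξ3 * Ue z := ⟨_, rfl⟩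
  obtain ⟨V, hV⟩ : ∃ V : SLn 2, V = F * Le η1 * Ue η2 * Le η3 * Ue z' := ⟨_, rfl⟩
  have hTv : T.1 = !![a + b * ξ3, b + (a + b * ξ3) * z; ε * P, D + ε * P * z] := by
    rw [hT, word_val E a0 b0 c0 d0 ξ1 ξ2 ξ3 z a b c D hE hc ha hd hb, hcP]
  have hVv : V.1 = !![p + q * η3, q + (p + q * η3) * z'; ε' * P', S + ε' * P' * z'] := by
    rw [hV, word_val F p0 q0 r0 s0 η1 η2 η3 z' p q r S hF hr hp hs hq, hcP']
  have key2 : DB (T, V) = RB X1 * CB X2 * RB X3 * CB X4 * RB X5 * CB X6 := by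
    apply Subtype.ext
    simp only [DB_val, SL_val_mul, hTv, hVv, RB_val, CB_val]
    exact key
  have hsix : SixIn ((Up 2).prod (Up 2)) ((Lo 2).prod (Lo 2)) (T⁻¹ * E, V⁻¹ * F) := by
    refine ⟨(1, 1), ⟨(Up 2).one_mem, (Up 2).one_mem⟩, (1, 1), ⟨(Lo 2).one_mem, (Lo 2).one_mem⟩,
      (Ue (-z), Ue (-z')), ⟨Ue_mem _, Ue_mem _⟩, (Le (-ξ3), Le (-η3)), ⟨Le_mem _, Le_mem _⟩,
      (Ue (-ξ2), Ue (-η2)), ⟨Ue_mem _, Ue_mem _⟩, (Le (-ξ1), Le (-η1)), ⟨Le_mem _, Le_mem _⟩, ?_⟩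
    simp only [Prod.mk_mul_mk]
    rw [hT, hV, ← Ue_inv, ← Ue_inv, ← Ue_inv, ← Ue_inv, ← Le_inv, ← Le_inv, ← Le_inv, ← Le_inv]
    congr 1 <;> group
  have hfin := merge_b4 (X1 := X1) (X2 := X2) (X3 := X3) (X4 := X4) (X5 := X5) (X6 := X6) hsix
  rw [← key2, ← map_mul] at hfin
  convert hfin using 2
  rw [Prod.mk_mul_mk]
  congr 1 <;> group

end Pool.Agent.Lib.MP_efa98f_al
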