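import Pool.Agent.Lib.MP_efa98f_al.FiveRed
import Pool.Agent.Lib.MP_efa98f_al.TwoAll

namespace Pool.Agent.Lib.MP_efa98f_al

open Matrix

/-- A matrix of `SL_4` whose lower right block has determinant one is a six-fold product. -/
theorem six_detV (g : SLn 4) (hV : g.1 2 2 * g.1 3 3 - g.1 2 3 * g.1 3 2 = 1) : Six g := by
  obtain ⟨V, hV'⟩ : ∃ V : SLn 2, V.1 = !![g.1 2 2, g.1 2 3; g.1 3 2, g.1 3 3] :=
    ⟨⟨!![g.1 2 2, g.1 2 3; g.1 3 2, g.1 3 3], by rw [Matrix.det_fin_two]; simpa using hV⟩, rfl⟩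
  have hg := exists_b4 g.1
  rw [← hV'] at hg
  obtain ⟨A, hA⟩ : ∃ A : M2, A = !![g.1 0 0, g.1 0 1; g.1 1 0, g.1 1 1] := ⟨_, rfl⟩
  obtain ⟨B, hB⟩ : ∃ B : M2, B = !![g.1 0 2, g.1 0 3; g.1 1 2, g.1 1 3] := ⟨_, rfl⟩
  obtain ⟨C, hC⟩ : ∃ C : M2, C = !![g.1 2 0, g.1 2 1; g.1 3 0, g.1 3 1] := ⟨_, rfl⟩
  rw [← hA, ← hB, ← hC] at hg
  have hVV : V.1 * V⁻¹.1 = 1 := by rw [← SL_val_mul, mul_inv_cancel]; rfl
  have hVV' : V⁻¹.1 * V.1 = 1 := by rw [← SL_val_mul, inv_mul_cancel]; rfl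
  have hX : (RB (-(B * V⁻¹.1)) * g * CB (-(V⁻¹.1 * C))).1 = b4 (A - B * V⁻¹.1 * C) 0 0 V.1 := by
    rw [SL_val_mul, SL_val_mul, RB_val, CB_val, hg, b4_mul, b4_mul]
    have e1 : -(B * V⁻¹.1) * V.1 = -B := by
      rw [neg_mul, mul_assoc, hVV', mul_one]
    have e2 : V.1 * -(V⁻¹.1 * C) = -C := by
      rw [mul_neg, ← mul_assoc, hVV, one_mul]
    simp only [one_mul, mul_one, zero_mul, zero_add, mul_zero, add_zero, e1, e2, add_neg_cancel]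
    congr 1
    rw [neg_mul, sub_eq_add_neg]
  have hdet : (A - B * V⁻¹.1 * C).det = 1 := by
    have := (RB (-(B * V⁻¹.1)) * g * CB (-(V⁻¹.1 * C))).2
    rw [hX, det_b4_D, V.2, mul_one] at this
    exact this
  obtain ⟨E, hE⟩ : ∃ E : SLn 2, E.1 = A - B * V⁻¹.1 * C := ⟨⟨_, hdet⟩, rfl⟩
  have hX' : RB (-(B * V⁻¹.1)) * g * CB (-(V⁻¹.1 * C)) = DB (E, V) := by
    apply Subtype.ext
    rw [hX, DB_val, hE]
  have hg' : g = RB (B * V⁻¹.1) * DB (E, V) * CB (V⁻¹.1 * C) := by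
    rw [← hX']
    have r1 : RB (B * V⁻¹.1) * RB (-(B * V⁻¹.1)) = 1 := by
      apply Subtype.ext
      rw [SL_val_mul, RB_val, RB_val, b4_mul]
      simp only [one_mul, mul_one, mul_zero, zero_mul, add_zero, zero_add, neg_add_cancel]
      exact b4_one
    have r2 : CB (-(V⁻¹.1 * C)) * CB (V⁻¹.1 * C) = 1 := by
      apply Subtype.ext
      rw [SL_val_mul, CB_val, CB_val, b4_mul]
      simp only [one_mul, mul_one, mul_zero, zero_mul, add_zero, zero_add, neg_add_cancel]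
      exact b4_one
    calc g = 1 * g * 1 := by rw [one_mul, mul_one]
      _ = (RB (B * V⁻¹.1) * RB (-(B * V⁻¹.1))) * g * (CB (-(V⁻¹.1 * C)) * CB (V⁻¹.1 * C)) := by
          rw [r1, r2]
      _ = _ := by simp only [mul_assoc]
  rw [hg']
  exact ((two_all E V).mul_left (RB_mem _)).mul_right (CB_mem _)

/-- The block antidiagonal matrices are six-fold products. -/
theorem antiD_six (M : SLn 5) (hM : AntiD M) : Six M := by
  obtain ⟨P, hP⟩ : ∃ P, P = M⁻¹ := ⟨_, rfl⟩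
  have hPM : P.1 * M.1 = 1 := by rw [hP, ← SL_val_mul, inv_mul_cancel]; rfl
  have ent : ∀ i j : Fin 5, P.1 i 0 * M.1 0 j + P.1 i 1 * M.1 1 j + P.1 i 2 * M.1 2 j +
      P.1 i 3 * M.1 3 j + P.1 i 4 * M.1 4 j = (1 : Matrix (Fin 5) (Fin 5) ℤ) i j := by
    intro i j
    rw [← hPM, Matrix.mul_apply, Fin.sum_univ_five]
  have hz : ∀ i j : Fin 5, ¬ ((i ≤ 1 ∧ 3 ≤ j) ∨ (2 ≤ i ∧ i ≤ 3 ∧ 1 ≤ j ∧ j ≤ 2) ∨
      (i = 4 ∧ j = 0)) → M.1 i j = 0 := by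
    intro i j h
    by_contra h'
    exact h (hM i j h')
  have m01 : M.1 0 1 = 0 := hz 0 1 (by decide)
  have m02 : M.1 0 2 = 0 := hz 0 2 (by decide)
  have m11 : M.1 1 1 = 0 := hz 1 1 (by decide)
  have m12 : M.1 1 2 = 0 := hz 1 2 (by decide)
  have m23 : M.1 2 3 = 0 := hz 2 3 (by decide)
  have m24 : M.1 2 4 = 0 := hz 2 4 (by decide)
  have m33 : M.1 3 3 = 0 := hz 3 3 (by decide)
  have m34 : M.1 3 4 = 0 := hz 3 4 (by decide)
  have m41 : M.1 4 1 = 0 := hz 4 1 (by decide)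
  have m42 : M.1 4 2 = 0 := hz 4 2 (by decide)
  have m43 : M.1 4 3 = 0 := hz 4 3 (by decide)
  have m44 : M.1 4 4 = 0 := hz 4 4 (by decide)
  have e11 := ent 1 1
  have e12 := ent 1 2
  have e21 := ent 2 1
  have e22 := ent 2 2
  have e33 := ent 3 3
  have e34 := ent 3 4
  have e43 := ent 4 3
  have e44 := ent 4 4
  rw [Matrix.one_apply_eq] at e11 e22 e33 e44
  rw [Matrix.one_apply_ne (by decide)] at e12 e21 e34 e43
  rw [m01, m11, m41] at e11 e21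
  rw [m02, m12, m42] at e12 e22
  rw [m23, m33, m43] at e33 e43
  rw [m24, m34, m44] at e34 e44
  obtain ⟨α, hα⟩ : ∃ α, α = M.1 2 1 * M.1 3 2 - M.1 2 2 * M.1 3 1 := ⟨_, rfl⟩
  have hα2 : α * α = 1 := by
    have h1 : α * (P.1 1 2 * P.1 2 3 - P.1 1 3 * P.1 2 2) = 1 := by
      rw [hα]
      linear_combination e11 * (P.1 2 2 * M.1 2 2 + P.1 2 3 * M.1 3 2) + e22 -
        e12 * (P.1 2 2 * M.1 2 1 + P.1 2 3 * M.1 3 1)
    have : IsUnit α := IsUnit.of_mul_eq_one _ h1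
    rcases Int.isUnit_iff.mp this with h | h <;> rw [h] <;> norm_num
  obtain ⟨c1, hc1⟩ : ∃ c1 : Fin 4 → ℤ, c1 = ![-P.1 4 0, -P.1 4 1, 0, 0] := ⟨_, rfl⟩
  obtain ⟨r2, hr2⟩ : ∃ r2 : Fin 4 → ℤ, r2 = ![0, 0, M.1 2 1, M.1 3 1] := ⟨_, rfl⟩
  obtain ⟨c2, hc2⟩ : ∃ c2 : Fin 4 → ℤ, c2 = ![α * P.1 3 0, α * P.1 3 1, 0, 0] := ⟨_, rfl⟩
  obtain ⟨G, hG⟩ : ∃ G, G = CC (-c2) * (RR (-r2) * (CC (-c1) * (RR (-0) * M))) := ⟨_, rfl⟩
  have hR0 : (RR (-0) * M) = M := by rw [neg_zero, RR_zero, one_mul]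
  have hG1 : G = CC (-c2) * (RR (-r2) * (CC (-c1) * M)) := by rw [hG, hR0]
  have b4' : ∀ j : Fin 5, (CC (-c1) * M).1 (Fin.last 4) j = M.1 4 j + (P.1 4 0 * M.1 0 j +
      P.1 4 1 * M.1 1 j) := by
    intro j
    rw [CC_mul_last, Fin.sum_univ_four, hc1]
    simp only [Pi.neg_apply, Matrix.cons_val_zero, Matrix.cons_val_one, Matrix.cons_val, neg_neg,
      neg_zero, zero_mul, add_zero]
    rfl
  have b42 : (CC (-c1) * M).1 (Fin.last 4) 2 = 0 := by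
    rw [b4', m42, m02, m12]; ring
  have b43 : (CC (-c1) * M).1 (Fin.last 4) 3 = 0 := by
    rw [b4', m43]; linear_combination e43
  have b44 : (CC (-c1) * M).1 (Fin.last 4) (Fin.last 4) = 1 := by
    rw [b4']
    change M.1 4 4 + (P.1 4 0 * M.1 0 4 + P.1 4 1 * M.1 1 4) = 1
    rw [m44]; linear_combination e44
  have hGi : ∀ (i : Fin 4) (j : Fin 5), (RR (-r2) * (CC (-c1) * M)).1 i.castSucc j =
      M.1 i.castSucc j - r2 i * (CC (-c1) * M).1 (Fin.last 4) j := by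
    intro i j
    rw [RR_mul_cast, CC_mul_cast, Pi.neg_apply]; ring
  have hGc : ∀ (i : Fin 4) (j : Fin 5), G.1 i.castSucc j =
      M.1 i.castSucc j - r2 i * (CC (-c1) * M).1 (Fin.last 4) j := by
    intro i j
    rw [hG1, CC_mul_cast, hGi]
  have r20 : r2 0 = 0 := by rw [hr2]; rfl
  have r21 : r2 1 = 0 := by rw [hr2]; rfl
  have r22 : r2 2 = M.1 2 1 := by rw [hr2]; rfl
  have r23 : r2 3 = M.1 3 1 := by rw [hr2]; rfl
  have hG4 : ∀ j : Fin 5, G.1 (Fin.last 4) j = (CC (-c1) * M).1 (Fin.last 4) j -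
      α * (P.1 3 0 * M.1 0 j + P.1 3 1 * M.1 1 j) := by
    intro j
    rw [hG1, CC_mul_last, RR_mul_last, Fin.sum_univ_four, hGi, hGi, hGi, hGi, hc2, r20, r21]
    simp only [Pi.neg_apply, Matrix.cons_val_zero, Matrix.cons_val_one, Matrix.cons_val,
      neg_zero, zero_mul, add_zero, sub_zero]
    change _ + (-(α * P.1 3 0) * M.1 0 j + -(α * P.1 3 1) * M.1 1 j) = _
    ring
  have hG44 : G.1 (Fin.last 4) (Fin.last 4) = 1 := by
    rw [hG4, b44]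
    change 1 - α * (P.1 3 0 * M.1 0 4 + P.1 3 1 * M.1 1 4) = 1
    linear_combination -α * e34
  have hG42 : G.1 (Fin.last 4) 2 = 0 := by
    rw [hG4, b42, m02, m12]; ring
  have hG43 : G.1 (Fin.last 4) 3 = -α := by
    rw [hG4, b43]; linear_combination -α * e33
  obtain ⟨p, g, c, hMe, hg⟩ := four_one_V M 0 c1 r2 c2 G hG hG44
  have g22 : g.1 2 2 = M.1 2 2 := by
    rw [hg]
    change G.1 (Fin.castSucc 2) 2 - G.1 (Fin.castSucc 2) (Fin.last 4) * G.1 (Fin.last 4) 2 = _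
    rw [hGc, hG42, b42]
    change M.1 2 2 - r2 2 * 0 - _ * 0 = _
    ring
  have g23 : g.1 2 3 = -(α * M.1 2 1) := by
    rw [hg]
    change G.1 (Fin.castSucc 2) 3 - G.1 (Fin.castSucc 2) (Fin.last 4) * G.1 (Fin.last 4) 3 = _
    rw [hGc, hGc, hG43, b43, b44, r22]
    change M.1 2 3 - M.1 2 1 * 0 - (M.1 2 4 - M.1 2 1 * 1) * -α = _
    rw [m23, m24]; ring
  have g32 : g.1 3 2 = M.1 3 2 := by
    rw [hg]
    change G.1 (Fin.castSucc 3) 2 - G.1 (Fin.castSucc 3) (Fin.last 4) * G.1 (Fin.last 4) 2 = _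
    rw [hGc, hG42, b42]
    change M.1 3 2 - r2 3 * 0 - _ * 0 = _
    ring
  have g33 : g.1 3 3 = -(α * M.1 3 1) := by
    rw [hg]
    change G.1 (Fin.castSucc 3) 3 - G.1 (Fin.castSucc 3) (Fin.last 4) * G.1 (Fin.last 4) 3 = _
    rw [hGc, hGc, hG43, b43, b44, r23]
    change M.1 3 3 - M.1 3 1 * 0 - (M.1 3 4 - M.1 3 1 * 1) * -α = _
    rw [m33, m34]; ring
  rw [hMe]
  refine merge_blk (six_detV g ?_)
  rw [g22, g23, g32, g33]
  linear_combination hα2 - α * hα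

/-- `SL_5(ℤ)` has length six. -/
theorem five_all (M : SLn 5) : Six M := by
  rcases five_dec M with h | ⟨u, hu, N, hN, l, hl, h | h⟩
  · exact h
  · rw [h]
    exact ((antiD_six N hN).mul_left hu).mul_right hl
  · apply six_of_Tr
    rw [h]
    exact ((antiD_six N hN).mul_left hu).mul_right hl

/-- `SL_n(ℤ)` has length six for all `n ≥ 5`. -/
theorem six_ge_five : ∀ n, 5 ≤ n → ∀ g : SLn n, Six g := by
  intro n hn
  induction n, hn using Nat.le_induction with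
  | base => exact five_all
  | succ n hn ih =>
    intro g
    obtain ⟨k, rfl⟩ : ∃ k, n = k + 2 := ⟨n - 2, by omega⟩
    obtain ⟨r1, c1, r2, g', c2, hg⟩ := reduce (k := k) g
    rw [hg]
    have := merge_blk (r1 := r1) (c1 := c1) (r2 := r2) (c2 := 0) (r3 := 0) (c3 := c2) (ih g')
    simpa [CC_zero, RR_zero] using this

end Pool.Agent.Lib.MP_efa98f_al
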