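import Pool.Agent.Lib.MP_efa98f_al.CKPlus

namespace Pool.Agent.Lib.MP_efa98f_al

open Matrix

/-- The `4+1` splitting, with a formula for `g`. -/
theorem four_one_V (M : SLn 5) (r1 c1 r2 c2 : Fin 4 → ℤ) (G : SLn 5)
    (hG : G = CC (-c2) * (RR (-r2) * (CC (-c1) * (RR (-r1) * M))))
    (hc : G.1 (Fin.last 4) (Fin.last 4) = 1) :
    ∃ (p : Fin 4 → ℤ) (g : SLn 4) (c : Fin 4 → ℤ),
      M = RR r1 * CC c1 * RR r2 * CC c2 * RR p * dg g * CC c ∧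
      ∀ i j : Fin 4, g.1 i j = G.1 i.castSucc j.castSucc -
        G.1 i.castSucc (Fin.last 4) * G.1 (Fin.last 4) j.castSucc := by
  obtain ⟨p, g, c, h⟩ := one_corner _ hc
  refine ⟨p, g, c, ?_, ?_⟩
  · have : RR r1 * CC c1 * RR r2 * CC c2 * RR p * dg g * CC c =
      RR r1 * CC c1 * RR r2 * CC c2 * (RR p * dg g * CC c) := by simp only [mul_assoc]
    rw [this, ← h, hG, ← CC_inv, ← RR_inv, ← CC_inv, ← RR_inv]
    group
  · intro i j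
    have hb := congrArg Subtype.val h
    rw [RgC_val] at hb
    have b1 := congrFun (congrFun hb i.castSucc) j.castSucc
    have b2 := congrFun (congrFun hb i.castSucc) (Fin.last 4)
    have b3 := congrFun (congrFun hb (Fin.last 4)) j.castSucc
    rw [blk_cc, Matrix.add_apply, vecMulVec_apply] at b1
    rw [blk_cl] at b2
    rw [blk_lc] at b3
    rw [b1, b2, b3]
    ring

theorem five_F1 (M : SLn 5) (h3 : ∀ j : Fin 5, 2 ≤ j → M.1 3 j = 0)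
    (h4 : ∀ j : Fin 5, 2 ≤ j → M.1 4 j = 0) (k3 : ∀ i : Fin 5, 2 ≤ i → M.1 i 3 = 0)
    (k4 : ∀ i : Fin 5, 2 ≤ i → M.1 i 4 = 0) : Six M := by
  obtain ⟨P, hP⟩ : ∃ P, P = M⁻¹ := ⟨_, rfl⟩
  have hPM : P.1 * M.1 = 1 := by rw [hP, ← SL_val_mul, inv_mul_cancel]; rfl
  have ent : ∀ i j : Fin 5, P.1 i 0 * M.1 0 j + P.1 i 1 * M.1 1 j + P.1 i 2 * M.1 2 j +
      P.1 i 3 * M.1 3 j + P.1 i 4 * M.1 4 j = (1 : Matrix (Fin 5) (Fin 5) ℤ) i j := by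
    intro i j
    rw [← hPM, Matrix.mul_apply, Fin.sum_univ_five]
  have m32 : M.1 3 2 = 0 := h3 2 (by decide)
  have m33 : M.1 3 3 = 0 := h3 3 (by decide)
  have m34 : M.1 3 4 = 0 := h3 4 (by decide)
  have m42 : M.1 4 2 = 0 := h4 2 (by decide)
  have m43 : M.1 4 3 = 0 := h4 3 (by decide)
  have m44 : M.1 4 4 = 0 := h4 4 (by decide)
  have m23 : M.1 2 3 = 0 := k3 2 (by decide)
  have m24 : M.1 2 4 = 0 := k4 2 (by decide)
  have e23 := ent 2 3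
  have e24 := ent 2 4
  have e22 := ent 2 2
  have e33 := ent 3 3
  have e34 := ent 3 4
  have e32 := ent 3 2
  have e43 := ent 4 3
  have e44 := ent 4 4
  have e42 := ent 4 2
  rw [Matrix.one_apply_eq] at e22 e33 e44
  rw [Matrix.one_apply_ne (by decide)] at e23 e24 e34 e32 e43 e42
  rw [m42, m32] at e22 e32 e42
  rw [m23, m33, m43] at e23 e33 e43
  rw [m24, m34, m44] at e24 e34 e44
  have hdd : (P.1 3 0 * P.1 4 1 - P.1 3 1 * P.1 4 0) * (M.1 0 3 * M.1 1 4 - M.1 1 3 * M.1 0 4) = 1 := by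
    linear_combination (P.1 4 0 * M.1 0 4 + P.1 4 1 * M.1 1 4) * e33 + e44 -
      (P.1 4 0 * M.1 0 3 + P.1 4 1 * M.1 1 3) * e34
  have p20 : P.1 2 0 = 0 := by
    linear_combination -P.1 2 0 * hdd + (P.1 3 0 * P.1 4 1 - P.1 3 1 * P.1 4 0) *
      (M.1 1 4 * e23 - M.1 1 3 * e24)
  have p21 : P.1 2 1 = 0 := by
    linear_combination -P.1 2 1 * hdd + (P.1 3 0 * P.1 4 1 - P.1 3 1 * P.1 4 0) *
      (M.1 0 3 * e24 - M.1 0 4 * e23)
  obtain ⟨d, hd⟩ : ∃ d, d = M.1 2 2 := ⟨_, rfl⟩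
  have hPd : P.1 2 2 * d = 1 := by rw [hd]; linear_combination e22 - M.1 0 2 * p20 - M.1 1 2 * p21
  have hd2 : d * d = 1 := by
    have : IsUnit d := IsUnit.of_mul_eq_one (P.1 2 2) (by rw [mul_comm]; exact hPd)
    rcases Int.isUnit_iff.mp this with h | h <;> rw [h] <;> norm_num
  obtain ⟨u2, ρ2, hu2⟩ : ∃ u2 ρ2 : ℤ, ρ2 * u2 = 1 - d := ⟨1, 1 - d, by ring⟩
  obtain ⟨c2, hc2⟩ : ∃ c2 : Fin 4 → ℤ, c2 = fun i => u2 * P.1 2 i.castSucc + d * P.1 3 i.castSucc :=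
    ⟨_, rfl⟩
  obtain ⟨S, hS⟩ : ∃ S, S = c2 2 * ρ2 + c2 3 := ⟨_, rfl⟩
  obtain ⟨r2, hr2⟩ : ∃ r2 : Fin 4 → ℤ, r2 = ![M.1 0 4 + d * M.1 0 3 * S, M.1 1 4 + d * M.1 1 3 * S,
      M.1 2 4 - ρ2, M.1 3 4 - 1] := ⟨_, rfl⟩
  obtain ⟨c1, hc1⟩ : ∃ c1 : Fin 4 → ℤ, c1 = fun i => -P.1 4 i.castSucc := ⟨_, rfl⟩
  obtain ⟨G, hG⟩ : ∃ G, G = CC (-c2) * (RR (-r2) * (CC (-c1) * (RR (-0) * M))) := ⟨_, rfl⟩
  have hR0 : (RR (-0) * M) = M := by rw [neg_zero, RR_zero, one_mul]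
  have hG1 : G = CC (-c2) * (RR (-r2) * (CC (-c1) * M)) := by rw [hG, hR0]
  have c20 : c2 0 = d * P.1 3 0 := by
    rw [hc2]; change u2 * P.1 2 0 + d * P.1 3 0 = _; rw [p20]; ring
  have c21 : c2 1 = d * P.1 3 1 := by
    rw [hc2]; change u2 * P.1 2 1 + d * P.1 3 1 = _; rw [p21]; ring
  have c22 : c2 2 = u2 * P.1 2 2 + d * P.1 3 2 := by rw [hc2]; rfl
  have c23 : c2 3 = u2 * P.1 2 3 + d * P.1 3 3 := by rw [hc2]; rfl
  have r20 : r2 0 = M.1 0 4 + d * M.1 0 3 * S := by rw [hr2]; rfl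
  have r21 : r2 1 = M.1 1 4 + d * M.1 1 3 * S := by rw [hr2]; rfl
  have r22 : r2 2 = M.1 2 4 - ρ2 := by rw [hr2]; rfl
  have r23 : r2 3 = M.1 3 4 - 1 := by rw [hr2]; rfl
  -- the matrix after the first step
  have b4' : ∀ j : Fin 5, (CC (-c1) * M).1 (Fin.last 4) j = M.1 4 j + (P.1 4 0 * M.1 0 j +
      P.1 4 1 * M.1 1 j + P.1 4 2 * M.1 2 j + P.1 4 3 * M.1 3 j) := by
    intro j
    rw [CC_mul_last, Fin.sum_univ_four, hc1]
    simp only [Pi.neg_apply, neg_neg]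
    rfl
  have b42 : (CC (-c1) * M).1 (Fin.last 4) 2 = 0 := by
    rw [b4', m42, m32]; linear_combination e42
  have b43 : (CC (-c1) * M).1 (Fin.last 4) 3 = 0 := by
    rw [b4', m43, m33, m23]; linear_combination e43
  have b44 : (CC (-c1) * M).1 (Fin.last 4) (Fin.last 4) = 1 := by
    rw [b4']
    change M.1 4 4 + (P.1 4 0 * M.1 0 4 + P.1 4 1 * M.1 1 4 + P.1 4 2 * M.1 2 4 +
      P.1 4 3 * M.1 3 4) = 1
    rw [m44, m24, m34]; linear_combination e44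
  have hGi : ∀ (i : Fin 4) (j : Fin 5), (RR (-r2) * (CC (-c1) * M)).1 i.castSucc j =
      M.1 i.castSucc j - r2 i * (CC (-c1) * M).1 (Fin.last 4) j := by
    intro i j
    rw [RR_mul_cast, CC_mul_cast, Pi.neg_apply]; ring
  have hGc : ∀ (i : Fin 4) (j : Fin 5), G.1 i.castSucc j =
      M.1 i.castSucc j - r2 i * (CC (-c1) * M).1 (Fin.last 4) j := by
    intro i j
    rw [hG1, CC_mul_cast, hGi]
  have hG4 : ∀ j : Fin 5, G.1 (Fin.last 4) j = (CC (-c1) * M).1 (Fin.last 4) j -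
      (c2 0 * (M.1 0 j - r2 0 * (CC (-c1) * M).1 (Fin.last 4) j) +
       c2 1 * (M.1 1 j - r2 1 * (CC (-c1) * M).1 (Fin.last 4) j) +
       c2 2 * (M.1 2 j - r2 2 * (CC (-c1) * M).1 (Fin.last 4) j) +
       c2 3 * (M.1 3 j - r2 3 * (CC (-c1) * M).1 (Fin.last 4) j)) := by
    intro j
    rw [hG1, CC_mul_last, RR_mul_last, Fin.sum_univ_four, hGi, hGi, hGi, hGi]
    simp only [Pi.neg_apply]
    change _ + (-c2 0 * (M.1 0 j - r2 0 * (CC (-c1) * M).1 (Fin.last 4) j) +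
       -c2 1 * (M.1 1 j - r2 1 * (CC (-c1) * M).1 (Fin.last 4) j) +
       -c2 2 * (M.1 2 j - r2 2 * (CC (-c1) * M).1 (Fin.last 4) j) +
       -c2 3 * (M.1 3 j - r2 3 * (CC (-c1) * M).1 (Fin.last 4) j)) = _
    ring
  have hG44 : G.1 (Fin.last 4) (Fin.last 4) = 1 := by
    rw [hG4, b44]
    change 1 - (c2 0 * (M.1 0 4 - r2 0 * 1) + c2 1 * (M.1 1 4 - r2 1 * 1) +
      c2 2 * (M.1 2 4 - r2 2 * 1) + c2 3 * (M.1 3 4 - r2 3 * 1)) = 1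
    rw [r20, r21, r22, r23, c20, c21]
    linear_combination (d * d * S) * e33 + S * hd2 + hS
  have hG42 : G.1 (Fin.last 4) 2 = -u2 := by
    rw [hG4, b42, c20, c21, c22, c23, m32]
    linear_combination -u2 * e22 + u2 * M.1 0 2 * p20 + u2 * M.1 1 2 * p21 - d * e32
  have hG43 : G.1 (Fin.last 4) 3 = -d := by
    rw [hG4, b43, c20, c21, m23, m33]
    linear_combination -d * e33
  obtain ⟨p, g, c, hM, hg⟩ := four_one_V M 0 c1 r2 c2 G hG hG44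
  have g22 : g.1 2 2 = d + ρ2 * u2 := by
    rw [hg]
    change G.1 (Fin.castSucc 2) 2 - G.1 (Fin.castSucc 2) (Fin.last 4) * G.1 (Fin.last 4) 2 = _
    rw [hGc, hGc, hG42, b42, b44, r22]
    change M.1 2 2 - (M.1 2 4 - ρ2) * 0 - (M.1 2 4 - (M.1 2 4 - ρ2) * 1) * -u2 = _
    rw [← hd]; ring
  have g23 : g.1 2 3 = ρ2 * d := by
    rw [hg]
    change G.1 (Fin.castSucc 2) 3 - G.1 (Fin.castSucc 2) (Fin.last 4) * G.1 (Fin.last 4) 3 = _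
    rw [hGc, hGc, hG43, b43, b44, r22]
    change M.1 2 3 - (M.1 2 4 - ρ2) * 0 - (M.1 2 4 - (M.1 2 4 - ρ2) * 1) * -d = _
    rw [m23]; ring
  have g32 : g.1 3 2 = u2 := by
    rw [hg]
    change G.1 (Fin.castSucc 3) 2 - G.1 (Fin.castSucc 3) (Fin.last 4) * G.1 (Fin.last 4) 2 = _
    rw [hGc, hGc, hG42, b42, b44, r23]
    change M.1 3 2 - (M.1 3 4 - 1) * 0 - (M.1 3 4 - (M.1 3 4 - 1) * 1) * -u2 = _
    rw [m32]; ring
  have g33 : g.1 3 3 = d := by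
    rw [hg]
    change G.1 (Fin.castSucc 3) 3 - G.1 (Fin.castSucc 3) (Fin.last 4) * G.1 (Fin.last 4) 3 = _
    rw [hGc, hGc, hG43, b43, b44, r23]
    change M.1 3 3 - (M.1 3 4 - 1) * 0 - (M.1 3 4 - (M.1 3 4 - 1) * 1) * -d = _
    rw [m33]; ring
  rw [hM]
  refine merge_blk (six_V g u2 (ρ2 * d) ?_)
  rw [g22, g23, g32, g33]
  apply M2_ext
  · simp [Matrix.mul_apply, Fin.sum_univ_two]; linear_combination hu2
  · simp [Matrix.mul_apply, Fin.sum_univ_two]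
  · simp [Matrix.mul_apply, Fin.sum_univ_two]
  · simp [Matrix.mul_apply, Fin.sum_univ_two]; linear_combination -d * hu2 + hd2

end Pool.Agent.Lib.MP_efa98f_al
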