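import Pool.Agent.Lib.MP_efa98f_al.FiveF

namespace Pool.Agent.Lib.MP_efa98f_al

open Matrix

/-- Every matrix of `SL_5(ℤ)` outside two families of block antitriangular shape is a product of
six unitriangular matrices. -/
theorem five_final (M : SLn 5) : Six M ∨
    ((∀ j : Fin 5, 1 ≤ j → M.1 4 j = 0) ∧ ∀ i j : Fin 5, 2 ≤ i → 3 ≤ j → M.1 i j = 0) ∨
    ((∀ i : Fin 5, 1 ≤ i → M.1 i 4 = 0) ∧ ∀ i j : Fin 5, 3 ≤ i → 2 ≤ j → M.1 i j = 0) := by
  by_cases hS : Six M
  · exact Or.inl hS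
  right
  obtain ⟨P, hP⟩ : ∃ P, P = M⁻¹ := ⟨_, rfl⟩
  have hPM : P.1 * M.1 = 1 := by rw [hP, ← SL_val_mul, inv_mul_cancel]; rfl
  have hMP : M.1 * P.1 = 1 := by rw [hP, ← SL_val_mul, mul_inv_cancel]; rfl
  have hr4 : ∀ j : Fin 5, 2 ≤ j → M.1 4 j = 0 := by
    intro j hj
    by_contra h
    exact hS (five_generic M (Or.inl ⟨j, hj, h⟩))
  have hc4 : ∀ i : Fin 5, 2 ≤ i → M.1 i 4 = 0 := by
    intro i hi
    by_contra h
    exact hS (five_generic M (Or.inr (Or.inl ⟨i, hi, h⟩)))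
  have hr0 : ∀ j : Fin 5, j ≤ 2 → P.1 0 j = 0 := by
    intro j hj
    by_contra h
    rw [hP] at h
    exact hS (five_generic M (Or.inr (Or.inr (Or.inl ⟨j, hj, h⟩))))
  have hc0 : ∀ i : Fin 5, i ≤ 2 → P.1 i 0 = 0 := by
    intro i hi
    by_contra h
    rw [hP] at h
    exact hS (five_generic M (Or.inr (Or.inr (Or.inr ⟨i, hi, h⟩))))
  have erow : ∀ j : Fin 5, P.1 0 3 * M.1 3 j + P.1 0 4 * M.1 4 j =
      (1 : Matrix (Fin 5) (Fin 5) ℤ) 0 j := by
    intro j
    rw [← hPM, Matrix.mul_apply, Fin.sum_univ_five, hr0 0 (by decide), hr0 1 (by decide),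
      hr0 2 (by decide)]
    ring
  have ecol : ∀ i : Fin 5, M.1 i 3 * P.1 3 0 + M.1 i 4 * P.1 4 0 =
      (1 : Matrix (Fin 5) (Fin 5) ℤ) i 0 := by
    intro i
    rw [← hMP, Matrix.mul_apply, Fin.sum_univ_five, hc0 0 (by decide), hc0 1 (by decide),
      hc0 2 (by decide)]
    ring
  -- the consequences of the vanishing of `P 0 3` and of its non-vanishing
  have row0 : P.1 0 3 = 0 → ∀ j : Fin 5, 1 ≤ j → M.1 4 j = 0 := by
    intro h j hj
    have h0 := erow 0
    have h1 := erow j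
    rw [h, zero_mul, zero_add] at h0 h1
    rw [Matrix.one_apply_eq] at h0
    rw [Matrix.one_apply_ne (by rintro rfl; exact absurd hj (by decide))] at h1
    linear_combination -M.1 4 j * h0 + M.1 4 0 * h1
  have row1 : P.1 0 3 ≠ 0 → ∀ j : Fin 5, 2 ≤ j → M.1 3 j = 0 := by
    intro h j hj
    have h1 := erow j
    rw [Matrix.one_apply_ne (by rintro rfl; exact absurd hj (by decide)), hr4 j hj, mul_zero,
      add_zero] at h1
    exact (mul_eq_zero.mp h1).resolve_left h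
  have col0 : P.1 3 0 = 0 → ∀ i : Fin 5, 1 ≤ i → M.1 i 4 = 0 := by
    intro h i hi
    have h0 := ecol 0
    have h1 := ecol i
    rw [h, mul_zero, zero_add] at h0 h1
    rw [Matrix.one_apply_eq] at h0
    rw [Matrix.one_apply_ne (by rintro rfl; exact absurd hi (by decide))] at h1
    linear_combination -M.1 i 4 * h0 + M.1 0 4 * h1
  have col1 : P.1 3 0 ≠ 0 → ∀ i : Fin 5, 2 ≤ i → M.1 i 3 = 0 := by
    intro h i hi
    have h1 := ecol i
    rw [Matrix.one_apply_ne (by rintro rfl; exact absurd hi (by decide)), hc4 i hi, zero_mul,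
      add_zero] at h1
    exact (mul_eq_zero.mp h1).resolve_right h
  have ge3 : ∀ j : Fin 5, 3 ≤ j → j = 3 ∨ j = 4 := by decide
  have ge32 : ∀ j : Fin 5, 3 ≤ j → 2 ≤ j := by decide
  by_cases a : P.1 0 3 = 0
  · by_cases b : P.1 3 0 = 0
    · exact absurd (five_F2 M (row0 a) (col0 b)) hS
    · left
      refine ⟨row0 a, fun i j hi hj => ?_⟩
      rcases ge3 j hj with rfl | rfl
      · exact col1 b i hi
      · exact hc4 i hi
  · by_cases b : P.1 3 0 = 0
    · right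
      refine ⟨col0 b, fun i j hi hj => ?_⟩
      rcases ge3 i hi with rfl | rfl
      · exact row1 a j hj
      · exact hr4 j hj
    · exact absurd (five_F1 M (row1 a) hr4 (col1 b) hc4) hS

end Pool.Agent.Lib.MP_efa98f_al
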