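import Pool.Agent.Lib.MP_efa98f_al.Five

namespace Pool.Agent.Lib.MP_efa98f_al

open Matrix

theorem ker_vec (v a : Fin 4 → ℤ) (h : a ⬝ᵥ v = 1) :
    ∃ k : Fin 4 → ℤ, v ⬝ᵥ k = 0 ∧ (k 2 ≠ 0 ∨ k 3 ≠ 0) := by
  by_cases h0 : v 0 = 0
  · by_cases h1 : v 1 = 0
    · refine ⟨![0, 0, -v 3, v 2], ?_, ?_⟩
      · simp [dotProduct, Fin.sum_univ_four]; ring
      · by_contra hne
        rw [not_or, not_not, not_not] at hne
        obtain ⟨h3, h2⟩ := hne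
        have h3' : v 3 = 0 := by simpa using h3
        have h2' : v 2 = 0 := by simpa using h2
        rw [dotProduct, Fin.sum_univ_four, h0, h1, h2', h3'] at h
        simp at h
    · refine ⟨![0, -v 2, v 1, 0], ?_, Or.inl ?_⟩
      · simp [dotProduct, Fin.sum_univ_four]; ring
      · simpa using h1
  · refine ⟨![-v 2, 0, v 0, 0], ?_, Or.inl ?_⟩
    · simp [dotProduct, Fin.sum_univ_four]; ring
    · simpa using h0

/-- The choice of the first vector. -/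
theorem choose_r (nv a w : Fin 4 → ℤ) (n5 q : ℤ) (ha : a ⬝ᵥ nv = 1)
    (hw : q = 0 → (w 2 ≠ 0 ∨ w 3 ≠ 0)) :
    ∃ r : Fin 4 → ℤ, nv ⬝ᵥ r = 1 - n5 ∧ (w 2 - q * r 2 ≠ 0 ∨ w 3 - q * r 3 ≠ 0) := by
  have h0 : nv ⬝ᵥ ((1 - n5) • a) = 1 - n5 := by
    rw [dotProduct_smul, dotProduct_comm, ha, smul_eq_mul, mul_one]
  by_cases hq : q = 0
  · refine ⟨(1 - n5) • a, h0, ?_⟩
    rw [hq]; simpa using hw hq
  · by_cases hr : (w 2 - q * ((1 - n5) • a) 2 ≠ 0 ∨ w 3 - q * ((1 - n5) • a) 3 ≠ 0)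
    · exact ⟨_, h0, hr⟩
    · rw [not_or, not_not, not_not] at hr
      obtain ⟨k, hk, hk'⟩ := ker_vec nv a ha
      refine ⟨(1 - n5) • a + k, by rw [dotProduct_add, h0, hk, add_zero], ?_⟩
      rcases hk' with h | h
      · left
        rw [Pi.add_apply, mul_add, ← sub_sub, hr.1, zero_sub, neg_ne_zero]
        exact mul_ne_zero hq h
      · right
        rw [Pi.add_apply, mul_add, ← sub_sub, hr.2, zero_sub, neg_ne_zero]
        exact mul_ne_zero hq h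

/-- The choice of the second vector. -/
theorem choose_c (p u : Fin 4 → ℤ) (q n0 n1 : ℤ) (hu : u ⬝ᵥ p = 1) (hp : p 2 ≠ 0 ∨ p 3 ≠ 0) :
    ∃ (t : ℤ) (c : Fin 4 → ℤ), c ⬝ᵥ p = 1 - q ∧ t * c 0 - c 1 = n0 * t - n1 - 1 := by
  obtain ⟨h, hh⟩ : ∃ h : ℤ, h = (Int.gcd (p 2) (p 3) : ℤ) := ⟨_, rfl⟩
  have hh0 : h ≠ 0 := by
    rw [hh]
    intro h0
    have : Int.gcd (p 2) (p 3) = 0 := by exact_mod_cast h0
    rw [Int.gcd_eq_zero_iff] at this
    rcases hp with h1 | h1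
    · exact h1 this.1
    · exact h1 this.2
  obtain ⟨p2', hp2⟩ : h ∣ p 2 := by rw [hh]; exact Int.gcd_dvd_left _ _
  obtain ⟨p3', hp3⟩ : h ∣ p 3 := by rw [hh]; exact Int.gcd_dvd_right _ _
  have hb : h = p 2 * Int.gcdA (p 2) (p 3) + p 3 * Int.gcdB (p 2) (p 3) := by
    rw [hh]; exact Int.gcd_eq_gcd_ab _ _
  rw [dotProduct, Fin.sum_univ_four] at hu
  obtain ⟨t, α, β, hαβ⟩ := exists_coprime_shift (p 0) (-p 1) h hh0
    ⟨u 0, -u 1, u 2 * p2' + u 3 * p3', by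
      linear_combination hu - u 2 * hp2 - u 3 * hp3⟩
  obtain ⟨κ, hκ⟩ : ∃ κ, κ = 1 - q + p 1 * (n0 * t - n1 - 1) := ⟨_, rfl⟩
  refine ⟨t, ![α * κ, α * κ * t - (n0 * t - n1 - 1), β * κ * Int.gcdA (p 2) (p 3),
    β * κ * Int.gcdB (p 2) (p 3)], ?_, ?_⟩
  · rw [dotProduct, Fin.sum_univ_four]
    simp only [Matrix.cons_val_zero, Matrix.cons_val_one, Matrix.cons_val]
    linear_combination κ * hαβ + hκ - β * κ * hb
  · simp only [Matrix.cons_val_zero, Matrix.cons_val_one]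
    ring

end Pool.Agent.Lib.MP_efa98f_al
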