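import Pool.Agent.Lib.MP_efa98f_al.FiveMain

namespace Pool.Agent.Lib.MP_efa98f_al

open Matrix

/-- If row five of `M` is not supported on the first two columns, then some `2 × 2` minor of the
first two rows of `M⁻¹` without the last column is not zero. -/
theorem minor_ne (x y : Fin 4 → ℤ) (π1 π2 : ℤ) (M : Matrix (Fin 5) (Fin 5) ℤ)
    (e0 : ∀ j : Fin 5, (∑ k : Fin 4, x k * M k.castSucc j) + π1 * M 4 j = if j = 0 then 1 else 0)
    (e1 : ∀ j : Fin 5, (∑ k : Fin 4, y k * M k.castSucc j) + π2 * M 4 j = if j = 1 then 1 else 0)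
    (hrow : ∃ j : Fin 5, 2 ≤ j ∧ M 4 j ≠ 0) : ∃ i j, x i * y j - x j * y i ≠ 0 := by
  by_contra hne
  have hm : ∀ i j, x i * y j - x j * y i = 0 := by
    intro i j
    by_contra h
    exact hne ⟨i, j, h⟩
  have hκ : ∀ j : Fin 4, ∀ l : Fin 5, (y j * π1 - x j * π2) * M 4 l =
      y j * (if l = 0 then 1 else 0) - x j * (if l = 1 then 1 else 0) := by
    intro j l
    rw [← e0 l, ← e1 l]
    have : ∑ k : Fin 4, (x k * y j - x j * y k) * M k.castSucc l = 0 :=
      Finset.sum_eq_zero fun k _ => by rw [hm, zero_mul]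
    have h2 : ∑ k : Fin 4, (x k * y j - x j * y k) * M k.castSucc l =
        y j * (∑ k : Fin 4, x k * M k.castSucc l) - x j * (∑ k : Fin 4, y k * M k.castSucc l) := by
      rw [Finset.mul_sum, Finset.mul_sum, ← Finset.sum_sub_distrib]
      exact Finset.sum_congr rfl fun k _ => by ring
    rw [h2] at this
    linear_combination -this
  obtain ⟨l, hl, hMl⟩ := hrow
  have hl0 : l ≠ 0 := by rintro rfl; exact absurd hl (by decide)
  have hl1 : l ≠ 1 := by rintro rfl; exact absurd hl (by decide)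
  have hκ0 : ∀ j, y j * π1 - x j * π2 = 0 := by
    intro j
    have := hκ j l
    rw [if_neg hl0, if_neg hl1, mul_zero, mul_zero, sub_zero] at this
    exact (mul_eq_zero.mp this).resolve_right hMl
  have hy : ∀ j, y j = 0 := by
    intro j
    have := hκ j 0
    rw [hκ0 j, zero_mul] at this
    simpa using this.symm
  have hx : ∀ j, x j = 0 := by
    intro j
    have := hκ j 1
    rw [hκ0 j, zero_mul] at this
    simpa using this.symm
  have h1 := e0 0
  have h2 := e0 1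
  have h3 := e1 1
  rw [if_pos rfl] at h1 h3
  rw [if_neg (by decide)] at h2
  simp only [hx, hy, zero_mul, Finset.sum_const_zero, zero_add] at h1 h2 h3
  rcases mul_eq_zero.mp h2 with h | h
  · rw [h, zero_mul] at h1; exact zero_ne_one h1
  · rw [h, mul_zero] at h3; exact zero_ne_one h3

theorem prime_xy (x y : Fin 4 → ℤ) (π1 π2 : ℤ) (M : Matrix (Fin 5) (Fin 5) ℤ)
    (e0 : ∀ j : Fin 5, (∑ k : Fin 4, x k * M k.castSucc j) + π1 * M 4 j = if j = 0 then 1 else 0)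
    (e1 : ∀ j : Fin 5, (∑ k : Fin 4, y k * M k.castSucc j) + π2 * M 4 j = if j = 1 then 1 else 0)
    (p : ℕ) (hp : p.Prime) : ¬ ((∀ i, (p : ℤ) ∣ x i) ∧ ∀ i, (p : ℤ) ∣ y i) := by
  rintro ⟨hx, hy⟩
  have hpI : Prime (p : ℤ) := Nat.prime_iff_prime_int.mp hp
  have sx : ∀ j : Fin 5, (p : ℤ) ∣ ∑ k : Fin 4, x k * M k.castSucc j :=
    fun j => Finset.dvd_sum fun k _ => (hx k).mul_right _
  have sy : ∀ j : Fin 5, (p : ℤ) ∣ ∑ k : Fin 4, y k * M k.castSucc j :=
    fun j => Finset.dvd_sum fun k _ => (hy k).mul_right _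
  have h1 := e0 0
  have h2 := e0 1
  have h3 := e1 1
  rw [if_pos rfl] at h1 h3
  rw [if_neg (by decide)] at h2
  have h4 : (p : ℤ) ∣ π1 * M 4 1 := by
    have := dvd_neg.mpr (sx 1)
    rwa [← eq_neg_of_add_eq_zero_right h2] at this
  rcases hpI.dvd_or_dvd h4 with h | h
  · have : (p : ℤ) ∣ 1 := by
      rw [← h1]; exact dvd_add (sx 0) (h.mul_right _)
    exact hpI.not_isUnit (isUnit_of_dvd_one this)
  · have : (p : ℤ) ∣ 1 := by
      rw [← h3]; exact dvd_add (sy 1) (h.mul_left _)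
    exact hpI.not_isUnit (isUnit_of_dvd_one this)

/-- The main reduction for `n = 5`. -/
theorem five_main (M : SLn 5) (hrow : ∃ j : Fin 5, 2 ≤ j ∧ M.1 4 j ≠ 0)
    (hcol : ∃ i : Fin 5, 2 ≤ i ∧ M.1 i 4 ≠ 0) : Six M := by
  obtain ⟨P, hP⟩ : ∃ P, P = M⁻¹ := ⟨_, rfl⟩
  have hPM : P.1 * M.1 = 1 := by rw [hP, ← SL_val_mul, inv_mul_cancel]; rfl
  have ent : ∀ i j : Fin 5, (∑ k : Fin 4, P.1 i k.castSucc * M.1 k.castSucc j) +
      P.1 i 4 * M.1 4 j = (1 : Matrix (Fin 5) (Fin 5) ℤ) i j := by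
    intro i j
    rw [← hPM, Matrix.mul_apply]
    exact (Fin.sum_univ_castSucc (fun k : Fin 5 => P.1 i k * M.1 k j)).symm
  obtain ⟨x, hx⟩ : ∃ x : Fin 4 → ℤ, x = fun j => P.1 0 j.castSucc := ⟨_, rfl⟩
  obtain ⟨y, hy⟩ : ∃ y : Fin 4 → ℤ, y = fun j => P.1 1 j.castSucc := ⟨_, rfl⟩
  obtain ⟨w, hw⟩ : ∃ w : Fin 4 → ℤ, w = fun j => M.1 j.castSucc 4 := ⟨_, rfl⟩
  obtain ⟨q, hq⟩ : ∃ q, q = M.1 4 4 := ⟨_, rfl⟩
  have e0 : ∀ j : Fin 5, (∑ k : Fin 4, x k * M.1 k.castSucc j) + P.1 0 4 * M.1 4 j =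
      if j = 0 then 1 else 0 := by
    intro j
    rw [hx, ent, Matrix.one_apply]
    simp only [eq_comm]
  have e1 : ∀ j : Fin 5, (∑ k : Fin 4, y k * M.1 k.castSucc j) + P.1 1 4 * M.1 4 j =
      if j = 1 then 1 else 0 := by
    intro j
    rw [hy, ent, Matrix.one_apply]
    simp only [eq_comm]
  obtain ⟨i0, j0, hD⟩ := minor_ne x y _ _ _ e0 e1 hrow
  obtain ⟨Z, hZ⟩ := exists_shift_vec x y _ hD (by
    intro p _ Z h
    have := dvd_sub ((h i0).mul_left (x j0)) ((h j0).mul_left (x i0))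
    have e : x j0 * (Z * x i0 - y i0) - x i0 * (Z * x j0 - y j0) = x i0 * y j0 - x j0 * y i0 := by
      ring
    rwa [e] at this) (prime_xy x y _ _ _ e0 e1)
  obtain ⟨nv, hnv⟩ : ∃ nv : Fin 4 → ℤ, nv = fun i => Z * x i - y i := ⟨_, rfl⟩
  obtain ⟨n5, hn5⟩ : ∃ n5, n5 = Z * P.1 0 4 - P.1 1 4 := ⟨_, rfl⟩
  obtain ⟨a, ha⟩ := unimod_of_primes nv (by rw [hnv]; exact hZ)
  have hnw : nv ⬝ᵥ w + n5 * q = 0 := by
    have h0 := e0 4
    have h1 := e1 4
    rw [if_neg (by decide)] at h0 h1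
    have : nv ⬝ᵥ w = Z * (∑ k : Fin 4, x k * M.1 k.castSucc 4) -
        ∑ k : Fin 4, y k * M.1 k.castSucc 4 := by
      rw [dotProduct, Finset.mul_sum, ← Finset.sum_sub_distrib, hnv, hw]
      exact Finset.sum_congr rfl fun k _ => by ring
    rw [this, hn5, hq]
    linear_combination Z * h0 - h1
  obtain ⟨r, hr, hr2⟩ := choose_r nv a w n5 q ha (by
    intro hq0
    obtain ⟨i, hi, hMi⟩ := hcol
    rw [hw]
    have hall : ∀ i : Fin 5, 2 ≤ i → i = 2 ∨ i = 3 ∨ i = 4 := by decide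
    have := hall i hi
    rcases this with rfl | rfl | rfl
    · left; exact hMi
    · right; exact hMi
    · exact absurd (hq ▸ hq0) hMi)
  obtain ⟨p, hp⟩ : ∃ p : Fin 4 → ℤ, p = fun i => w i - q * r i := ⟨_, rfl⟩
  have hnp : nv ⬝ᵥ p = -q := by
    have : nv ⬝ᵥ p = nv ⬝ᵥ w - q * (nv ⬝ᵥ r) := by
      rw [dotProduct, dotProduct, dotProduct, Finset.mul_sum, ← Finset.sum_sub_distrib, hp]
      exact Finset.sum_congr rfl fun k _ => by ring
    rw [this, hr]
    linear_combination hnw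
  obtain ⟨u, hu⟩ := unimod_of_primes p (by
    intro l hl hall
    have hlI : Prime (l : ℤ) := Nat.prime_iff_prime_int.mp hl
    have h1 : (l : ℤ) ∣ nv ⬝ᵥ p := Finset.dvd_sum fun k _ => (hall k).mul_left _
    rw [hnp, dvd_neg] at h1
    have h2 : ∀ i, (l : ℤ) ∣ w i := by
      intro i
      have := dvd_add (hall i) (h1.mul_right (r i))
      rw [hp] at this
      simpa using this
    have h3 : (l : ℤ) ∣ 1 := by
      have e4 := ent 4 4
      rw [Matrix.one_apply_eq] at e4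
      rw [← e4]
      refine dvd_add (Finset.dvd_sum fun k _ => ?_) ?_
      · have := h2 k
        rw [hw] at this
        exact this.mul_left _
      · rw [← hq]; exact h1.mul_left _
    exact hlI.not_isUnit (isUnit_of_dvd_one h3))
  obtain ⟨t, c, hc, htc⟩ := choose_c p u q (nv 0) (nv 1) hu (by rw [hp]; exact hr2)
  have eM := exists_blk M.1
  obtain ⟨r2, g, c2, h⟩ := one_corner (CC c * (RR (-r) * M)) (by
    rw [SL_val_mul, SL_val_mul, RR_val, CC_val, eM, blk_mul, blk_mul, blk_ll]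
    have e1 : (1 : Matrix (Fin 4) (Fin 4) ℤ) *ᵥ (fun i : Fin 4 => M.1 i.castSucc (Fin.last 4)) +
        M.1 (Fin.last 4) (Fin.last 4) • -r = p := by
      rw [Matrix.one_mulVec, hp, hw, hq]
      ext i
      simp [sub_eq_add_neg]
    rw [e1, hc, hq]
    change 1 - M.1 4 4 + 1 * (0 ⬝ᵥ (fun i : Fin 4 => M.1 i.castSucc (Fin.last 4)) + 1 * M.1 4 4) = 1
    rw [zero_dotProduct]
    ring)
  have hM : M = RR r * CC (-c) * RR r2 * dg g * CC c2 := by
    have : RR r * CC (-c) * RR r2 * dg g * CC c2 =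
      RR r * CC (-c) * (RR r2 * dg g * CC c2) := by simp only [mul_assoc]
    rw [this, ← h, ← CC_inv, ← RR_inv]
    group
  have hinv : P * RR r * CC (-c) = CC (-c2) * dg g⁻¹ * RR (-r2) := by
    rw [hP, ← CC_inv, ← CC_inv, ← RR_inv, map_inv]
    have h' := congrArg (fun z => z⁻¹) h
    simp only [_root_.mul_inv_rev, RR_inv, neg_neg] at h'
    rw [← mul_assoc] at h'
    rw [RR_inv, h']
  have hg : ∀ i j : Fin 4, (g⁻¹).1 i j = P.1 i.castSucc j.castSucc -
      ((∑ k : Fin 4, P.1 i.castSucc k.castSucc * r k) + P.1 i.castSucc (Fin.last 4)) * c j := by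
    intro i j
    have h1 := congrFun (congrFun (congrArg Subtype.val hinv) i.castSucc) j.castSucc
    have eP := exists_blk P.1
    rw [SL_val_mul, SL_val_mul, SL_val_mul, SL_val_mul, RR_val, CC_val, CC_val, RR_val, dg_val, eP,
      blk_mul, blk_mul, blk_mul, blk_mul, blk_cc, blk_cc] at h1
    simp only [Matrix.one_mulVec, Matrix.mul_one, Matrix.one_mul, Matrix.add_apply,
      vecMulVec_apply, Matrix.mulVec, dotProduct, Matrix.of_apply, Pi.add_apply, Pi.smul_apply,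
      Pi.neg_apply, Pi.zero_apply, smul_eq_mul] at h1
    linear_combination -h1
  have hr' : Z * (∑ k : Fin 4, x k * r k) - (∑ k : Fin 4, y k * r k) = 1 - n5 := by
    rw [← hr, dotProduct, Finset.mul_sum, ← Finset.sum_sub_distrib, hnv]
    exact Finset.sum_congr rfl fun k _ => by ring
  have g0 : ∀ j : Fin 4, (g⁻¹).1 0 j = x j - ((∑ k : Fin 4, x k * r k) + P.1 0 4) * c j := by
    intro j; rw [hx]; exact hg 0 j
  have g1 : ∀ j : Fin 4, (g⁻¹).1 1 j = y j - ((∑ k : Fin 4, y k * r k) + P.1 1 4) * c j := by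
    intro j; rw [hy]; exact hg 1 j
  obtain ⟨A, hA, hAg⟩ := six_claimB' g t Z (by
    rw [g0, g0, g1, g1]
    have n0 : nv 0 = Z * x 0 - y 0 := by rw [hnv]
    have n1 : nv 1 = Z * x 1 - y 1 := by rw [hnv]
    rw [n0, n1] at htc
    linear_combination (c 1 - t * c 0) * hr' + (t * c 0 - c 1) * hn5 - htc)
  rw [hM]
  exact lemmaT _ _ _ _ _ A hA hAg

end Pool.Agent.Lib.MP_efa98f_al
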