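import Pool.Agent.Lib.MP_efa98f_al.FiveFinal

namespace Pool.Agent.Lib.MP_efa98f_al

open Matrix

/-- A lower unitriangular element. -/
def LX (a b c d : ℤ) : SLn 5 :=
  ⟨!![1, 0, 0, 0, 0; 0, 1, 0, 0, 0; 0, 0, 1, 0, 0; 0, a, b, 1, 0; 0, c, d, 0, 1], by
    rw [Matrix.det_of_isLowerTriangular]
    · simp [Fin.prod_univ_succ]
    · intro i j hij
      fin_cases i <;> fin_cases j <;> first | rfl | exact absurd hij (by decide)⟩

theorem LX_val (a b c d : ℤ) : (LX a b c d).1 =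
    !![1, 0, 0, 0, 0; 0, 1, 0, 0, 0; 0, 0, 1, 0, 0; 0, a, b, 1, 0; 0, c, d, 0, 1] := rfl

theorem LX_mem (a b c d : ℤ) : LX a b c d ∈ Lo 5 := by
  refine ⟨fun i => ?_, fun i j hij => ?_⟩
  · rw [LX_val]; fin_cases i <;> rfl
  · rw [LX_val]
    fin_cases i <;> fin_cases j <;> first | rfl | exact absurd hij (by decide)

/-- The block antidiagonal matrices with blocks of sizes `2, 2, 1`. -/
def AntiD (g : SLn 5) : Prop := ∀ i j : Fin 5, g.1 i j ≠ 0 →
  (i ≤ 1 ∧ 3 ≤ j) ∨ (2 ≤ i ∧ i ≤ 3 ∧ 1 ≤ j ∧ j ≤ 2) ∨ (i = 4 ∧ j = 0)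

theorem shape_dec (M : SLn 5) (h4 : ∀ j : Fin 5, 1 ≤ j → M.1 4 j = 0)
    (hb : ∀ i j : Fin 5, 2 ≤ i → 3 ≤ j → M.1 i j = 0) :
    ∃ u ∈ Up 5, ∃ N : SLn 5, AntiD N ∧ ∃ l ∈ Lo 5, M = u * N * l := by
  obtain ⟨P, hP⟩ : ∃ P, P = M⁻¹ := ⟨_, rfl⟩
  have hPM : P.1 * M.1 = 1 := by rw [hP, ← SL_val_mul, inv_mul_cancel]; rfl
  have hMP : M.1 * P.1 = 1 := by rw [hP, ← SL_val_mul, mul_inv_cancel]; rfl
  have ent : ∀ i j : Fin 5, P.1 i 0 * M.1 0 j + P.1 i 1 * M.1 1 j + P.1 i 2 * M.1 2 j +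
      P.1 i 3 * M.1 3 j + P.1 i 4 * M.1 4 j = (1 : Matrix (Fin 5) (Fin 5) ℤ) i j := by
    intro i j
    rw [← hPM, Matrix.mul_apply, Fin.sum_univ_five]
  have ent' : ∀ i j : Fin 5, M.1 i 0 * P.1 0 j + M.1 i 1 * P.1 1 j + M.1 i 2 * P.1 2 j +
      M.1 i 3 * P.1 3 j + M.1 i 4 * P.1 4 j = (1 : Matrix (Fin 5) (Fin 5) ℤ) i j := by
    intro i j
    rw [← hMP, Matrix.mul_apply, Fin.sum_univ_five]
  have m23 : M.1 2 3 = 0 := hb 2 3 (by decide) (by decide)
  have m24 : M.1 2 4 = 0 := hb 2 4 (by decide) (by decide)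
  have m33 : M.1 3 3 = 0 := hb 3 3 (by decide) (by decide)
  have m34 : M.1 3 4 = 0 := hb 3 4 (by decide) (by decide)
  have m41 : M.1 4 1 = 0 := h4 1 (by decide)
  have m42 : M.1 4 2 = 0 := h4 2 (by decide)
  have m43 : M.1 4 3 = 0 := h4 3 (by decide)
  have m44 : M.1 4 4 = 0 := h4 4 (by decide)
  have ε4 : M.1 4 0 * P.1 0 4 = 1 := by
    have := ent' 4 4
    rw [Matrix.one_apply_eq, m41, m42, m43, m44] at this
    linear_combination this
  have ek3 : ∀ i : Fin 5, P.1 i 0 * M.1 0 3 + P.1 i 1 * M.1 1 3 =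
      (1 : Matrix (Fin 5) (Fin 5) ℤ) i 3 := by
    intro i
    have := ent i 3
    rw [m23, m33, m43] at this
    linear_combination this
  have ek4 : ∀ i : Fin 5, P.1 i 0 * M.1 0 4 + P.1 i 1 * M.1 1 4 =
      (1 : Matrix (Fin 5) (Fin 5) ℤ) i 4 := by
    intro i
    have := ent i 4
    rw [m24, m34, m44] at this
    linear_combination this
  have e33 := ek3 3
  have e34 := ek4 3
  have e43 := ek3 4
  have e44 := ek4 4
  rw [Matrix.one_apply_eq] at e33 e44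
  rw [Matrix.one_apply_ne (by decide)] at e34 e43
  have hdd : (P.1 3 0 * P.1 4 1 - P.1 3 1 * P.1 4 0) * (M.1 0 3 * M.1 1 4 - M.1 1 3 * M.1 0 4) = 1 := by
    linear_combination (P.1 4 0 * M.1 0 4 + P.1 4 1 * M.1 1 4) * e33 + e44 -
      (P.1 4 0 * M.1 0 3 + P.1 4 1 * M.1 1 3) * e34
  have hp0 : ∀ i : Fin 5, i ≠ 3 → i ≠ 4 → P.1 i 0 = 0 := by
    intro i h3 h4
    have a3 := ek3 i
    have a4 := ek4 i
    rw [Matrix.one_apply_ne h3] at a3
    rw [Matrix.one_apply_ne h4] at a4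
    linear_combination -P.1 i 0 * hdd + (P.1 3 0 * P.1 4 1 - P.1 3 1 * P.1 4 0) *
      (M.1 1 4 * a3 - M.1 1 3 * a4)
  have hp1 : ∀ i : Fin 5, i ≠ 3 → i ≠ 4 → P.1 i 1 = 0 := by
    intro i h3 h4
    have a3 := ek3 i
    have a4 := ek4 i
    rw [Matrix.one_apply_ne h3] at a3
    rw [Matrix.one_apply_ne h4] at a4
    linear_combination -P.1 i 1 * hdd + (P.1 3 0 * P.1 4 1 - P.1 3 1 * P.1 4 0) *
      (M.1 0 3 * a4 - M.1 0 4 * a3)
  have f00 : M.1 0 3 * P.1 3 0 + M.1 0 4 * P.1 4 0 = 1 := by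
    have := ent' 0 0
    rw [Matrix.one_apply_eq, hp0 0 (by decide) (by decide), hp0 1 (by decide) (by decide),
      hp0 2 (by decide) (by decide)] at this
    linear_combination this
  have f01 : M.1 0 3 * P.1 3 1 + M.1 0 4 * P.1 4 1 = 0 := by
    have := ent' 0 1
    rw [Matrix.one_apply_ne (by decide), hp1 0 (by decide) (by decide), hp1 1 (by decide) (by decide),
      hp1 2 (by decide) (by decide)] at this
    linear_combination this
  have f10 : M.1 1 3 * P.1 3 0 + M.1 1 4 * P.1 4 0 = 0 := by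
    have := ent' 1 0
    rw [Matrix.one_apply_ne (by decide), hp0 0 (by decide) (by decide), hp0 1 (by decide) (by decide),
      hp0 2 (by decide) (by decide)] at this
    linear_combination this
  have f11 : M.1 1 3 * P.1 3 1 + M.1 1 4 * P.1 4 1 = 1 := by
    have := ent' 1 1
    rw [Matrix.one_apply_eq, hp1 0 (by decide) (by decide), hp1 1 (by decide) (by decide),
      hp1 2 (by decide) (by decide)] at this
    linear_combination this
  obtain ⟨r, hr⟩ : ∃ r : Fin 4 → ℤ, r = fun i => -(M.1 i.castSucc 0 * P.1 0 4) := ⟨_, rfl⟩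
  obtain ⟨x31, hx31⟩ : ∃ x, x = -(P.1 3 0 * M.1 0 1 + P.1 3 1 * M.1 1 1) := ⟨_, rfl⟩
  obtain ⟨x32, hx32⟩ : ∃ x, x = -(P.1 3 0 * M.1 0 2 + P.1 3 1 * M.1 1 2) := ⟨_, rfl⟩
  obtain ⟨x41, hx41⟩ : ∃ x, x = -(P.1 4 0 * M.1 0 1 + P.1 4 1 * M.1 1 1) := ⟨_, rfl⟩
  obtain ⟨x42, hx42⟩ : ∃ x, x = -(P.1 4 0 * M.1 0 2 + P.1 4 1 * M.1 1 2) := ⟨_, rfl⟩
  obtain ⟨N, hN⟩ : ∃ N, N = RR r * M * LX x31 x32 x41 x42 := ⟨_, rfl⟩
  have hMN : M = RR (-r) * N * LX (-x31) (-x32) (-x41) (-x42) := by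
    have e1 : RR (-r) * RR r = 1 := by rw [RR_add, neg_add_cancel, RR_zero]
    have e2 : LX x31 x32 x41 x42 * LX (-x31) (-x32) (-x41) (-x42) = 1 := by
      apply Subtype.ext
      rw [SL_val_mul, LX_val, LX_val]
      change _ = (1 : Matrix (Fin 5) (Fin 5) ℤ)
      ext i j
      rw [Matrix.mul_apply, Fin.sum_univ_five]
      fin_cases i <;> fin_cases j <;> simp
    rw [hN]
    calc M = 1 * M * 1 := by rw [one_mul, mul_one]
      _ = (RR (-r) * RR r) * M * (LX x31 x32 x41 x42 * LX (-x31) (-x32) (-x41) (-x42)) := by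
          rw [e1, e2]
      _ = _ := by simp only [mul_assoc]
  -- the entries of the first product
  have hQc : ∀ (i : Fin 4) (j : Fin 5), (RR r * M).1 i.castSucc j =
      M.1 i.castSucc j + r i * M.1 4 j := fun i j => RR_mul_cast M r i j
  have hQl : ∀ j : Fin 5, (RR r * M).1 4 j = M.1 4 j := fun j => RR_mul_last M r j
  have hQ0 : ∀ i : Fin 4, (RR r * M).1 i.castSucc 0 = 0 := by
    intro i
    rw [hQc, hr]
    linear_combination -M.1 i.castSucc 0 * ε4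
  have hQj : ∀ (i : Fin 4) (j : Fin 5), 1 ≤ j → (RR r * M).1 i.castSucc j = M.1 i.castSucc j := by
    intro i j hj
    rw [hQc, h4 j hj, mul_zero, add_zero]
  have hNe : ∀ i j : Fin 5, N.1 i j = (RR r * M).1 i 0 * (LX x31 x32 x41 x42).1 0 j +
      (RR r * M).1 i 1 * (LX x31 x32 x41 x42).1 1 j +
      (RR r * M).1 i 2 * (LX x31 x32 x41 x42).1 2 j +
      (RR r * M).1 i 3 * (LX x31 x32 x41 x42).1 3 j +
      (RR r * M).1 i 4 * (LX x31 x32 x41 x42).1 4 j := by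
    intro i j
    rw [hN, SL_val_mul (RR r * M), Matrix.mul_apply, Fin.sum_univ_five]
  have n0 : ∀ i : Fin 5, N.1 i 0 = (RR r * M).1 i 0 := by
    intro i; rw [hNe, LX_val]; simp
  have n1 : ∀ i : Fin 5, N.1 i 1 = (RR r * M).1 i 1 + (RR r * M).1 i 3 * x31 +
      (RR r * M).1 i 4 * x41 := by
    intro i; rw [hNe, LX_val]; simp
  have n2 : ∀ i : Fin 5, N.1 i 2 = (RR r * M).1 i 2 + (RR r * M).1 i 3 * x32 +
      (RR r * M).1 i 4 * x42 := by
    intro i; rw [hNe, LX_val]; simp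
  have n3 : ∀ i : Fin 5, N.1 i 3 = (RR r * M).1 i 3 := by
    intro i; rw [hNe, LX_val]; simp
  have n4 : ∀ i : Fin 5, N.1 i 4 = (RR r * M).1 i 4 := by
    intro i; rw [hNe, LX_val]; simp
  have q0 : ∀ i : Fin 4, (RR r * M).1 i.castSucc 0 = 0 := hQ0
  have z00 : N.1 0 0 = 0 := by rw [n0]; exact hQ0 0
  have z10 : N.1 1 0 = 0 := by rw [n0]; exact hQ0 1
  have z20 : N.1 2 0 = 0 := by rw [n0]; exact hQ0 2
  have z30 : N.1 3 0 = 0 := by rw [n0]; exact hQ0 3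
  have a (j : Fin 5) (hj : 1 ≤ j) : (RR r * M).1 0 j = M.1 0 j := hQj 0 j hj
  have b (j : Fin 5) (hj : 1 ≤ j) : (RR r * M).1 1 j = M.1 1 j := hQj 1 j hj
  have c (j : Fin 5) (hj : 1 ≤ j) : (RR r * M).1 2 j = M.1 2 j := hQj 2 j hj
  have d (j : Fin 5) (hj : 1 ≤ j) : (RR r * M).1 3 j = M.1 3 j := hQj 3 j hj
  have z01 : N.1 0 1 = 0 := by
    rw [n1, a 1 (by decide), a 3 (by decide), a 4 (by decide), hx31, hx41]
    linear_combination -M.1 0 1 * f00 - M.1 1 1 * f01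
  have z02 : N.1 0 2 = 0 := by
    rw [n2, a 2 (by decide), a 3 (by decide), a 4 (by decide), hx32, hx42]
    linear_combination -M.1 0 2 * f00 - M.1 1 2 * f01
  have z11 : N.1 1 1 = 0 := by
    rw [n1, b 1 (by decide), b 3 (by decide), b 4 (by decide), hx31, hx41]
    linear_combination -M.1 0 1 * f10 - M.1 1 1 * f11
  have z12 : N.1 1 2 = 0 := by
    rw [n2, b 2 (by decide), b 3 (by decide), b 4 (by decide), hx32, hx42]
    linear_combination -M.1 0 2 * f10 - M.1 1 2 * f11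
  have z23 : N.1 2 3 = 0 := by rw [n3, c 3 (by decide), m23]
  have z24 : N.1 2 4 = 0 := by rw [n4, c 4 (by decide), m24]
  have z33 : N.1 3 3 = 0 := by rw [n3, d 3 (by decide), m33]
  have z34 : N.1 3 4 = 0 := by rw [n4, d 4 (by decide), m34]
  have z41 : N.1 4 1 = 0 := by rw [n1, hQl, hQl, hQl, m41, m43, m44]; ring
  have z42 : N.1 4 2 = 0 := by rw [n2, hQl, hQl, hQl, m42, m43, m44]; ring
  have z43 : N.1 4 3 = 0 := by rw [n3, hQl, m43]
  have z44 : N.1 4 4 = 0 := by rw [n4, hQl, m44]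
  have hAN : AntiD N := by
    intro i j hij
    fin_cases i <;> fin_cases j <;>
      first
        | exact absurd z00 hij | exact absurd z10 hij | exact absurd z20 hij
        | exact absurd z30 hij | exact absurd z01 hij | exact absurd z02 hij
        | exact absurd z11 hij | exact absurd z12 hij | exact absurd z23 hij
        | exact absurd z24 hij | exact absurd z33 hij | exact absurd z34 hij
        | exact absurd z41 hij | exact absurd z42 hij | exact absurd z43 hij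
        | exact absurd z44 hij | decide
  exact ⟨_, RR_mem _, N, hAN, _, LX_mem _ _ _ _, hMN⟩

/-- Every matrix outside two families of double cosets is a six-fold product. -/
theorem five_dec (M : SLn 5) : Six M ∨ ∃ u ∈ Up 5, ∃ N : SLn 5, AntiD N ∧ ∃ l ∈ Lo 5,
    (M = u * N * l ∨ Tr M = u * N * l) := by
  rcases five_final M with h | ⟨h1, h2⟩ | ⟨h1, h2⟩
  · exact Or.inl h
  · obtain ⟨u, hu, N, hN, l, hl, h⟩ := shape_dec M h1 h2
    exact Or.inr ⟨u, hu, N, hN, l, hl, Or.inl h⟩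
  · obtain ⟨u, hu, N, hN, l, hl, h⟩ :=
      shape_dec (Tr M) (fun j hj => h1 j hj) (fun i j hi hj => h2 j i hj hi)
    exact Or.inr ⟨u, hu, N, hN, l, hl, Or.inr h⟩

end Pool.Agent.Lib.MP_efa98f_al
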