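import Pool.Agent.Lib.MP_efa98f_al.FiveMain2

namespace Pool.Agent.Lib.MP_efa98f_al

open Matrix

section
variable {n : ℕ}

theorem mul_RR_cast (Q : SLn (n+1)) (r : Fin n → ℤ) (i : Fin (n+1)) (j : Fin n) :
    (Q * RR r).1 i j.castSucc = Q.1 i j.castSucc := by
  rw [SL_val_mul, Matrix.mul_apply, Fin.sum_univ_castSucc, RR_val]
  simp [Matrix.one_apply]

theorem mul_RR_last (Q : SLn (n+1)) (r : Fin n → ℤ) (i : Fin (n+1)) :
    (Q * RR r).1 i (Fin.last n) = Q.1 i (Fin.last n) + ∑ k : Fin n, Q.1 i k.castSucc * r k := by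
  rw [SL_val_mul, Matrix.mul_apply, Fin.sum_univ_castSucc, RR_val]
  simp [add_comm]

theorem mul_CC_cast (Q : SLn (n+1)) (c : Fin n → ℤ) (i : Fin (n+1)) (j : Fin n) :
    (Q * CC c).1 i j.castSucc = Q.1 i j.castSucc + Q.1 i (Fin.last n) * c j := by
  rw [SL_val_mul, Matrix.mul_apply, Fin.sum_univ_castSucc, CC_val]
  simp [Matrix.one_apply]

theorem mul_CC_last (Q : SLn (n+1)) (c : Fin n → ℤ) (i : Fin (n+1)) :
    (Q * CC c).1 i (Fin.last n) = Q.1 i (Fin.last n) := by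
  rw [SL_val_mul, Matrix.mul_apply, Fin.sum_univ_castSucc, CC_val]
  simp

end

/-- Lower right block the identity, up to a short word. -/
theorem six_V1 (g : SLn 4) (h33 : g.1 3 3 = 1) (h22 : g.1 2 2 - g.1 2 3 * g.1 3 2 = 1) :
    Six g := by
  obtain ⟨p, g3, c, hg3⟩ := one_corner g h33
  have hb := congrArg Subtype.val hg3
  rw [RgC_val] at hb
  have b22 : g.1 2 2 = g3.1 2 2 + p 2 * c 2 := by
    have := congrFun (congrFun hb (Fin.castSucc 2)) (Fin.castSucc 2)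
    rw [blk_cc] at this
    simpa [vecMulVec_apply] using this
  have b23 : g.1 2 3 = p 2 := by
    have := congrFun (congrFun hb (Fin.castSucc 2)) (Fin.last 3)
    rw [blk_cl] at this
    exact this
  have b32 : g.1 3 2 = c 2 := by
    have := congrFun (congrFun hb (Fin.last 3)) (Fin.castSucc 2)
    rw [blk_lc] at this
    exact this
  have hg22 : g3.1 2 2 = 1 := by
    rw [← b23, ← b32] at b22
    linear_combination h22 - b22
  obtain ⟨p', E, c', hE⟩ := one_corner g3 hg22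
  have e : g = RR p * (dg (RR p') * (dg (dg E) * (dg (CC c') * CC c))) := by
    rw [hg3, hE, map_mul, map_mul]
    simp only [mul_assoc]
  rw [e]
  refine ((SixIn.mul_right ?_ (ck_of_good (good_all E))).mul_left
    (dg_mem_Up (RR_mem _))).mul_left (RR_mem _)
  exact (Lo 4).mul_mem (dg_mem_Lo (CC_mem _)) (CC_mem _)

theorem six_T1 (g : SLn 4) (h00 : (g⁻¹).1 0 0 = 1)
    (h11 : (g⁻¹).1 1 1 - (g⁻¹).1 0 1 * (g⁻¹).1 1 0 = 1) : Six g := by
  apply six_of_Psi
  apply six_V1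
  · rw [Psi_apply]; exact h00
  · rw [Psi_apply, Psi_apply, Psi_apply]
    change (g⁻¹).1 1 1 - (g⁻¹).1 0 1 * (g⁻¹).1 1 0 = 1
    exact h11

/-- The `4+1` splitting with four factors. -/
theorem four_one (M : SLn 5) (r1 c1 r2 c2 : Fin 4 → ℤ)
    (hc : (CC (-c2) * (RR (-r2) * (CC (-c1) * (RR (-r1) * M)))).1 (Fin.last 4) (Fin.last 4) = 1)
    (K K2 : Fin 4 → ℤ)
    (hK : ∀ i : Fin 4, K i = (M⁻¹).1 i.castSucc (Fin.last 4) +
      ∑ k : Fin 4, (M⁻¹).1 i.castSucc k.castSucc * r1 k)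
    (hK2 : ∀ i : Fin 4, K2 i = K i +
      ∑ k : Fin 4, ((M⁻¹).1 i.castSucc k.castSucc + K i * c1 k) * r2 k) :
    ∃ (p : Fin 4 → ℤ) (g : SLn 4) (c : Fin 4 → ℤ),
      M = RR r1 * CC c1 * RR r2 * CC c2 * RR p * dg g * CC c ∧
      ∀ i j : Fin 4, (g⁻¹).1 i j = (M⁻¹).1 i.castSucc j.castSucc + K i * c1 j + K2 i * c2 j := by
  obtain ⟨p, g, c, h⟩ := one_corner _ hc
  refine ⟨p, g, c, ?_, ?_⟩
  · have : RR r1 * CC c1 * RR r2 * CC c2 * RR p * dg g * CC c =
      RR r1 * CC c1 * RR r2 * CC c2 * (RR p * dg g * CC c) := by simp only [mul_assoc]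
    rw [this, ← h, ← CC_inv, ← RR_inv, ← CC_inv, ← RR_inv]
    group
  · intro i j
    have hinv : M⁻¹ * RR r1 * CC c1 * RR r2 * CC c2 = CC (-c) * dg g⁻¹ * RR (-p) := by
      rw [← CC_inv c, ← RR_inv p, map_inv]
      have h' := congrArg (fun z => z⁻¹) h
      simp only [_root_.mul_inv_rev, RR_inv, CC_inv, neg_neg] at h'
      rw [RR_inv, CC_inv, mul_assoc (CC (-c))]
      exact h'
    have h1 := congrFun (congrFun (congrArg Subtype.val hinv) i.castSucc) j.castSucc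
    rw [mul_CC_cast, mul_RR_cast, mul_CC_cast, mul_RR_cast, mul_RR_last, mul_RR_last, mul_CC_last,
      mul_RR_last, mul_RR_cast] at h1
    have h2 : ∀ k : Fin 4, (M⁻¹ * RR r1 * CC c1).1 i.castSucc k.castSucc =
        (M⁻¹).1 i.castSucc k.castSucc + K i * c1 k := by
      intro k
      rw [mul_CC_cast, mul_RR_cast, mul_RR_last, hK]
    simp only [h2] at h1
    rw [← hK, ← hK2] at h1
    rw [h1]
    have h3 : (CC (-c) * dg g⁻¹).1 i.castSucc j.castSucc = (g⁻¹).1 i j := by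
      rw [SL_val_mul, CC_val, dg_val, blk_mul, blk_cc]
      simp
    rw [h3]

end Pool.Agent.Lib.MP_efa98f_al
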