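import Pool.Agent.Lib.MP_efa98f_al.FiveT

namespace Pool.Agent.Lib.MP_efa98f_al

open Matrix

section
variable {n : ℕ}

theorem RR_mul_cast (Q : SLn (n+1)) (r : Fin n → ℤ) (i : Fin n) (j : Fin (n+1)) :
    (RR r * Q).1 i.castSucc j = Q.1 i.castSucc j + r i * Q.1 (Fin.last n) j := by
  rw [SL_val_mul, Matrix.mul_apply, Fin.sum_univ_castSucc, RR_val]
  simp [Matrix.one_apply]

theorem RR_mul_last (Q : SLn (n+1)) (r : Fin n → ℤ) (j : Fin (n+1)) :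
    (RR r * Q).1 (Fin.last n) j = Q.1 (Fin.last n) j := by
  rw [SL_val_mul, Matrix.mul_apply, Fin.sum_univ_castSucc, RR_val]
  simp

theorem CC_mul_cast (Q : SLn (n+1)) (c : Fin n → ℤ) (i : Fin n) (j : Fin (n+1)) :
    (CC c * Q).1 i.castSucc j = Q.1 i.castSucc j := by
  rw [SL_val_mul, Matrix.mul_apply, Fin.sum_univ_castSucc, CC_val]
  simp [Matrix.one_apply]

theorem CC_mul_last (Q : SLn (n+1)) (c : Fin n → ℤ) (j : Fin (n+1)) :
    (CC c * Q).1 (Fin.last n) j = Q.1 (Fin.last n) j + ∑ k : Fin n, c k * Q.1 k.castSucc j := by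
  rw [SL_val_mul, Matrix.mul_apply, Fin.sum_univ_castSucc, CC_val]
  simp [add_comm]

end

theorem corner_formula (M : SLn 5) (r1 c1 r2 c2 w : Fin 4 → ℤ) (q' : ℤ)
    (hw : ∀ k : Fin 4, w k = M.1 k.castSucc (Fin.last 4) - r1 k * M.1 (Fin.last 4) (Fin.last 4))
    (hq : q' = M.1 (Fin.last 4) (Fin.last 4) - (c1 0 * w 0 + c1 1 * w 1 + c1 2 * w 2 + c1 3 * w 3)) :
    (CC (-c2) * (RR (-r2) * (CC (-c1) * (RR (-r1) * M)))).1 (Fin.last 4) (Fin.last 4) =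
      q' - (c2 0 * (w 0 - r2 0 * q') + c2 1 * (w 1 - r2 1 * q') + c2 2 * (w 2 - r2 2 * q') +
        c2 3 * (w 3 - r2 3 * q')) := by
  have h1 : ∀ k : Fin 4, (RR (-r1) * M).1 k.castSucc (Fin.last 4) = w k := by
    intro k
    rw [RR_mul_cast, hw, Pi.neg_apply]; ring
  have h2 : (CC (-c1) * (RR (-r1) * M)).1 (Fin.last 4) (Fin.last 4) = q' := by
    rw [CC_mul_last, RR_mul_last, Fin.sum_univ_four, h1, h1, h1, h1, hq]
    simp only [Pi.neg_apply]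
    ring
  have h3 : ∀ k : Fin 4, (RR (-r2) * (CC (-c1) * (RR (-r1) * M))).1 k.castSucc (Fin.last 4) =
      w k - r2 k * q' := by
    intro k
    rw [RR_mul_cast, CC_mul_cast, h1, h2, Pi.neg_apply]; ring
  rw [CC_mul_last, RR_mul_last, Fin.sum_univ_four, h3, h3, h3, h3, h2]
  simp only [Pi.neg_apply]
  ring

theorem adj_lemma (δ R : Fin 4 → ℤ) (h : δ 0 * R 0 + δ 1 * R 1 + δ 2 * R 2 + δ 3 * R 3 = 1) :
    ∃ r : Fin 4 → ℤ, δ 0 * r 0 + δ 1 * r 1 + δ 2 * r 2 + δ 3 * r 3 = 1 ∧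
      ∃ a b : ℤ, a * r 2 + b * r 3 = 1 := by
  by_cases h0 : δ 0 = 0 ∧ δ 1 = 0
  · refine ⟨R, h, δ 2, δ 3, ?_⟩
    rw [h0.1, h0.2] at h
    linear_combination h
  · obtain ⟨e, he⟩ : ∃ e : ℤ, e = (Int.gcd (δ 0) (δ 1) : ℤ) := ⟨_, rfl⟩
    have he0 : e ≠ 0 := by
      rw [he]
      intro h1
      have : Int.gcd (δ 0) (δ 1) = 0 := by exact_mod_cast h1
      rw [Int.gcd_eq_zero_iff] at this
      exact h0 this
    obtain ⟨d0, hd0⟩ : e ∣ δ 0 := by rw [he]; exact Int.gcd_dvd_left _ _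
    obtain ⟨d1, hd1⟩ : e ∣ δ 1 := by rw [he]; exact Int.gcd_dvd_right _ _
    have hb : e = δ 0 * Int.gcdA (δ 0) (δ 1) + δ 1 * Int.gcdB (δ 0) (δ 1) := by
      rw [he]; exact Int.gcd_eq_gcd_ab _ _
    obtain ⟨t, ht⟩ : ∃ t : ℤ, R 3 + e * t ≠ 0 := by
      by_cases h3 : R 3 = 0
      · exact ⟨1, by rw [h3, zero_add, mul_one]; exact he0⟩
      · exact ⟨0, by rw [mul_zero, add_zero]; exact h3⟩
    obtain ⟨x, a, b, hab⟩ := exists_coprime_shift (R 2) (-e) (R 3 + e * t) ht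
      ⟨δ 2, -(d0 * R 0 + d1 * R 1 - δ 3 * t), δ 3, by
        linear_combination h - R 0 * hd0 - R 1 * hd1⟩
    obtain ⟨W, hW⟩ : ∃ W, W = δ 2 * x + δ 3 * t := ⟨_, rfl⟩
    refine ⟨![R 0 - Int.gcdA (δ 0) (δ 1) * W, R 1 - Int.gcdB (δ 0) (δ 1) * W, R 2 + e * x,
      R 3 + e * t], ?_, a, b, ?_⟩
    · simp only [Matrix.cons_val_zero, Matrix.cons_val_one, Matrix.cons_val]
      linear_combination h + W * hb - e * hW
    · simp only [Matrix.cons_val]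
      linear_combination hab

end Pool.Agent.Lib.MP_efa98f_al
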