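import Pool.Agent.Lib.MP_efa98f_al.FiveT2

namespace Pool.Agent.Lib.MP_efa98f_al

open Matrix

/-- Choosing `k''` and `γ`. -/
theorem T_step1 (x y : Fin 4 → ℤ) (z0 z1 k0 k1 v0 v1 : ℤ) (hz : z0 * k1 - z1 * k0 = 1)
    (i0 j0 : Fin 4) (hD : x i0 * y j0 - x j0 * y i0 ≠ 0)
    (hprime : ∀ p : ℕ, p.Prime → ¬ ((∀ i, (p : ℤ) ∣ x i) ∧ ∀ i, (p : ℤ) ∣ y i)) :
    ∃ (L0 L1 γ : ℤ) (r : Fin 4 → ℤ), z0 * L1 - z1 * L0 = 1 ∧
      (∑ k : Fin 4, x k * r k) + γ * L0 = v0 ∧ (∑ k : Fin 4, y k * r k) + γ * L1 = v1 := by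
  obtain ⟨D, hDe⟩ : ∃ D, D = x i0 * y j0 - x j0 * y i0 := ⟨_, rfl⟩
  rw [← hDe] at hD
  obtain ⟨Z, hZ⟩ := exists_shift_vec (k := 5) (Fin.snoc (fun i : Fin 4 => x i * z1 - y i * z0) 0)
    (Fin.snoc (fun i : Fin 4 => -(x i * k1 - y i * k0)) (-D)) D hD (by
      intro p _ Z h
      have := h (Fin.last 4)
      rw [Fin.snoc_last, Fin.snoc_last] at this
      simpa using this) (by
      rintro p hp ⟨h1, h2⟩
      apply hprime p hp
      constructor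
      · intro i
        have a1 := h1 i.castSucc
        have a2 := h2 i.castSucc
        rw [Fin.snoc_castSucc] at a1 a2
        have := dvd_add ((a2.mul_left (-z0))) (a1.mul_left (-k0))
        have e : -z0 * -(x i * k1 - y i * k0) + -k0 * (x i * z1 - y i * z0) = x i := by
          linear_combination x i * hz
        rwa [e] at this
      · intro i
        have a1 := h1 i.castSucc
        have a2 := h2 i.castSucc
        rw [Fin.snoc_castSucc] at a1 a2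
        have := dvd_add ((a2.mul_left (-z1))) (a1.mul_left (-k1))
        have e : -z1 * -(x i * k1 - y i * k0) + -k1 * (x i * z1 - y i * z0) = y i := by
          linear_combination y i * hz
        rwa [e] at this)
  obtain ⟨L0, hL0⟩ : ∃ L0, L0 = k0 + Z * z0 := ⟨_, rfl⟩
  obtain ⟨L1, hL1⟩ : ∃ L1, L1 = k1 + Z * z1 := ⟨_, rfl⟩
  have hL : z0 * L1 - z1 * L0 = 1 := by rw [hL0, hL1]; linear_combination hz
  obtain ⟨u, hu⟩ := unimod_of_primes _ hZ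
  rw [dotProduct, Fin.sum_univ_castSucc] at hu
  simp only [Fin.snoc_castSucc, Fin.snoc_last] at hu
  have hu' : (∑ k : Fin 4, x k * u k.castSucc) * L1 - (∑ k : Fin 4, y k * u k.castSucc) * L0 +
      u (Fin.last 4) * D = 1 := by
    rw [← hu, Finset.sum_mul, Finset.sum_mul, ← Finset.sum_sub_distrib]
    congr 1
    · refine Finset.sum_congr rfl fun k _ => ?_
      rw [hL0, hL1]; ring
    · ring
  obtain ⟨Ux, hUx⟩ : ∃ Ux, Ux = ∑ k : Fin 4, x k * u k.castSucc := ⟨_, rfl⟩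
  obtain ⟨Uy, hUy⟩ : ∃ Uy, Uy = ∑ k : Fin 4, y k * u k.castSucc := ⟨_, rfl⟩
  obtain ⟨u4, hu4⟩ : ∃ u4, u4 = u (Fin.last 4) := ⟨_, rfl⟩
  rw [← hUx, ← hUy, ← hu4] at hu'
  obtain ⟨r, hr⟩ : ∃ r : Fin 4 → ℤ, r = fun j => u j.castSucc * (v0 * L1 - v1 * L0) +
    ((if j = i0 then u4 * (v0 * y j0 - v1 * x j0) else 0) +
     (if j = j0 then u4 * (x i0 * v1 - y i0 * v0) else 0)) := ⟨_, rfl⟩
  have hs : ∀ X : Fin 4 → ℤ, ∑ k : Fin 4, X k * r k =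
      (∑ k : Fin 4, X k * u k.castSucc) * (v0 * L1 - v1 * L0) +
      (X i0 * (u4 * (v0 * y j0 - v1 * x j0)) + X j0 * (u4 * (x i0 * v1 - y i0 * v0))) := by
    intro X
    rw [hr]
    simp only [mul_add, Finset.sum_add_distrib, mul_ite, mul_zero, Finset.sum_ite_eq',
      Finset.mem_univ, if_true]
    rw [Finset.sum_mul]
    congr 1
    exact Finset.sum_congr rfl fun k _ => by ring
  refine ⟨L0, L1, Ux * v1 - Uy * v0, r, hL, ?_, ?_⟩
  · rw [hs, ← hUx]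
    linear_combination v0 * hu' - v0 * u4 * hDe
  · rw [hs, ← hUy]
    linear_combination v1 * hu' - v1 * u4 * hDe

/-- The choice of the second pair of vectors. -/
theorem T_step2 (x y r m0 m1 : Fin 4 → ℤ) (π1 π2 z0 z1 L0 L1 γ h0 h1 : ℤ)
    (hL : z0 * L1 - z1 * L0 = 1)
    (htx : x 0 * z0 + x 1 * z1 = 0) (hty : y 0 * z0 + y 1 * z1 = 0)
    (hx : x 0 * r 0 + x 1 * r 1 + x 2 * r 2 + x 3 * r 3 + γ * L0 = z0 - π1)
    (hy : y 0 * r 0 + y 1 * r 1 + y 2 * r 2 + y 3 * r 3 + γ * L1 = z1 - π2)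
    (e00 : x 0 * m0 0 + x 1 * m0 1 + x 2 * m0 2 + x 3 * m0 3 + π1 * h0 = 1)
    (e01 : x 0 * m1 0 + x 1 * m1 1 + x 2 * m1 2 + x 3 * m1 3 + π1 * h1 = 0)
    (e10 : y 0 * m0 0 + y 1 * m0 1 + y 2 * m0 2 + y 3 * m0 3 + π2 * h0 = 0)
    (e11 : y 0 * m1 0 + y 1 * m1 1 + y 2 * m1 2 + y 3 * m1 3 + π2 * h1 = 1) :
    ∃ (K0 K1 : ℤ) (c1 r2 c2 : Fin 4 → ℤ),
      K0 = π1 + (x 0 * r 0 + x 1 * r 1 + x 2 * r 2 + x 3 * r 3) ∧
      K1 = π2 + (y 0 * r 0 + y 1 * r 1 + y 2 * r 2 + y 3 * r 3) ∧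
      L0 = K0 + ((x 0 + K0 * c1 0) * r2 0 + (x 1 + K0 * c1 1) * r2 1 +
        (x 2 + K0 * c1 2) * r2 2 + (x 3 + K0 * c1 3) * r2 3) ∧
      L1 = K1 + ((y 0 + K1 * c1 0) * r2 0 + (y 1 + K1 * c1 1) * r2 1 +
        (y 2 + K1 * c1 2) * r2 2 + (y 3 + K1 * c1 3) * r2 3) ∧
      x 0 + K0 * c1 0 + L0 * c2 0 = 1 ∧ x 1 + K0 * c1 1 + L0 * c2 1 = 0 ∧
      y 0 + K1 * c1 0 + L1 * c2 0 = 0 ∧ y 1 + K1 * c1 1 + L1 * c2 1 = 1 ∧
      c1 0 * z0 + c1 1 * z1 = 1 ∧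
      c2 0 * (z0 + r2 0) + c2 1 * (z1 + r2 1) + c2 2 * r2 2 + c2 3 * r2 3 = -2 := by
  obtain ⟨K0, hK0⟩ : ∃ K0, K0 = z0 - γ * L0 := ⟨_, rfl⟩
  obtain ⟨K1, hK1⟩ : ∃ K1, K1 = z1 - γ * L1 := ⟨_, rfl⟩
  have hK0' : K0 = π1 + (x 0 * r 0 + x 1 * r 1 + x 2 * r 2 + x 3 * r 3) := by
    linear_combination hK0 - hx
  have hK1' : K1 = π2 + (y 0 * r 0 + y 1 * r 1 + y 2 * r 2 + y 3 * r 3) := by
    linear_combination hK1 - hy
  have hKL : K0 * L1 - K1 * L0 = 1 := by rw [hK0, hK1]; linear_combination hL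
  obtain ⟨r2, hr2, a, b, hab⟩ := adj_lemma (fun j => K0 * y j - K1 * x j)
    (fun j => L1 * (m1 j - r j * h1) + L0 * (m0 j - r j * h0)) (by
      linear_combination L1 * (K0 * e11 - K1 * e01) + L0 * (K0 * e10 - K1 * e00) + hKL +
        (L1 * h1 + L0 * h0) * (K0 * hK1' - K1 * hK0'))
  obtain ⟨Sx, hSx⟩ : ∃ Sx, Sx = x 0 * r2 0 + x 1 * r2 1 + x 2 * r2 2 + x 3 * r2 3 := ⟨_, rfl⟩
  obtain ⟨Sy, hSy⟩ : ∃ Sy, Sy = y 0 * r2 0 + y 1 * r2 1 + y 2 * r2 2 + y 3 * r2 3 := ⟨_, rfl⟩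
  have hS : K0 * Sy - K1 * Sx = 1 := by rw [hSx, hSy]; linear_combination hr2
  obtain ⟨l, hl⟩ : ∃ l, l = Sx * L1 - Sy * L0 := ⟨_, rfl⟩
  have hSx' : Sx = L0 + l * K0 := by
    rw [hl]; linear_combination -Sx * hKL + L0 * hS
  have hSy' : Sy = L1 + l * K1 := by
    rw [hl]; linear_combination -Sy * hKL + L1 * hS
  obtain ⟨p0, hp0⟩ : ∃ p0, p0 = (1 - x 0) * L1 + y 0 * L0 := ⟨_, rfl⟩
  obtain ⟨p1, hp1⟩ : ∃ p1, p1 = -x 1 * L1 - (1 - y 1) * L0 := ⟨_, rfl⟩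
  obtain ⟨q0, hq0⟩ : ∃ q0, q0 = -K0 * y 0 - K1 * (1 - x 0) := ⟨_, rfl⟩
  obtain ⟨q1, hq1⟩ : ∃ q1, q1 = K0 * (1 - y 1) + K1 * x 1 := ⟨_, rfl⟩
  obtain ⟨s, hs⟩ : ∃ s, s = -1 - l - p0 * r2 0 - p1 * r2 1 := ⟨_, rfl⟩
  obtain ⟨s', hs'⟩ : ∃ s', s' = -2 - γ - q0 * r2 0 - q1 * r2 1 := ⟨_, rfl⟩
  refine ⟨K0, K1, ![p0, p1, a * s, b * s], r2, ![q0, q1, a * s', b * s'], hK0', hK1', ?_, ?_, ?_,
    ?_, ?_, ?_, ?_, ?_⟩
  · simp only [Matrix.cons_val_zero, Matrix.cons_val_one, Matrix.cons_val]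
    linear_combination hSx - hSx' - K0 * s * hab - K0 * hs
  · simp only [Matrix.cons_val_zero, Matrix.cons_val_one, Matrix.cons_val]
    linear_combination hSy - hSy' - K1 * s * hab - K1 * hs
  · simp only [Matrix.cons_val_zero, Matrix.cons_val_one, Matrix.cons_val]
    rw [hp0, hq0]; linear_combination (1 - x 0) * hKL
  · simp only [Matrix.cons_val_zero, Matrix.cons_val_one, Matrix.cons_val]
    rw [hp1, hq1]; linear_combination -x 1 * hKL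
  · simp only [Matrix.cons_val_zero, Matrix.cons_val_one, Matrix.cons_val]
    rw [hp0, hq0]; linear_combination -y 0 * hKL
  · simp only [Matrix.cons_val_zero, Matrix.cons_val_one, Matrix.cons_val]
    rw [hp1, hq1]; linear_combination (1 - y 1) * hKL
  · simp only [Matrix.cons_val_zero, Matrix.cons_val_one, Matrix.cons_val]
    rw [hp0, hp1]; linear_combination hL - L1 * htx + L0 * hty
  · simp only [Matrix.cons_val_zero, Matrix.cons_val_one, Matrix.cons_val]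
    have : q0 * z0 + q1 * z1 = γ := by
      rw [hq0, hq1]
      have : K0 * z1 - K1 * z0 = γ := by rw [hK0, hK1]; linear_combination γ * hL
      linear_combination this + K1 * htx - K0 * hty
    linear_combination this + s' * hab + hs'

/-- The splitting with upper left block of `g⁻¹` the identity. -/
theorem T_finish (M : SLn 5) (c2 : M.1 2 4 = 0) (c3 : M.1 3 4 = 0) (c4 : M.1 4 4 = 0)
    (L0 L1 γ : ℤ) (r : Fin 4 → ℤ) (hL : M.1 0 4 * L1 - M.1 1 4 * L0 = 1)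
    (hr0 : (∑ k : Fin 4, (M⁻¹).1 0 k.castSucc * r k) + γ * L0 = M.1 0 4 - (M⁻¹).1 0 4)
    (hr1 : (∑ k : Fin 4, (M⁻¹).1 1 k.castSucc * r k) + γ * L1 = M.1 1 4 - (M⁻¹).1 1 4) :
    Six M := by
  obtain ⟨P, hP⟩ : ∃ P, P = M⁻¹ := ⟨_, rfl⟩
  rw [← hP] at hr0 hr1
  have hPM : P.1 * M.1 = 1 := by rw [hP, ← SL_val_mul, inv_mul_cancel]; rfl
  have ent : ∀ i j : Fin 5, (∑ k : Fin 4, P.1 i k.castSucc * M.1 k.castSucc j) +
      P.1 i 4 * M.1 4 j = (1 : Matrix (Fin 5) (Fin 5) ℤ) i j := by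
    intro i j
    rw [← hPM, Matrix.mul_apply]
    exact (Fin.sum_univ_castSucc (fun k : Fin 5 => P.1 i k * M.1 k j)).symm
  obtain ⟨x, hx⟩ : ∃ x : Fin 4 → ℤ, x = fun j => P.1 0 j.castSucc := ⟨_, rfl⟩
  obtain ⟨y, hy⟩ : ∃ y : Fin 4 → ℤ, y = fun j => P.1 1 j.castSucc := ⟨_, rfl⟩
  have e0 : ∀ j : Fin 5, (∑ k : Fin 4, x k * M.1 k.castSucc j) + P.1 0 4 * M.1 4 j =
      if j = 0 then 1 else 0 := by
    intro j
    rw [hx, ent, Matrix.one_apply]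
    simp only [eq_comm]
  have e1 : ∀ j : Fin 5, (∑ k : Fin 4, y k * M.1 k.castSucc j) + P.1 1 4 * M.1 4 j =
      if j = 1 then 1 else 0 := by
    intro j
    rw [hy, ent, Matrix.one_apply]
    simp only [eq_comm]
  have htx : x 0 * M.1 0 4 + x 1 * M.1 1 4 = 0 := by
    have := e0 4
    rw [if_neg (by decide), Fin.sum_univ_four] at this
    change x 0 * M.1 0 4 + x 1 * M.1 1 4 + x 2 * M.1 2 4 + x 3 * M.1 3 4 +
      P.1 0 4 * M.1 4 4 = 0 at this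
    rw [c2, c3, c4] at this
    linear_combination this
  have hty : y 0 * M.1 0 4 + y 1 * M.1 1 4 = 0 := by
    have := e1 4
    rw [if_neg (by decide), Fin.sum_univ_four] at this
    change y 0 * M.1 0 4 + y 1 * M.1 1 4 + y 2 * M.1 2 4 + y 3 * M.1 3 4 +
      P.1 1 4 * M.1 4 4 = 0 at this
    rw [c2, c3, c4] at this
    linear_combination this
  have e00 := e0 0
  have e01 := e0 1
  have e10 := e1 0
  have e11 := e1 1
  rw [if_pos rfl, Fin.sum_univ_four] at e00 e11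
  rw [if_neg (by decide), Fin.sum_univ_four] at e01 e10
  rw [Fin.sum_univ_four] at hr0 hr1
  obtain ⟨K0, K1, c1, r2, c2', hK0, hK1, hL0, hL1, t00, t01, t10, t11, hc1, hc2⟩ :=
    T_step2 x y r (fun k => M.1 k.castSucc 0) (fun k => M.1 k.castSucc 1) (P.1 0 4) (P.1 1 4)
      (M.1 0 4) (M.1 1 4) L0 L1 γ (M.1 4 0) (M.1 4 1) hL htx hty (by rw [hx]; exact hr0)
      (by rw [hy]; exact hr1) e00 e01 e10 e11
  obtain ⟨K, hK⟩ : ∃ K : Fin 4 → ℤ, K = fun i => (M⁻¹).1 i.castSucc (Fin.last 4) +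
      ∑ k : Fin 4, (M⁻¹).1 i.castSucc k.castSucc * r k := ⟨_, rfl⟩
  obtain ⟨K2, hK2⟩ : ∃ K2 : Fin 4 → ℤ, K2 = fun i => K i +
      ∑ k : Fin 4, ((M⁻¹).1 i.castSucc k.castSucc + K i * c1 k) * r2 k := ⟨_, rfl⟩
  obtain ⟨p, g, c, hM, hg⟩ := four_one M r c1 r2 c2' (by
    rw [corner_formula M r c1 r2 c2' ![M.1 0 4, M.1 1 4, 0, 0] (-1) (by
      intro k
      have : M.1 (Fin.last 4) (Fin.last 4) = 0 := c4
      rw [this, mul_zero, sub_zero]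
      fin_cases k
      · rfl
      · rfl
      · exact c2.symm
      · exact c3.symm) (by
      have : M.1 (Fin.last 4) (Fin.last 4) = 0 := c4
      rw [this]
      simp only [Matrix.cons_val_zero, Matrix.cons_val_one, Matrix.cons_val]
      linear_combination hc1)]
    simp only [Matrix.cons_val_zero, Matrix.cons_val_one, Matrix.cons_val]
    linear_combination -hc2) K K2 (fun i => by rw [hK]) (fun i => by rw [hK2])
  have K0e : K 0 = K0 := by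
    rw [hK, hK0, hx, hP]
    simp only [Fin.sum_univ_four]
    rfl
  have K1e : K 1 = K1 := by
    rw [hK, hK1, hy, hP]
    simp only [Fin.sum_univ_four]
    rfl
  have K20e : K2 0 = L0 := by
    rw [hK2]
    simp only [K0e, Fin.sum_univ_four]
    rw [hL0, hx, hP]
    rfl
  have K21e : K2 1 = L1 := by
    rw [hK2]
    simp only [K1e, Fin.sum_univ_four]
    rw [hL1, hy, hP]
    rfl
  rw [hx, hP] at t00 t01
  rw [hy, hP] at t11
  have g00 : (g⁻¹).1 0 0 = 1 := by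
    rw [hg, K0e, K20e]; exact t00
  have g01 : (g⁻¹).1 0 1 = 0 := by
    rw [hg, K0e, K20e]; exact t01
  have g11 : (g⁻¹).1 1 1 = 1 := by
    rw [hg, K1e, K21e]; exact t11
  rw [hM]
  exact merge_blk (six_T1 g g00 (by rw [g01, g11]; ring))

/-- The case where row five is not supported on the first two columns, while the fifth column
is supported on the first two rows. -/
theorem five_T (M : SLn 5) (hrow : ∃ j : Fin 5, 2 ≤ j ∧ M.1 4 j ≠ 0)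
    (hcol : ∀ i : Fin 5, 2 ≤ i → M.1 i 4 = 0) : Six M := by
  obtain ⟨P, hP⟩ : ∃ P, P = M⁻¹ := ⟨_, rfl⟩
  have hPM : P.1 * M.1 = 1 := by rw [hP, ← SL_val_mul, inv_mul_cancel]; rfl
  have ent : ∀ i j : Fin 5, (∑ k : Fin 4, P.1 i k.castSucc * M.1 k.castSucc j) +
      P.1 i 4 * M.1 4 j = (1 : Matrix (Fin 5) (Fin 5) ℤ) i j := by
    intro i j
    rw [← hPM, Matrix.mul_apply]
    exact (Fin.sum_univ_castSucc (fun k : Fin 5 => P.1 i k * M.1 k j)).symm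
  obtain ⟨x, hx⟩ : ∃ x : Fin 4 → ℤ, x = fun j => P.1 0 j.castSucc := ⟨_, rfl⟩
  obtain ⟨y, hy⟩ : ∃ y : Fin 4 → ℤ, y = fun j => P.1 1 j.castSucc := ⟨_, rfl⟩
  have e0 : ∀ j : Fin 5, (∑ k : Fin 4, x k * M.1 k.castSucc j) + P.1 0 4 * M.1 4 j =
      if j = 0 then 1 else 0 := by
    intro j
    rw [hx, ent, Matrix.one_apply]
    simp only [eq_comm]
  have e1 : ∀ j : Fin 5, (∑ k : Fin 4, y k * M.1 k.castSucc j) + P.1 1 4 * M.1 4 j =
      if j = 1 then 1 else 0 := by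
    intro j
    rw [hy, ent, Matrix.one_apply]
    simp only [eq_comm]
  have c2 : M.1 2 4 = 0 := hcol 2 (by decide)
  have c3 : M.1 3 4 = 0 := hcol 3 (by decide)
  have c4 : M.1 4 4 = 0 := hcol 4 (by decide)
  obtain ⟨i0, j0, hD⟩ := minor_ne x y _ _ _ e0 e1 hrow
  have hz : M.1 0 4 * P.1 4 0 - M.1 1 4 * (-P.1 4 1) = 1 := by
    have := ent 4 4
    rw [Matrix.one_apply_eq, Fin.sum_univ_four] at this
    change P.1 4 0 * M.1 0 4 + P.1 4 1 * M.1 1 4 + P.1 4 2 * M.1 2 4 + P.1 4 3 * M.1 3 4 +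
      P.1 4 4 * M.1 4 4 = 1 at this
    rw [c2, c3, c4] at this
    linear_combination this
  obtain ⟨L0, L1, γ, r, hL, hr0, hr1⟩ := T_step1 x y (M.1 0 4) (M.1 1 4) (-P.1 4 1) (P.1 4 0)
    (M.1 0 4 - P.1 0 4) (M.1 1 4 - P.1 1 4) hz i0 j0 hD (prime_xy x y _ _ _ e0 e1)
  rw [hx, hP] at hr0
  rw [hy, hP] at hr1
  exact T_finish M c2 c3 c4 L0 L1 γ r hL hr0 hr1

/-- The case where row five and column five are supported in the corners. -/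
theorem five_F2 (M : SLn 5) (hrow : ∀ j : Fin 5, 1 ≤ j → M.1 4 j = 0)
    (hcol : ∀ i : Fin 5, 1 ≤ i → M.1 i 4 = 0) : Six M := by
  obtain ⟨P, hP⟩ : ∃ P, P = M⁻¹ := ⟨_, rfl⟩
  have hPM : P.1 * M.1 = 1 := by rw [hP, ← SL_val_mul, inv_mul_cancel]; rfl
  have hMP : M.1 * P.1 = 1 := by rw [hP, ← SL_val_mul, mul_inv_cancel]; rfl
  have ent : ∀ i j : Fin 5, P.1 i 0 * M.1 0 j + P.1 i 1 * M.1 1 j + P.1 i 2 * M.1 2 j +
      P.1 i 3 * M.1 3 j + P.1 i 4 * M.1 4 j = (1 : Matrix (Fin 5) (Fin 5) ℤ) i j := by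
    intro i j
    rw [← hPM, Matrix.mul_apply, Fin.sum_univ_five]
  have ent' : ∀ i j : Fin 5, M.1 i 0 * P.1 0 j + M.1 i 1 * P.1 1 j + M.1 i 2 * P.1 2 j +
      M.1 i 3 * P.1 3 j + M.1 i 4 * P.1 4 j = (1 : Matrix (Fin 5) (Fin 5) ℤ) i j := by
    intro i j
    rw [← hMP, Matrix.mul_apply, Fin.sum_univ_five]
  have m41 : M.1 4 1 = 0 := hrow 1 (by decide)
  have m42 : M.1 4 2 = 0 := hrow 2 (by decide)
  have m43 : M.1 4 3 = 0 := hrow 3 (by decide)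
  have m44 : M.1 4 4 = 0 := hrow 4 (by decide)
  have m14 : M.1 1 4 = 0 := hcol 1 (by decide)
  have m24 : M.1 2 4 = 0 := hcol 2 (by decide)
  have m34 : M.1 3 4 = 0 := hcol 3 (by decide)
  have hL : M.1 0 4 * P.1 4 0 = 1 := by
    have := ent 4 4
    rw [Matrix.one_apply_eq, m14, m24, m34, m44] at this
    linear_combination this
  have h04 : M.1 4 0 * P.1 0 4 = 1 := by
    have := ent' 4 4
    rw [Matrix.one_apply_eq, m41, m42, m43, m44] at this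
    linear_combination this
  have h0j : ∀ j : Fin 5, (4 : Fin 5) ≠ j → P.1 0 j = 0 := by
    intro j hj
    have := ent' 4 j
    rw [Matrix.one_apply_ne hj, m41, m42, m43, m44] at this
    linear_combination P.1 0 4 * this - P.1 0 j * h04
  have e11 := ent 1 1
  rw [Matrix.one_apply_eq, m41] at e11
  obtain ⟨T, hT⟩ : ∃ T, T = -P.1 1 4 - (M.1 0 4 - P.1 0 4) * P.1 4 0 := ⟨_, rfl⟩
  refine T_finish M m24 m34 m44 1 (P.1 4 0) (M.1 0 4 - P.1 0 4) (fun k => M.1 k.castSucc 1 * T)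
    ?_ ?_ ?_
  · rw [m14]; linear_combination hL
  · rw [Fin.sum_univ_four, ← hP]
    change P.1 0 0 * (M.1 0 1 * T) + P.1 0 1 * (M.1 1 1 * T) + P.1 0 2 * (M.1 2 1 * T) +
      P.1 0 3 * (M.1 3 1 * T) + (M.1 0 4 - P.1 0 4) * 1 = M.1 0 4 - P.1 0 4
    rw [h0j 0 (by decide), h0j 1 (by decide), h0j 2 (by decide), h0j 3 (by decide)]
    ring
  · rw [Fin.sum_univ_four, ← hP]
    change P.1 1 0 * (M.1 0 1 * T) + P.1 1 1 * (M.1 1 1 * T) + P.1 1 2 * (M.1 2 1 * T) +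
      P.1 1 3 * (M.1 3 1 * T) + (M.1 0 4 - P.1 0 4) * P.1 4 0 = M.1 1 4 - P.1 1 4
    rw [m14]
    linear_combination T * e11 + hT

end Pool.Agent.Lib.MP_efa98f_al
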