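import Pool.Agent.Lib.MP_efa98f_al.FourCons

namespace Pool.Agent.Lib.MP_efa98f_al

open Matrix

/-- First step: `B - X D` with a primitive column vector `(B - X D) y`. -/
theorem prep_col (B D1 Y Z : M2) (e : ℤ)
    (hc : ∃ r1 r2 r3 r4 : ℤ, r1 * D1 0 0 + r2 * D1 0 1 + r3 * D1 1 0 + r4 * D1 1 1 = 1)
    (hYZ : Y * B + Z * (e • D1) = 1) : ∃ (X0 : M2) (u0 u1 w0 w1 r0 r1 : ℤ),
      w0 = u0 * D1 0 0 + u1 * D1 1 0 ∧ w1 = u0 * D1 0 1 + u1 * D1 1 1 ∧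
      r0 * (-(B - X0 * (e • D1)) 0 0 * w1 + (B - X0 * (e • D1)) 0 1 * w0) +
        r1 * (-(B - X0 * (e • D1)) 1 0 * w1 + (B - X0 * (e • D1)) 1 1 * w0) = 1 := by
  obtain ⟨u0, u1, v0, v1, huv⟩ := prim_pair _ _ _ _ hc
  have e00 := congrFun (congrFun hYZ 0) 0
  have e01 := congrFun (congrFun hYZ 0) 1
  have e10 := congrFun (congrFun hYZ 1) 0
  have e11 := congrFun (congrFun hYZ 1) 1
  simp only [Matrix.add_apply, Matrix.mul_apply, Fin.sum_univ_two, Matrix.smul_apply, smul_eq_mul,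
    Matrix.one_apply_eq] at e00 e11
  simp only [Matrix.add_apply, Matrix.mul_apply, Fin.sum_univ_two, Matrix.smul_apply, smul_eq_mul,
    Matrix.one_apply_ne (show (0 : Fin 2) ≠ 1 by decide),
    Matrix.one_apply_ne (show (1 : Fin 2) ≠ 0 by decide)] at e01 e10
  obtain ⟨w0, hw0⟩ : ∃ w0, w0 = u0 * D1 0 0 + u1 * D1 1 0 := ⟨_, rfl⟩
  obtain ⟨w1, hw1⟩ : ∃ w1, w1 = u0 * D1 0 1 + u1 * D1 1 1 := ⟨_, rfl⟩
  obtain ⟨m, hm⟩ : ∃ m, m = D1 0 0 * D1 1 1 - D1 0 1 * D1 1 0 := ⟨_, rfl⟩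
  obtain ⟨ξ, r, hr⟩ := stable_range (k := 0)
    ![-v1 * Y 0 0 + v0 * Y 1 0, -v1 * Y 0 1 + v0 * Y 1 1]
    ![-B 0 0 * w1 + B 0 1 * w0, -B 1 0 * w1 + B 1 1 * w0]
    (-(-v1 * Z 0 0 + v0 * Z 1 0) * u1 + (-v1 * Z 0 1 + v0 * Z 1 1) * u0) (e * m) (by
      rw [dotProduct, Fin.sum_univ_two]
      simp only [Matrix.cons_val_zero, Matrix.cons_val_one]
      subst hw0 hw1 hm
      linear_combination (-v1) * (-(u0 * D1 0 1 + u1 * D1 1 1)) * e00 +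
        (-v1) * (u0 * D1 0 0 + u1 * D1 1 0) * e01 + v0 * (-(u0 * D1 0 1 + u1 * D1 1 1)) * e10 +
        v0 * (u0 * D1 0 0 + u1 * D1 1 0) * e11 + huv)
  rw [dotProduct, Fin.sum_univ_two] at hr
  simp only [Matrix.cons_val_zero, Matrix.cons_val_one, Pi.sub_apply, Pi.smul_apply,
    smul_eq_mul] at hr
  obtain ⟨t0, ht0⟩ : ∃ t0, t0 = D1 0 0 * v0 + D1 0 1 * v1 := ⟨_, rfl⟩
  obtain ⟨t1, ht1⟩ : ∃ t1, t1 = D1 1 0 * v0 + D1 1 1 * v1 := ⟨_, rfl⟩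
  refine ⟨!![-ξ 0 * t1, ξ 0 * t0; -ξ 1 * t1, ξ 1 * t0], u0, u1, w0, w1, r 0, r 1, hw0, hw1, ?_⟩
  simp only [Matrix.sub_apply, Matrix.mul_apply, Fin.sum_univ_two, Matrix.smul_apply,
    smul_eq_mul, Matrix.of_apply, Matrix.cons_val_zero, Matrix.cons_val_one,
    Matrix.cons_val', Matrix.cons_val_fin_one]
  subst hw0 hw1 hm ht0 ht1
  linear_combination hr - e * (D1 0 0 * D1 1 1 - D1 0 1 * D1 1 0) * (r 0 * ξ 0 + r 1 * ξ 1) * huv

/-- The content of an arbitrary matrix. -/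
theorem exists_content' (D : M2) : ∃ (e : ℤ) (D1 : M2), D = e • D1 ∧
    ∃ r1 r2 r3 r4 : ℤ, r1 * D1 0 0 + r2 * D1 0 1 + r3 * D1 1 0 + r4 * D1 1 1 = 1 := by
  by_cases hD : D = 0
  · refine ⟨0, 1, by rw [hD, zero_smul], 1, 0, 0, 0, ?_⟩
    rw [Matrix.one_apply_eq]; ring
  · obtain ⟨e, D1, _, h1, h2⟩ := exists_content D hD
    exact ⟨e, D1, h1, h2⟩

theorem det_dvd_of_left_inv (B D1 Y Z : M2) (e : ℤ) (hYZ : Y * B + Z * (e • D1) = 1) :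
    ∃ k, Y.det * B.det = 1 + e * k := by
  have h : Y * B = 1 - e • (Z * D1) := by
    rw [← hYZ, Matrix.mul_smul]; abel
  rw [← Matrix.det_mul, h, Matrix.det_fin_two]
  simp only [Matrix.sub_apply, Matrix.smul_apply, smul_eq_mul, Matrix.one_apply_eq,
    Matrix.one_apply_ne (show (0 : Fin 2) ≠ 1 by decide),
    Matrix.one_apply_ne (show (1 : Fin 2) ≠ 0 by decide)]
  exact ⟨-(Z * D1) 1 1 - (Z * D1) 0 0 + e * ((Z * D1) 0 0 * (Z * D1) 1 1) -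
    e * ((Z * D1) 0 1 * (Z * D1) 1 0), by ring⟩

/-- Second step: odd determinant and primitive first row, starting from a primitive column with
first entry nonzero. -/
theorem prep_det (B' D1 Y Z : M2) (e u0 u1 w0 w1 r0 r1 : ℤ)
    (hYZ : Y * B' + Z * (e • D1) = 1)
    (hw0 : w0 = u0 * D1 0 0 + u1 * D1 1 0) (hw1 : w1 = u0 * D1 0 1 + u1 * D1 1 1)
    (hr : r0 * (-B' 0 0 * w1 + B' 0 1 * w0) + r1 * (-B' 1 0 * w1 + B' 1 1 * w0) = 1)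
    (hne : -B' 0 0 * w1 + B' 0 1 * w0 ≠ 0) :
    ∃ X : M2, (B' - X * (e • D1)).det % 2 = 1 ∧
      IsCoprime ((B' - X * (e • D1)) 0 0) ((B' - X * (e • D1)) 0 1) := by
  obtain ⟨η, hη⟩ : ∃ η, η = -B' 0 0 * w1 + B' 0 1 * w0 := ⟨_, rfl⟩
  rw [← hη] at hne hr
  obtain ⟨k1, hk1⟩ := det_dvd_of_left_inv B' D1 Y Z e hYZ
  obtain ⟨k, hk⟩ := exists_coprime_shift B'.det e (2 * η) (mul_ne_zero two_ne_zero hne)
    ⟨Y.det, -k1, 0, by linear_combination hk1⟩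
  obtain ⟨M, hM⟩ : ∃ M : M2,
      M = B' - !![k * r1 * u0, k * r1 * u1; -k * r0 * u0, -k * r0 * u1] * (e • D1) := ⟨_, rfl⟩
  have m00 := congrFun (congrFun hM 0) 0
  have m01 := congrFun (congrFun hM 0) 1
  have m10 := congrFun (congrFun hM 1) 0
  have m11 := congrFun (congrFun hM 1) 1
  simp only [Matrix.sub_apply, Matrix.mul_apply, Fin.sum_univ_two, Matrix.smul_apply,
    smul_eq_mul, Matrix.of_apply, Matrix.cons_val_zero, Matrix.cons_val_one,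
    Matrix.cons_val', Matrix.cons_val_fin_one] at m00 m01 m10 m11
  have hdet : M.det = B'.det - e * k := by
    rw [Matrix.det_fin_two, Matrix.det_fin_two, m00, m01, m10, m11]
    rw [hη] at hr
    subst hw0 hw1
    linear_combination (-e * k) * hr
  have hη2 : -M 0 0 * w1 + M 0 1 * w0 = η := by
    rw [m00, m01, hη]
    subst hw0 hw1
    ring
  refine ⟨!![k * r1 * u0, k * r1 * u1; -k * r0 * u0, -k * r0 * u1], ?_, ?_⟩
  · rw [← hM, hdet]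
    have h2 : IsCoprime (B'.det - e * k) 2 := hk.of_mul_right_left
    obtain ⟨α, β, hαβ⟩ := h2
    rcases Int.emod_two_eq_zero_or_one (B'.det - e * k) with h0 | h0
    · exfalso
      obtain ⟨t, ht⟩ := Int.dvd_of_emod_eq_zero h0
      rw [ht] at hαβ
      have h3 : 2 * (α * t + β) = 1 := by linear_combination hαβ
      omega
    · exact h0
  · rw [← hM]
    have h2 : IsCoprime (B'.det - e * k) η := hk.of_mul_right_right
    rw [← hdet, ← hη2, Matrix.det_fin_two] at h2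
    obtain ⟨α, β, hαβ⟩ := h2
    exact ⟨α * M 1 1 - β * w1, -α * M 1 0 + β * w0, by linear_combination hαβ⟩

/-- The choice of `X`, after one outer letter. -/
theorem prep_shift (B D Y Z : M2) (hYZ : Y * B + Z * D = 1) :
    ∃ (x : ℤ) (X : M2), (uu x * B - X * D).det % 2 = 1 ∧
      IsCoprime ((uu x * B - X * D) 0 0) ((uu x * B - X * D) 0 1) := by
  obtain ⟨e, D1, hD, hc⟩ := exists_content' D
  subst hD
  obtain ⟨X0, u0, u1, w0, w1, r0, r1, hw0, hw1, hr⟩ := prep_col B D1 Y Z e hc hYZ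
  obtain ⟨B', hB'⟩ : ∃ B' : M2, B' = B - X0 * (e • D1) := ⟨_, rfl⟩
  rw [← hB'] at hr
  have hYZ' : Y * B' + (Z + Y * X0) * (e • D1) = 1 := by
    rw [hB', ← hYZ]
    generalize e • D1 = D
    noncomm_ring
  by_cases hη : -B' 0 0 * w1 + B' 0 1 * w0 = 0
  · -- one letter
    have hr' : r1 * (-B' 1 0 * w1 + B' 1 1 * w0) = 1 := by
      linear_combination hr - r0 * hη
    have b00 : (uu 1 * B') 0 0 = B' 0 0 + B' 1 0 := by
      simp [Matrix.mul_apply, Fin.sum_univ_two]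
    have b01 : (uu 1 * B') 0 1 = B' 0 1 + B' 1 1 := by
      simp [Matrix.mul_apply, Fin.sum_univ_two]
    have b10 : (uu 1 * B') 1 0 = B' 1 0 := by
      simp [Matrix.mul_apply, Fin.sum_univ_two]
    have b11 : (uu 1 * B') 1 1 = B' 1 1 := by
      simp [Matrix.mul_apply, Fin.sum_univ_two]
    have hu : uu (-1) * uu 1 = 1 := by
      rw [uu_mul_uu]; simp [uu_zero]
    obtain ⟨X, h1, h2⟩ := prep_det (uu 1 * B') D1 (Y * uu (-1)) (Z + Y * X0) e u0 u1 w0 w1 0 r1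
      (by rw [mul_assoc, ← mul_assoc (uu (-1)), hu, one_mul]; exact hYZ') hw0 hw1
      (by rw [b00, b01, b10, b11]; linear_combination hr')
      (by
        rw [b00, b01]
        intro h0
        have h3 : -B' 1 0 * w1 + B' 1 1 * w0 = 0 := by linear_combination h0 - hη
        rw [h3, mul_zero] at hr'
        exact zero_ne_one hr')
    refine ⟨1, uu 1 * X0 + X, ?_⟩
    have e1 : uu 1 * B - (uu 1 * X0 + X) * (e • D1) = uu 1 * B' - X * (e • D1) := by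
      rw [hB']
      generalize e • D1 = D
      noncomm_ring
    rw [e1]
    exact ⟨h1, h2⟩
  · obtain ⟨X, h1, h2⟩ := prep_det B' D1 Y (Z + Y * X0) e u0 u1 w0 w1 r0 r1 hYZ' hw0 hw1 hr hη
    refine ⟨0, X0 + X, ?_⟩
    have e1 : uu 0 * B - (X0 + X) * (e • D1) = B' - X * (e • D1) := by
      rw [hB', uu_zero]
      generalize e • D1 = D
      noncomm_ring
    rw [e1]
    exact ⟨h1, h2⟩

/-- The letters `T = L(i) U(j)` and the element `Q`. -/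
theorem prep_TQ (M0 D Y Z : M2) (hl : M0.det ≠ 0)
    (hcop : IsCoprime (M0 0 0) (M0 0 1)) (hYZ : Y * M0 + Z * D = 1) :
    ∃ (i j : ℤ) (Q : SLn 2) (s : ℤ), M0 * (ll i * uu j) * Q⁻¹.1 = !![1, 0; s, M0.det] ∧
      IsCoprime ((Q.1 * (D * (ll i * uu j)) * Q⁻¹.1) 0 1) M0.det := by
  obtain ⟨a', b', hab⟩ := hcop
  have e00 := congrFun (congrFun hYZ 0) 0
  have e01 := congrFun (congrFun hYZ 0) 1
  have e10 := congrFun (congrFun hYZ 1) 0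
  have e11 := congrFun (congrFun hYZ 1) 1
  simp only [Matrix.add_apply, Matrix.mul_apply, Fin.sum_univ_two,
    Matrix.one_apply_eq] at e00 e11
  simp only [Matrix.add_apply, Matrix.mul_apply, Fin.sum_univ_two,
    Matrix.one_apply_ne (show (0 : Fin 2) ≠ 1 by decide),
    Matrix.one_apply_ne (show (1 : Fin 2) ≠ 0 by decide)] at e01 e10
  rw [Matrix.det_fin_two] at hl ⊢
  obtain ⟨l, hl1⟩ : ∃ l, l = M0 0 0 * M0 1 1 - M0 0 1 * M0 1 0 := ⟨_, rfl⟩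
  rw [← hl1] at hl ⊢
  obtain ⟨r0, hr0⟩ : ∃ r0, r0 = M0 0 0 := ⟨_, rfl⟩
  obtain ⟨r1, hr1⟩ : ∃ r1, r1 = M0 0 1 := ⟨_, rfl⟩
  obtain ⟨n0, hn0⟩ : ∃ n0, n0 = M0 1 0 := ⟨_, rfl⟩
  obtain ⟨n1, hn1⟩ : ∃ n1, n1 = M0 1 1 := ⟨_, rfl⟩
  have hM0 : M0 = !![r0, r1; n0, n1] := M2_ext hr0.symm hr1.symm hn0.symm hn1.symm
  obtain ⟨χ0, hχ0⟩ : ∃ χ0, χ0 = -D 0 0 * r1 + D 0 1 * r0 := ⟨_, rfl⟩
  obtain ⟨χ1, hχ1⟩ : ∃ χ1, χ1 = -D 1 0 * r1 + D 1 1 * r0 := ⟨_, rfl⟩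
  rw [← hr0, ← hr1] at hab
  simp only [← hr0, ← hr1, ← hn0, ← hn1] at hl1 e00 e01 e10 e11
  -- unimodularity of `χ` modulo `l`
  have hχ : (-b' * Z 0 0 + a' * Z 1 0) * χ0 + (-b' * Z 0 1 + a' * Z 1 1) * χ1 +
      (-b' * Y 0 1 + a' * Y 1 1) * l = 1 := by
    rw [hχ0, hχ1, hl1]
    linear_combination b' * r1 * e00 - b' * r0 * e01 - a' * r1 * e10 + a' * r0 * e11 + hab
  obtain ⟨x0, hx0⟩ := exists_coprime_shift r0 r1 l hl ⟨a', b', 0, by linear_combination hab⟩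
  obtain ⟨x, hx⟩ : ∃ x, x = r0 - r1 * x0 := ⟨_, rfl⟩
  rw [← hx] at hx0
  obtain ⟨α, β, hαβ⟩ := hx0
  obtain ⟨y0, hy0⟩ := exists_coprime_shift (x * χ0 + r1 * χ1) (x * χ1) l hl
    ⟨(-b' * Z 0 0 + a' * Z 1 0) * α,
      -(-b' * Z 0 0 + a' * Z 1 0) * α * r1 * α + (-b' * Z 0 1 + a' * Z 1 1) * α,
      -(-b' * Z 0 0 + a' * Z 1 0) * α * r1 * β * χ1 + (-b' * Z 0 0 + a' * Z 1 0) * β * χ0 +
        (-b' * Z 0 1 + a' * Z 1 1) * β * χ1 + (-b' * Y 0 1 + a' * Y 1 1), by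
      linear_combination hχ + ((-b' * Z 0 0 + a' * Z 1 0) * χ0 +
        (-b' * Z 0 1 + a' * Z 1 1) * χ1 - (-b' * Z 0 0 + a' * Z 1 0) * α * r1 * χ1) * hαβ⟩
  obtain ⟨q0, hq0⟩ : ∃ q0, q0 = x := ⟨_, rfl⟩
  obtain ⟨q1, hq1⟩ : ∃ q1, q1 = r1 - y0 * x := ⟨_, rfl⟩
  -- Bezout for the first row of `M0 T`
  obtain ⟨A, B, hAB⟩ : ∃ A B : ℤ, A * q0 + B * q1 = 1 := by
    refine ⟨a' + y0 * (b' + a' * x0), b' + a' * x0, ?_⟩
    rw [hq0, hq1, hx]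
    linear_combination hab
  obtain ⟨m0, hm0⟩ : ∃ m0, m0 = n0 - x0 * n1 := ⟨_, rfl⟩
  obtain ⟨m1, hm1⟩ : ∃ m1, m1 = n1 - y0 * m0 := ⟨_, rfl⟩
  have hT : M0 * (ll (-x0) * uu (-y0)) = !![q0, q1; m0, m1] := by
    rw [hM0, hq0, hq1, hm1, hm0, hx]
    apply M2_ext <;>
    · simp [Matrix.mul_apply, Fin.sum_univ_two]
      ring
  have hdetT : q0 * m1 - q1 * m0 = l := by
    rw [hq0, hq1, hm1, hm0, hx, hl1]; ring
  have hQdet : (!![q0, q1; -B, A] : M2).det = 1 := by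
    rw [Matrix.det_fin_two]
    simp
    linear_combination hAB
  obtain ⟨Q, hQ⟩ : ∃ Q : SLn 2, Q.1 = !![q0, q1; -B, A] :=
    ⟨(⟨!![q0, q1; -B, A], hQdet⟩ : SLn 2), rfl⟩
  have hQinv : Q⁻¹.1 = !![A, -q1; B, q0] := by
    have h : Q⁻¹.1 = Matrix.adjugate Q.1 := Matrix.SpecialLinearGroup.coe_inv Q
    rw [h, hQ, Matrix.adjugate_fin_two]
    apply M2_ext <;> simp
  refine ⟨-x0, -y0, Q, m0 * A + m1 * B, ?_, ?_⟩
  · rw [hT, hQinv]
    apply M2_ext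
    · simp [Matrix.mul_apply, Fin.sum_univ_two]
      linear_combination hAB
    · simp [Matrix.mul_apply, Fin.sum_univ_two]
      ring
    · simp [Matrix.mul_apply, Fin.sum_univ_two]
    · simp [Matrix.mul_apply, Fin.sum_univ_two]
      linear_combination hdetT
  · rw [hQinv, hQ]
    have e : ((!![q0, q1; -B, A] : M2) * (D * (ll (-x0) * uu (-y0))) * !![A, -q1; B, q0]) 0 1 =
        x * χ0 + r1 * χ1 - x * χ1 * y0 := by
      rw [hχ0, hχ1]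
      simp only [Matrix.mul_apply, Fin.sum_univ_two, Matrix.of_apply, Matrix.cons_val_zero,
        Matrix.cons_val_one, Matrix.cons_val', Matrix.cons_val_fin_one]
      rw [hq0, hq1, hx]
      ring
    rw [e]
    exact hy0

/-- The statement of the core theorem. -/
def CoreOK : Prop := ∀ (h : SLn 4) (A0 C D : M2) (s l : ℤ), h.1 = b4 A0 !![1, 0; s, l] C D →
  l % 2 = 1 → IsCoprime (D 0 1) l →
    ∃ (X2 X3 X4 X5 X6 : M2) (z1 z2 z3 z4 z5 : ℤ),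
      h = CB X2 * RB X3 * CB X4 * RB X5 * CB X6 *
        DB (Le z1 * Ue z2 * Le z3 * Ue z4 * Le z5, 1)

/-- Every element of `SL_4(ℤ)` is a six-fold product, given the core theorem. -/
theorem six_four (hcore : CoreOK) : ∀ g : SLn 4, Six g := by
  intro g
  obtain ⟨A, B, C, D, hg⟩ : ∃ A B C D : M2, g.1 = b4 A B C D := by
    refine ⟨!![g.1 0 0, g.1 0 1; g.1 1 0, g.1 1 1], !![g.1 0 2, g.1 0 3; g.1 1 2, g.1 1 3],
      !![g.1 2 0, g.1 2 1; g.1 3 0, g.1 3 1], !![g.1 2 2, g.1 2 3; g.1 3 2, g.1 3 3], ?_⟩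
    ext i j
    fin_cases i <;> fin_cases j <;> simp [b4]
  obtain ⟨Y, Z, hYZ⟩ := exists_left_inv g A B C D hg
  obtain ⟨x, X, h1, h2⟩ := prep_shift B D Y Z hYZ
  obtain ⟨M0, hM0⟩ : ∃ M0 : M2, M0 = uu x * B - X * D := ⟨_, rfl⟩
  rw [← hM0] at h1 h2
  have hu : uu (-x) * uu x = 1 := by rw [uu_mul_uu, neg_add_cancel, uu_zero]
  have hYZ' : Y * uu (-x) * M0 + (Z + Y * uu (-x) * X) * D = 1 := by
    have e : Y * uu (-x) * (uu x * B) = Y * B := by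
      rw [mul_assoc, ← mul_assoc (uu (-x)), hu, one_mul]
    rw [hM0, mul_sub, e, add_mul, ← hYZ]
    noncomm_ring
  have hl : M0.det ≠ 0 := by
    intro h0; rw [h0] at h1; simp at h1
  obtain ⟨i, j, Q, s, hQ1, hQ2⟩ := prep_TQ M0 D _ _ hl h2 hYZ'
  obtain ⟨T, hT⟩ : ∃ T : SLn 2, T = Le i * Ue j := ⟨_, rfl⟩
  have hTv : T.1 = ll i * uu j := by rw [hT]; rfl
  rw [← hTv] at hQ1 hQ2
  obtain ⟨h, hh⟩ : ∃ h : SLn 4, h = DB (1, Q) * (RB (-X) * (DB (Ue x, 1) * g)) *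
      (DB (1, T) * DB (1, Q⁻¹)) := ⟨_, rfl⟩
  have hv : h.1 = b4 (uu x * A - X * C) !![1, 0; s, M0.det] (Q.1 * C)
      (Q.1 * (D * T.1) * Q⁻¹.1) := by
    rw [hh]
    simp only [SL_val_mul, DB_val, RB_val, hg, b4_mul, Ue_val]
    have one_val : (1 : SLn 2).1 = (1 : M2) := rfl
    simp only [one_val, one_mul, mul_one, zero_mul, mul_zero, add_zero, zero_add]
    rw [← hQ1, hM0]
    congr 1
    · noncomm_ring
    · noncomm_ring
    · noncomm_ring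
  obtain ⟨X2, X3, X4, X5, X6, z1, z2, z3, z4, z5, hword⟩ := hcore h _ _ _ s M0.det hv h1 hQ2
  obtain ⟨w, hw⟩ : ∃ w : SLn 2, w = Le z1 * Ue z2 * Le z3 * Ue z4 * Le z5 := ⟨_, rfl⟩
  rw [← hw] at hword
  -- solve for `g`
  have hg2 : g = DB (Ue (-x), 1) * (RB X * (DB (1, Q⁻¹) * h * DB (1, Q) * DB (1, T⁻¹))) := by
    have r1 : DB (Ue (-x), 1) * DB (Ue x, 1) = 1 := by
      rw [← map_mul, Prod.mk_mul_mk, ← Ue_inv, inv_mul_cancel, one_mul]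
      exact map_one DB
    have r2 : RB X * RB (-X) = 1 := by rw [RB_mul_RB, add_neg_cancel, RB_zero]
    have r3 : DB (1, Q⁻¹) * DB (1, Q) = 1 := by
      rw [← map_mul, Prod.mk_mul_mk, inv_mul_cancel, one_mul]
      exact map_one DB
    have r4 : DB (1, T) * DB (1, Q⁻¹) * DB (1, Q) * DB (1, T⁻¹) = 1 := by
      rw [mul_assoc (DB (1, T)), r3, mul_one, ← map_mul, Prod.mk_mul_mk, mul_inv_cancel, one_mul]
      exact map_one DB
    calc g = (DB (Ue (-x), 1) * DB (Ue x, 1)) * g * 1 := by rw [r1, one_mul, mul_one]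
      _ = DB (Ue (-x), 1) * ((RB X * RB (-X)) * (DB (Ue x, 1) * g)) * 1 := by
          rw [r2, one_mul, mul_assoc (DB (Ue (-x), 1))]
      _ = DB (Ue (-x), 1) * (RB X * ((DB (1, Q⁻¹) * DB (1, Q)) * (RB (-X) * (DB (Ue x, 1) * g)))) *
            (DB (1, T) * DB (1, Q⁻¹) * DB (1, Q) * DB (1, T⁻¹)) := by
          rw [r3, r4, one_mul, mul_assoc (RB X)]
      _ = _ := by rw [hh]; simp only [mul_assoc]
  -- conjugate the word by `DB (1, Q)`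
  have hconj : DB (1, Q⁻¹) * h * DB (1, Q) =
      CB (Q⁻¹.1 * X2) * RB (X3 * Q.1) * CB (Q⁻¹.1 * X4) * RB (X5 * Q.1) * CB (Q⁻¹.1 * X6) *
        DB (w, 1) := by
    have c1 : ∀ X : M2, DB (1, Q⁻¹) * CB X = CB (Q⁻¹.1 * X) * DB (1, Q⁻¹) := by
      intro X
      rw [DB_CB]
      congr 2
      change Q⁻¹.1 * X * (1 : SLn 2)⁻¹.1 = Q⁻¹.1 * X
      rw [inv_one]
      exact mul_one _
    have c2 : ∀ X : M2, DB (1, Q⁻¹) * RB X = RB (X * Q.1) * DB (1, Q⁻¹) := by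
      intro X
      rw [RB_DB]
      congr 2
      change X = (1 : SLn 2)⁻¹.1 * (X * Q.1) * Q⁻¹.1
      rw [inv_one]
      change X = (1 : M2) * (X * Q.1) * Q⁻¹.1
      have : Q.1 * Q⁻¹.1 = 1 := by rw [← SL_val_mul, mul_inv_cancel]; rfl
      rw [one_mul, mul_assoc, this, mul_one]
    have c3 : DB (1, Q⁻¹) * (DB (w, 1) * DB (1, Q)) = DB (w, 1) := by
      rw [← map_mul, ← map_mul, Prod.mk_mul_mk, Prod.mk_mul_mk]
      congr 2
      · group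
      · group
    calc DB (1, Q⁻¹) * h * DB (1, Q)
        = DB (1, Q⁻¹) * CB X2 * RB X3 * CB X4 * RB X5 * CB X6 * (DB (w, 1) * DB (1, Q)) := by
          rw [hword]; simp only [mul_assoc]
      _ = CB (Q⁻¹.1 * X2) * (DB (1, Q⁻¹) * RB X3) * CB X4 * RB X5 * CB X6 *
            (DB (w, 1) * DB (1, Q)) := by rw [c1]; simp only [mul_assoc]
      _ = CB (Q⁻¹.1 * X2) * RB (X3 * Q.1) * (DB (1, Q⁻¹) * CB X4) * RB X5 * CB X6 *
            (DB (w, 1) * DB (1, Q)) := by rw [c2]; simp only [mul_assoc]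
      _ = CB (Q⁻¹.1 * X2) * RB (X3 * Q.1) * CB (Q⁻¹.1 * X4) * (DB (1, Q⁻¹) * RB X5) * CB X6 *
            (DB (w, 1) * DB (1, Q)) := by rw [c1]; simp only [mul_assoc]
      _ = CB (Q⁻¹.1 * X2) * RB (X3 * Q.1) * CB (Q⁻¹.1 * X4) * RB (X5 * Q.1) *
            (DB (1, Q⁻¹) * CB X6) * (DB (w, 1) * DB (1, Q)) := by rw [c2]; simp only [mul_assoc]
      _ = CB (Q⁻¹.1 * X2) * RB (X3 * Q.1) * CB (Q⁻¹.1 * X4) * RB (X5 * Q.1) *
            CB (Q⁻¹.1 * X6) * (DB (1, Q⁻¹) * (DB (w, 1) * DB (1, Q))) := by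
          rw [c1]; simp only [mul_assoc]
      _ = _ := by rw [c3]
  have hsix : SixIn ((Up 2).prod (Up 2)) ((Lo 2).prod (Lo 2)) (w, T⁻¹) := by
    refine ⟨(1, 1), ⟨(Up 2).one_mem, (Up 2).one_mem⟩, (Le z1, 1), ⟨Le_mem _, (Lo 2).one_mem⟩,
      (Ue z2, 1), ⟨Ue_mem _, (Up 2).one_mem⟩, (Le z3, 1), ⟨Le_mem _, (Lo 2).one_mem⟩,
      (Ue z4, Ue (-j)), ⟨Ue_mem _, Ue_mem _⟩, (Le z5, Le (-i)), ⟨Le_mem _, Le_mem _⟩, ?_⟩
    have hTi : T⁻¹ = Ue (-j) * Le (-i) := by rw [hT, _root_.mul_inv_rev, Ue_inv, Le_inv]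
    rw [hTi, hw]
    simp only [Prod.mk_mul_mk, one_mul, mul_one]
  have hW5 : W5 (DB (1, Q⁻¹) * h * DB (1, Q) * DB (1, T⁻¹)) := by
    refine ⟨Q⁻¹.1 * X2, X3 * Q.1, Q⁻¹.1 * X4, X5 * Q.1, Q⁻¹.1 * X6, (w, T⁻¹), hsix, ?_⟩
    rw [hconj, mul_assoc _ (DB (w, 1)), ← map_mul, Prod.mk_mul_mk, mul_one, one_mul]
  rw [hg2]
  exact (hW5.RB_mul X).mul_left (DB_mem_Up (Ue_mem _) (Up 2).one_mem)

end Pool.Agent.Lib.MP_efa98f_al
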