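import Mathlib

/-! Preparation of a matrix in `SL_2(Z)` by three letters: the upper left entry becomes an odd prime
`p`, the upper right entry `b` is negative and `-b` is a square modulo `p`. -/

set_option autoImplicit false

namespace Pool.Agent.Lib.MP_efa98f_al.FourPrep80

open NumberTheorySymbols

theorem step_odd (al be ga de : ℤ) (h : al * de - be * ga = 1) :
    ∃ l1 : ℤ, (al + be * l1) % 2 = 1 := by
  rcases Int.emod_two_eq_zero_or_one al with h0 | h0
  · refine ⟨1, ?_⟩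
    have hb : be % 2 = 1 := by
      rcases Int.emod_two_eq_zero_or_one be with h1 | h1
      · exfalso
        obtain ⟨x, hx⟩ := Int.dvd_of_emod_eq_zero h0
        obtain ⟨y, hy⟩ := Int.dvd_of_emod_eq_zero h1
        rw [hx, hy] at h
        have : 2 * (x * de - y * ga) = 1 := by linarith
        omega
      · exact h1
    rw [mul_one]
    omega
  · exact ⟨0, by simpa using h0⟩

theorem step_neg (a be : ℤ) (ha : a % 2 = 1) : ∃ u1 : ℤ, a * u1 + be < 0 ∧ (a * u1 + be) % 4 = 1 := by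
  have h4 : (a * a) % 4 = 1 := by
    have : a % 4 = 1 ∨ a % 4 = 3 := by omega
    rcases this with h | h <;> rw [Int.mul_emod, h] <;> rfl
  have hpos : 1 ≤ a * a := by
    have : a ≠ 0 := by rintro rfl; simp at ha
    have := mul_self_pos.mpr this
    omega
  set c : ℤ := a * (a * (1 - be)) + be with hc
  set N : ℤ := |c| + 1 with hN
  refine ⟨a * (1 - be) - 4 * (a * N), ?_, ?_⟩
  · have e : a * (a * (1 - be) - 4 * (a * N)) + be = c - 4 * ((a * a) * N) := by rw [hc]; ring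
    rw [e]
    have h1 : N ≤ (a * a) * N := by
      have : 0 ≤ N := by rw [hN]; positivity
      nlinarith
    have h2 := le_abs_self c
    have h3 := abs_nonneg c
    omega
  · have e : a * (a * (1 - be) - 4 * (a * N)) + be = (a * a) * (1 - be) + be - 4 * ((a * a) * N) := by ring
    obtain ⟨k, hk⟩ : ∃ k, a * a = 4 * k + 1 := ⟨(a * a) / 4, by omega⟩
    have e2 : (a * a) * (1 - be) + be - 4 * ((a * a) * N) = 1 + 4 * (k * (1 - be) - (a * a) * N) := by
      rw [show (a * a) * (1 - be) = (4 * k + 1) * (1 - be) by rw [hk]]; ring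
    rw [e, e2]
    omega

/-- Dirichlet and Jacobi reciprocity. -/
theorem step_prime (a b : ℤ) (hb : b < 0) (hb4 : b % 4 = 1) (hcop : IsCoprime a b) :
    ∃ p : ℕ, p.Prime ∧ p ≠ 2 ∧ b ∣ ((p : ℤ) - a) ∧ ¬ (p : ℤ) ∣ b ∧
      IsSquare (((-b : ℤ)) : ZMod p) := by
  obtain ⟨B, hB⟩ : ∃ B : ℕ, (B : ℤ) = -b := ⟨(-b).toNat, Int.toNat_of_nonneg (by omega)⟩
  have hB4 : B % 4 = 3 := by omega
  have hBpos : 0 < B := by omega
  have hBodd : Odd B := Nat.odd_iff.mpr (by omega)
  have hcopB : IsCoprime a (B : ℤ) := by rw [hB]; exact hcop.neg_right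
  have hgcd : Int.gcd a B = 1 := Int.isCoprime_iff_gcd_eq_one.mp hcopB
  have key : ∀ ε : ℤ, ε = 1 ∨ ε = 3 → ∃ p : ℕ, p.Prime ∧ 2 < p ∧ B < p ∧
      (p : ℤ) % B = a % B ∧ ((p : ℤ)) % 4 = ε := by
    intro ε hε
    set x : ℤ := a + B * (3 * (ε - a)) with hx
    have hx4 : x % 4 = ε := by
      obtain ⟨m, hm⟩ : ∃ m : ℤ, (B : ℤ) = 4 * m + 3 := ⟨(B : ℤ) / 4, by omega⟩
      have e : x = ε + 4 * ((3 * m + 2) * (ε - a)) := by rw [hx, hm]; ring
      rw [e]
      omega
    have hc1 : IsCoprime x (B : ℤ) := by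
      rw [hx]
      exact hcopB.add_mul_left_left _
    have hc2 : IsCoprime x 4 := by
      have h2 : IsCoprime x 2 := by
        obtain ⟨m, hm⟩ : ∃ m : ℤ, x = 2 * m + 1 := ⟨x / 2, by omega⟩
        exact ⟨1, -m, by rw [hm]; ring⟩
      have := h2.mul_right h2
      norm_num at this
      exact this
    have hc3 : IsCoprime x (((4 * B : ℕ)) : ℤ) := by
      push_cast
      exact hc2.mul_right hc1
    obtain ⟨p, hp1, hp2, hp3⟩ := Nat.forall_exists_prime_gt_and_zmodEq (max 2 B) (q := 4 * B)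
      (a := x) (by omega) hc3
    refine ⟨p, hp2, lt_of_le_of_lt (le_max_left _ _) hp1, lt_of_le_of_lt (le_max_right _ _) hp1,
      ?_, ?_⟩
    · have h1 : (p : ℤ) ≡ x [ZMOD B] := hp3.of_dvd (by push_cast; exact dvd_mul_left _ _)
      have h2 : x ≡ a [ZMOD B] := by
        rw [hx]
        exact (Int.modEq_iff_dvd.mpr (by simp))
      exact h1.trans h2
    · have h1 : (p : ℤ) ≡ x [ZMOD 4] := hp3.of_dvd (by push_cast; exact dvd_mul_right _ _)
      rw [← hx4]
      exact h1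
  have fin : ∀ p : ℕ, p.Prime → 2 < p → B < p → (p : ℤ) % B = a % B → J((B : ℤ) | p) = 1 →
      ∃ p : ℕ, p.Prime ∧ p ≠ 2 ∧ b ∣ ((p : ℤ) - a) ∧ ¬ (p : ℤ) ∣ b ∧
      IsSquare (((-b : ℤ)) : ZMod p) := by
    intro p hp h2 hBp hmod hJ
    have := Fact.mk hp
    refine ⟨p, hp, by omega, ?_, ?_, ?_⟩
    · have h3 : (B : ℤ) ∣ (p : ℤ) - a := Int.ModEq.dvd (show a ≡ p [ZMOD B] from hmod.symm)
      rw [hB] at h3
      exact (neg_dvd).mp h3
    · intro h3
      have h4 : (p : ℤ) ∣ (B : ℤ) := by rw [hB]; exact (dvd_neg).mpr h3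
      have h5 : p ∣ B := by exact_mod_cast h4
      exact absurd (Nat.le_of_dvd hBpos h5) (by omega)
    · rw [← hB, Int.cast_natCast]
      rw [← jacobiSym.legendreSym.to_jacobiSym] at hJ
      refine (legendreSym.eq_one_iff' p ?_).mp hJ
      intro h6
      rw [ZMod.natCast_eq_zero_iff] at h6
      exact absurd (Nat.le_of_dvd hBpos h6) (by omega)
  rcases jacobiSym.eq_one_or_neg_one hgcd with hJ | hJ
  · obtain ⟨p, hp, h2, hBp, hmod, h4⟩ := key 1 (Or.inl rfl)
    refine fin p hp h2 hBp hmod ?_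
    rw [← jacobiSym.quadratic_reciprocity_one_mod_four (a := p) (b := B) (by omega) hBodd,
      jacobiSym.mod_left' hmod, hJ]
  · obtain ⟨p, hp, h2, hBp, hmod, h4⟩ := key 3 (Or.inr rfl)
    refine fin p hp h2 hBp hmod ?_
    rw [jacobiSym.quadratic_reciprocity_three_mod_four (a := B) (b := p) hB4 (by omega),
      jacobiSym.mod_left' hmod, hJ, neg_neg]

/-- The preparation lemma. -/
theorem prep (al be ga de : ℤ) (h : al * de - be * ga = 1) :
    ∃ l1 u1 l2 : ℤ, ∃ p : ℕ, p.Prime ∧ p ≠ 2 ∧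
      (al + be * l1) + ((al + be * l1) * u1 + be) * l2 = p ∧
      (al + be * l1) * u1 + be < 0 ∧
      ¬ (p : ℤ) ∣ ((al + be * l1) * u1 + be) ∧
      IsSquare (((-((al + be * l1) * u1 + be) : ℤ)) : ZMod p) := by
  obtain ⟨l1, hl1⟩ := step_odd al be ga de h
  obtain ⟨u1, hu1, hu4⟩ := step_neg (al + be * l1) be hl1
  have hcop : IsCoprime (al + be * l1) ((al + be * l1) * u1 + be) := by
    refine ⟨de - (ga + de * l1) * (-u1), -(ga + de * l1), ?_⟩
    linear_combination h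
  obtain ⟨p, hp, hp2, ⟨l2, hl2⟩, hnd, hsq⟩ := step_prime _ _ hu1 hu4 hcop
  exact ⟨l1, u1, l2, p, hp, hp2, by linarith, hu1, hnd, hsq⟩

/-- The form used in Theorem A: the lower left entry is a nonzero square modulo the upper left
entry `p`. -/
theorem prep2 (al be ga de : ℤ) (h : al * de - be * ga = 1) :
    ∃ l1 u1 l2 : ℤ, ∃ p : ℕ, p.Prime ∧ p ≠ 2 ∧
      (al + be * l1) + ((al + be * l1) * u1 + be) * l2 = p ∧
      IsSquare ((((ga + de * l1) + ((ga + de * l1) * u1 + de) * l2 : ℤ)) : ZMod p) ∧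
      ¬ (p : ℤ) ∣ ((ga + de * l1) + ((ga + de * l1) * u1 + de) * l2) := by
  obtain ⟨l1, u1, l2, p, hp, hp2, ha, hb, hnd, hsq⟩ := prep al be ga de h
  have := Fact.mk hp
  set b : ℤ := (al + be * l1) * u1 + be with hbdef
  set c : ℤ := (ga + de * l1) + ((ga + de * l1) * u1 + de) * l2 with hcdef
  have hdet : (p : ℤ) * ((ga + de * l1) * u1 + de) - b * c = 1 := by
    rw [← ha, hcdef, hbdef]
    linear_combination h
  have hz : ((c : ℤ) : ZMod p) * (((-b : ℤ)) : ZMod p) = 1 := by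
    have h1 : c * (-b) = 1 - (p : ℤ) * ((ga + de * l1) * u1 + de) := by linarith
    rw [← Int.cast_mul, h1]
    push_cast
    rw [ZMod.natCast_self]
    ring
  refine ⟨l1, u1, l2, p, hp, hp2, ha, ?_, ?_⟩
  · obtain ⟨r, hr⟩ := hsq
    refine ⟨(c : ZMod p) * r, ?_⟩
    calc ((c : ℤ) : ZMod p) = ((c : ℤ) : ZMod p) * (((c : ℤ) : ZMod p) * (((-b : ℤ)) : ZMod p)) := by
          rw [hz, mul_one]
      _ = (c : ZMod p) * r * ((c : ZMod p) * r) := by rw [hr]; ring
  · intro h1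
    have h2 : ((c : ℤ) : ZMod p) = 0 := by
      rw [ZMod.intCast_zmod_eq_zero_iff_dvd]; exact h1
    rw [h2, zero_mul] at hz
    exact zero_ne_one hz

end Pool.Agent.Lib.MP_efa98f_al.FourPrep80
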