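import Pool.Agent.Lib.MP_efa98f_al.AntiCore33
import Pool.Agent.Lib.MP_efa98f_al.FourPrep80
import Pool.Agent.Lib.MP_efa98f_al.CK

namespace Pool.Agent.Lib.MP_efa98f_al

open Matrix

/-- A word `C R C R C` times a block diagonal pair of six-fold products. -/
def W5 (g : SLn 4) : Prop :=
  ∃ (X2 X3 X4 X5 X6 : M2) (A : SLn 2 × SLn 2),
    SixIn ((Up 2).prod (Up 2)) ((Lo 2).prod (Lo 2)) A ∧
      g = CB X2 * RB X3 * CB X4 * RB X5 * CB X6 * DB A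

/-- Conjugation of a word by a block diagonal matrix. -/
theorem conj_word (S Si T Ti Z X1 X2 X3 X4 X5 : M2) (hS : S * Si = 1) (hS' : Si * S = 1)
    (hT : T * Ti = 1) (hT' : Ti * T = 1)
    (h : b4 0 1 Z 0 = b4 1 0 X1 1 * b4 1 X2 0 1 * b4 1 0 X3 1 * b4 1 X4 0 1 * b4 1 0 X5 1) :
    b4 0 (Si * T) (Ti * Z * S) 0 =
      b4 1 0 (Ti * X1 * S) 1 * b4 1 (Si * X2 * T) 0 1 * b4 1 0 (Ti * X3 * S) 1 *
        b4 1 (Si * X4 * T) 0 1 * b4 1 0 (Ti * X5 * S) 1 := by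
  have hDD : b4 S 0 0 T * b4 Si 0 0 Ti = 1 := by
    rw [b4_mul]
    simp only [mul_zero, zero_mul, add_zero, zero_add, hS, hT]
    exact b4_one
  have hD : ∀ Y, b4 S 0 0 T * (b4 Si 0 0 Ti * Y) = Y := by
    intro Y
    rw [← mul_assoc, hDD, one_mul]
  have c : ∀ X, b4 1 0 (Ti * X * S) 1 = b4 Si 0 0 Ti * (b4 1 0 X 1 * b4 S 0 0 T) := by
    intro X
    rw [b4_mul, b4_mul]
    simp only [mul_zero, zero_mul, add_zero, zero_add, one_mul, mul_one, hS', hT', mul_assoc]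
  have r : ∀ X, b4 1 (Si * X * T) 0 1 = b4 Si 0 0 Ti * (b4 1 X 0 1 * b4 S 0 0 T) := by
    intro X
    rw [b4_mul, b4_mul]
    simp only [mul_zero, zero_mul, add_zero, zero_add, one_mul, mul_one, hS', hT', mul_assoc]
  have hL : b4 0 (Si * T) (Ti * Z * S) 0 = b4 Si 0 0 Ti * (b4 0 1 Z 0 * b4 S 0 0 T) := by
    rw [b4_mul, b4_mul]
    simp only [mul_zero, zero_mul, add_zero, zero_add, one_mul, mul_one, mul_assoc]
  rw [hL, h, c, r, c, r, c]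
  simp only [mul_assoc, hD]

theorem det_b4_anti (P Q : M2) : (b4 0 P Q 0).det = P.det * Q.det := by
  rw [Matrix.det_fin_two P, Matrix.det_fin_two Q]
  simp [b4, Matrix.det_succ_row_zero, Fin.sum_univ_succ, Fin.succAbove]
  ring

/-- The statement of part 3. -/
def Part3 : Prop :=
  ∀ (p : ℕ) (_ : p.Prime) (_ : p ≠ 2) (c0 : ℤ) (_ : IsSquare ((c0 : ℤ) : ZMod p))
    (_ : ¬ (p : ℤ) ∣ c0), ∃ k t f g : ℤ, 0 < c0 + k*p ∧ f^2 + t*f*g + (c0 + k*p)*g^2 = 1 ∧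
      (c0 + k*p) ∣ f - p

/-- Theorem A: block antidiagonal matrices of `SL₄(ℤ)`. -/
theorem antidiag_W5_of (h3 : Part3) (g : SLn 4) (P Q : M2) (hg : g.1 = b4 0 P Q 0) : W5 g := by
  have hdet : P.det * Q.det = 1 := by
    rw [← det_b4_anti, ← hg]; exact g.2
  obtain ⟨Pi, hPi⟩ : ∃ Pi : M2, Pi = Q.det • P.adjugate := ⟨_, rfl⟩
  have hPPi : P * Pi = 1 := by
    rw [hPi, Matrix.mul_smul, Matrix.mul_adjugate, smul_smul, mul_comm Q.det, hdet, one_smul]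
  have hPiP : Pi * P = 1 := by
    rw [hPi, Matrix.smul_mul, Matrix.adjugate_mul, smul_smul, mul_comm Q.det, hdet, one_smul]
  obtain ⟨al, be, ga, de, hE⟩ : ∃ al be ga de : ℤ, -(P * Q) = !![al, be; ga, de] :=
    ⟨_, _, _, _, Matrix.eta_fin_two _⟩
  have hdE : al * de - be * ga = 1 := by
    have e1 : (-(P * Q)).det = 1 := by
      rw [Matrix.det_neg, Matrix.det_mul, hdet]; simp
    rw [hE, Matrix.det_fin_two] at e1
    simpa using e1
  obtain ⟨l1, u1, l2, p, hp, hp2, ha, hsq, hnd⟩ := FourPrep80.prep2 al be ga de hdE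
  obtain ⟨k, t, f, gg, -, hn, hf⟩ := h3 p hp hp2 _ hsq hnd
  obtain ⟨c0, hc0⟩ : ∃ c0, c0 = (ga + de * l1) + ((ga + de * l1) * u1 + de) * l2 := ⟨_, rfl⟩
  obtain ⟨b, hb⟩ : ∃ b, b = (al + be * l1) * u1 + be := ⟨_, rfl⟩
  obtain ⟨d0, hd0⟩ : ∃ d0, d0 = (ga + de * l1) * u1 + de := ⟨_, rfl⟩
  rw [← hc0] at hn hf
  have hdet1 : (p : ℤ) * (d0 + k * b) - b * (c0 + k * p) = 1 := by
    rw [← ha, hc0, hb, hd0]
    linear_combination hdE
  obtain ⟨X1, X2, X3, X4, X5, key⟩ := antidiag_word (p : ℤ) b (c0 + k * p) (d0 + k * b) t f gg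
    hdet1 hn hf
  obtain ⟨w, hw⟩ : ∃ w : SLn 2, w = Le l1 * Ue u1 * Le (l2 + (d0 + k * b - t - 1)) * Ue 1 *
    Le (t + p - 1 + k) := ⟨_, rfl⟩
  have hkk : ll k * ll (-k) = 1 := by rw [ll_mul_ll, add_neg_cancel, ll_zero]
  have hkk' : ll (-k) * ll k = 1 := by rw [ll_mul_ll, neg_add_cancel, ll_zero]
  have key2 := conj_word (ll k) (ll (-k)) (ll k * P) (Pi * ll (-k)) _ X1 X2 X3 X4 X5 hkk hkk'
    (by rw [mul_assoc, ← mul_assoc P, hPPi, one_mul, hkk])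
    (by rw [mul_assoc, ← mul_assoc (ll (-k)), hkk', one_mul, hPiP]) key
  have hE1 : ll (-k) * !![(p : ℤ), b; c0 + k * p, d0 + k * b] = -(P * Q) * (ll l1 * uu u1 * ll l2) := by
    rw [hE]
    apply M2_ext
    · simp [ll, uu, Matrix.mul_apply, Fin.sum_univ_two]
      rw [← ha]; ring
    · simp [ll, uu, Matrix.mul_apply, Fin.sum_univ_two]
      rw [hb]; ring
    · simp [ll, uu, Matrix.mul_apply, Fin.sum_univ_two]
      rw [hc0]; ring
    · simp [ll, uu, Matrix.mul_apply, Fin.sum_univ_two]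
      rw [hd0]; ring
  have hwv : w.1 = ll l1 * uu u1 * (ll l2 * ll (d0 + k * b - t - 1)) * uu 1 *
      (ll (t + p - 1) * ll k) := by
    rw [hw]
    simp only [SL_val_mul, Le_val, Ue_val, ll_mul_ll]
  have hlow : Pi * ll (-k) * -(!![(p : ℤ), b; c0 + k * p, d0 + k * b] * ll (d0 + k * b - t - 1) *
      uu 1 * ll (t + p - 1)) * ll k = Q * w.1 := by
    have e1 : Pi * ll (-k) * -(!![(p : ℤ), b; c0 + k * p, d0 + k * b] * ll (d0 + k * b - t - 1) *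
        uu 1 * ll (t + p - 1)) * ll k =
        -(Pi * (ll (-k) * !![(p : ℤ), b; c0 + k * p, d0 + k * b]) * ll (d0 + k * b - t - 1) *
        uu 1 * ll (t + p - 1) * ll k) := by
      simp only [mul_neg, neg_mul, mul_assoc]
    rw [e1, hE1, hwv]
    have e2 : -(Pi * (-(P * Q) * (ll l1 * uu u1 * ll l2)) * ll (d0 + k * b - t - 1) *
        uu 1 * ll (t + p - 1) * ll k) =
        (Pi * P) * Q * (ll l1 * uu u1 * (ll l2 * ll (d0 + k * b - t - 1)) * uu 1 *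
        (ll (t + p - 1) * ll k)) := by
      simp only [mul_neg, neg_mul, neg_neg, mul_assoc]
    rw [e2, hPiP, one_mul]
  have hup : ll (-k) * (ll k * P) = P := by rw [← mul_assoc, hkk', one_mul]
  rw [hlow, hup] at key2
  refine ⟨Pi * ll (-k) * X1 * ll k, ll (-k) * X2 * (ll k * P), Pi * ll (-k) * X3 * ll k,
    ll (-k) * X4 * (ll k * P), Pi * ll (-k) * X5 * ll k, (w⁻¹, 1), ?_, ?_⟩
  rotate_left
  · apply Subtype.ext
    simp only [SL_val_mul, RB_val, CB_val, DB_val]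
    rw [← key2, b4_mul, hg]
    have hww : w.1 * (w⁻¹).1 = 1 := by rw [← SL_val_mul, mul_inv_cancel]; rfl
    simp only [mul_zero, zero_mul, add_zero, zero_add, mul_assoc, hww, mul_one]
    simp
  · refine ⟨(1, 1), ⟨(Up 2).one_mem, (Up 2).one_mem⟩,
      (Le (-(t + p - 1 + k)), 1), ⟨Le_mem _, (Lo 2).one_mem⟩,
      (Ue (-1), 1), ⟨Ue_mem _, (Up 2).one_mem⟩,
      (Le (-(l2 + (d0 + k * b - t - 1))), 1), ⟨Le_mem _, (Lo 2).one_mem⟩,
      (Ue (-u1), 1), ⟨Ue_mem _, (Up 2).one_mem⟩, (Le (-l1), 1), ⟨Le_mem _, (Lo 2).one_mem⟩, ?_⟩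
    simp only [Prod.mk_mul_mk]
    rw [hw, ← Ue_inv, ← Ue_inv, ← Le_inv, ← Le_inv, ← Le_inv]
    congr 1 <;> group

end Pool.Agent.Lib.MP_efa98f_al
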