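import Pool.Agent.Lib.MP_efa98f_al.FourAnti
import Pool.Agent.Lib.MP_efa98f_al.H92.Part3

namespace Pool.Agent.Lib.MP_efa98f_al

open Matrix

/-- Theorem A: block antidiagonal matrices of `SL₄(ℤ)` are words `C R C R C` times a block diagonal
pair of six-fold products. -/
theorem antidiag_W5 (g : SLn 4) (P Q : M2) (hg : g.1 = b4 0 P Q 0) : W5 g :=
  antidiag_W5_of (fun p hp hp2 c0 hc hc0 => Pool.Agent.MP_efa98f_al.H92.part3 p hp hp2 c0 hc hc0)
    g P Q hg

/-- Block antidiagonal matrices of `SL₄(ℤ)` are six-fold products. -/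
theorem antidiag_six (g : SLn 4) (P Q : M2) (hg : g.1 = b4 0 P Q 0) : Six g := by
  obtain ⟨X2, X3, X4, X5, X6, A, hA, h⟩ := antidiag_W5 g P Q hg
  have := merge_b4 (X1 := 0) (X2 := X2) (X3 := X3) (X4 := X4) (X5 := X5) (X6 := X6) hA
  rw [h]
  have h0 : RB 0 = 1 := Subtype.ext b4_one
  rw [h0, one_mul] at this
  exact this

end Pool.Agent.Lib.MP_efa98f_al
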