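import Pool.Agent.Lib.MP_efa98f_al.FourFinal
import Pool.Agent.Lib.MP_efa98f_al.W11.Final

namespace Pool.Agent.Lib.MP_efa98f_al

/-- `SL₄(ℤ)` has length six. -/
theorem four_all (g : SLn 4) : Six g :=
  four_all_of (fun g A B C D hg hD => F4.six_of_D_ne g A B C D hg hD) g

/-- `SL_n(ℤ)` has length six for all `n ≥ 4`. -/
theorem six_ge_four : ∀ n, 4 ≤ n → ∀ g : SLn n, Six g :=
  six_ge_four_of (fun g A B C D hg hD => F4.six_of_D_ne g A B C D hg hD)

end Pool.Agent.Lib.MP_efa98f_al
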