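import Pool.Agent.Lib.MP_efa98f_al.CK

namespace Pool.Agent.Lib.MP_efa98f_al

open Matrix

/-! ### Lifting to a unimodular block -/

/-- A primitive `2×2` matrix represents `1`. -/
theorem prim_pair (a b c d : ℤ) (H : ∃ r1 r2 r3 r4 : ℤ, r1 * a + r2 * b + r3 * c + r4 * d = 1) :
    ∃ u0 u1 v0 v1 : ℤ, u0 * (a * v0 + b * v1) + u1 * (c * v0 + d * v1) = 1 := by
  obtain ⟨r1, r2, r3, r4, H⟩ := H
  obtain ⟨g, a', b', p, q, ha, hb, hpq⟩ : ∃ g a' b' p q : ℤ, a = g * a' ∧ b = g * b' ∧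
      p * a' + q * b' = 1 := by
    by_cases h0 : a = 0 ∧ b = 0
    · exact ⟨0, 1, 0, 1, 0, by rw [h0.1]; ring, by rw [h0.2]; ring, by ring⟩
    · have hg : (Int.gcd a b : ℤ) ≠ 0 := by
        intro hg
        have hg' : Int.gcd a b = 0 := by exact_mod_cast hg
        rw [Int.gcd_eq_zero_iff] at hg'
        exact h0 hg'
      obtain ⟨a', ha⟩ := Int.gcd_dvd_left a b
      obtain ⟨b', hb⟩ := Int.gcd_dvd_right a b
      refine ⟨Int.gcd a b, a', b', Int.gcdA a b, Int.gcdB a b, ha, hb, ?_⟩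
      have h := Int.gcd_eq_gcd_ab a b
      apply mul_left_cancel₀ hg
      have h2 : (Int.gcd a b : ℤ) * (Int.gcdA a b * a' + Int.gcdB a b * b') =
          ((Int.gcd a b : ℤ) * a') * Int.gcdA a b + ((Int.gcd a b : ℤ) * b') * Int.gcdB a b := by
        ring
      rw [h2, ← ha, ← hb, ← h, mul_one]
  have H2 : (r3 * a' + r4 * b') * (c * p + d * q) + (r1 * a' + r2 * b') * g +
      (-r3 * q + r4 * p) * (-c * b' + d * a') = 1 := by
    rw [ha, hb] at H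
    linear_combination H + (r3 * c + r4 * d) * hpq
  by_cases hd : -c * b' + d * a' = 0
  · refine ⟨r1 * a' + r2 * b', r3 * a' + r4 * b', p, q, ?_⟩
    rw [ha, hb]
    linear_combination H2 - (-r3 * q + r4 * p) * hd + (r1 * a' + r2 * b') * g * hpq
  · obtain ⟨x, α, β, hx⟩ := exists_coprime_shift (c * p + d * q) g (-c * b' + d * a') hd
      ⟨_, _, _, H2⟩
    refine ⟨-x, 1, p * α - b' * β, q * α + a' * β, ?_⟩
    rw [ha, hb]
    linear_combination hx - x * g * α * hpq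

/-- The rows of `B` lift to a basis modulo the rows of `D`. -/
theorem exists_shift (B D D1 Y Z : M2) (e s : ℤ) (hD : D = e • D1)
    (hc : ∃ r1 r2 r3 r4 : ℤ, r1 * D1 0 0 + r2 * D1 0 1 + r3 * D1 1 0 + r4 * D1 1 1 = 1)
    (hYZ : Y * B + Z * D = 1) (hs : e ∣ B.det - s) : ∃ X : M2, (B - X * D).det = s := by
  obtain ⟨u0, u1, v0, v1, huv⟩ := prim_pair _ _ _ _ hc
  have e00 := congrFun (congrFun hYZ 0) 0
  have e01 := congrFun (congrFun hYZ 0) 1
  have e10 := congrFun (congrFun hYZ 1) 0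
  have e11 := congrFun (congrFun hYZ 1) 1
  subst hD
  simp only [Matrix.add_apply, Matrix.mul_apply, Fin.sum_univ_two, Matrix.smul_apply, smul_eq_mul,
    Matrix.one_apply_eq] at e00 e11
  simp only [Matrix.add_apply, Matrix.mul_apply, Fin.sum_univ_two, Matrix.smul_apply, smul_eq_mul,
    Matrix.one_apply_ne (show (0 : Fin 2) ≠ 1 by decide),
    Matrix.one_apply_ne (show (1 : Fin 2) ≠ 0 by decide)] at e01 e10
  obtain ⟨w0, hw0⟩ : ∃ w0, w0 = u0 * D1 0 0 + u1 * D1 1 0 := ⟨_, rfl⟩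
  obtain ⟨w1, hw1⟩ : ∃ w1, w1 = u0 * D1 0 1 + u1 * D1 1 1 := ⟨_, rfl⟩
  obtain ⟨m, hm⟩ : ∃ m, m = D1 0 0 * D1 1 1 - D1 0 1 * D1 1 0 := ⟨_, rfl⟩
  obtain ⟨ξ, r, hr⟩ := stable_range (k := 0)
    ![-v1 * Y 0 0 + v0 * Y 1 0, -v1 * Y 0 1 + v0 * Y 1 1]
    ![-B 0 0 * w1 + B 0 1 * w0, -B 1 0 * w1 + B 1 1 * w0]
    (-(-v1 * Z 0 0 + v0 * Z 1 0) * u1 + (-v1 * Z 0 1 + v0 * Z 1 1) * u0) (e * m) (by
      rw [dotProduct, Fin.sum_univ_two]
      simp only [Matrix.cons_val_zero, Matrix.cons_val_one]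
      subst hw0 hw1 hm
      linear_combination (-v1) * (-(u0 * D1 0 1 + u1 * D1 1 1)) * e00 +
        (-v1) * (u0 * D1 0 0 + u1 * D1 1 0) * e01 + v0 * (-(u0 * D1 0 1 + u1 * D1 1 1)) * e10 +
        v0 * (u0 * D1 0 0 + u1 * D1 1 0) * e11 + huv)
  rw [dotProduct, Fin.sum_univ_two] at hr
  simp only [Matrix.cons_val_zero, Matrix.cons_val_one, Pi.sub_apply, Pi.smul_apply,
    smul_eq_mul] at hr
  obtain ⟨t0, ht0⟩ : ∃ t0, t0 = D1 0 0 * v0 + D1 0 1 * v1 := ⟨_, rfl⟩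
  obtain ⟨t1, ht1⟩ : ∃ t1, t1 = D1 1 0 * v0 + D1 1 1 * v1 := ⟨_, rfl⟩
  obtain ⟨X0, hX0⟩ : ∃ X0 : M2, X0 = !![-ξ 0 * t1, ξ 0 * t0; -ξ 1 * t1, ξ 1 * t0] := ⟨_, rfl⟩
  obtain ⟨k0, hk0⟩ := hs
  rw [Matrix.det_fin_two] at hk0
  obtain ⟨B', hB'⟩ : ∃ B' : M2, B' = B - X0 * (e • D1) := ⟨_, rfl⟩
  obtain ⟨k, hk⟩ : ∃ k, B'.det - s = e * k := by
    have hdvd : e ∣ B'.det - B.det := by
      rw [Matrix.det_fin_two, Matrix.det_fin_two, hB']
      simp only [Matrix.sub_apply, Matrix.mul_apply, Fin.sum_univ_two, Matrix.smul_apply,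
        smul_eq_mul]
      refine ⟨-(B 0 0 * (X0 1 0 * D1 0 1 + X0 1 1 * D1 1 1)) -
        (X0 0 0 * D1 0 0 + X0 0 1 * D1 1 0) * B 1 1 +
        e * ((X0 0 0 * D1 0 0 + X0 0 1 * D1 1 0) * (X0 1 0 * D1 0 1 + X0 1 1 * D1 1 1)) +
        B 0 1 * (X0 1 0 * D1 0 0 + X0 1 1 * D1 1 0) +
        (X0 0 0 * D1 0 1 + X0 0 1 * D1 1 1) * B 1 0 -
        e * ((X0 0 0 * D1 0 1 + X0 0 1 * D1 1 1) * (X0 1 0 * D1 0 0 + X0 1 1 * D1 1 0)), ?_⟩
      ring
    obtain ⟨k1, hk1⟩ := hdvd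
    refine ⟨k0 + k1, ?_⟩
    rw [Matrix.det_fin_two B] at hk1
    linear_combination hk1 + hk0
  have b00 := congrFun (congrFun hB' 0) 0
  have b01 := congrFun (congrFun hB' 0) 1
  have b10 := congrFun (congrFun hB' 1) 0
  have b11 := congrFun (congrFun hB' 1) 1
  simp only [Matrix.sub_apply, Matrix.mul_apply, Fin.sum_univ_two, Matrix.smul_apply,
    smul_eq_mul, Matrix.of_apply, Matrix.cons_val_zero, Matrix.cons_val_one,
    Matrix.cons_val', Matrix.cons_val_fin_one, hX0] at b00 b01 b10 b11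
  have hη : r 0 * (-B' 0 0 * w1 + B' 0 1 * w0) + r 1 * (-B' 1 0 * w1 + B' 1 1 * w0) = 1 := by
    rw [b00, b01, b10, b11]
    subst hw0 hw1 hm ht0 ht1
    linear_combination hr - e * (D1 0 0 * D1 1 1 - D1 0 1 * D1 1 0) * (r 0 * ξ 0 + r 1 * ξ 1) * huv
  refine ⟨X0 + !![k * r 1 * u0, k * r 1 * u1; -k * r 0 * u0, -k * r 0 * u1], ?_⟩
  have hfin : B - (X0 + !![k * r 1 * u0, k * r 1 * u1; -k * r 0 * u0, -k * r 0 * u1]) * (e • D1) =
      B' - !![e * (k * r 1 * w0), e * (k * r 1 * w1); -e * (k * r 0 * w0),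
        -e * (k * r 0 * w1)] := by
    rw [hB', add_mul, sub_add_eq_sub_sub]
    congr 1
    apply M2_ext <;>
    · simp only [Matrix.mul_apply, Fin.sum_univ_two, Matrix.smul_apply,
        smul_eq_mul, Matrix.of_apply, Matrix.cons_val_zero, Matrix.cons_val_one,
        Matrix.cons_val', Matrix.cons_val_fin_one, hw0, hw1]
      ring
  rw [hfin]
  rw [Matrix.det_fin_two] at hk ⊢
  simp only [Matrix.sub_apply, Matrix.of_apply, Matrix.cons_val_zero, Matrix.cons_val_one,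
    Matrix.cons_val', Matrix.cons_val_fin_one]
  linear_combination hk - e * k * hη

/-! ### Words `C R C R C` -/

/-- A word `C R C R C` times the diagonal image of a six-fold pair. -/
def W5 (g : SLn 4) : Prop := ∃ (X2 X3 X4 X5 X6 : M2) (A : SLn 2 × SLn 2),
  SixIn ((Up 2).prod (Up 2)) ((Lo 2).prod (Lo 2)) A ∧
    g = CB X2 * RB X3 * CB X4 * RB X5 * CB X6 * DB A

theorem CB_mul_CB (X Y : M2) : CB X * CB Y = CB (X + Y) := by
  apply Subtype.ext
  rw [SL_val_mul, CB_val, CB_val, CB_val, b4_mul]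
  simp only [one_mul, mul_one, mul_zero, zero_mul, add_zero, zero_add]

theorem RB_mul_RB (X Y : M2) : RB X * RB Y = RB (X + Y) := by
  apply Subtype.ext
  rw [SL_val_mul, RB_val, RB_val, RB_val, b4_mul]
  simp only [one_mul, mul_one, mul_zero, zero_mul, add_zero, zero_add, add_comm Y X]

theorem CB_zero : CB 0 = 1 := Subtype.ext b4_one

theorem RB_zero : RB 0 = 1 := Subtype.ext b4_one

theorem DB_CB (P : SLn 2 × SLn 2) (Y : M2) : DB P * CB Y = CB (P.2.1 * Y * P.1⁻¹.1) * DB P := by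
  rw [CB_DB]
  congr 2
  have h1 : P.2⁻¹.1 * P.2.1 = 1 := by rw [← SL_val_mul, inv_mul_cancel]; rfl
  have h2 : P.1⁻¹.1 * P.1.1 = 1 := by rw [← SL_val_mul, inv_mul_cancel]; rfl
  calc Y = 1 * Y * 1 := by rw [one_mul, mul_one]
    _ = P.2⁻¹.1 * P.2.1 * Y * (P.1⁻¹.1 * P.1.1) := by rw [h1, h2]
    _ = _ := by simp only [mul_assoc]

theorem W5.CB_mul {g : SLn 4} (h : W5 g) (Y : M2) : W5 (CB Y * g) := by
  obtain ⟨X2, X3, X4, X5, X6, A, hA, rfl⟩ := h
  exact ⟨Y + X2, X3, X4, X5, X6, A, hA, by rw [← CB_mul_CB]; simp only [mul_assoc]⟩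

theorem W5.mul_CB {g : SLn 4} (h : W5 g) (Y : M2) : W5 (g * CB Y) := by
  obtain ⟨X2, X3, X4, X5, X6, A, hA, rfl⟩ := h
  refine ⟨X2, X3, X4, X5, X6 + A.2.1 * Y * A.1⁻¹.1, A, hA, ?_⟩
  rw [mul_assoc _ (DB A), DB_CB, ← CB_mul_CB]
  simp only [mul_assoc]

theorem W5.RB_mul {g : SLn 4} (h : W5 g) (X : M2) : Six (RB X * g) := by
  obtain ⟨X2, X3, X4, X5, X6, A, hA, rfl⟩ := h
  have := merge_b4 (X1 := X) (X2 := X2) (X3 := X3) (X4 := X4) (X5 := X5) (X6 := X6) hA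
  simpa only [mul_assoc] using this

theorem W5.six {g : SLn 4} (h : W5 g) : Six g := by
  have := h.RB_mul 0
  rwa [RB_zero, one_mul] at this

/-- All block antidiagonal elements are `W5`. -/
def AntiOK : Prop := ∀ (g : SLn 4) (P Q : M2), g.1 = b4 0 P Q 0 → W5 g

/-- An inverse of a `2×2` matrix of determinant `±1`. -/
theorem exists_inv {V : M2} (hV : IsUnit V.det) : ∃ W : M2, V * W = 1 ∧ W * V = 1 :=
  ⟨V⁻¹, Matrix.mul_nonsing_inv V hV, Matrix.nonsing_inv_mul V hV⟩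

/-- **Consequence lemma.** If `B - X D` is invertible for some `X` then `g` is a six-fold
product. -/
theorem six_of_shift (hA : AntiOK) (g : SLn 4) (A B C D X : M2) (hg : g.1 = b4 A B C D)
    (hX : IsUnit (B - X * D).det) : Six g := by
  obtain ⟨V, hV⟩ : ∃ V : M2, V = B - X * D := ⟨_, rfl⟩
  rw [← hV] at hX
  obtain ⟨W, hVW, hWV⟩ := exists_inv hX
  obtain ⟨A', hA'⟩ : ∃ A' : M2, A' = A - X * C := ⟨_, rfl⟩
  obtain ⟨h, hh⟩ : ∃ h : SLn 4, h = CB (-(D * W)) * (RB (-X) * g) * CB (-(W * A')) := ⟨_, rfl⟩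
  have hval : h.1 = b4 0 V (C - D * W * A') 0 := by
    rw [hh, SL_val_mul, SL_val_mul, SL_val_mul, RB_val, CB_val, CB_val, hg, b4_mul, b4_mul, b4_mul]
    have e1 : V * -(W * A') = -A' := by rw [mul_neg, ← mul_assoc, hVW, one_mul]
    have e2 : D * W * V = D := by rw [mul_assoc, hWV, mul_one]
    have e3 : (1 : M2) * A + -X * C = A' := by rw [hA']; noncomm_ring
    have e4 : (1 : M2) * B + -X * D = V := by rw [hV]; noncomm_ring
    have e5 : (0 : M2) * B + 1 * D = D := by noncomm_ring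
    have e6 : (0 : M2) * A + 1 * C = C := by noncomm_ring
    rw [e3, e4, e5, e6]
    simp only [one_mul, mul_one, zero_mul, add_zero, zero_add, mul_zero]
    have e7 : -(D * W) * V + D = 0 := by rw [neg_mul, e2, neg_add_cancel]
    rw [e7, e1, add_neg_cancel, zero_mul, add_zero]
    congr 1
    noncomm_ring
  have hW5 := hA h _ _ hval
  have hg' : g = RB X * (CB (D * W) * h * CB (W * A')) := by
    have r1 : RB X * RB (-X) = 1 := by rw [RB_mul_RB, add_neg_cancel, RB_zero]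
    have r2 : CB (D * W) * CB (-(D * W)) = 1 := by rw [CB_mul_CB, add_neg_cancel, CB_zero]
    have r3 : CB (-(W * A')) * CB (W * A') = 1 := by rw [CB_mul_CB, neg_add_cancel, CB_zero]
    calc g = RB X * RB (-X) * g := by rw [r1, one_mul]
      _ = RB X * ((CB (D * W) * CB (-(D * W))) * (RB (-X) * g) *
            (CB (-(W * A')) * CB (W * A'))) := by rw [r2, r3, one_mul, mul_one, mul_assoc]
      _ = _ := by rw [hh]; simp only [mul_assoc]
  rw [hg']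
  exact ((hW5.CB_mul _).mul_CB _).RB_mul _

/-- A left inverse of the last two block columns. -/
theorem exists_left_inv (g : SLn 4) (A B C D : M2) (hg : g.1 = b4 A B C D) :
    ∃ Y Z : M2, Y * B + Z * D = 1 := by
  obtain ⟨P, hP⟩ : ∃ P, P = g⁻¹.1 := ⟨_, rfl⟩
  have h : P * b4 A B C D = 1 := by
    rw [hP, ← hg, ← SL_val_mul, inv_mul_cancel]; rfl
  have e : P = b4 !![P 0 0, P 0 1; P 1 0, P 1 1] !![P 0 2, P 0 3; P 1 2, P 1 3]
      !![P 2 0, P 2 1; P 3 0, P 3 1] !![P 2 2, P 2 3; P 3 2, P 3 3] := by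
    ext i j
    fin_cases i <;> fin_cases j <;> simp [b4]
  refine ⟨!![P 2 0, P 2 1; P 3 0, P 3 1], !![P 2 2, P 2 3; P 3 2, P 3 3], ?_⟩
  rw [e, b4_mul, ← b4_one] at h
  have h22 := congrFun (congrFun h 2) 2
  have h23 := congrFun (congrFun h 2) 3
  have h32 := congrFun (congrFun h 3) 2
  have h33 := congrFun (congrFun h 3) 3
  simp only [b4, Matrix.of_apply, Matrix.cons_val] at h22 h23 h32 h33
  apply M2_ext
  · simpa using h22
  · simpa using h23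
  · simpa using h32
  · simpa using h33

/-- If the content `e` of `D` is such that `det B = ±1` modulo `e` then `g` is a six-fold
product. -/
theorem six_of_content (hA : AntiOK) (g : SLn 4) (A B C D D1 : M2) (e s : ℤ)
    (hg : g.1 = b4 A B C D) (hD : D = e • D1)
    (hc : ∃ r1 r2 r3 r4 : ℤ, r1 * D1 0 0 + r2 * D1 0 1 + r3 * D1 1 0 + r4 * D1 1 1 = 1)
    (hs : IsUnit s) (hd : e ∣ B.det - s) : Six g := by
  obtain ⟨Y, Z, hYZ⟩ := exists_left_inv g A B C D hg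
  obtain ⟨X, hX⟩ := exists_shift B D D1 Y Z e s hD hc hYZ hd
  exact six_of_shift hA g A B C D X hg (by rw [hX]; exact hs)

/-- If `D` is primitive then `g` is a six-fold product. -/
theorem six_of_primitive (hA : AntiOK) (g : SLn 4) (A B C D : M2) (hg : g.1 = b4 A B C D)
    (hc : ∃ r1 r2 r3 r4 : ℤ, r1 * D 0 0 + r2 * D 0 1 + r3 * D 1 0 + r4 * D 1 1 = 1) : Six g :=
  six_of_content hA g A B C D D 1 1 hg (one_smul ℤ D).symm hc isUnit_one (one_dvd _)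

/-- If `D = 0` then `g` is a six-fold product. -/
theorem six_of_zero (hA : AntiOK) (g : SLn 4) (A B C : M2) (hg : g.1 = b4 A B C 0) : Six g := by
  refine six_of_shift hA g A B C 0 0 hg ?_
  obtain ⟨Y, Z, hYZ⟩ := exists_left_inv g A B C 0 hg
  rw [mul_zero, add_zero] at hYZ
  rw [mul_zero, sub_zero]
  exact IsUnit.of_mul_eq_one_right _ (by rw [← Matrix.det_mul, hYZ, Matrix.det_one])

/-- The content of a nonzero matrix. -/
theorem exists_content (D : M2) (hD : D ≠ 0) : ∃ (e : ℤ) (D1 : M2), 0 < e ∧ D = e • D1 ∧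
    ∃ r1 r2 r3 r4 : ℤ, r1 * D1 0 0 + r2 * D1 0 1 + r3 * D1 1 0 + r4 * D1 1 1 = 1 := by
  obtain ⟨e, he⟩ : ∃ e : ℕ, e = Nat.gcd (Int.gcd (D 0 0) (D 0 1)) (Int.gcd (D 1 0) (D 1 1)) :=
    ⟨_, rfl⟩
  have h1 : (e : ℤ) ∣ (Int.gcd (D 0 0) (D 0 1) : ℤ) := by
    rw [he]; exact Int.natCast_dvd_natCast.mpr (Nat.gcd_dvd_left _ _)
  have h2 : (e : ℤ) ∣ (Int.gcd (D 1 0) (D 1 1) : ℤ) := by
    rw [he]; exact Int.natCast_dvd_natCast.mpr (Nat.gcd_dvd_right _ _)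
  obtain ⟨a, ha⟩ := h1.trans (Int.gcd_dvd_left (D 0 0) (D 0 1))
  obtain ⟨b, hb⟩ := h1.trans (Int.gcd_dvd_right (D 0 0) (D 0 1))
  obtain ⟨c, hc⟩ := h2.trans (Int.gcd_dvd_left (D 1 0) (D 1 1))
  obtain ⟨d, hd⟩ := h2.trans (Int.gcd_dvd_right (D 1 0) (D 1 1))
  have he0 : (e : ℤ) ≠ 0 := by
    intro h0
    apply hD
    rw [h0, zero_mul] at ha hb hc hd
    exact M2_ext ha hb hc hd
  refine ⟨e, !![a, b; c, d], by positivity, ?_, ?_⟩
  · apply M2_ext
    · simpa using ha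
    · simpa using hb
    · simpa using hc
    · simpa using hd
  · have b1 := Int.gcd_eq_gcd_ab (D 0 0) (D 0 1)
    have b2 := Int.gcd_eq_gcd_ab (D 1 0) (D 1 1)
    have b3 := Nat.gcd_eq_gcd_ab (Int.gcd (D 0 0) (D 0 1)) (Int.gcd (D 1 0) (D 1 1))
    rw [← he, b1, b2] at b3
    generalize (Int.gcd (D 0 0) (D 0 1)).gcdA (Int.gcd (D 1 0) (D 1 1)) = x at b3
    generalize (Int.gcd (D 0 0) (D 0 1)).gcdB (Int.gcd (D 1 0) (D 1 1)) = y at b3
    generalize (D 0 0).gcdA (D 0 1) = x1 at b3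
    generalize (D 0 0).gcdB (D 0 1) = y1 at b3
    generalize (D 1 0).gcdA (D 1 1) = x2 at b3
    generalize (D 1 0).gcdB (D 1 1) = y2 at b3
    refine ⟨x1 * x, y1 * x, x2 * y, y2 * y, ?_⟩
    apply mul_left_cancel₀ he0
    simp only [Matrix.of_apply, Matrix.cons_val_zero, Matrix.cons_val_one,
      Matrix.cons_val', Matrix.cons_val_fin_one]
    rw [ha, hb, hc, hd] at b3
    linear_combination -b3

end Pool.Agent.Lib.MP_efa98f_al
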