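import Pool.Agent.Lib.MP_efa98f_al.FourAntiFinal
import Pool.Agent.Lib.MP_efa98f_al.CKPlus
import Pool.Agent.Lib.MP_efa98f_al.Reduce

namespace Pool.Agent.Lib.MP_efa98f_al

open Matrix

theorem det_b4_D0 (A B C : M2) : (b4 A B C 0).det = B.det * C.det := by
  rw [Matrix.det_fin_two B, Matrix.det_fin_two C]
  simp [b4, Matrix.det_succ_row_zero, Fin.sum_univ_succ, Fin.succAbove]
  ring

/-- The matrices with lower right block zero. -/
theorem six_D_zero (g : SLn 4) (A B C : M2) (hg : g.1 = b4 A B C 0) : Six g := by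
  have hdet : B.det * C.det = 1 := by
    rw [← det_b4_D0 A, ← hg]; exact g.2
  obtain ⟨Ci, hCi⟩ : ∃ Ci : M2, Ci = B.det • C.adjugate := ⟨_, rfl⟩
  have hCiC : Ci * C = 1 := by
    rw [hCi, Matrix.smul_mul, Matrix.adjugate_mul, smul_smul, hdet, one_smul]
  have hX : (RB (-(A * Ci)) * g).1 = b4 0 B C 0 := by
    rw [SL_val_mul, RB_val, hg, b4_mul]
    have e1 : -(A * Ci) * C = -A := by
      rw [neg_mul, mul_assoc, hCiC, mul_one]
    simp only [one_mul, zero_mul, mul_zero, add_zero, zero_add, e1, add_neg_cancel]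
  have h6 := antidiag_six _ B C hX
  have hg' : g = RB (A * Ci) * (RB (-(A * Ci)) * g) := by
    have r1 : RB (A * Ci) * RB (-(A * Ci)) = 1 := by
      apply Subtype.ext
      rw [SL_val_mul, RB_val, RB_val, b4_mul]
      simp only [one_mul, mul_one, mul_zero, zero_mul, add_zero, zero_add, neg_add_cancel]
      exact b4_one
    rw [← mul_assoc, r1, one_mul]
  rw [hg']
  exact h6.mul_left (RB_mem _)

/-- The statement of Team B. -/
def TeamB : Prop :=
  ∀ (g : SLn 4) (A B C D : M2), g.1 = b4 A B C D → D ≠ 0 → Six g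

theorem four_all_of (hB : TeamB) (g : SLn 4) : Six g := by
  have hg := exists_b4 g.1
  by_cases hD : (!![g.1 2 2, g.1 2 3; g.1 3 2, g.1 3 3] : M2) = 0
  · rw [hD] at hg
    exact six_D_zero g _ _ _ hg
  · exact hB g _ _ _ _ hg hD

theorem six_ge_four_of (hB : TeamB) : ∀ n, 4 ≤ n → ∀ g : SLn n, Six g := by
  intro n hn
  induction n, hn using Nat.le_induction with
  | base => exact four_all_of hB
  | succ n hn ih =>
    intro g
    obtain ⟨k, rfl⟩ : ∃ k, n = k + 2 := ⟨n - 2, by omega⟩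
    obtain ⟨r1, c1, r2, g', c2, hg⟩ := reduce (k := k) g
    rw [hg]
    have := merge_blk (r1 := r1) (c1 := c1) (r2 := r2) (c2 := 0) (r3 := 0) (c3 := c2) (ih g')
    simpa [CC_zero, RR_zero] using this

end Pool.Agent.Lib.MP_efa98f_al
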