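import Mathlib

set_option autoImplicit false

namespace Pool.Agent.Lib.MP_efa98f_al.FourPart3

/-- powers of `f1 + g1 ρ`, `ρ² = t ρ - P`, of norm one. -/
theorem pow_norm (t P f1 g1 : ℤ) (h : f1^2 + t*f1*g1 + P*g1^2 = 1) (n : ℕ) :
    ∃ f g : ℤ, f^2 + t*f*g + P*g^2 = 1 ∧ P ∣ f - f1^n := by
  induction n with
  | zero => exact ⟨1, 0, by ring, by simp⟩
  | succ n ih =>
    obtain ⟨f, g, hn, k, hk⟩ := ih
    refine ⟨f1*f - P*g1*g, g1*f + f1*g + t*g1*g, ?_, ?_⟩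
    · have e : (f1*f - P*g1*g)^2 + t*(f1*f - P*g1*g)*(g1*f + f1*g + t*g1*g) +
        P*(g1*f + f1*g + t*g1*g)^2 = (f1^2 + t*f1*g1 + P*g1^2) * (f^2 + t*f*g + P*g^2) := by ring
      rw [e, h, hn, one_mul]
    · refine ⟨f1 * k - g1*g, ?_⟩
      have : f = f1^n + P*k := by linarith
      rw [this]
      ring

/-- Choice of the auxiliary prime `q`. -/
theorem exists_q (p : ℕ) (hp : p.Prime) (hp2 : p ≠ 2) (c0 : ℤ)
    (hc : IsSquare ((c0 : ℤ) : ZMod p)) (hc0 : ¬ (p:ℤ) ∣ c0) :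
    ∃ q : ℕ, q.Prime ∧ q % 4 = 3 ∧ 3 < q ∧ p < q ∧ ((q : ZMod p)^2 * (c0 : ZMod p) = 1) ∧
      (q : ZMod p) ≠ 1 := by
  have : Fact p.Prime := ⟨hp⟩
  obtain ⟨s, hs⟩ := hc
  have hc0' : ((c0 : ℤ) : ZMod p) ≠ 0 := by
    intro h
    exact hc0 ((ZMod.intCast_zmod_eq_zero_iff_dvd c0 p).mp h)
  have hs0 : s ≠ 0 := by
    rintro rfl
    exact hc0' (by rw [hs]; ring)
  have hneg1 : (-1 : ZMod p) ≠ 1 := by
    have : Fact (2 < p) := ⟨by have := hp.two_le; omega⟩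
    exact ZMod.neg_one_ne_one
  obtain ⟨z, hz0, hz1, hz⟩ : ∃ z : ZMod p, z ≠ 0 ∧ z ≠ 1 ∧ z^2 * (c0 : ZMod p) = 1 := by
    by_cases h1 : s⁻¹ = 1
    · refine ⟨-s⁻¹, by simpa using hs0, by rw [h1]; exact hneg1, ?_⟩
      rw [hs]; field_simp
    · refine ⟨s⁻¹, inv_ne_zero hs0, h1, ?_⟩
      rw [hs]; field_simp
  have hco : Nat.Coprime p 4 := by
    rw [show (4:ℕ) = 2^2 by norm_num]
    exact Nat.Coprime.pow_right 2 ((Nat.coprime_primes hp Nat.prime_two).mpr hp2)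
  obtain ⟨a, ha1, ha2⟩ := Nat.chineseRemainder hco z.val 3
  have haz : (a : ZMod p) = z := by
    have := (ZMod.natCast_eq_natCast_iff a z.val p).mpr ha1
    rw [this, ZMod.natCast_zmod_val]
  have hcop : Nat.Coprime a (p * 4) := by
    apply Nat.Coprime.mul_right
    · rw [Nat.coprime_comm, hp.coprime_iff_not_dvd]
      intro h
      apply hz0
      rw [← haz]
      exact (ZMod.natCast_eq_zero_iff a p).mpr h
    · have : a % 4 = 3 := by have := ha2; unfold Nat.ModEq at this; omega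
      have h4 : Nat.gcd a 4 = Nat.gcd 4 (a % 4) := by rw [Nat.gcd_comm, Nat.gcd_rec, Nat.gcd_comm]
      unfold Nat.Coprime
      rw [h4, this]
      rfl
  obtain ⟨q, hq1, hq, hq2⟩ := Nat.forall_exists_prime_gt_and_modEq (p + 3) (q := p*4) (a := a)
    (by have := hp.pos; omega) hcop
  have hqa1 : q ≡ a [MOD p] := hq2.of_mul_right 4
  have hqa2 : q ≡ a [MOD 4] := hq2.of_mul_left p
  have hqz : (q : ZMod p) = z := by
    rw [← haz]
    exact (ZMod.natCast_eq_natCast_iff q a p).mpr hqa1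
  refine ⟨q, hq, ?_, by omega, by omega, by rw [hqz]; exact hz, by rw [hqz]; exact hz1⟩
  have := hqa2.trans ha2
  unfold Nat.ModEq at this
  omega

theorem part3 (p : ℕ) (hp : p.Prime) (hp2 : p ≠ 2) (c0 : ℤ)
    (hc : IsSquare ((c0 : ℤ) : ZMod p)) (hc0 : ¬ (p:ℤ) ∣ c0) :
    ∃ k t f g : ℤ, 0 < c0 + k*p ∧ f^2 + t*f*g + (c0 + k*p)*g^2 = 1 ∧ (c0 + k*p) ∣ f - p := by
  have : Fact p.Prime := ⟨hp⟩
  obtain ⟨q, hq, hq4, hq3, hpq, hqc, hq1⟩ := exists_q p hp hp2 c0 hc hc0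
  obtain ⟨m, hm⟩ : ∃ m, q = 2*m + 1 := ⟨q/2, by omega⟩
  have hmodd : m % 2 = 1 := by omega
  have hm1 : 1 < m := by omega
  have hcpm : Nat.Coprime p m := by
    rw [hp.coprime_iff_not_dvd]
    rintro ⟨x, hx⟩
    apply hq1
    rw [hm, hx]
    push_cast
    simp
  have hcpq : Nat.Coprime p q := (Nat.coprime_primes hp hq).mpr (by omega)
  have hcop1 : Nat.Coprime (p^m) m := Nat.Coprime.pow_left m hcpm
  have hcop2 : Nat.Coprime (p^m) (q^2) := Nat.Coprime.pow_left m (Nat.Coprime.pow_right 2 hcpq)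
  -- the inverse of q^2 modulo p^m
  obtain ⟨w, hw⟩ : ∃ w : ℕ, q^2 * w ≡ 1 [MOD p^m] := by
    have h1 : 1 < p^m := Nat.one_lt_pow (by omega) hp.one_lt
    obtain ⟨w, -, hw⟩ := Nat.exists_mul_mod_eq_one_of_coprime hcop2.symm h1
    refine ⟨w, ?_⟩
    unfold Nat.ModEq
    rw [hw, Nat.mod_eq_of_lt h1]
  obtain ⟨a, ha1, ha2⟩ := Nat.chineseRemainder hcop1 w (m-1)
  have hcopa : Nat.Coprime a (p^m * m) := by
    apply Nat.Coprime.mul_right
    · have h1 : Nat.Coprime (q^2 * w) (p^m) := by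
        have := hw.gcd_eq
        unfold Nat.Coprime
        rw [this]; simp
      have h2 : Nat.Coprime w (p^m) := Nat.Coprime.coprime_mul_left h1
      unfold Nat.Coprime
      rw [ha1.gcd_eq]; exact h2
    · have h1 : Nat.Coprime (m-1) m := by
        have := Nat.coprime_self_add_right (m := m-1) (n := 1)
        rw [show m - 1 + 1 = m by omega] at this
        exact this.mpr (Nat.coprime_one_right _)
      unfold Nat.Coprime
      rw [ha2.gcd_eq]; exact h1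
  obtain ⟨P, hP1, hP, hP2⟩ := Nat.forall_exists_prime_gt_and_modEq (p + m) (q := p^m*m) (a := a)
    (mul_ne_zero (pow_ne_zero m hp.ne_zero) (by omega)) hcopa
  have hPw : P ≡ w [MOD p^m] := (hP2.of_mul_right m).trans ha1
  have hPm : P ≡ m - 1 [MOD m] := (hP2.of_mul_left (p^m)).trans ha2
  have hPq : P * q^2 ≡ 1 [MOD p^m] := by
    have := hPw.mul_right (q^2)
    rw [mul_comm w] at this
    exact this.trans hw
  -- P = c0 mod p
  have hPc : (p : ℤ) ∣ (P : ℤ) - c0 := by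
    have h1 : (P : ZMod p) * (q : ZMod p)^2 = 1 := by
      have h2 : P * q^2 ≡ 1 [MOD p] := hPq.of_dvd (dvd_pow_self p (by omega))
      have := (ZMod.natCast_eq_natCast_iff _ _ p).mpr h2
      push_cast at this
      exact this
    have h3 : (P : ZMod p) = (c0 : ZMod p) := by
      calc (P : ZMod p) = P * ((q : ZMod p)^2 * (c0 : ZMod p)) := by rw [hqc, mul_one]
        _ = (P * (q : ZMod p)^2) * c0 := by ring
        _ = c0 := by rw [h1, one_mul]
    rw [← ZMod.intCast_zmod_eq_zero_iff_dvd]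
    push_cast
    rw [h3, sub_self]
  obtain ⟨k, hk⟩ := hPc
  -- divisibility by p^m q
  have hdiv : ((p^m * q : ℕ) : ℤ) ∣ 1 - (p:ℤ)^(2*m) - P * (q:ℤ)^2 := by
    have h1 : ((p^m : ℕ) : ℤ) ∣ 1 - (p:ℤ)^(2*m) - P * (q:ℤ)^2 := by
      have h2 : ((p^m : ℕ) : ℤ) ∣ 1 - ((P * q^2 : ℕ) : ℤ) := by
        have := (Nat.modEq_iff_dvd.mp hPq)
        push_cast at this ⊢
        exact this
      have h3 : ((p^m : ℕ) : ℤ) ∣ (p:ℤ)^(2*m) := by
        push_cast
        rw [two_mul, pow_add]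
        exact dvd_mul_right _ _
      have := h2.sub h3
      push_cast at this ⊢
      have e : (1 : ℤ) - (p:ℤ)^(2*m) - P * (q:ℤ)^2 = 1 - P * (q:ℤ)^2 - (p:ℤ)^(2*m) := by ring
      rw [e]; exact this
    have h4 : ((q : ℕ) : ℤ) ∣ 1 - (p:ℤ)^(2*m) - P * (q:ℤ)^2 := by
      have : Fact q.Prime := ⟨hq⟩
      have h5 : (q : ℤ) ∣ 1 - (p:ℤ)^(2*m) := by
        rw [← ZMod.intCast_zmod_eq_zero_iff_dvd]
        push_cast
        have hp0 : (p : ZMod q) ≠ 0 := by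
          intro h
          have := (ZMod.natCast_eq_zero_iff p q).mp h
          exact absurd (Nat.le_of_dvd hp.pos this) (by omega)
        have := ZMod.pow_card_sub_one_eq_one hp0
        rw [show q - 1 = 2*m by omega] at this
        rw [this, sub_self]
      have h6 : (q:ℤ) ∣ P * (q:ℤ)^2 := Dvd.dvd.mul_left (dvd_pow_self _ (by norm_num)) _
      exact h5.sub h6
    have h7 : IsCoprime ((p^m : ℕ) : ℤ) ((q : ℕ) : ℤ) :=
      Nat.isCoprime_iff_coprime.mpr (Nat.Coprime.pow_left m hcpq)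
    have := h7.mul_dvd h1 h4
    push_cast at this ⊢
    exact this
  obtain ⟨t, ht⟩ := hdiv
  have hnorm : ((p:ℤ)^m)^2 + t*((p:ℤ)^m)*(q:ℤ) + (P:ℤ)*(q:ℤ)^2 = 1 := by
    push_cast at ht
    have e : ((p:ℤ)^m)^2 = (p:ℤ)^(2*m) := by rw [← pow_mul, mul_comm]
    rw [e]
    linarith [ht, mul_comm t ((p:ℤ)^m * q)]
  -- the exponent
  have hgcd : Nat.Coprime m (P-1) := by
    have hP0 : 1 ≤ P := hP.one_lt.le
    -- P + 1 ≡ 0 mod m
    have h1 : m ∣ P + 1 := by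
      have h2 : P + 1 ≡ (m-1) + 1 [MOD m] := hPm.add_right 1
      rw [show m - 1 + 1 = m by omega] at h2
      exact (Nat.modEq_zero_iff_dvd.mp (h2.trans (by simp [Nat.ModEq])))
    have h3 : Nat.gcd m (P-1) ∣ 2 := by
      have h4 : Nat.gcd m (P-1) ∣ P + 1 := (Nat.gcd_dvd_left _ _).trans h1
      have h5 : Nat.gcd m (P-1) ∣ P - 1 := Nat.gcd_dvd_right _ _
      have := Nat.dvd_sub h4 h5
      rwa [show P + 1 - (P-1) = 2 by omega] at this
    have h6 := (Nat.dvd_prime Nat.prime_two).mp h3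
    rcases h6 with h6 | h6
    · exact h6
    · exfalso
      have : 2 ∣ m := h6 ▸ Nat.gcd_dvd_left m (P-1)
      omega
  have hP2' : 1 < P - 1 := by omega
  obtain ⟨n, -, hn⟩ := Nat.exists_mul_mod_eq_one_of_coprime hgcd hP2'
  obtain ⟨f, g, hfg, hf⟩ := pow_norm t P ((p:ℤ)^m) q hnorm n
  have hmn : ∃ j, m * n = 1 + (P-1)*j := ⟨m*n/(P-1), by
    have := Nat.mod_add_div (m*n) (P-1)
    rw [hn] at this; exact this.symm⟩
  obtain ⟨j, hj⟩ := hmn
  have hFer : (P : ℤ) ∣ ((p:ℤ)^m)^n - p := by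
    have : Fact P.Prime := ⟨hP⟩
    rw [← ZMod.intCast_zmod_eq_zero_iff_dvd]
    push_cast
    have hp0 : (p : ZMod P) ≠ 0 := by
      intro h
      have := (ZMod.natCast_eq_zero_iff p P).mp h
      exact absurd (Nat.le_of_dvd hp.pos this) (by omega)
    rw [← pow_mul, hj, pow_add, pow_mul, ZMod.pow_card_sub_one_eq_one hp0]
    ring
  refine ⟨k, t, f, g, ?_, ?_, ?_⟩
  · have : c0 + k * p = P := by linarith [mul_comm (p:ℤ) k]
    rw [this]
    exact_mod_cast hP.pos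
  · have : c0 + k * p = P := by linarith [mul_comm (p:ℤ) k]
    rw [this]; exact hfg
  · have : c0 + k * p = P := by linarith [mul_comm (p:ℤ) k]
    rw [this]
    have := dvd_add hf hFer
    have e : f - ((p:ℤ)^m)^n + (((p:ℤ)^m)^n - p) = f - p := by ring
    rwa [e] at this

end Pool.Agent.Lib.MP_efa98f_al.FourPart3
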