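import Mathlib

/-! Part 3 of Theorem A for `n = 4`. -/

set_option autoImplicit false

namespace Pool.Agent.Lib.MP_efa98f_al.FourPart3h80

/-- powers in `ℤ[ρ]`, `ρ² = tρ - P`. -/
def pw (t P f1 g1 : ℤ) : ℕ → ℤ × ℤ
  | 0 => (1, 0)
  | n + 1 => (f1 * (pw t P f1 g1 n).1 - P * g1 * (pw t P f1 g1 n).2,
      f1 * (pw t P f1 g1 n).2 + g1 * (pw t P f1 g1 n).1 + t * g1 * (pw t P f1 g1 n).2)

theorem pw_norm (t P f1 g1 : ℤ) (h : f1 ^ 2 + t * f1 * g1 + P * g1 ^ 2 = 1) (n : ℕ) :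
    (pw t P f1 g1 n).1 ^ 2 + t * (pw t P f1 g1 n).1 * (pw t P f1 g1 n).2 +
      P * (pw t P f1 g1 n).2 ^ 2 = 1 := by
  induction n with
  | zero => simp [pw]
  | succ n ih =>
    simp only [pw]
    set a := (pw t P f1 g1 n).1
    set b := (pw t P f1 g1 n).2
    have : (f1 * a - P * g1 * b) ^ 2 + t * (f1 * a - P * g1 * b) * (f1 * b + g1 * a + t * g1 * b) +
        P * (f1 * b + g1 * a + t * g1 * b) ^ 2 =
        (f1 ^ 2 + t * f1 * g1 + P * g1 ^ 2) * (a ^ 2 + t * a * b + P * b ^ 2) := by ring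
    rw [this, h, ih, one_mul]

theorem pw_mod (t P f1 g1 : ℤ) (n : ℕ) : P ∣ (pw t P f1 g1 n).1 - f1 ^ n := by
  induction n with
  | zero => simp [pw]
  | succ n ih =>
    simp only [pw]
    obtain ⟨k, hk⟩ := ih
    refine ⟨f1 * k - g1 * (pw t P f1 g1 n).2, ?_⟩
    rw [pow_succ]
    linear_combination f1 * hk

theorem dirichlet_crt (M N : ℕ) (hM : 0 < M) (hN : 0 < N) (hMN : Nat.Coprime M N) (x y : ℤ)
    (hx : IsCoprime x (M : ℤ)) (hy : IsCoprime y (N : ℤ)) (B : ℕ) :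
    ∃ q : ℕ, q.Prime ∧ B < q ∧ (M : ℤ) ∣ (q : ℤ) - x ∧ (N : ℤ) ∣ (q : ℤ) - y := by
  have hc : IsCoprime (M : ℤ) (N : ℤ) := Nat.isCoprime_iff_coprime.mpr hMN
  obtain ⟨u, v, huv⟩ := hc
  -- u M + v N = 1
  set z : ℤ := y * (u * M) + x * (v * N) with hz
  have hzx : (M : ℤ) ∣ z - x := by
    refine ⟨u * (y - x), ?_⟩
    rw [hz]
    linear_combination x * huv
  have hzy : (N : ℤ) ∣ z - y := by
    refine ⟨v * (x - y), ?_⟩
    rw [hz]
    linear_combination y * huv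
  have h1 : IsCoprime z (M : ℤ) := by
    obtain ⟨k, hk⟩ := hzx
    have : z = x + M * k := by linarith
    rw [this]
    exact hx.add_mul_left_left _
  have h2 : IsCoprime z (N : ℤ) := by
    obtain ⟨k, hk⟩ := hzy
    have : z = y + N * k := by linarith
    rw [this]
    exact hy.add_mul_left_left _
  have h3 : IsCoprime z ((M * N : ℕ) : ℤ) := by
    push_cast
    exact h1.mul_right h2
  obtain ⟨q, hq1, hq2, hq3⟩ := Nat.forall_exists_prime_gt_and_zmodEq B (q := M * N) (a := z)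
    (by positivity) h3
  refine ⟨q, hq2, hq1, ?_, ?_⟩
  · have h4 : (q : ℤ) ≡ z [ZMOD M] := hq3.of_dvd (by push_cast; exact dvd_mul_right _ _)
    have h5 : (M : ℤ) ∣ (q : ℤ) - z := h4.symm.dvd
    have := dvd_add h5 hzx
    rwa [sub_add_sub_cancel] at this
  · have h4 : (q : ℤ) ≡ z [ZMOD N] := hq3.of_dvd (by push_cast; exact dvd_mul_left _ _)
    have h5 : (N : ℤ) ∣ (q : ℤ) - z := h4.symm.dvd
    have := dvd_add h5 hzy
    rwa [sub_add_sub_cancel] at this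

/-- choice of `z`. -/
theorem choose_z (p : ℕ) (hp : p.Prime) (hp2 : p ≠ 2) (c0 : ℤ) (hc : IsSquare ((c0 : ℤ) : ZMod p))
    (hc0 : ¬ (p : ℤ) ∣ c0) : ∃ z : ℤ, (p : ℤ) ∣ z ^ 2 * c0 - 1 ∧ ¬ (p : ℤ) ∣ z - 1 ∧
      IsCoprime z (p : ℤ) := by
  have := Fact.mk hp
  obtain ⟨r, hr⟩ := hc
  have hr0 : r ≠ 0 := by
    rintro rfl
    rw [mul_zero] at hr
    exact hc0 ((ZMod.intCast_zmod_eq_zero_iff_dvd c0 p).mp hr)
  have main : ∀ s : ZMod p, s ≠ 0 → s ≠ 1 → s ^ 2 * c0 = 1 → ∃ z : ℤ, (p : ℤ) ∣ z ^ 2 * c0 - 1 ∧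
      ¬ (p : ℤ) ∣ z - 1 ∧ IsCoprime z (p : ℤ) := by
    intro s hs0 hs1 hs
    refine ⟨(s.val : ℤ), ?_, ?_, ?_⟩
    · rw [← ZMod.intCast_zmod_eq_zero_iff_dvd]
      push_cast
      rw [ZMod.natCast_zmod_val, hs, sub_self]
    · rw [← ZMod.intCast_zmod_eq_zero_iff_dvd]
      push_cast
      rw [ZMod.natCast_zmod_val]
      exact sub_ne_zero.mpr hs1
    · have hpr : Prime (p : ℤ) := Nat.prime_iff_prime_int.mp hp
      rw [isCoprime_comm]
      refine (hpr.coprime_iff_not_dvd).mpr ?_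
      rw [← ZMod.intCast_zmod_eq_zero_iff_dvd]
      push_cast
      rw [ZMod.natCast_zmod_val]
      exact hs0
  have hinv : (r⁻¹) ^ 2 * (c0 : ZMod p) = 1 := by
    rw [hr]
    field_simp
  by_cases h1 : r⁻¹ = 1
  · refine main (-r⁻¹) (neg_ne_zero.mpr (inv_ne_zero hr0)) ?_ ?_
    · rw [h1]
      intro h2
      have h3 : (2 : ZMod p) = 0 := by
        have : (1 : ZMod p) + 1 = 0 := by
          nth_rewrite 1 [← h2]
          ring
        rw [← this]; norm_num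
      have h4 : ((2 : ℕ) : ZMod p) = 0 := by exact_mod_cast h3
      rw [ZMod.natCast_eq_zero_iff] at h4
      exact hp2 ((Nat.prime_dvd_prime_iff_eq hp Nat.prime_two).mp h4)
    · rw [neg_sq]; exact hinv
  · exact main r⁻¹ (inv_ne_zero hr0) h1 hinv

theorem part3 (p : ℕ) (hp : p.Prime) (hp2 : p ≠ 2) (c0 : ℤ) (hc : IsSquare ((c0 : ℤ) : ZMod p))
    (hc0 : ¬ (p : ℤ) ∣ c0) : ∃ k t f g : ℤ, 0 < c0 + k * p ∧
      f ^ 2 + t * f * g + (c0 + k * p) * g ^ 2 = 1 ∧ (c0 + k * p) ∣ f - p := by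
  obtain ⟨z, hz1, hz2, hz3⟩ := choose_z p hp hp2 c0 hc hc0
  have hpodd : Odd p := hp.odd_of_ne_two hp2
  have h4p : Nat.Coprime p 4 := by
    have : Nat.Coprime p 2 := (Nat.coprime_primes hp Nat.prime_two).mpr hp2
    exact Nat.Coprime.pow_right 2 this
  -- the prime q
  obtain ⟨q, hq, hq3, hqz, hq4⟩ := dirichlet_crt p 4 hp.pos (by norm_num) h4p z 3 hz3
    ⟨-1, 1, by norm_num⟩ (max 3 p)
  have hq3' : 3 < q := lt_of_le_of_lt (le_max_left _ _) hq3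
  have hqp : p < q := lt_of_le_of_lt (le_max_right _ _) hq3
  have hqmod : q % 4 = 3 := by
    have : (q : ℤ) % 4 = 3 := by
      obtain ⟨k, hk⟩ := hq4
      push_cast at hk
      omega
    omega
  obtain ⟨m, hm⟩ : ∃ m, q = 2 * m + 1 := ⟨q / 2, by omega⟩
  have hmodd : m % 2 = 1 := by omega
  have hmpos : 0 < m := by omega
  have hpm : Nat.Coprime p m := by
    rw [hp.coprime_iff_not_dvd]
    intro hd
    have h1 : (p : ℤ) ∣ (q : ℤ) - 1 := by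
      rw [hm]
      push_cast
      have : (p : ℤ) ∣ (m : ℤ) := by exact_mod_cast hd
      have h2 := Dvd.dvd.mul_left this 2
      have e : (2 * (m : ℤ) + 1 - 1) = 2 * m := by ring
      rw [e]
      exact h2
    have h2 := dvd_sub h1 hqz
    have e : (q : ℤ) - 1 - (q - z) = z - 1 := by ring
    rw [e] at h2
    exact hz2 h2
  -- inverse of q^2 modulo p^m
  have hcq : IsCoprime (q : ℤ) ((p ^ m : ℕ) : ℤ) := by
    have h1 : Nat.Coprime q p := (Nat.coprime_primes hq hp).mpr (by omega)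
    exact Nat.isCoprime_iff_coprime.mpr (Nat.Coprime.pow_right m h1)
  have hcq2 : IsCoprime ((q : ℤ) ^ 2) ((p ^ m : ℕ) : ℤ) := hcq.pow_left
  obtain ⟨w, v, hwv⟩ := hcq2
  -- w q^2 + v p^m = 1
  have hw : IsCoprime w ((p ^ m : ℕ) : ℤ) := ⟨(q : ℤ) ^ 2, v, by linarith⟩
  obtain ⟨P, hP, hPB, hPw, hPm⟩ := dirichlet_crt (p ^ m) m (pow_pos hp.pos m) hmpos
    (Nat.Coprime.pow_left m hpm) w (-1) hw ⟨-1, 0, by norm_num⟩ p
  -- P q^2 = 1 mod p^m
  have hPq : ((p : ℤ) ^ m) ∣ P * (q : ℤ) ^ 2 - 1 := by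
    obtain ⟨k, hk⟩ := hPw
    push_cast at hk hwv
    refine ⟨k * (q : ℤ) ^ 2 - v, ?_⟩
    linear_combination (q : ℤ) ^ 2 * hk + hwv
  have hpr : Prime (p : ℤ) := Nat.prime_iff_prime_int.mp hp
  have hp_dvd_pm : (p : ℤ) ∣ (p : ℤ) ^ m := dvd_pow_self _ (by omega)
  -- P = c0 mod p
  have hPc : (p : ℤ) ∣ P - c0 := by
    have h1 : (p : ℤ) ∣ P * (q : ℤ) ^ 2 - 1 := hp_dvd_pm.trans hPq
    have h2 : (p : ℤ) ∣ (q : ℤ) ^ 2 * c0 - 1 := by
      obtain ⟨k, hk⟩ := hqz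
      obtain ⟨k', hk'⟩ := hz1
      refine ⟨k' + k * ((q : ℤ) + z) * c0, ?_⟩
      linear_combination hk' + ((q : ℤ) + z) * c0 * hk
    have h3 : (p : ℤ) ∣ (q : ℤ) ^ 2 * (P - c0) := by
      have := dvd_sub h1 h2
      have e : (P : ℤ) * (q : ℤ) ^ 2 - 1 - ((q : ℤ) ^ 2 * c0 - 1) = (q : ℤ) ^ 2 * (P - c0) := by ring
      rwa [e] at this
    rcases hpr.dvd_or_dvd h3 with h4 | h4
    · exfalso
      have h5 : (p : ℤ) ∣ (q : ℤ) := hpr.dvd_of_dvd_pow h4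
      have h6 : p ∣ q := by exact_mod_cast h5
      have := (Nat.prime_dvd_prime_iff_eq hp hq).mp h6
      omega
    · exact h4
  obtain ⟨k, hk⟩ := hPc
  have hck : c0 + k * p = P := by linarith
  -- t
  have hqfermat : (q : ℤ) ∣ (p : ℤ) ^ (2 * m) - 1 := by
    have := Fact.mk hq
    have h1 : ((p : ℕ) : ZMod q) ≠ 0 := by
      rw [Ne, ZMod.natCast_eq_zero_iff]
      intro h2
      have := (Nat.prime_dvd_prime_iff_eq hq hp).mp h2
      omega
    have h2 := ZMod.pow_card_sub_one_eq_one h1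
    have h3 : q - 1 = 2 * m := by omega
    rw [h3] at h2
    rw [← ZMod.intCast_zmod_eq_zero_iff_dvd]
    push_cast
    rw [h2, sub_self]
  have hdiv : ((p : ℤ) ^ m * q) ∣ 1 - (p : ℤ) ^ (2 * m) - P * (q : ℤ) ^ 2 := by
    have hcop : IsCoprime ((p : ℤ) ^ m) (q : ℤ) := by
      have := hcq.symm
      push_cast at this
      exact this
    refine hcop.mul_dvd ?_ ?_
    · have h1 : (p : ℤ) ^ m ∣ (p : ℤ) ^ (2 * m) := pow_dvd_pow _ (by omega)
      have e : 1 - (p : ℤ) ^ (2 * m) - P * (q : ℤ) ^ 2 =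
          -((p : ℤ) ^ (2 * m)) - (P * (q : ℤ) ^ 2 - 1) := by ring
      rw [e]
      exact dvd_sub (dvd_neg.mpr h1) hPq
    · have e : 1 - (p : ℤ) ^ (2 * m) - P * (q : ℤ) ^ 2 =
          -((p : ℤ) ^ (2 * m) - 1) - (q : ℤ) * (P * q) := by ring
      rw [e]
      exact dvd_sub (dvd_neg.mpr hqfermat) (dvd_mul_right _ _)
  obtain ⟨t, ht⟩ := hdiv
  have hnorm : ((p : ℤ) ^ m) ^ 2 + t * ((p : ℤ) ^ m) * q + P * (q : ℤ) ^ 2 = 1 := by
    have : (p : ℤ) ^ (2 * m) = ((p : ℤ) ^ m) ^ 2 := by rw [← pow_mul]; ring_nf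
    rw [this] at ht
    linear_combination -ht
  -- n
  have hP2 : 2 < P := by
    have := hp.two_le
    omega
  have hcopm : Nat.Coprime m (P - 1) := by
    obtain ⟨k', hk'⟩ := hPm
    -- P + 1 = m k'
    have h1 : (m : ℤ) ∣ (P : ℤ) + 1 := ⟨k', by linarith⟩
    have h2 : m ∣ P + 1 := by exact_mod_cast h1
    rw [Nat.coprime_iff_gcd_eq_one] 
    have hg1 : Nat.gcd m (P - 1) ∣ P + 1 := (Nat.gcd_dvd_left _ _).trans h2
    have hg2 : Nat.gcd m (P - 1) ∣ P - 1 := Nat.gcd_dvd_right _ _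
    have hg3 : Nat.gcd m (P - 1) ∣ 2 := by
      have := Nat.dvd_sub hg1 hg2
      have e : P + 1 - (P - 1) = 2 := by omega
      rwa [e] at this
    rcases (Nat.dvd_prime Nat.prime_two).mp hg3 with h5 | h5
    · exact h5
    · exfalso
      have h6 : 2 ∣ m := by rw [← h5]; exact Nat.gcd_dvd_left _ _
      omega
  obtain ⟨n, s, hns⟩ : ∃ n s : ℕ, m * n = 1 + (P - 1) * s := by
    obtain ⟨n, -, hn⟩ := Nat.exists_mul_mod_eq_one_of_coprime hcopm (by omega)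
    refine ⟨n, (m * n) / (P - 1), ?_⟩
    have := Nat.mod_add_div (m * n) (P - 1)
    rw [hn] at this
    exact this.symm
  refine ⟨k, t, (pw t P ((p : ℤ) ^ m) q n).1, (pw t P ((p : ℤ) ^ m) q n).2, ?_, ?_, ?_⟩
  · rw [hck]; exact_mod_cast hP.pos
  · rw [hck]
    exact pw_norm t P _ _ hnorm n
  · rw [hck]
    have h1 := pw_mod t P ((p : ℤ) ^ m) q n
    have h2 : (P : ℤ) ∣ ((p : ℤ) ^ m) ^ n - p := by
      have := Fact.mk hP
      have h3 : ((p : ℕ) : ZMod P) ≠ 0 := by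
        rw [Ne, ZMod.natCast_eq_zero_iff]
        intro h4
        exact absurd (Nat.le_of_dvd hp.pos h4) (by omega)
      have h4 := ZMod.pow_card_sub_one_eq_one h3
      rw [← ZMod.intCast_zmod_eq_zero_iff_dvd]
      push_cast
      rw [← pow_mul, hns, pow_add, pow_mul, h4, one_pow, mul_one, pow_one, sub_self]
    have := dvd_add h1 h2
    rwa [sub_add_sub_cancel] at this

end Pool.Agent.Lib.MP_efa98f_al.FourPart3h80
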