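import Pool.Agent.Lib.MP_efa98f_al.CKData

/-! Preparation of an arbitrary matrix of `SL_4(Z)` (step (5) of the proof for `n = 4`): the upper right
block becomes `!![1,0;s,l]` with `l` odd, and the upper right entry of the lower right block is a unit
modulo `l`. -/

set_option autoImplicit false

namespace Pool.Agent.Lib.MP_efa98f_al.FourPrep5

open Matrix

/-- stable range -/
theorem stable (a b l : ℤ) (hl : l ≠ 0) (h : ∃ u v w : ℤ, u*a + v*b + w*l = 1) :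
    ∃ j : ℤ, IsCoprime (a + j*b) l := by
  classical
  obtain ⟨u, v, w, h⟩ := h
  obtain ⟨J, hJ⟩ : ∃ J : ℕ, J = ∏ p ∈ l.natAbs.primeFactors.filter (fun p : ℕ => ¬ ((p : ℤ) ∣ a)), p :=
    ⟨_, rfl⟩
  refine ⟨(J : ℤ), ?_⟩
  rw [Int.isCoprime_iff_gcd_eq_one]
  by_contra hne
  obtain ⟨p, hp, hpd⟩ := Nat.exists_prime_and_dvd hne
  have hpl : (p : ℤ) ∣ l := (Int.natCast_dvd_natCast.mpr hpd).trans (Int.gcd_dvd_right _ _)
  have hps : (p : ℤ) ∣ a + (J : ℤ) * b :=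
    (Int.natCast_dvd_natCast.mpr hpd).trans (Int.gcd_dvd_left _ _)
  have hpi : Prime (p : ℤ) := Nat.prime_iff_prime_int.mp hp
  have hmem : p ∈ l.natAbs.primeFactors := by
    rw [Nat.mem_primeFactors]
    exact ⟨hp, Int.natCast_dvd.mp hpl, by simpa using hl⟩
  by_cases ha : (p : ℤ) ∣ a
  · have h1 : (p : ℤ) ∣ (J : ℤ) * b := (dvd_add_right ha).mp hps
    rcases hpi.dvd_or_dvd h1 with h2 | h2
    · have h2' : p ∣ J := Int.natCast_dvd_natCast.mp h2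
      rw [hJ, hp.prime.dvd_finsetProd_iff] at h2'
      obtain ⟨q, hq, hpq⟩ := h2'
      rw [Finset.mem_filter, Nat.mem_primeFactors] at hq
      have h3 : p = q := (Nat.prime_dvd_prime_iff_eq hp hq.1.1).mp hpq
      exact hq.2 (h3 ▸ ha)
    · have : (p : ℤ) ∣ 1 := by
        rw [← h]
        exact dvd_add (dvd_add (ha.mul_left u) (h2.mul_left v)) (hpl.mul_left w)
      exact hpi.not_isUnit (isUnit_of_dvd_one this)
  · have h1 : p ∣ J := by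
      rw [hJ]
      exact Finset.dvd_prod_of_mem (fun p : ℕ => p) (Finset.mem_filter.mpr ⟨hmem, ha⟩)
    have h2 : (p : ℤ) ∣ (J : ℤ) := Int.natCast_dvd_natCast.mpr h1
    exact ha ((dvd_add_left (h2.mul_right b)).mp hps)

/-- a primitive vector with prescribed value. -/
theorem prim (α1 α2 γ1 γ2 : ℤ) (h : ∃ p q r s : ℤ, p*α1 + q*α2 + r*γ1 + s*γ2 = 1) :
    ∃ κ1 κ2 v1 v2 x y : ℤ, κ1*α1 + κ2*α2 + v1*γ1 + v2*γ2 = 1 ∧ v1*x + v2*y = 1 := by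
  obtain ⟨p, q, r, s, h⟩ := h
  obtain ⟨δ, g1, g2, a, b, h1, h2, h3⟩ : ∃ δ g1 g2 a b : ℤ, γ1 = δ*g1 ∧ γ2 = δ*g2 ∧ a*g1 + b*g2 = 1 := by
    by_cases h0 : γ1 = 0 ∧ γ2 = 0
    · exact ⟨0, 1, 0, 1, 0, by rw [h0.1]; ring, by rw [h0.2]; ring, by ring⟩
    · have hpos : 0 < Int.gcd γ1 γ2 := by
        rw [Nat.pos_iff_ne_zero]
        intro h
        exact h0 (Int.gcd_eq_zero_iff.mp h)
      obtain ⟨g1, h1⟩ := Int.gcd_dvd_left γ1 γ2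
      obtain ⟨g2, h2⟩ := Int.gcd_dvd_right γ1 γ2
      have h3 := Int.gcd_eq_gcd_ab γ1 γ2
      refine ⟨Int.gcd γ1 γ2, g1, g2, Int.gcdA γ1 γ2, Int.gcdB γ1 γ2, h1, h2, ?_⟩
      have h4 : (Int.gcd γ1 γ2 : ℤ) ≠ 0 := by exact_mod_cast hpos.ne'
      apply mul_left_cancel₀ h4
      calc (Int.gcd γ1 γ2 : ℤ) * (Int.gcdA γ1 γ2 * g1 + Int.gcdB γ1 γ2 * g2)
          = (Int.gcd γ1 γ2 * g1) * Int.gcdA γ1 γ2 + (Int.gcd γ1 γ2 * g2) * Int.gcdB γ1 γ2 := by ring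
        _ = Int.gcd γ1 γ2 * 1 := by rw [← h1, ← h2, ← h3, mul_one]
  -- v = t (a,b) + (-g2, g1), t = r g1 + s g2
  refine ⟨p, q, (r*g1 + s*g2)*a - g2, (r*g1+s*g2)*b + g1, -b, a, ?_, ?_⟩
  · rw [h1, h2] at h ⊢
    linear_combination h + δ*(r*g1+s*g2)*h3
  · linear_combination h3

theorem prep5 (A B D A' B' C' D' : M2) (h1 : A' * B + B' * D = 0) (h2 : C' * B + D' * D = 1)
    (h3 : A * A' + B * C' = 1) :
    ∃ (x i j s l : ℤ) (X Q : M2), l % 2 = 1 ∧ Q.det = 1 ∧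
      (uu x * B - X * D) * (ll i * uu j) = !![1,0;s,l] * Q ∧
      IsCoprime ((Q * D * (ll i * uu j) * Q.adjugate) 0 1) l := by
  have h1e : ∀ a b, (A' * B + B' * D) a b = 0 := fun a b => by rw [h1]; rfl
  have h2e : ∀ a b, (C' * B + D' * D) a b = (1 : M2) a b := fun a b => by rw [h2]
  have h3e : ∀ a b, (A * A' + B * C') a b = (1 : M2) a b := fun a b => by rw [h3]
  simp only [Matrix.add_apply, Matrix.mul_apply, Fin.sum_univ_two] at h1e h2e h3e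
  have h100 := h1e 0 0
  have h101 := h1e 0 1
  have h110 := h1e 1 0
  have h111 := h1e 1 1
  have h200 := h2e 0 0
  have h201 := h2e 0 1
  have h210 := h2e 1 0
  have h211 := h2e 1 1
  have h300 := h3e 0 0
  simp only [Matrix.one_apply_eq] at h200 h211 h300
  rw [Matrix.one_apply_ne (by decide)] at h201 h210
  obtain ⟨k1, k2, v1, v2, xx, yy, hk, hv⟩ := prim (A' 0 0) (A' 1 0) (C' 0 0) (C' 1 0)
    ⟨A 0 0, A 0 1, B 0 0, B 0 1, by linarith⟩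
  obtain ⟨x, hx⟩ : ∃ x, x = v1 * C' 0 1 + v2 * C' 1 1 + k1 * A' 0 1 + k2 * A' 1 1 := ⟨_, rfl⟩
  obtain ⟨y, hy⟩ : ∃ y, y = v1 * D' 0 0 + v2 * D' 1 0 + k1 * B' 0 0 + k2 * B' 1 0 := ⟨_, rfl⟩
  obtain ⟨z, hz⟩ : ∃ z, z = v1 * D' 0 1 + v2 * D' 1 1 + k1 * B' 0 1 + k2 * B' 1 1 := ⟨_, rfl⟩
  have hv1 : B 0 0 + x * B 1 0 + y * D 0 0 + z * D 1 0 = v1 := by
    rw [hx, hy, hz]
    linear_combination v1*h200 + v2*h210 + k1*h100 + k2*h110 - B 0 0 * hk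
  have hv2 : B 0 1 + x * B 1 1 + y * D 0 1 + z * D 1 1 = v2 := by
    rw [hx, hy, hz]
    linear_combination v1*h201 + v2*h211 + k1*h101 + k2*h111 - B 0 1 * hk
  -- the determinants with the first row
  have key : (-yy * C' 0 0 + xx * C' 1 0) * (v1 * B 0 1 - v2 * B 0 0) +
      (-yy * C' 0 1 + xx * C' 1 1) * (v1 * B 1 1 - v2 * B 1 0) +
      (-yy * D' 0 0 + xx * D' 1 0) * (v1 * D 0 1 - v2 * D 0 0) +
      (-yy * D' 0 1 + xx * D' 1 1) * (v1 * D 1 1 - v2 * D 1 0) = 1 := by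
    linear_combination v1*(-yy*h201 + xx*h211) - v2*(-yy*h200 + xx*h210) + hv
  have hb1 : v1 * B 0 1 - v2 * B 0 0 = -x * (v1 * B 1 1 - v2 * B 1 0) - y * (v1 * D 0 1 - v2 * D 0 0) -
      z * (v1 * D 1 1 - v2 * D 1 0) := by
    linear_combination v1*hv2 - v2*hv1
  rw [hb1] at key
  obtain ⟨f1, hf1⟩ : ∃ f1, f1 = v1 * D 0 1 - v2 * D 0 0 := ⟨_, rfl⟩
  obtain ⟨f2, hf2⟩ : ∃ f2, f2 = v1 * D 1 1 - v2 * D 1 0 := ⟨_, rfl⟩
  obtain ⟨g, hg⟩ : ∃ g, g = v1 * B 1 1 - v2 * B 1 0 := ⟨_, rfl⟩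
  rw [← hf1, ← hf2, ← hg] at key
  obtain ⟨a1, a2, a0, hkey⟩ : ∃ a1 a2 a0 : ℤ, a1*f1 + a2*f2 + a0*g = 1 :=
    ⟨(-yy * C' 0 0 + xx * C' 1 0) * (-y) + (-yy * D' 0 0 + xx * D' 1 0),
      (-yy * C' 0 0 + xx * C' 1 0) * (-z) + (-yy * D' 0 1 + xx * D' 1 1),
      (-yy * C' 0 0 + xx * C' 1 0) * (-x) + (-yy * C' 0 1 + xx * C' 1 1), by
      linear_combination key⟩
  -- parity
  obtain ⟨e1, e2, hodd⟩ : ∃ e1 e2 : ℤ, (g + e1*f1 + e2*f2) % 2 = 1 := by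
    by_contra hcon
    push Not at hcon
    have c0 := hcon 0 0
    have c1 := hcon 1 0
    have c2 := hcon 0 1
    have d0 : g % 2 = 0 := by
      have : g + 0*f1 + 0*f2 = g := by ring
      rw [this] at c0; omega
    have d1 : f1 % 2 = 0 := by
      have : g + 1*f1 + 0*f2 = g + f1 := by ring
      rw [this] at c1; omega
    have d2 : f2 % 2 = 0 := by
      have : g + 0*f1 + 1*f2 = g + f2 := by ring
      rw [this] at c2; omega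
    obtain ⟨t0, ht0⟩ := Int.dvd_of_emod_eq_zero d0
    obtain ⟨t1, ht1⟩ := Int.dvd_of_emod_eq_zero d1
    obtain ⟨t2, ht2⟩ := Int.dvd_of_emod_eq_zero d2
    rw [ht0, ht1, ht2] at hkey
    have : 2*(a1*t1 + a2*t2 + a0*t0) = 1 := by linarith
    omega
  obtain ⟨l, hl⟩ : ∃ l, l = g + e1*f1 + e2*f2 := ⟨_, rfl⟩
  rw [← hl] at hodd
  have hl0 : l ≠ 0 := by rintro h; rw [h] at hodd; simp at hodd
  have hchi : (a1 - a0*e1)*f1 + (a2 - a0*e2)*f2 + a0*l = 1 := by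
    rw [hl]; linear_combination hkey
  obtain ⟨i, hi⟩ := stable v1 v2 l hl0 ⟨xx, yy, 0, by linarith⟩
  obtain ⟨c, c', hc⟩ := hi
  obtain ⟨x1, hx1⟩ : ∃ x1, x1 = v1 + i*v2 := ⟨_, rfl⟩
  rw [← hx1] at hc
  obtain ⟨b1, hb1'⟩ : ∃ b1, b1 = a1 - a0*e1 := ⟨_, rfl⟩
  obtain ⟨b2, hb2'⟩ : ∃ b2, b2 = a2 - a0*e2 := ⟨_, rfl⟩
  rw [← hb1', ← hb2'] at hchi
  obtain ⟨j, hj⟩ := stable (x1*f1 + v2*f2) (x1*f2) l hl0
    ⟨b1*c, b2*c - b1*c^2*v2, a0 + b1*c'*f1 + b2*c'*f2 - b1*c*c'*v2*f2, by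
      linear_combination hchi + (b1*f1 + b2*f2 - b1*c*v2*f2)*hc⟩
  obtain ⟨m, hm⟩ : ∃ m, m = B 1 0 + e1*D 0 0 + e2*D 1 0 := ⟨_, rfl⟩
  obtain ⟨n, hn⟩ : ∃ n, n = B 1 1 + e1*D 0 1 + e2*D 1 1 := ⟨_, rfl⟩
  have hlmn : l = v1*n - v2*m := by
    rw [hl, hm, hn, hf1, hf2, hg]; ring
  refine ⟨x, i, j, m*xx + n*yy, l, !![-y, -z; -e1, -e2], !![v1, v2; -yy, xx] * (ll i * uu j), hodd,
    ?_, ?_, ?_⟩
  · rw [Matrix.det_mul, Matrix.det_mul]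
    simp only [Matrix.det_fin_two_of]
    linear_combination hv
  · rw [← Matrix.mul_assoc (!![1,0;m*xx+n*yy,l])]
    congr 1
    ext a b
    fin_cases a <;> fin_cases b <;>
      simp [Matrix.mul_apply, Fin.sum_univ_two, Matrix.sub_apply, Matrix.vecMul, dotProduct]
    · linear_combination hv1
    · linear_combination hv2
    · rw [hlmn, hm, hn]
      linear_combination (-(B 1 0 + e1*D 0 0 + e2*D 1 0))*hv
    · rw [hlmn, hm, hn]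
      linear_combination (-(B 1 1 + e1*D 0 1 + e2*D 1 1))*hv
  · have e : (!![v1, v2; -yy, xx] * (ll i * uu j) * D * (ll i * uu j) *
        (!![v1, v2; -yy, xx] * (ll i * uu j)).adjugate) 0 1 = x1*f1 + v2*f2 + j*(x1*f2) := by
      rw [Matrix.adjugate_fin_two, hf1, hf2, hx1]
      simp [Matrix.mul_apply, Fin.sum_univ_two, Matrix.vecMul, dotProduct]
      ring
    rw [e]
    exact hj

end Pool.Agent.Lib.MP_efa98f_al.FourPrep5
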