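import Mathlib

set_option autoImplicit false

/-! Units of `ℤ[θ]`, `θ² - tθ + d = 0`, with prescribed residue: if `a ∣ d ^ r - s`, `s = ±1`, then
`(θ - a) θ ^ (r+1) / d ^ (r+1)` is a unit `x + yθ` with `a ^ r x = -1` modulo `d`. -/

namespace Pool.Agent.Lib.MP_efa98f_al.UnitWrap

theorem wrap_step (a d e s : ℤ) (r : ℕ) (he : a * e = 1 - s * d ^ r) (k : ℕ)
    (hk : k ≤ r) : ∃ y h : ℤ,
      s * d ^ k * y ^ 2 + (d * e - a) * y * h + d ^ (r - k) * d * h ^ 2 = s ∧
      d ∣ a ^ k * y - 1 := by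
  induction k with
  | zero => exact ⟨1, 0, by simp, by simp⟩
  | succ k ih =>
    obtain ⟨y, h, h1, h2⟩ := ih (by omega)
    obtain ⟨j, hj⟩ : ∃ j, r = k + 1 + j := ⟨r - (k + 1), by omega⟩
    have e1 : r - k = j + 1 := by omega
    have e2 : r - (k + 1) = j := by omega
    rw [e1] at h1
    rw [e2]
    have hr : d ^ r = d ^ k * d ^ j * d := by rw [hj]; ring
    have he' : a * e = 1 - s * (d ^ k * d ^ j * d) := by rw [← hr]; exact he
    refine ⟨e * y + d ^ (j + 1) * h, a * h - s * d ^ k * y, ?_, ?_⟩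
    · have q1 : d ^ (k + 1) = d ^ k * d := pow_succ d k
      have q2 : d ^ (j + 1) = d ^ j * d := pow_succ d j
      rw [q1, q2]
      rw [q2] at h1
      linear_combination (s * d ^ k * y ^ 2 + (d * e - a) * y * h + d ^ j * d * d * h ^ 2) * he'
        + h1
    · obtain ⟨m, hm⟩ := h2
      refine ⟨m - s * d ^ k * d ^ j * a ^ k * y + a ^ (k + 1) * d ^ j * h, ?_⟩
      have q2 : d ^ (j + 1) = d ^ j * d := pow_succ d j
      rw [q2, pow_succ]
      linear_combination (a ^ k * y) * he' + hm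

theorem wrap_unit (a d : ℤ) (r : ℕ) (s : ℤ) (hs : s = 1 ∨ s = -1) (ha : a ∣ d ^ r - s) :
    ∃ t x y : ℤ, (x ^ 2 + t * x * y + d * y ^ 2 = 1 ∨ x ^ 2 + t * x * y + d * y ^ 2 = -1) ∧
      d ∣ a ^ r * x + 1 := by
  obtain ⟨m, hm⟩ := ha
  have hs2 : s * s = 1 := by rcases hs with h | h <;> rw [h] <;> norm_num
  have he : a * (-s * m) = 1 - s * d ^ r := by
    linear_combination s * hm + hs2
  obtain ⟨y, h, h1, h2⟩ := wrap_step a d (-s * m) s r he r (le_refl _)
  set e := -s * m with hedef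
  have h1' : s * d ^ r * y ^ 2 + (d * e - a) * y * h + d * h ^ 2 = s := by
    have : r - r = 0 := by omega
    rw [this, pow_zero, one_mul] at h1
    exact h1
  refine ⟨a + d * e, -y, e * y + h, ?_, ?_⟩
  · have key : (-y) ^ 2 + (a + d * e) * (-y) * (e * y + h) + d * (e * y + h) ^ 2 = s := by
      linear_combination h1' - y ^ 2 * he
    rcases hs with h' | h'
    · left; rw [key, h']
    · right; rw [key, h']
  · obtain ⟨n, hn⟩ := h2
    exact ⟨-n, by linear_combination -hn⟩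

end Pool.Agent.Lib.MP_efa98f_al.UnitWrap
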