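import Mathlib
import Pool.Agent.Lib.MP_efa98f_al.UnitWrap
import Pool.Agent.Lib.MP_efa98f_al.Exp84

set_option autoImplicit false

/-! Units `x + yθ` with `x = c` modulo `d` from a product of primes that is `1/c` or `-1/c` modulo
`d`. -/

namespace Pool.Agent.Lib.MP_efa98f_al.Exp84

theorem from_primes (c d : ℤ) (hd : d ≠ 0) (s : ℤ) (hs : s = 1 ∨ s = -1) (L : List ℕ)
    (hL : L.Nodup)
    (hq : ∀ q ∈ L, q.Prime ∧ q % 4 = 3 ∧ Nat.Coprime ((q - 1) / 2) (Nat.totient d.natAbs) ∧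
      (q : ℤ) ∣ d ^ ((q - 1) / 2) - s ∧ IsCoprime (q : ℤ) d)
    (hac : d ∣ ((L.prod : ℕ) : ℤ) * c - 1 ∨ d ∣ ((L.prod : ℕ) : ℤ) * c + 1) :
    ∃ t x y : ℤ, (x ^ 2 + t * x * y + d * y ^ 2 = 1 ∨ x ^ 2 + t * x * y + d * y ^ 2 = -1) ∧
      d ∣ x - c := by
  obtain ⟨r, -, -, h1, h2⟩ := exp_piece d hd s hs L hL hq
  obtain ⟨t, x, y, h3, h4⟩ := UnitWrap.wrap_unit _ d r s hs h1
  set a : ℤ := ((L.prod : ℕ) : ℤ) with ha
  -- `d ∣ a x + 1`
  have h5 : d ∣ a * x + 1 := by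
    have h6 : d ∣ (a ^ r - a) * x := h2.mul_right x
    have h7 : a * x + 1 = (a ^ r * x + 1) - (a ^ r - a) * x := by ring
    rw [h7]
    exact dvd_sub h4 h6
  rcases hac with h | h
  · -- `a c = 1`, `x = -c`
    refine ⟨t, -x, -y, ?_, ?_⟩
    · have e : (-x) ^ 2 + t * (-x) * (-y) + d * (-y) ^ 2 = x ^ 2 + t * x * y + d * y ^ 2 := by ring
      rw [e]
      exact h3
    · have h6 : d ∣ (a * c - 1) * x - (a * x + 1) * c := dvd_sub (h.mul_right x) (h5.mul_right c)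
      have h7 : -x - c = (a * c - 1) * x - (a * x + 1) * c := by ring
      rw [h7]
      exact h6
  · refine ⟨t, x, y, h3, ?_⟩
    have h6 : d ∣ (a * c + 1) * x - (a * x + 1) * c := dvd_sub (h.mul_right x) (h5.mul_right c)
    have h7 : x - c = (a * c + 1) * x - (a * x + 1) * c := by ring
    rw [h7]
    exact h6

end Pool.Agent.Lib.MP_efa98f_al.Exp84
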