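import Pool.Agent.Lib.MP_efa98f_al.CK

namespace Pool.Agent.Lib.MP_efa98f_al

theorem seq_lemma (a b c d : ℤ) (hdet : a*d - b*c = 1) (k : ℕ) :
    ∃ f g : ℤ, f^2 + (a+d)*f*g + g^2 = 1 ∧ b ∣ g + f*a - a^k ∧ c ∣ g + f*d - d^k := by
  induction k with
  | zero => exact ⟨0, 1, by ring, by simp, by simp⟩
  | succ k ih =>
    obtain ⟨f, g, h1, ⟨u, hu⟩, ⟨v, hv⟩⟩ := ih
    refine ⟨(a+d)*f + g, -f, by linear_combination h1, ⟨a*u + c*f, ?_⟩, ⟨d*v + b*f, ?_⟩⟩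
    · rw [pow_succ]; linear_combination a * hu + f * hdet
    · rw [pow_succ]; linear_combination d * hv + f * hdet

theorem seq_lemma2 (a b c d : ℤ) (hdet : a*d - b*c = 1) (k : ℕ) :
    ∃ f g : ℤ, f^2 + (a+d)*f*g + g^2 = 1 ∧ b ∣ g + f*a - a^(k+1) ∧ c ∣ f + g*a - d^k := by
  obtain ⟨f, g, h1, ⟨u, hu⟩, ⟨v, hv⟩⟩ := seq_lemma a b c d hdet k
  refine ⟨(a+d)*f + g, -f, by linear_combination h1, ⟨a*u + c*f, ?_⟩, ⟨v, ?_⟩⟩
  · rw [pow_succ]; linear_combination a * hu + f * hdet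
  · linear_combination hv

theorem dvd_pow_sub_one_of_dvd {p x : ℤ} {h k : ℕ} (hp : p ∣ x^h - 1) (hk : h ∣ k) :
    p ∣ x^k - 1 := by
  obtain ⟨j, rfl⟩ := hk
  rw [pow_mul]
  exact hp.trans (by simpa using sub_dvd_pow_sub_pow (x^h) 1 j)

theorem nt_main (a b c d : ℤ) (hdet : a*d - b*c = 1) (hd : 0 < d) (hd4 : d % 4 = 3) :
    ∃ ξ3 ξ4 a' b' c' d' f g β γ : ℤ, a' = a + b*ξ3 ∧ c' = c + d*ξ3 ∧ b' = b + a'*ξ4 ∧
      d' = d + c'*ξ4 ∧ f^2 + (a'+d')*f*g + g^2 = 1 ∧ g + f*a' = 1 + b'*β ∧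
      f + g*a' = 1 + c'*γ ∧ f + g ≠ 0 := by
  obtain ⟨D, rfl⟩ : ∃ D : ℕ, d = D := ⟨d.toNat, by omega⟩
  have hD4 : D % 4 = 3 := by omega
  have hcop : Int.gcd c (D : ℤ) = 1 := by
    rw [← Int.isCoprime_iff_gcd_eq_one]
    exact ⟨-b, a, by linear_combination hdet⟩
  have hDodd : Odd D := by rw [Nat.odd_iff]; omega
  -- the sign
  obtain ⟨ε, hε, hε2⟩ : ∃ ε : ℤ, jacobiSym (ε * c) D = -1 ∧ (ε = 1 ∨ ε = -1) := by
    rcases jacobiSym.eq_one_or_neg_one (a := c) (b := D) hcop with h | h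
    · refine ⟨-1, ?_, Or.inr rfl⟩
      rw [jacobiSym.mul_left, h, jacobiSym.at_neg_one hDodd, ZMod.χ₄_nat_three_mod_four hD4]
      norm_num
    · exact ⟨1, by rw [one_mul, h], Or.inl rfl⟩
  have hεε : ε * ε = 1 := by rcases hε2 with h | h <;> rw [h] <;> norm_num
  -- first prime
  obtain ⟨r, hr⟩ : ∃ r : ℤ, r = ε * c + D * (ε * c - 3) := ⟨_, rfl⟩
  have hr4 : r % 4 = 3 := by
    obtain ⟨m, hm⟩ : ∃ m : ℤ, (D : ℤ) = 4 * m + 3 := ⟨(D : ℤ) / 4, by omega⟩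
    rw [hr, hm]
    have : ε * c + (4 * m + 3) * (ε * c - 3) = 4 * (ε * c + m * (ε * c - 3) - 3) + 3 := by ring
    rw [this]; omega
  have hrD : IsCoprime r (D : ℤ) := by
    have h1 : IsCoprime (ε * c) (D : ℤ) := ⟨-b * ε, a, by linear_combination hdet - b * c * hεε⟩
    rw [hr]
    exact IsCoprime.add_mul_left_left h1 _
  have hr4' : IsCoprime r (4 : ℤ) := ⟨-1, r / 4 + 1, by omega⟩
  have hcop2 : IsCoprime r ((4 * D : ℕ) : ℤ) := by
    push_cast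
    exact hr4'.mul_right hrD
  obtain ⟨P, hPgt, hPp, hPr⟩ := Nat.forall_exists_prime_gt_and_zmodEq 3 (q := 4 * D) (a := r)
    (by omega) hcop2
  obtain ⟨w, hw⟩ : ∃ w : ℤ, (P : ℤ) = r + 4 * D * w := by
    have := hPr.symm.dvd
    obtain ⟨w, hw⟩ := this
    refine ⟨w, ?_⟩
    push_cast at hw
    linear_combination hw
  have hP4 : P % 4 = 3 := by
    have : (P : ℤ) % 4 = 3 := by
      rw [hw, show r + 4 * D * w = r + 4 * (D * w) by ring]; omega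
    omega
  obtain ⟨h, hh⟩ : ∃ h : ℕ, P = 2 * h + 1 := ⟨P / 2, by omega⟩
  have hh2 : P / 2 = h := by omega
  have hh1 : h % 2 = 1 := by omega
  obtain ⟨ξ3, hξ3⟩ : ∃ ξ3 : ℤ, ε * P = c + D * ξ3 := by
    refine ⟨c - 3 * ε + 4 * ε * w, ?_⟩
    rw [hw, hr]
    linear_combination (c + D * c) * hεε
  obtain ⟨a', ha'⟩ : ∃ a' : ℤ, a' = a + b * ξ3 := ⟨_, rfl⟩
  obtain ⟨c', hc'⟩ : ∃ c' : ℤ, c' = c + D * ξ3 := ⟨_, rfl⟩
  have hcP : c' = ε * P := by rw [hc', hξ3]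
  have hdet' : a' * D - b * c' = 1 := by rw [ha', hc']; linear_combination hdet
  have hP0 : (P : ℤ) > 3 := by exact_mod_cast hPgt
  have ha0 : a' ≠ 0 := by
    intro h0
    rw [h0, hcP] at hdet'
    have : (P : ℤ) ∣ 1 := ⟨-(b * ε), by linear_combination -hdet'⟩
    have := Int.le_of_dvd one_pos this
    omega
  -- second prime
  obtain ⟨x, hx⟩ : ∃ x : ℤ, x = ε * b - a' * D := ⟨_, rfl⟩
  have hPh : (P : ℤ) = 2 * h + 1 := by exact_mod_cast hh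
  have hx2 : x = -1 - 2 * h * ε * b := by
    rw [hx]
    rw [hcP, hPh] at hdet'
    linear_combination -hdet'
  have hxa : IsCoprime x a' := ⟨-ε * c', D - ε * c' * D, by
    rw [hx]; linear_combination hdet' - b * c' * hεε⟩
  have hxh : IsCoprime x (h : ℤ) := ⟨-1, -2 * ε * b, by rw [hx2]; ring⟩
  have hxah : IsCoprime x ((a'.natAbs * h : ℕ) : ℤ) := by
    push_cast
    refine IsCoprime.mul_right ?_ hxh
    rcases abs_choice a' with h' | h' <;> rw [h']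
    · exact hxa
    · exact hxa.neg_right
  have hah0 : a'.natAbs * h ≠ 0 := by
    have : a'.natAbs ≠ 0 := by simpa using ha0
    have : h ≠ 0 := by omega
    positivity
  obtain ⟨P', hP'gt, hP'p, hP'r⟩ := Nat.forall_exists_prime_gt_and_zmodEq
    (a' * a' + a'.natAbs + 10).natAbs hah0 hxah
  obtain ⟨w', hw'⟩ : ∃ w' : ℤ, (P' : ℤ) = x + a' * h * w' := by
    obtain ⟨z, hz⟩ := hP'r.symm.dvd
    push_cast at hz
    rcases abs_choice a' with h' | h' <;> rw [h'] at hz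
    · exact ⟨z, by linear_combination hz⟩
    · exact ⟨-z, by linear_combination hz⟩
  obtain ⟨ξ4, hξ4⟩ : ∃ ξ4 : ℤ, ε * P' = b + a' * ξ4 := by
    refine ⟨ε * (h * w' - D), ?_⟩
    rw [hw', hx]
    linear_combination b * hεε
  obtain ⟨b', hb'⟩ : ∃ b' : ℤ, b' = b + a' * ξ4 := ⟨_, rfl⟩
  obtain ⟨d', hd'⟩ : ∃ d' : ℤ, d' = D + c' * ξ4 := ⟨_, rfl⟩
  have hbP : b' = ε * P' := by rw [hb', hξ4]
  have hdet'' : a' * d' - b' * c' = 1 := by rw [hb', hd']; linear_combination hdet'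
  -- coprimality of the exponents
  have hP'1 : 1 ≤ P' := hP'p.one_lt.le
  have hcopk : Nat.Coprime h (P' - 1) := by
    rw [← Nat.isCoprime_iff_coprime]
    push_cast [hP'1]
    obtain ⟨j, hj⟩ : ∃ j : ℤ, (h : ℤ) = 2 * j + 1 := ⟨(h : ℤ) / 2, by omega⟩
    refine ⟨1 + j * (2 * ε * b - a' * w'), j, ?_⟩
    rw [hw', hx2]
    linear_combination hj
  obtain ⟨k, hk1, hk2⟩ := Nat.chineseRemainder hcopk 0 (P' - 2)
  have hk1' : h ∣ k := (Nat.modEq_zero_iff_dvd).mp hk1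
  have hk2' : P' - 1 ∣ k + 1 := by
    have h2 : 2 ≤ P' := hP'p.two_le
    have : k + 1 ≡ (P' - 2) + 1 [MOD (P' - 1)] := Nat.ModEq.add_right 1 hk2
    rw [show P' - 2 + 1 = P' - 1 by omega] at this
    exact (Nat.modEq_zero_iff_dvd).mp (this.trans (by simp [Nat.ModEq]))
  obtain ⟨f, g, hfg, hdvd1, hdvd2⟩ := seq_lemma2 a' b' c' d' hdet'' k
  -- Fermat
  have haP' : (P' : ℤ) ∣ a' ^ (P' - 1) - 1 := by
    have hcopa : IsCoprime a' (P' : ℤ) := ⟨d', -(c' * ε), by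
      rw [hbP] at hdet''; linear_combination hdet''⟩
    exact (Int.ModEq.pow_card_sub_one_eq_one hP'p hcopa).symm.dvd
  have h1 : b' ∣ a' ^ (k+1) - 1 := by
    have := dvd_pow_sub_one_of_dvd haP' hk2'
    rw [hbP]
    rcases hε2 with h' | h' <;> rw [h'] <;> simpa using this
  -- the quadratic residue
  have hdP : (P : ℤ) ∣ d' ^ h - 1 := by
    have : Fact P.Prime := ⟨hPp⟩
    have e1 : jacobiSym (D : ℤ) P = 1 := by
      rw [jacobiSym.quadratic_reciprocity_three_mod_four hD4 hP4]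
      have : jacobiSym (P : ℤ) D = jacobiSym (ε * c) D := by
        apply jacobiSym.mod_left'
        rw [hw, hr, show ε * c + D * (ε * c - 3) + 4 * D * w = ε * c + D * (ε * c - 3 + 4 * w) by ring]
        exact Int.add_mul_emod_self_left _ _ _
      rw [this, hε]; norm_num
    have e2 : jacobiSym d' P = 1 := by
      rw [← e1]
      apply jacobiSym.mod_left'
      rw [hd', hcP, show (D : ℤ) + ε * P * ξ4 = D + P * (ε * ξ4) by ring]
      exact Int.add_mul_emod_self_left _ _ _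
    have e3 := legendreSym.eq_pow P d'
    rw [jacobiSym.legendreSym.to_jacobiSym, e2, hh2] at e3
    rw [← ZMod.intCast_zmod_eq_zero_iff_dvd] 
    push_cast
    rw [← e3]; simp
  have h2 : c' ∣ d' ^ k - 1 := by
    have := dvd_pow_sub_one_of_dvd hdP hk1'
    rw [hcP]
    rcases hε2 with h' | h' <;> rw [h'] <;> simpa using this
  obtain ⟨β, hβ⟩ := dvd_add hdvd1 h1
  obtain ⟨γ, hγ⟩ := dvd_add hdvd2 h2
  refine ⟨ξ3, ξ4, a', b', c', d', f, g, β, γ, ha', hc', hb', hd', hfg, by linear_combination hβ,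
    by linear_combination hγ, ?_⟩
  intro hfg0
  have hg : g = -f := by linear_combination hfg0
  rw [hg] at hfg
  have hf1 : f * f * (2 - (a' + d')) = 1 := by linear_combination hfg
  have ht : a' + d' = 1 := by
    have h3 : f * f ∣ 1 := ⟨_, hf1.symm⟩
    have h4 : f * f = 1 := Int.eq_one_of_dvd_one (mul_self_nonneg f) h3
    rw [h4] at hf1
    linear_combination -hf1
  have hd1 : d' = 1 - a' := by linear_combination ht
  rw [hd1, hbP, hcP] at hdet''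
  have h5 : (P' : ℤ) * P = a' - a' * a' - 1 := by linear_combination -hdet'' - P' * P * hεε
  have h6 : (0:ℤ) < P' := by exact_mod_cast hP'p.pos
  have h7 : (0:ℤ) < P := by exact_mod_cast hPp.pos
  nlinarith [mul_pos h6 h7, mul_self_nonneg (a' - 1), mul_self_nonneg a']

theorem good_all (E : SLn 2) : Good E := by
  obtain ⟨a0, b0, c0, d0, hE⟩ : ∃ a0 b0 c0 d0, E.1 = !![a0, b0; c0, d0] :=
    ⟨_, _, _, _, Matrix.eta_fin_two _⟩
  have hdet0 : a0 * d0 - b0 * c0 = 1 := by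
    have := E.2
    rw [hE, Matrix.det_fin_two] at this
    simpa using this
  obtain ⟨ξ1, hξ1⟩ : ∃ ξ1 : ℤ, (c0 + d0 * ξ1) % 2 = 1 := by
    rcases Int.emod_two_eq_zero_or_one c0 with h | h
    · refine ⟨1, ?_⟩
      rcases Int.emod_two_eq_zero_or_one d0 with h' | h'
      · exfalso
        obtain ⟨c1, hc1⟩ : ∃ c1, c0 = 2 * c1 := ⟨c0 / 2, by omega⟩
        obtain ⟨d1, hd1⟩ : ∃ d1, d0 = 2 * d1 := ⟨d0 / 2, by omega⟩
        have : 2 * (a0 * d1 - b0 * c1) = 1 := by rw [hc1, hd1] at hdet0; linear_combination hdet0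
        omega
      · omega
    · exact ⟨0, by simpa using h⟩
  obtain ⟨c1, hc1⟩ : ∃ c1, c1 = c0 + d0 * ξ1 := ⟨_, rfl⟩
  obtain ⟨a1, ha1⟩ : ∃ a1, a1 = a0 + b0 * ξ1 := ⟨_, rfl⟩
  rw [← hc1] at hξ1
  have hdet1 : a1 * d0 - b0 * c1 = 1 := by rw [ha1, hc1]; linear_combination hdet0
  obtain ⟨ξ2, hξ2, hξ2'⟩ : ∃ ξ2 : ℤ, 0 < d0 + c1 * ξ2 ∧ (d0 + c1 * ξ2) % 4 = 3 := by
    refine ⟨c1 * (3 - d0) + 4 * c1 * (d0 * d0 + 1), ?_, ?_⟩
    · have h1 : 1 ≤ c1 * c1 := by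
        have : c1 ≠ 0 := by rintro rfl; simp at hξ1
        nlinarith [mul_self_pos.mpr this]
      have h2 : d0 + c1 * (c1 * (3 - d0) + 4 * c1 * (d0 * d0 + 1)) =
          d0 + (c1 * c1) * (4 * (d0 * d0) - d0 + 7) := by ring
      rw [h2]
      nlinarith [mul_self_nonneg (d0 - 1), mul_self_nonneg d0, mul_self_nonneg (d0 + 1)]
    · obtain ⟨m, hm⟩ : ∃ m, c1 = 2 * m + 1 := ⟨c1 / 2, by omega⟩
      rw [hm]
      have : d0 + (2*m+1) * ((2*m+1) * (3 - d0) + 4 * (2*m+1) * (d0 * d0 + 1)) =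
        4 * ((m * m + m) * (3 - d0) + (2*m+1)*(2*m+1) * (d0 * d0 + 1)) + 3 := by ring
      rw [this]; omega
  obtain ⟨d1, hd1⟩ : ∃ d1, d1 = d0 + c1 * ξ2 := ⟨_, rfl⟩
  obtain ⟨b1, hb1⟩ : ∃ b1, b1 = b0 + a1 * ξ2 := ⟨_, rfl⟩
  rw [← hd1] at hξ2 hξ2'
  have hdet2 : a1 * d1 - b1 * c1 = 1 := by rw [hb1, hd1]; linear_combination hdet1
  obtain ⟨ξ3, ξ4, a, b, c, d, f, g, β, γ, ha, hc, hb, hd, h⟩ := nt_main a1 b1 c1 d1 hdet2 hξ2 hξ2'
  refine ⟨ξ1, ξ2, ξ3, ξ4, a, b, c, d, f, g, β, γ, ?_, h⟩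
  simp only [SL_val_mul, hE, Le_val, Ue_val]
  apply M2_ext
  · simp [Matrix.mul_apply, Fin.sum_univ_two]
    rw [ha, ha1, hb1, ha1]; ring
  · simp [Matrix.mul_apply, Fin.sum_univ_two]
    rw [hb, ha, hb1, ha1]; ring
  · simp [Matrix.mul_apply, Fin.sum_univ_two]
    rw [hc, hd1, hc1]; ring
  · simp [Matrix.mul_apply, Fin.sum_univ_two]
    rw [hd, hc, hd1, hc1]; ring

theorem six_all : ∀ n, 6 ≤ n → ∀ g : SLn n, Six g :=
  six_of_ck fun E => ck_of_good (good_all E)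

end Pool.Agent.Lib.MP_efa98f_al
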