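import Pool.Agent.Lib.MP_efa98f_al.NT

namespace Pool.Agent.Lib.MP_efa98f_al

open Matrix

section
variable {n : ℕ}

theorem SL_inv_val (g : SLn n) : (g⁻¹).1 = (g.1)⁻¹ := by
  rw [Matrix.inv_def, g.2]
  simp [Matrix.SpecialLinearGroup.coe_inv]

/-- The inverse transpose conjugated by the reversal, an automorphism of `SL_n`. -/
def Psi : SLn n →* SLn n where
  toFun g := ⟨((g⁻¹).1ᵀ).submatrix Fin.revPerm Fin.revPerm, by
    rw [Matrix.det_submatrix_equiv_self, Matrix.det_transpose]; exact (g⁻¹).2⟩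
  map_one' := Subtype.ext (by
    change (((1 : SLn n)⁻¹).1ᵀ).submatrix Fin.revPerm Fin.revPerm = 1
    rw [inv_one]
    change (((1 : Matrix (Fin n) (Fin n) ℤ))ᵀ).submatrix Fin.revPerm Fin.revPerm = 1
    rw [Matrix.transpose_one, Matrix.submatrix_one_equiv])
  map_mul' A B := Subtype.ext (by
    change (((A * B)⁻¹).1ᵀ).submatrix Fin.revPerm Fin.revPerm =
      ((A⁻¹).1ᵀ).submatrix Fin.revPerm Fin.revPerm * ((B⁻¹).1ᵀ).submatrix Fin.revPerm Fin.revPerm
    rw [_root_.mul_inv_rev, SL_val_mul, Matrix.transpose_mul, Matrix.submatrix_mul_equiv])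

theorem Psi_apply (g : SLn n) (i j : Fin n) :
    (Psi g).1 i j = (g⁻¹).1 (Fin.rev j) (Fin.rev i) := rfl

theorem Psi_Psi (g : SLn n) : Psi (Psi g) = g := by
  apply Subtype.ext
  ext i j
  rw [Psi_apply, ← map_inv, Psi_apply, inv_inv, Fin.rev_rev, Fin.rev_rev]

/-- Generic form of the inverse closure. -/
theorem inv_tri {g : SLn n} {α : Type*} [LinearOrder α] {b : Fin n → α}
    (hinj : Function.Injective b) (h1 : ∀ i, g.1 i i = 1)
    (hb : Matrix.BlockTriangular g.1 b) :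
    (∀ i, (g⁻¹).1 i i = 1) ∧ Matrix.BlockTriangular (g⁻¹).1 b := by
  have hdet : Invertible g.1.det := by rw [g.2]; exact invertibleOne
  have := g.1.invertibleOfDetInvertible
  have hb' : Matrix.BlockTriangular (g.1)⁻¹ b := Matrix.blockTriangular_inv_of_blockTriangular hb
  rw [← SL_inv_val] at hb'
  refine ⟨fun i => ?_, hb'⟩
  have h3 : (g * g⁻¹).1 i i = 1 := by
    rw [mul_inv_cancel]; exact Matrix.one_apply_eq _
  rw [show (g * g⁻¹).1 = g.1 * (g⁻¹).1 from rfl, Matrix.mul_apply, Finset.sum_eq_single i] at h3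
  · rwa [h1, one_mul] at h3
  · intro k _ hk
    rcases lt_or_gt_of_ne (fun h => hk (hinj h)) with h' | h'
    · rw [hb h', zero_mul]
    · rw [hb' h', mul_zero]
  · intro h'; exact absurd (Finset.mem_univ _) h'

theorem Up_inv {g : SLn n} (hg : g ∈ Up n) : g⁻¹ ∈ Up n := by
  obtain ⟨h1, h2⟩ := hg
  obtain ⟨h3, h4⟩ := inv_tri (b := id) Function.injective_id h1 (fun i j hij => h2 i j hij)
  exact ⟨h3, fun i j hij => h4 hij⟩

theorem Lo_inv {g : SLn n} (hg : g ∈ Lo n) : g⁻¹ ∈ Lo n := by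
  obtain ⟨h1, h2⟩ := hg
  obtain ⟨h3, h4⟩ := inv_tri (b := OrderDual.toDual) OrderDual.toDual.injective h1
    (fun i j hij => h2 i j hij)
  exact ⟨h3, fun i j hij => h4 hij⟩

theorem Psi_mem_Up {g : SLn n} (hg : g ∈ Up n) : Psi g ∈ Up n := by
  obtain ⟨h1, h2⟩ := Up_inv hg
  refine ⟨fun i => ?_, fun i j hij => ?_⟩
  · rw [Psi_apply]; exact h1 _
  · rw [Psi_apply]; exact h2 _ _ (Fin.rev_lt_rev.mpr hij)

theorem Psi_mem_Lo {g : SLn n} (hg : g ∈ Lo n) : Psi g ∈ Lo n := by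
  obtain ⟨h1, h2⟩ := Lo_inv hg
  refine ⟨fun i => ?_, fun i j hij => ?_⟩
  · rw [Psi_apply]; exact h1 _
  · rw [Psi_apply]; exact h2 _ _ (Fin.rev_lt_rev.mpr hij)

theorem six_Psi {g : SLn n} (hg : Six g) : Six (Psi g) := by
  obtain ⟨u1, hu1, l1, hl1, u2, hu2, l2, hl2, u3, hu3, l3, hl3, rfl⟩ := hg
  refine ⟨Psi u1, Psi_mem_Up hu1, Psi l1, Psi_mem_Lo hl1, Psi u2, Psi_mem_Up hu2,
    Psi l2, Psi_mem_Lo hl2, Psi u3, Psi_mem_Up hu3, Psi l3, Psi_mem_Lo hl3, ?_⟩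
  simp only [map_mul]

theorem six_of_Psi {g : SLn n} (hg : Six (Psi g)) : Six g := by
  have := six_Psi hg
  rwa [Psi_Psi] at this

theorem IsTV_Psi {A : SLn n} (hA : IsTV A) : IsTV (Psi A) := by
  obtain ⟨x, y, hxy, hA'⟩ := hA.inv
  refine ⟨fun i => y (Fin.rev i), fun i => x (Fin.rev i), ?_, ?_⟩
  · rw [dotProduct]
    rw [← hxy, dotProduct]
    rw [← Equiv.sum_comp Fin.revPerm (fun i => y i * x i)]
    exact Finset.sum_congr rfl (fun i _ => mul_comm _ _)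
  · ext i j
    rw [Psi_apply, hA', Matrix.add_apply, Matrix.add_apply, vecMulVec_apply, vecMulVec_apply,
      mul_comm]
    congr 1
    rw [Matrix.one_apply, Matrix.one_apply]
    congr 1
    rw [Fin.rev_inj]
    exact propext eq_comm

end

end Pool.Agent.Lib.MP_efa98f_al
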