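import Mathlib

set_option autoImplicit false

namespace Pool.Agent.Lib.MP_efa98f_al.E90

/-- auxiliary: a shift of `A` by a multiple of `B` is coprime to `n` -/
theorem exists_coprime88 (A B n : ℤ) (hn : n ≠ 0)
    (h : ∀ p : ℕ, p.Prime → ¬ ((p : ℤ) ∣ A ∧ (p : ℤ) ∣ B ∧ (p : ℤ) ∣ n)) :
    ∃ w : ℤ, IsCoprime (A + w * B) n := by
  classical
  set F : Finset ℕ := n.natAbs.primeFactors.filter (fun p => ¬ (p : ℤ) ∣ A) with hF
  refine ⟨∏ p ∈ F, (p : ℤ), ?_⟩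
  rw [Int.isCoprime_iff_gcd_eq_one]
  by_contra hg
  obtain ⟨p, hp, hpd⟩ := Nat.exists_prime_and_dvd hg
  have hpZ : Prime (p : ℤ) := Nat.prime_iff_prime_int.mp hp
  have h1 : (p : ℤ) ∣ A + (∏ p ∈ F, (p : ℤ)) * B :=
    (Int.natCast_dvd_natCast.mpr hpd).trans (Int.gcd_dvd_left _ _)
  have h2 : (p : ℤ) ∣ n := (Int.natCast_dvd_natCast.mpr hpd).trans (Int.gcd_dvd_right _ _)
  by_cases hA : (p : ℤ) ∣ A
  · have h3 : (p : ℤ) ∣ (∏ p ∈ F, (p : ℤ)) * B := (dvd_add_right hA).mp h1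
    rcases hpZ.dvd_or_dvd h3 with h4 | h4
    · rw [hpZ.dvd_finsetProd_iff] at h4
      obtain ⟨q, hq, hpq⟩ := h4
      rw [hF, Finset.mem_filter, Nat.mem_primeFactors] at hq
      have h5 : p ∣ q := Int.natCast_dvd_natCast.mp hpq
      have h6 : p = q := (Nat.prime_dvd_prime_iff_eq hp hq.1.1).mp h5
      subst h6
      exact hq.2 hA
    · exact h p hp ⟨hA, h4, h2⟩
  · have hm : p ∈ F := by
      rw [hF, Finset.mem_filter, Nat.mem_primeFactors]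
      exact ⟨⟨hp, Int.natCast_dvd.mp h2, Int.natAbs_ne_zero.mpr hn⟩, hA⟩
    have h3 : (p : ℤ) ∣ (∏ p ∈ F, (p : ℤ)) * B :=
      (Finset.dvd_prod_of_mem (fun p : ℕ => (p : ℤ)) hm).mul_right _
    exact hA ((dvd_add_left h3).mp h1)

/-- V0 -/
theorem exists_v0 (p q r s e1 e2 : ℤ) (hδ : p * s - q * r ≠ 0)
    (h : ∃ a b c : ℤ, a * (e1 * r - e2 * p) + b * (e1 * s - e2 * q) + c * (p * s - q * r) = 1) :
    ∃ x5 x6 z1 z2 : ℤ, e1 = (1 + x5 * x6) + p * z1 + q * z2 ∧ e2 = -x5 + r * z1 + s * z2 := by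
  obtain ⟨a, b, c, habc⟩ := h
  have hrs : r ≠ 0 ∨ s ≠ 0 := by
    by_contra hcon
    push Not at hcon
    apply hδ
    rw [hcon.1, hcon.2]; ring
  obtain ⟨r', hr'⟩ : (Int.gcd r s : ℤ) ∣ r := Int.gcd_dvd_left _ _
  obtain ⟨s', hs'⟩ : (Int.gcd r s : ℤ) ∣ s := Int.gcd_dvd_right _ _
  have hbez : (Int.gcd r s : ℤ) = r * Int.gcdA r s + s * Int.gcdB r s := Int.gcd_eq_gcd_ab r s
  set γ : ℤ := (Int.gcd r s : ℤ) with hγ
  set u := Int.gcdA r s
  set v := Int.gcdB r s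
  have hd' : p * s - q * r = γ * (p * s' - q * r') := by
    rw [hr', hs']; ring
  have hd0 : p * s' - q * r' ≠ 0 := by
    intro h0
    apply hδ
    rw [hd', h0, mul_zero]
  obtain ⟨w, hw⟩ := exists_coprime88 e2 γ (p * s' - q * r') hd0 (by
    rintro l hl ⟨d1, d2, d3⟩
    have hr : (l : ℤ) ∣ r := by rw [hr']; exact d2.mul_right _
    have hs : (l : ℤ) ∣ s := by rw [hs']; exact d2.mul_right _
    have h1 : (l : ℤ) ∣ 1 := by
      rw [← habc]
      exact dvd_add (dvd_add ((dvd_sub (hr.mul_left _) (d1.mul_right _)).mul_left _)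
        ((dvd_sub (hs.mul_left _) (d1.mul_right _)).mul_left _))
        ((dvd_sub (hs.mul_left _) (hr.mul_left _)).mul_left _)
    exact (Nat.prime_iff_prime_int.mp hl).not_isUnit (isUnit_of_dvd_one h1))
  obtain ⟨α, β, hαβ⟩ := hw
  -- α * (e2 + w * γ) + β * δ' = 1
  set C := e1 - 1 + w * (p * u + q * v) with hC
  have hγ1 : γ * (r' * u + s' * v) = γ := by
    rw [mul_add, ← mul_assoc, ← mul_assoc, ← hr', ← hs']
    exact hbez.symm
  refine ⟨-(e2 + w * γ), -(α * C), -w * u - s' * (-(β * C)), -w * v + r' * (-(β * C)), ?_, ?_⟩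
  · linear_combination (-C) * hαβ + hC
  · linear_combination (w * u + s' * (-(β * C))) * hr' + (w * v - r' * (-(β * C))) * hs' + w * hγ1

end Pool.Agent.Lib.MP_efa98f_al.E90
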