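import Pool.Agent.Lib.MP_efa98f_al.CKPlus

namespace Pool.Agent.Lib.MP_efa98f_al

open Matrix

/-- The block identity with two complexities: `T = T^n T^(1-n)`, `D = D^n D^(1-n)`, where `T` and
`D` have the same trace. -/
theorem two_cell_id (a b c d p q r s τ f g f' g' X Y W l u v N Z1 : ℤ)
    (hT : a * d - b * c = 1) (hD : p * s - q * r = 1) (h1 : a + d = τ) (h2 : p + s = τ)
    (hf : f = -g') (hg : g = f' + g' * τ) (hn : f'^2 + τ * f' * g' + g'^2 = 1)
    (hX : 1 - f - g * d = c * X) (hY : 1 - f - g * s = r * Y)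
    (hW : X * (a - s) + g * b = r * W) (hW' : c * W = g * q + Y * (a - s))
    (hu : r * u = p - a - l * c) (hR : u * a + v * c = s * u - q)
    (hN : N = u * l - v) (hNr : r * N = b + (d - a) * l - c * l^2)
    (hZ : 1 - f' - g' * (a + c * l) = N * Z1) :
    ∃ X1 X2 X3 X4 X5 X6 : M2, b4 !![a, b; c, d] 0 0 !![p, q; r, s] =
      b4 1 X1 0 1 * b4 1 0 X2 1 * b4 1 X3 0 1 * b4 1 0 X4 1 * b4 1 X5 0 1 * b4 1 0 X6 1 := by
  have hn2 : f^2 + τ * f * g + g^2 = 1 := by rw [hf, hg]; linear_combination hn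
  have key := block_identity 1 one_ne_zero
    (!![f+g*a, g*b; g*c, f+g*d]) (!![f+g*d, -(g*b); -(g*c), f+g*a])
    (!![f+g*s, -(g*q); -(g*r), f+g*p]) (!![f+g*p, g*q; g*r, f+g*s])
    (!![f'+g'*d, -(g'*b); -(g'*c), f'+g'*a]) (!![f'+g'*a, g'*b; g'*c, f'+g'*d])
    (!![f'+g'*p, g'*q; g'*r, f'+g'*s]) (!![f'+g'*s, -(g'*q); -(g'*r), f'+g'*p])
    (!![X, -W; g, -Y])
    (!![l*Z1 - g'*r, -u*(l*Z1 - g'*r) + 1 - f' - g'*d; -Z1, u*Z1 + g'*c])
    (!![c, s - a; 0, -r]) (!![u, v; 1, l]) _ _
    ?_ ?_ ?_ ?_ ?_ ?_ ?_ ?_ ?_ ?_ (one_smul ℤ _) (one_smul ℤ _)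
  · have e1 : (!![f'+g'*d, -(g'*b); -(g'*c), f'+g'*a] : M2) * !![f+g*a, g*b; g*c, f+g*d] =
        !![a, b; c, d] := by
      rw [hf, hg]
      apply M2_ext
      · simp [Matrix.mul_apply, Fin.sum_univ_two]
        linear_combination a * hn + g' * (f' + g' * τ) * hT - g'^2 * h1
      · simp [Matrix.mul_apply, Fin.sum_univ_two]
        linear_combination b * hn
      · simp [Matrix.mul_apply, Fin.sum_univ_two]
        linear_combination c * hn
      · simp [Matrix.mul_apply, Fin.sum_univ_two]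
        linear_combination d * hn + g' * (f' + g' * τ) * hT - g'^2 * h1
    have e2 : (!![f+g*p, g*q; g*r, f+g*s] : M2) * !![f'+g'*s, -(g'*q); -(g'*r), f'+g'*p] =
        !![p, q; r, s] := by
      rw [hf, hg]
      apply M2_ext
      · simp [Matrix.mul_apply, Fin.sum_univ_two]
        linear_combination p * hn + g' * (f' + g' * τ) * hD - g'^2 * h2
      · simp [Matrix.mul_apply, Fin.sum_univ_two]
        linear_combination q * hn
      · simp [Matrix.mul_apply, Fin.sum_univ_two]
        linear_combination r * hn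
      · simp [Matrix.mul_apply, Fin.sum_univ_two]
        linear_combination s * hn + g' * (f' + g' * τ) * hD - g'^2 * h2
    rw [e1, e2] at key
    exact ⟨_, _, _, _, _, _, key⟩
  · apply M2_ext
    · simp [Matrix.mul_apply, Fin.sum_univ_two]
      linear_combination hn2 + f*g*h1 + g^2*hT
    · simp [Matrix.mul_apply, Fin.sum_univ_two]; ring
    · simp [Matrix.mul_apply, Fin.sum_univ_two]; ring
    · simp [Matrix.mul_apply, Fin.sum_univ_two]
      linear_combination hn2 + f*g*h1 + g^2*hT
  · apply M2_ext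
    · simp [Matrix.mul_apply, Fin.sum_univ_two]
      linear_combination hn2 + f*g*h1 + g^2*hT
    · simp [Matrix.mul_apply, Fin.sum_univ_two]; ring
    · simp [Matrix.mul_apply, Fin.sum_univ_two]; ring
    · simp [Matrix.mul_apply, Fin.sum_univ_two]
      linear_combination hn2 + f*g*h1 + g^2*hT
  · apply M2_ext
    · simp [Matrix.mul_apply, Fin.sum_univ_two]
      linear_combination hn2 + f*g*h2 + g^2*hD
    · simp [Matrix.mul_apply, Fin.sum_univ_two]; ring
    · simp [Matrix.mul_apply, Fin.sum_univ_two]; ring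
    · simp [Matrix.mul_apply, Fin.sum_univ_two]
      linear_combination hn2 + f*g*h2 + g^2*hD
  · apply M2_ext
    · simp [Matrix.mul_apply, Fin.sum_univ_two]
      linear_combination hn2 + f*g*h2 + g^2*hD
    · simp [Matrix.mul_apply, Fin.sum_univ_two]; ring
    · simp [Matrix.mul_apply, Fin.sum_univ_two]; ring
    · simp [Matrix.mul_apply, Fin.sum_univ_two]
      linear_combination hn2 + f*g*h2 + g^2*hD
  · apply M2_ext
    · simp [Matrix.mul_apply, Fin.sum_univ_two]
      linear_combination hn + f'*g'*h1 + g'^2*hT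
    · simp [Matrix.mul_apply, Fin.sum_univ_two]; ring
    · simp [Matrix.mul_apply, Fin.sum_univ_two]; ring
    · simp [Matrix.mul_apply, Fin.sum_univ_two]
      linear_combination hn + f'*g'*h1 + g'^2*hT
  · apply M2_ext
    · simp [Matrix.mul_apply, Fin.sum_univ_two]
      linear_combination hn + f'*g'*h2 + g'^2*hD
    · simp [Matrix.mul_apply, Fin.sum_univ_two]; ring
    · simp [Matrix.mul_apply, Fin.sum_univ_two]; ring
    · simp [Matrix.mul_apply, Fin.sum_univ_two]
      linear_combination hn + f'*g'*h2 + g'^2*hD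
  · apply M2_ext
    · simp [Matrix.mul_apply, Fin.sum_univ_two]
      linear_combination -hX
    · simp [Matrix.mul_apply, Fin.sum_univ_two]
      linear_combination -hW
    · simp [Matrix.mul_apply, Fin.sum_univ_two]
    · simp [Matrix.mul_apply, Fin.sum_univ_two]
      linear_combination -hY
  · apply M2_ext
    · simp [Matrix.mul_apply, Fin.sum_univ_two]
      linear_combination -hX + g*h2 - g*h1
    · simp [Matrix.mul_apply, Fin.sum_univ_two]
      linear_combination -hW'
    · simp [Matrix.mul_apply, Fin.sum_univ_two]; ring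
    · simp [Matrix.mul_apply, Fin.sum_univ_two]
      linear_combination -hY
  · apply M2_ext
    · simp [Matrix.mul_apply, Fin.sum_univ_two]; ring
    · simp [Matrix.mul_apply, Fin.sum_univ_two]
      linear_combination (l*Z1 - g'*r)*hN + l*hZ + g'*hNr
    · simp [Matrix.mul_apply, Fin.sum_univ_two]; ring
    · simp [Matrix.mul_apply, Fin.sum_univ_two]
      linear_combination -Z1*hN - hZ
  · apply M2_ext
    · simp [Matrix.mul_apply, Fin.sum_univ_two]
      linear_combination -Z1*hN - hZ - g'*hu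
    · simp [Matrix.mul_apply, Fin.sum_univ_two]
      linear_combination u*Z1*hN + u*hZ + g'*u*hu + g'*hR + g'*u*h2 - g'*u*h1
    · simp [Matrix.mul_apply, Fin.sum_univ_two]; ring
    · simp [Matrix.mul_apply, Fin.sum_univ_two]
      linear_combination g'*hu + g'*h2 - g'*h1

/-- Powers of an element of norm one. -/
theorem seq_gen (τ : ℤ) (k : ℕ) :
    ∃ f g : ℤ, f^2 + τ * f * g + g^2 = 1 ∧
      ∀ m x : ℤ, m ∣ x^2 - τ * x + 1 → m ∣ f + g * x - x^k := by
  induction k with
  | zero => exact ⟨1, 0, by ring, fun m x _ => by simp⟩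
  | succ k ih =>
    obtain ⟨f, g, h1, h2⟩ := ih
    refine ⟨-g, f + τ * g, by linear_combination h1, fun m x hx => ?_⟩
    have e : -g + (f + τ * g) * x - x^(k+1) = x * (f + g * x - x^k) - g * (x^2 - τ * x + 1) := by
      rw [pow_succ]; ring
    rw [e]
    exact dvd_sub ((h2 m x hx).mul_left x) (hx.mul_left g)

end Pool.Agent.Lib.MP_efa98f_al
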