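import Pool.Agent.Lib.MP_efa98f_al.TwoNT

namespace Pool.Agent.Lib.MP_efa98f_al

theorem pow_sub_one_dvd {P x y : ℤ} {h k : ℕ} (hx : P ∣ x ^ h - 1) (hxy : P ∣ y - x)
    (hk : h ∣ k) : P ∣ y ^ k - 1 := by
  have h1 : P ∣ y ^ h - x ^ h := hxy.trans (sub_dvd_pow_sub_pow y x h)
  have h2 : P ∣ y ^ h - 1 := by
    have := dvd_add h1 hx
    simpa using this
  exact dvd_pow_sub_one_of_dvd h2 hk

/-- Matching the traces, and the third prime. -/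
theorem two_prime (a b c d p q r s : ℤ) (hT : a * d - b * c = 1) (hD : p * s - q * r = 1)
    (P P' : ℕ) (hP : P.Prime) (hP' : P'.Prime) (hP4 : P % 4 = 3) (hP4' : P' % 4 = 3)
    (hP3 : 3 < P) (ε ε' : ℤ) (hε : ε = 1 ∨ ε = -1)
    (hε' : ε' = 1 ∨ ε' = -1) (hc : c = ε * P) (hr : r = ε' * P')
    (hd : (P : ℤ) ∣ d ^ (P / 2) - 1) (hs : (P' : ℤ) ∣ s ^ (P' / 2) - 1) (hPP : P ≠ P')
    (hcop : IsCoprime (c * r) (((P / 2) * (P' / 2) : ℕ) : ℤ)) :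
    ∃ (z z' : ℤ) (X1 X2 X3 X4 X5 X6 : M2),
      b4 !![a, b + a * z; c, d + c * z] 0 0 !![p, q + p * z'; r, s + r * z'] =
      b4 1 X1 0 1 * b4 1 0 X2 1 * b4 1 X3 0 1 * b4 1 0 X4 1 * b4 1 X5 0 1 * b4 1 0 X6 1 := by
  have hεε : ε * ε = 1 := by rcases hε with h | h <;> rw [h] <;> norm_num
  have hεε' : ε' * ε' = 1 := by rcases hε' with h | h <;> rw [h] <;> norm_num
  obtain ⟨H, hH⟩ : ∃ H : ℕ, H = (P / 2) * (P' / 2) := ⟨_, rfl⟩
  rw [← hH] at hcop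
  have hHodd : H % 2 = 1 := by
    rw [hH, Nat.mul_mod]
    have h1 : P / 2 % 2 = 1 := by omega
    have h2 : P' / 2 % 2 = 1 := by omega
    rw [h1, h2]
  have hH3 : 3 ≤ H := by
    rw [hH]
    have h1 : 3 ≤ P / 2 := by omega
    have h2 : 1 ≤ P' / 2 := by omega
    nlinarith
  -- coprimality of `c` and `r`
  obtain ⟨α, β, hαβ⟩ : ∃ α β : ℤ, α * c + β * r = 1 := by
    have h1 : IsCoprime (P : ℤ) (P' : ℤ) := by
      rw [Nat.isCoprime_iff_coprime]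
      exact (Nat.coprime_primes hP hP').mpr hPP
    obtain ⟨x, y, hxy⟩ := h1
    refine ⟨x * ε, y * ε', ?_⟩
    rw [hc, hr]
    linear_combination hxy + x * P * hεε + y * P' * hεε'
  obtain ⟨x, y, hxy⟩ := hcop
  obtain ⟨l0, hl0⟩ : ∃ l0, l0 = α * (p - a) := ⟨_, rfl⟩
  obtain ⟨j, hj⟩ : ∃ j, j = x * (1 - a - c * l0) := ⟨_, rfl⟩
  obtain ⟨l, hl⟩ : ∃ l, l = l0 + r * j := ⟨_, rfl⟩
  obtain ⟨u, hu0⟩ : ∃ u, u = β * (p - a) - c * j := ⟨_, rfl⟩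
  obtain ⟨m, hm⟩ : ∃ m, m = -(y * (1 - a - c * l0)) := ⟨_, rfl⟩
  have he : a + c * l = 1 + H * m := by
    rw [hl, hj, hm]; linear_combination (1 - a - c * l0) * hxy
  have hu : r * u = p - a - l * c := by
    rw [hu0, hl, hl0]; linear_combination (p - a) * hαβ
  obtain ⟨e, hee⟩ : ∃ e, e = a + c * l := ⟨_, rfl⟩
  obtain ⟨z0, hz0⟩ : ∃ z0, z0 = α * (p + s - a - d) := ⟨_, rfl⟩
  obtain ⟨z0', hz0'⟩ : ∃ z0', z0' = -(β * (p + s - a - d)) := ⟨_, rfl⟩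
  obtain ⟨b0, hb0⟩ : ∃ b0, b0 = b + a * z0 := ⟨_, rfl⟩
  obtain ⟨d0, hd0⟩ : ∃ d0, d0 = d + c * z0 := ⟨_, rfl⟩
  obtain ⟨q0, hq0⟩ : ∃ q0, q0 = q + p * z0' := ⟨_, rfl⟩
  obtain ⟨s0, hs0⟩ : ∃ s0, s0 = s + r * z0' := ⟨_, rfl⟩
  have htr0 : a + d0 = p + s0 := by
    rw [hd0, hs0, hz0, hz0']; linear_combination (p + s - a - d) * hαβ
  have hT0 : a * d0 - b0 * c = 1 := by rw [hd0, hb0]; linear_combination hT
  have hD0 : p * s0 - q0 * r = 1 := by rw [hs0, hq0]; linear_combination hD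
  obtain ⟨v0, hv0⟩ : ∃ v0, v0 = -(α * (q0 + u * (p - d0))) + β * (l * (p - d0) - b0) := ⟨_, rfl⟩
  have hcX : c * (l * (p - d0) - b0) = -(r * (q0 + u * (p - d0))) := by
    linear_combination (p - d0) * hu + hT0 - hD0 - p * htr0
  have hv : r * v0 = l * (p - d0) - b0 := by
    rw [hv0]; linear_combination -α * hcX + (l * (p - d0) - b0) * hαβ
  have hcv : c * v0 = -(q0 + u * (p - d0)) := by
    rw [hv0]; linear_combination β * hcX - (q0 + u * (p - d0)) * hαβ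
  obtain ⟨N0, hN0⟩ : ∃ N0, N0 = u * l - v0 := ⟨_, rfl⟩
  have hrN0 : r * N0 = b0 + (d0 - a) * l - c * l^2 := by
    rw [hN0]; linear_combination l * hu - hv
  have hcopN0 : IsCoprime N0 e := ⟨-(c * r), d0 - c * l, by
    rw [hee]; linear_combination hT0 - c * hrN0⟩
  obtain ⟨N1, hN1⟩ : ∃ N1, N1 = N0 + e * (-1 - N0) := ⟨_, rfl⟩
  have hcopN1 : IsCoprime N1 e := by rw [hN1]; exact IsCoprime.add_mul_left_left hcopN0 _
  have hN1H : N1 = -1 - (1 + N0) * (H * m) := by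
    rw [hN1, hee, he]; ring
  have hcopH : IsCoprime N1 (H : ℤ) := ⟨-1, -(1 + N0) * m, by rw [hN1H]; ring⟩
  have he0 : e ≠ 0 := by
    rw [hee, he]
    intro h0
    have : (H : ℤ) ∣ 1 := ⟨-m, by linear_combination h0⟩
    have := Int.le_of_dvd one_pos this
    omega
  have hcopA : IsCoprime N1 ((e.natAbs * H : ℕ) : ℤ) := by
    push_cast
    refine IsCoprime.mul_right ?_ hcopH
    rcases abs_choice e with h' | h' <;> rw [h']
    · exact hcopN1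
    · exact hcopN1.neg_right
  obtain ⟨Q, hQgt, hQp, hQr⟩ := Nat.forall_exists_prime_gt_and_zmodEq 3
    (Nat.mul_ne_zero (by simpa using he0) (by omega)) hcopA
  obtain ⟨w, hw⟩ : ∃ w : ℤ, (Q : ℤ) = N1 + e * H * w := by
    obtain ⟨z, hz⟩ := hQr.symm.dvd
    push_cast at hz
    rcases abs_choice e with h' | h' <;> rw [h'] at hz
    · exact ⟨z, by linear_combination hz⟩
    · exact ⟨-z, by linear_combination hz⟩
  obtain ⟨t, ht⟩ : ∃ t : ℤ, t = -1 - N0 + H * w := ⟨_, rfl⟩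
  have hQt : (Q : ℤ) = N0 + t * e := by rw [hw, hN1, ht]; ring
  have hcopQ : IsCoprime (Q : ℤ) e := by
    rw [hQt, mul_comm t e]; exact IsCoprime.add_mul_left_left hcopN0 _
  -- final matrices
  obtain ⟨z, hz⟩ : ∃ z, z = z0 + r * t := ⟨_, rfl⟩
  obtain ⟨z', hz'⟩ : ∃ z', z' = z0' + c * t := ⟨_, rfl⟩
  obtain ⟨b1, hb1⟩ : ∃ b1, b1 = b + a * z := ⟨_, rfl⟩
  obtain ⟨d1, hd1⟩ : ∃ d1, d1 = d + c * z := ⟨_, rfl⟩
  obtain ⟨q1, hq1⟩ : ∃ q1, q1 = q + p * z' := ⟨_, rfl⟩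
  obtain ⟨s1, hs1⟩ : ∃ s1, s1 = s + r * z' := ⟨_, rfl⟩
  have hd10 : d1 = d0 + c * r * t := by rw [hd1, hd0, hz]; ring
  have hb10 : b1 = b0 + a * r * t := by rw [hb1, hb0, hz]; ring
  have hs10 : s1 = s0 + c * r * t := by rw [hs1, hs0, hz']; ring
  have hq10 : q1 = q0 + p * c * t := by rw [hq1, hq0, hz']; ring
  have hT1 : a * d1 - b1 * c = 1 := by rw [hd1, hb1]; linear_combination hT
  have hD1 : p * s1 - q1 * r = 1 := by rw [hs1, hq1]; linear_combination hD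
  obtain ⟨τ, hτ⟩ : ∃ τ, τ = a + d1 := ⟨_, rfl⟩
  have hτ2 : p + s1 = τ := by rw [hτ, hd10, hs10]; linear_combination -htr0
  obtain ⟨v, hvd⟩ : ∃ v, v = v0 - t * e := ⟨_, rfl⟩
  have hN : (Q : ℤ) = u * l - v := by rw [hQt, hvd, hN0]; ring
  have hNr : r * (Q : ℤ) = b1 + (d1 - a) * l - c * l^2 := by
    rw [hQt, hb10, hd10]
    linear_combination hrN0 + r * t * hee
  have hR : u * a + v * c = s1 * u - q1 := by
    rw [hvd, hs10, hq10]
    linear_combination hcv - c * t * hu - t * c * hee + u * htr0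
  -- the exponent
  have hQ2 : 2 ≤ Q := hQp.two_le
  have hcopk : Nat.Coprime (Q - 1) H := by
    rw [← Nat.isCoprime_iff_coprime]
    push_cast [show 1 ≤ Q by omega]
    obtain ⟨h2, hh2⟩ : ∃ h2 : ℤ, (H : ℤ) = 2 * h2 + 1 := ⟨(H : ℤ) / 2, by omega⟩
    refine ⟨h2, 1 - (-(1 + N0) * m + e * w) * h2, ?_⟩
    rw [hw, hN1H]
    linear_combination hh2
  obtain ⟨k, hk1, hk2⟩ := Nat.chineseRemainder hcopk 0 (H - 1)
  have hk1' : Q - 1 ∣ k := (Nat.modEq_zero_iff_dvd).mp hk1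
  have hk2' : H ∣ k + 1 := by
    have : k + 1 ≡ (H - 1) + 1 [MOD H] := Nat.ModEq.add_right 1 hk2
    rw [show H - 1 + 1 = H by omega] at this
    exact (Nat.modEq_zero_iff_dvd).mp (this.trans (by simp [Nat.ModEq]))
  obtain ⟨f', g', hn, hseq⟩ := seq_gen τ k
  obtain ⟨f, hf⟩ : ∃ f, f = -g' := ⟨_, rfl⟩
  obtain ⟨g, hg⟩ : ∃ g, g = f' + g' * τ := ⟨_, rfl⟩
  have hseq2 : ∀ m x : ℤ, m ∣ x^2 - τ * x + 1 → m ∣ f + g * x - x^(k+1) := by
    intro m x hx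
    have e : f + g * x - x^(k+1) = x * (f' + g' * x - x^k) - g' * (x^2 - τ * x + 1) := by
      rw [hf, hg, pow_succ]; ring
    rw [e]
    exact dvd_sub ((hseq m x hx).mul_left x) (hx.mul_left g')
  -- condition at `Q`
  have hQ1 : (Q : ℤ) ∣ e ^ k - 1 := by
    have h1 : (Q : ℤ) ∣ e ^ (Q - 1) - 1 :=
      (Int.ModEq.pow_card_sub_one_eq_one hQp hcopQ.symm).symm.dvd
    exact dvd_pow_sub_one_of_dvd h1 hk1'
  obtain ⟨Z1, hZ1⟩ : (Q : ℤ) ∣ 1 - f' - g' * (a + c * l) := by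
    have h1 := hseq Q e ⟨-(c * r), by
      rw [hτ, hee]; linear_combination c * hNr - hT1⟩
    have h2 := dvd_add h1 hQ1
    have h3 := dvd_neg.mpr h2
    rw [hee] at h3
    have e1 : -(f' + g' * (a + c * l) - (a + c * l) ^ k + ((a + c * l) ^ k - 1)) =
        1 - f' - g' * (a + c * l) := by ring
    rwa [e1] at h3
  -- condition at `c`
  obtain ⟨X, hX⟩ : c ∣ 1 - f - g * d1 := by
    have h1 := hseq2 c d1 ⟨-b1, by rw [hτ]; linear_combination -hT1⟩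
    have h0 : (P : ℤ) ∣ d1 ^ (k+1) - 1 := by
      refine pow_sub_one_dvd hd ⟨ε * z, ?_⟩ ((Dvd.intro _ hH.symm).trans hk2')
      rw [hd1, hc]; ring
    have h2 : c ∣ d1 ^ (k+1) - 1 := by
      rw [hc]
      rcases hε with h' | h' <;> rw [h'] <;> simpa using h0
    have h3 := dvd_neg.mpr (dvd_add h1 h2)
    have e1 : -(f + g * d1 - d1 ^ (k+1) + (d1 ^ (k+1) - 1)) = 1 - f - g * d1 := by ring
    rwa [e1] at h3
  -- condition at `r`
  obtain ⟨Y, hY⟩ : r ∣ 1 - f - g * s1 := by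
    have h1 := hseq2 r s1 ⟨-q1, by rw [← hτ2]; linear_combination -hD1⟩
    have h0 : (P' : ℤ) ∣ s1 ^ (k+1) - 1 := by
      refine pow_sub_one_dvd hs ⟨ε' * z', ?_⟩ ((Dvd.intro_left _ hH.symm).trans hk2')
      rw [hs1, hr]; ring
    have h2 : r ∣ s1 ^ (k+1) - 1 := by
      rw [hr]
      rcases hε' with h' | h' <;> rw [h'] <;> simpa using h0
    have h3 := dvd_neg.mpr (dvd_add h1 h2)
    have e1 : -(f + g * s1 - s1 ^ (k+1) + (s1 ^ (k+1) - 1)) = 1 - f - g * s1 := by ring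
    rwa [e1] at h3
  have hcW : c * (X * (a - s1) + g * b1) = r * (g * q1 + Y * (a - s1)) := by
    have e1 : (1 - f - g * d1) * (a - s1) + g * (a * d1 - 1) =
        (1 - f - g * s1) * (a - s1) + g * (p * s1 - 1) := by
      linear_combination -g * s1 * (hτ + hτ2)
    linear_combination e1 - (a - s1) * hX + (a - s1) * hY - g * hT1 + g * hD1
  obtain ⟨W, hWd⟩ : ∃ W, W = α * (g * q1 + Y * (a - s1)) + β * (X * (a - s1) + g * b1) := ⟨_, rfl⟩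
  have hW : X * (a - s1) + g * b1 = r * W := by
    rw [hWd]; linear_combination -(X * (a - s1) + g * b1) * hαβ + α * hcW
  have hW' : c * W = g * q1 + Y * (a - s1) := by
    rw [hWd]; linear_combination (g * q1 + Y * (a - s1)) * hαβ + β * hcW
  refine ⟨z, z', ?_⟩
  rw [← hb1, ← hd1, ← hq1, ← hs1]
  exact two_cell_id a b1 c d1 p q1 r s1 τ f g f' g' X Y W l u v Q Z1 hT1 hD1 hτ.symm hτ2 hf hg hn
    hX hY hW hW' hu hR hN hNr hZ1

end Pool.Agent.Lib.MP_efa98f_al
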