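import Pool.Agent.Lib.MP_efa98f_al.TwoCell

namespace Pool.Agent.Lib.MP_efa98f_al

/-- Normalisation of the last entry. -/
theorem normal_form (a0 b0 c0 d0 : ℤ) (hdet0 : a0 * d0 - b0 * c0 = 1) :
    ∃ ξ1 ξ2 a b c d : ℤ, c = c0 + d0 * ξ1 ∧ a = a0 + b0 * ξ1 ∧ d = d0 + c * ξ2 ∧
      b = b0 + a * ξ2 ∧ a * d - b * c = 1 ∧ 0 < d ∧ d % 4 = 3 := by
  obtain ⟨ξ1, hξ1⟩ : ∃ ξ1 : ℤ, (c0 + d0 * ξ1) % 2 = 1 := by
    rcases Int.emod_two_eq_zero_or_one c0 with h | h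
    · refine ⟨1, ?_⟩
      rcases Int.emod_two_eq_zero_or_one d0 with h' | h'
      · exfalso
        obtain ⟨c1, hc1⟩ : ∃ c1, c0 = 2 * c1 := ⟨c0 / 2, by omega⟩
        obtain ⟨d1, hd1⟩ : ∃ d1, d0 = 2 * d1 := ⟨d0 / 2, by omega⟩
        have : 2 * (a0 * d1 - b0 * c1) = 1 := by rw [hc1, hd1] at hdet0; linear_combination hdet0
        omega
      · omega
    · exact ⟨0, by simpa using h⟩
  obtain ⟨c1, hc1⟩ : ∃ c1, c1 = c0 + d0 * ξ1 := ⟨_, rfl⟩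
  obtain ⟨a1, ha1⟩ : ∃ a1, a1 = a0 + b0 * ξ1 := ⟨_, rfl⟩
  rw [← hc1] at hξ1
  have hdet1 : a1 * d0 - b0 * c1 = 1 := by rw [ha1, hc1]; linear_combination hdet0
  obtain ⟨ξ2, hξ2, hξ2'⟩ : ∃ ξ2 : ℤ, 0 < d0 + c1 * ξ2 ∧ (d0 + c1 * ξ2) % 4 = 3 := by
    refine ⟨c1 * (3 - d0) + 4 * c1 * (d0 * d0 + 1), ?_, ?_⟩
    · have h1 : 1 ≤ c1 * c1 := by
        have : c1 ≠ 0 := by rintro rfl; simp at hξ1
        nlinarith [mul_self_pos.mpr this]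
      have h2 : d0 + c1 * (c1 * (3 - d0) + 4 * c1 * (d0 * d0 + 1)) =
          d0 + (c1 * c1) * (4 * (d0 * d0) - d0 + 7) := by ring
      rw [h2]
      nlinarith [mul_self_nonneg (d0 - 1), mul_self_nonneg d0, mul_self_nonneg (d0 + 1)]
    · obtain ⟨m, hm⟩ : ∃ m, c1 = 2 * m + 1 := ⟨c1 / 2, by omega⟩
      rw [hm]
      have : d0 + (2*m+1) * ((2*m+1) * (3 - d0) + 4 * (2*m+1) * (d0 * d0 + 1)) =
        4 * ((m * m + m) * (3 - d0) + (2*m+1)*(2*m+1) * (d0 * d0 + 1)) + 3 := by ring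
      rw [this]; omega
  exact ⟨ξ1, ξ2, a1, b0 + a1 * ξ2, c1, d0 + c1 * ξ2, hc1, ha1, rfl, rfl,
    by linear_combination hdet1, hξ2, hξ2'⟩

/-- The first prime, in a prescribed class modulo `m`. -/
theorem first_prime (c : ℤ) (D M0 m : ℕ) (ρ : ℤ) (hD4 : D % 4 = 3) (hcD : IsCoprime c (D : ℤ))
    (hm : IsCoprime ((4 * D : ℕ) : ℤ) (m : ℤ)) (hm0 : m ≠ 0) (hρ : IsCoprime ρ (m : ℤ)) :
    ∃ (ε ξ : ℤ) (P : ℕ), (ε = 1 ∨ ε = -1) ∧ P.Prime ∧ M0 < P ∧ P % 4 = 3 ∧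
      (P : ℤ) ≡ ρ [ZMOD m] ∧ c + D * ξ = ε * P ∧ (P : ℤ) ∣ (D : ℤ) ^ (P / 2) - 1 := by
  have hcop : Int.gcd c (D : ℤ) = 1 := by
    rwa [← Int.isCoprime_iff_gcd_eq_one]
  have hDodd : Odd D := by rw [Nat.odd_iff]; omega
  obtain ⟨ε, hε, hε2⟩ : ∃ ε : ℤ, jacobiSym (ε * c) D = -1 ∧ (ε = 1 ∨ ε = -1) := by
    rcases jacobiSym.eq_one_or_neg_one (a := c) (b := D) hcop with h | h
    · refine ⟨-1, ?_, Or.inr rfl⟩
      rw [jacobiSym.mul_left, h, jacobiSym.at_neg_one hDodd, ZMod.χ₄_nat_three_mod_four hD4]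
      norm_num
    · exact ⟨1, by rw [one_mul, h], Or.inl rfl⟩
  have hεε : ε * ε = 1 := by rcases hε2 with h | h <;> rw [h] <;> norm_num
  obtain ⟨r, hr⟩ : ∃ r : ℤ, r = ε * c + D * (ε * c - 3) := ⟨_, rfl⟩
  have hr4 : r % 4 = 3 := by
    obtain ⟨m, hm⟩ : ∃ m : ℤ, (D : ℤ) = 4 * m + 3 := ⟨(D : ℤ) / 4, by omega⟩
    rw [hr, hm]
    have : ε * c + (4 * m + 3) * (ε * c - 3) = 4 * (ε * c + m * (ε * c - 3) - 3) + 3 := by ring
    rw [this]; omega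
  have hrD : IsCoprime r (D : ℤ) := by
    have h1 : IsCoprime (ε * c) (D : ℤ) := by
      rcases hε2 with h | h
      · rw [h, one_mul]; exact hcD
      · rw [h, neg_one_mul]; exact hcD.neg_left
    rw [hr]
    exact IsCoprime.add_mul_left_left h1 _
  have hr4' : IsCoprime r (4 : ℤ) := ⟨-1, r / 4 + 1, by omega⟩
  have hcop2 : IsCoprime r ((4 * D : ℕ) : ℤ) := by
    push_cast
    exact hr4'.mul_right hrD
  obtain ⟨x, y, hxy⟩ := hm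
  obtain ⟨r', hr'⟩ : ∃ r' : ℤ, r' = r + ((4 * D : ℕ) : ℤ) * (x * (ρ - r)) := ⟨_, rfl⟩
  have hr'm : r' = ρ + (m : ℤ) * (-(y * (ρ - r))) := by
    rw [hr']; linear_combination (ρ - r) * hxy
  have hcop3 : IsCoprime r' ((4 * D * m : ℕ) : ℤ) := by
    push_cast
    refine IsCoprime.mul_right ?_ ?_
    · rw [hr']
      have := IsCoprime.add_mul_left_left hcop2 (x * (ρ - r))
      push_cast at this ⊢
      exact this
    · rw [hr'm]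
      exact IsCoprime.add_mul_left_left hρ _
  obtain ⟨P, hPgt, hPp, hPr⟩ := Nat.forall_exists_prime_gt_and_zmodEq (M0 + 3) (q := 4 * D * m)
    (a := r') (Nat.mul_ne_zero (Nat.mul_ne_zero (by norm_num) (by omega)) hm0) hcop3
  have hP4D : (P : ℤ) ≡ r [ZMOD ((4 * D : ℕ) : ℤ)] := by
    have h1 : (P : ℤ) ≡ r' [ZMOD ((4 * D : ℕ) : ℤ)] :=
      hPr.of_dvd (by push_cast; exact Dvd.intro _ rfl)
    refine h1.trans ?_
    rw [hr']
    exact Int.modEq_iff_dvd.mpr ⟨-(x * (ρ - r)), by ring⟩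
  obtain ⟨w, hw⟩ : ∃ w : ℤ, (P : ℤ) = r + 4 * D * w := by
    obtain ⟨w, hw⟩ := hP4D.symm.dvd
    refine ⟨w, ?_⟩
    push_cast at hw
    linear_combination hw
  have hP4 : P % 4 = 3 := by
    have : (P : ℤ) % 4 = 3 := by
      rw [hw, show r + 4 * D * w = r + 4 * (D * w) by ring]; omega
    omega
  refine ⟨ε, c - 3 * ε + 4 * ε * w, P, hε2, hPp, by omega, hP4, ?_, ?_, ?_⟩
  · have h1 : (P : ℤ) ≡ r' [ZMOD (m : ℤ)] :=
      hPr.of_dvd (by push_cast; exact Dvd.intro_left _ rfl)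
    refine h1.trans ?_
    rw [hr'm]
    simp [Int.ModEq]
  · rw [hw, hr]
    linear_combination -(c + D * c) * hεε
  · have : Fact P.Prime := ⟨hPp⟩
    have e1 : jacobiSym (D : ℤ) P = 1 := by
      rw [jacobiSym.quadratic_reciprocity_three_mod_four hD4 hP4]
      have : jacobiSym (P : ℤ) D = jacobiSym (ε * c) D := by
        apply jacobiSym.mod_left'
        rw [hw, hr, show ε * c + D * (ε * c - 3) + 4 * D * w = ε * c + D * (ε * c - 3 + 4 * w) by ring]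
        exact Int.add_mul_emod_self_left _ _ _
      rw [this, hε]; norm_num
    have e3 := legendreSym.eq_pow P (D : ℤ)
    rw [jacobiSym.legendreSym.to_jacobiSym, e1] at e3
    rw [← ZMod.intCast_zmod_eq_zero_iff_dvd]
    push_cast
    rw [show ((D : ℕ) : ZMod P) = (((D : ℕ) : ℤ) : ZMod P) by push_cast; rfl, ← e3]; simp

end Pool.Agent.Lib.MP_efa98f_al
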